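import Mathlib

/-!
# Weil polynomials over the prime field: the two families of coordinates

`dPoly p n` is the polynomial with `D_n(x + p/x) = x^n + (p/x)^n`; `hPoly` is the real
polynomial and `wPoly` the Weil polynomial `x^g h(x + p/x)`.
-/

open Polynomial Finset

namespace Pool.Agent.MP_e32a7e_nt

/-- The polynomials `D_n` with `D_n(x + p/x) = x^n + (p/x)^n`. -/
noncomputable def dPoly (p : ℤ) : ℕ → ℤ[X]
  | 0 => 2
  | 1 => X
  | (n + 2) => X * dPoly p (n + 1) - C p * dPoly p n

/-- The real polynomial with coordinates `b` in the basis `D_g, …, D_1, 1`. -/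
noncomputable def hPoly (p : ℤ) (g : ℕ) (b : ℕ → ℤ) : ℤ[X] :=
  ∑ i ∈ range g, C (b i) * dPoly p (g - i) + C (b g)

/-- The Weil polynomial with coefficients `b`. -/
noncomputable def wPoly (p : ℤ) (g : ℕ) (b : ℕ → ℤ) : ℤ[X] :=
  ∑ i ∈ range g, C (b i) * (X ^ (2 * g - i) + C (p ^ (g - i)) * X ^ i) + C (b g) * X ^ g

lemma dPoly_zero (p : ℤ) : dPoly p 0 = 2 := rfl
lemma dPoly_one (p : ℤ) : dPoly p 1 = X := rfl
lemma dPoly_add_two (p : ℤ) (n : ℕ) :
    dPoly p (n + 2) = X * dPoly p (n + 1) - C p * dPoly p n := rfl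

section eval

variable {F : Type*} [Field F]

lemma dPoly_eval (p : ℤ) (x : F) (hx : x ≠ 0) (n : ℕ) :
    aeval (x + p / x) (dPoly p n) = x ^ n + (p / x) ^ n := by
  induction n using Nat.strong_induction_on with
  | _ n ih =>
    match n with
    | 0 => rw [dPoly_zero, map_ofNat]; norm_num
    | 1 => simp [dPoly]
    | (m + 2) =>
      rw [dPoly_add_two, map_sub, map_mul, map_mul, ih (m + 1) (by omega), ih m (by omega)]
      simp only [aeval_X, aeval_C, algebraMap_int_eq, Int.coe_castRingHom]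
      have h : (x * (p / x) : F) = p := by field_simp
      generalize (p / x : F) = y at h ⊢
      rw [← h]
      ring

lemma wPoly_eval (p : ℤ) (g : ℕ) (b : ℕ → ℤ) (x : F) (hx : x ≠ 0) :
    aeval x (wPoly p g b) = x ^ g * aeval (x + p / x) (hPoly p g b) := by
  unfold wPoly hPoly
  simp only [map_add, map_sum, map_mul, aeval_C, map_pow, aeval_X, algebraMap_int_eq,
    Int.coe_castRingHom, mul_add, mul_sum]
  congr 1
  · apply sum_congr rfl
    intro i hi
    have hi' : i < g := mem_range.mp hi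
    rw [dPoly_eval p x hx (g - i)]
    have h1 : x ^ (2 * g - i) = x ^ g * x ^ (g - i) := by
      rw [← pow_add]; congr 1; omega
    have h2 : x ^ g = x ^ i * x ^ (g - i) := by
      rw [← pow_add]; congr 1; omega
    have h3 : (x ^ (g - i) * (p / x) ^ (g - i) : F) = p ^ (g - i) := by
      rw [← mul_pow]; congr 1; field_simp
    rw [← h3, h1, h2]
    ring
  · ring

end eval

lemma dPoly_natDegree_le (p : ℤ) (n : ℕ) : (dPoly p n).natDegree ≤ n := by
  induction n using Nat.strong_induction_on with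
  | _ n ih =>
    match n with
    | 0 => simp [dPoly]
    | 1 => simp [dPoly]
    | (m + 2) =>
      rw [dPoly_add_two]
      refine (natDegree_sub_le _ _).trans (max_le ?_ ?_)
      · refine natDegree_mul_le.trans ?_
        have := ih (m + 1) (by omega)
        rw [natDegree_X]
        omega
      · refine natDegree_mul_le.trans ?_
        have := ih m (by omega)
        rw [natDegree_C]
        omega

lemma dPoly_coeff_self (p : ℤ) (n : ℕ) (hn : 1 ≤ n) : (dPoly p n).coeff n = 1 := by
  induction n using Nat.strong_induction_on with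
  | _ n ih =>
    match n with
    | 0 => omega
    | 1 => simp [dPoly]
    | (m + 2) =>
      rw [dPoly_add_two, coeff_sub, coeff_X_mul, ih (m + 1) (by omega) (by omega), coeff_C_mul,
        coeff_eq_zero_of_natDegree_lt (lt_of_le_of_lt (dPoly_natDegree_le p m) (by omega))]
      simp

lemma dPoly_monic (p : ℤ) (n : ℕ) (hn : 1 ≤ n) : (dPoly p n).Monic :=
  monic_of_natDegree_le_of_coeff_eq_one n (dPoly_natDegree_le p n) (dPoly_coeff_self p n hn)

lemma dPoly_natDegree (p : ℤ) (n : ℕ) : (dPoly p n).natDegree = n := by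
  rcases Nat.eq_zero_or_pos n with rfl | hn
  · simp [dPoly]
  · apply le_antisymm (dPoly_natDegree_le p n)
    apply le_natDegree_of_ne_zero
    rw [dPoly_coeff_self p n hn]
    exact one_ne_zero

lemma hPoly_natDegree_le (p : ℤ) (g : ℕ) (b : ℕ → ℤ) : (hPoly p g b).natDegree ≤ g := by
  unfold hPoly
  refine (natDegree_add_le _ _).trans (max_le ?_ ?_)
  · apply natDegree_sum_le_of_forall_le
    intro i hi
    refine natDegree_mul_le.trans ?_
    rw [natDegree_C, dPoly_natDegree]
    omega
  · rw [natDegree_C]; omega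

lemma hPoly_coeff_self (p : ℤ) (g : ℕ) (b : ℕ → ℤ) (hg : 1 ≤ g) :
    (hPoly p g b).coeff g = b 0 := by
  unfold hPoly
  rw [coeff_add, finsetSum_coeff, coeff_C, if_neg (by omega), add_zero,
    sum_eq_single 0]
  · rw [coeff_C_mul, Nat.sub_zero, dPoly_coeff_self p g hg, mul_one]
  · intro i hi h0
    rw [coeff_C_mul, coeff_eq_zero_of_natDegree_lt, mul_zero]
    rw [dPoly_natDegree]
    have := mem_range.mp hi
    omega
  · intro h
    exact absurd (mem_range.mpr (by omega)) h

lemma hPoly_monic (p : ℤ) (g : ℕ) (b : ℕ → ℤ) (hg : 1 ≤ g) (hb : b 0 = 1) :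
    (hPoly p g b).Monic :=
  monic_of_natDegree_le_of_coeff_eq_one g (hPoly_natDegree_le p g b)
    (by rw [hPoly_coeff_self p g b hg, hb])

lemma hPoly_natDegree (p : ℤ) (g : ℕ) (b : ℕ → ℤ) (hg : 1 ≤ g) (hb : b 0 = 1) :
    (hPoly p g b).natDegree = g := by
  apply le_antisymm (hPoly_natDegree_le p g b)
  apply le_natDegree_of_ne_zero
  rw [hPoly_coeff_self p g b hg, hb]
  exact one_ne_zero

/-- The coefficients of the Weil polynomial. -/
lemma wPoly_coeff (p : ℤ) (g : ℕ) (b : ℕ → ℤ) (k : ℕ) :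
    (wPoly p g b).coeff k =
      if k < g then p ^ (g - k) * b k else if k ≤ 2 * g then b (2 * g - k) else 0 := by
  unfold wPoly
  rw [coeff_add, finsetSum_coeff, coeff_C_mul, coeff_X_pow]
  simp only [coeff_C_mul, coeff_add, coeff_X_pow, mul_add, sum_add_distrib]
  have h1 : ∑ i ∈ range g, b i * (if k = 2 * g - i then (1 : ℤ) else 0) =
      if g < k ∧ k ≤ 2 * g then b (2 * g - k) else 0 := by
    split_ifs with h
    · rw [sum_eq_single (2 * g - k)]
      · rw [if_pos (by omega), mul_one]
      · intro i hi hne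
        have := mem_range.mp hi
        rw [if_neg (by omega), mul_zero]
      · intro hn
        exact absurd (mem_range.mpr (by omega)) hn
    · apply sum_eq_zero
      intro i hi
      have := mem_range.mp hi
      rw [if_neg (by omega), mul_zero]
  have h2 : ∑ i ∈ range g, b i * (p ^ (g - i) * (if k = i then (1 : ℤ) else 0)) =
      if k < g then p ^ (g - k) * b k else 0 := by
    split_ifs with h
    · rw [sum_eq_single k]
      · rw [if_pos rfl, mul_one, mul_comm]
      · intro i hi hne
        rw [if_neg (fun h => hne h.symm), mul_zero, mul_zero]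
      · intro hn
        exact absurd (mem_range.mpr h) hn
    · apply sum_eq_zero
      intro i hi
      have := mem_range.mp hi
      rw [if_neg (by omega), mul_zero, mul_zero]
  rw [h1, h2]
  rcases lt_trichotomy k g with h | h | h
  · rw [if_neg (by omega), if_pos h, if_neg (by omega), if_pos h]
    ring
  · subst h
    rw [if_neg (by omega), if_neg (by omega), if_pos rfl, if_neg (by omega), if_pos (by omega)]
    have : 2 * k - k = k := by omega
    rw [this]
    ring
  · rw [if_neg (by omega : ¬ k < g), if_neg (by omega : ¬ k = g), if_neg (by omega : ¬ k < g)]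
    by_cases h' : k ≤ 2 * g
    · rw [if_pos ⟨h, h'⟩, if_pos h']
      ring
    · rw [if_neg (by tauto), if_neg h']
      ring

lemma wPoly_natDegree_le (p : ℤ) (g : ℕ) (b : ℕ → ℤ) : (wPoly p g b).natDegree ≤ 2 * g := by
  rw [natDegree_le_iff_coeff_eq_zero]
  intro k hk
  rw [wPoly_coeff, if_neg (by omega), if_neg (by omega)]

lemma wPoly_coeff_top (p : ℤ) (g : ℕ) (b : ℕ → ℤ) (hg : 1 ≤ g) :
    (wPoly p g b).coeff (2 * g) = b 0 := by
  rw [wPoly_coeff, if_neg (by omega), if_pos le_rfl, Nat.sub_self]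

lemma wPoly_monic (p : ℤ) (g : ℕ) (b : ℕ → ℤ) (hg : 1 ≤ g) (hb : b 0 = 1) :
    (wPoly p g b).Monic :=
  monic_of_natDegree_le_of_coeff_eq_one (2 * g) (wPoly_natDegree_le p g b)
    (by rw [wPoly_coeff_top p g b hg, hb])

lemma wPoly_natDegree (p : ℤ) (g : ℕ) (b : ℕ → ℤ) (hg : 1 ≤ g) (hb : b 0 = 1) :
    (wPoly p g b).natDegree = 2 * g := by
  apply le_antisymm (wPoly_natDegree_le p g b)
  apply le_natDegree_of_ne_zero
  rw [wPoly_coeff_top p g b hg, hb]
  exact one_ne_zero

lemma wPoly_eval_zero (p : ℤ) (g : ℕ) (b : ℕ → ℤ) (hg : 1 ≤ g) (hb : b 0 = 1) :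
    (wPoly p g b).coeff 0 = p ^ g := by
  rw [wPoly_coeff, if_pos (by omega), hb, Nat.sub_zero, mul_one]

/-- A zero of the Weil polynomial gives a zero of the real polynomial. -/
lemma root_transfer {F : Type*} [Field F] [CharZero F] (p : ℤ) (hp : p ≠ 0) (g : ℕ) (b : ℕ → ℤ)
    (hg : 1 ≤ g) (hb : b 0 = 1) (z : F) (hz : aeval z (wPoly p g b) = 0) :
    z ≠ 0 ∧ aeval (z + p / z) (hPoly p g b) = 0 := by
  have hz0 : z ≠ 0 := by
    rintro rfl
    have h0 := coeff_zero_eq_aeval_zero' (R := ℤ) (A := F) (wPoly p g b)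
    rw [hz, wPoly_eval_zero p g b hg hb] at h0
    have : ((p ^ g : ℤ) : F) = 0 := by simpa using h0
    rw [Int.cast_eq_zero] at this
    exact hp (pow_eq_zero_iff (by omega) |>.mp this)
  refine ⟨hz0, ?_⟩
  rw [wPoly_eval p g b z hz0] at hz
  exact (mul_eq_zero.mp hz).resolve_left (pow_ne_zero _ hz0)

end Pool.Agent.MP_e32a7e_nt
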