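import Pool.Agent.Lib.MP_e32a7e_nt.Basic

/-!
# From the real polynomial to the Weil polynomial: irreducibility
-/

open Polynomial Finset ComplexConjugate IntermediateField

namespace Pool.Agent.MP_e32a7e_nt

/-- If the real polynomial is irreducible and the zeros of the Weil polynomial are non-real of
absolute value `√p`, then the Weil polynomial is the minimal polynomial of each of its zeros. -/
lemma minpoly_of_hPoly (p : ℕ) (hp : 0 < p) (g : ℕ) (hg : 1 ≤ g) (b : ℕ → ℤ) (hb : b 0 = 1)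
    (hirr : Irreducible (hPoly p g b)) (z : ℂ) (hz : aeval z (wPoly p g b) = 0)
    (hn : ‖z‖ = √p) (him : z.im ≠ 0) :
    minpoly ℚ z = (wPoly p g b).map (algebraMap ℤ ℚ) ∧ (minpoly ℚ z).natDegree = 2 * g := by
  obtain ⟨hz0, hz1⟩ := root_transfer (p : ℤ) (by exact_mod_cast hp.ne') g b hg hb z hz
  set t : ℂ := z + ((p : ℤ) : ℂ) / z with ht
  have hconj : ((p : ℤ) : ℂ) / z = conj z := by
    rw [div_eq_iff hz0, mul_comm, Complex.mul_conj, Complex.normSq_eq_norm_sq, hn,
      Real.sq_sqrt (by positivity)]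
    push_cast
    rfl
  have htr : t = ((2 * z.re : ℝ) : ℂ) := by
    rw [ht, hconj, Complex.add_conj]
  -- the degree of `t`
  have hmon := hPoly_monic (p : ℤ) g b hg hb
  have hmt : minpoly ℚ t = (hPoly p g b).map (algebraMap ℤ ℚ) := by
    symm
    apply minpoly.eq_of_irreducible_of_monic
    · exact (hmon.irreducible_iff_irreducible_map_fraction_map (K := ℚ)).mp hirr
    · rw [aeval_map_algebraMap]
      exact hz1
    · exact hmon.map _
  have hdt : (minpoly ℚ t).natDegree = g := by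
    rw [hmt, hmon.natDegree_map, hPoly_natDegree (p : ℤ) g b hg hb]
  have hwm := wPoly_monic (p : ℤ) g b hg hb
  have hzint : IsIntegral ℚ z := by
    refine ⟨(wPoly p g b).map (algebraMap ℤ ℚ), hwm.map _, ?_⟩
    rw [← aeval_def, aeval_map_algebraMap]
    exact hz
  have htint : IsIntegral ℚ t := by
    by_contra h
    rw [minpoly.eq_zero h, natDegree_zero] at hdt
    omega
  have hdvd : minpoly ℚ z ∣ (wPoly p g b).map (algebraMap ℤ ℚ) := by
    apply minpoly.dvd
    rw [aeval_map_algebraMap]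
    exact hz
  have hwd : ((wPoly p g b).map (algebraMap ℤ ℚ)).natDegree = 2 * g := by
    rw [hwm.natDegree_map, wPoly_natDegree (p : ℤ) g b hg hb]
  have hle : (minpoly ℚ z).natDegree ≤ 2 * g := by
    rw [← hwd]
    exact natDegree_le_of_dvd hdvd (hwm.map _).ne_zero
  have hfz : Module.finrank ℚ ℚ⟮z⟯ = (minpoly ℚ z).natDegree := adjoin.finrank hzint
  have hft : Module.finrank ℚ ℚ⟮t⟯ = g := by rw [adjoin.finrank htint, hdt]
  have hsub : ℚ⟮t⟯ ≤ ℚ⟮z⟯ := by
    rw [adjoin_simple_le_iff, ht]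
    have hzmem := mem_adjoin_simple_self ℚ z
    apply add_mem hzmem
    apply div_mem _ hzmem
    exact intCast_mem _ _
  have : FiniteDimensional ℚ ℚ⟮z⟯ := adjoin.finiteDimensional hzint
  have hdiv : g ∣ (minpoly ℚ z).natDegree := by
    rw [← hfz, ← hft]
    exact finrank_dvd_of_le_right hsub
  have hpos : 0 < (minpoly ℚ z).natDegree := minpoly.natDegree_pos hzint
  have hne : (minpoly ℚ z).natDegree ≠ g := by
    intro heq
    have h1 : ℚ⟮t⟯ = ℚ⟮z⟯ := eq_of_le_of_finrank_eq hsub (by rw [hft, hfz, heq])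
    have h2 : z ∈ ℚ⟮t⟯ := by
      rw [h1]
      exact mem_adjoin_simple_self ℚ z
    have h3 : ℚ⟮t⟯ ≤ (IsScalarTower.toAlgHom ℚ ℝ ℂ).fieldRange := by
      rw [adjoin_simple_le_iff]
      exact ⟨2 * z.re, by rw [htr]; rfl⟩
    obtain ⟨x, hx⟩ := h3 h2
    apply him
    rw [← hx]
    exact Complex.ofReal_im x
  have hfin : (minpoly ℚ z).natDegree = 2 * g := by
    obtain ⟨k, hk⟩ := hdiv
    have hk1 : k ≤ 2 := by
      by_contra h
      have : g * 3 ≤ g * k := Nat.mul_le_mul_left g (by omega)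
      omega
    interval_cases k
    · omega
    · omega
    · omega
  refine ⟨?_, hfin⟩
  exact (eq_of_monic_of_dvd_of_natDegree_le (minpoly.monic hzint) (hwm.map _) hdvd
    (by rw [hwd, hfin])).symm

end Pool.Agent.MP_e32a7e_nt
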