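import Pool.Agent.Lib.MP_e32a7e_nt.Unity

/-!
# Powers of a Weil number keep their degree
-/

open Polynomial Finset IntermediateField

namespace Pool.Agent.MP_e32a7e_nt

/-- Roots of unity in the field generated by a zero of `P` when `P(c) ≡ 6 mod 8` or `mod 9`. -/
lemma unity_adjoin (P : ℤ[X]) (hP : P.Monic) (z : ℂ) (hmin : minpoly ℚ z = P.map (algebraMap ℤ ℚ))
    (heven : Even P.natDegree) (c : ℤ) (hc : P.eval c % 8 = 6 ∨ P.eval c % 9 = 6)
    (ξ : ℂ) (hξ : ξ ∈ ℚ⟮z⟯) (m : ℕ) (hm : 1 ≤ m) (h1 : ξ ^ m = 1) : ξ = 1 ∨ ξ = -1 := by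
  have hzq : IsIntegral ℚ z := by
    by_contra h
    rw [minpoly.eq_zero h] at hmin
    exact (hP.map (algebraMap ℤ ℚ)).ne_zero hmin.symm
  have hz : IsIntegral ℤ z := by
    refine ⟨P, hP, ?_⟩
    have := minpoly.aeval ℚ z
    rw [hmin, aeval_map_algebraMap] at this
    rwa [aeval_def] at this
  set w : ℂ := z - algebraMap ℚ ℂ (c : ℚ) with hw
  have hwz : IsIntegral ℤ w := by
    apply hz.sub
    have : algebraMap ℚ ℂ (c : ℚ) = algebraMap ℤ ℂ c := by simp
    rw [this]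
    exact isIntegral_algebraMap
  have hwq : IsIntegral ℚ w := hwz.tower_top
  have hKeq : ℚ⟮w⟯ = ℚ⟮z⟯ := by
    apply le_antisymm
    · rw [adjoin_simple_le_iff]
      exact sub_mem (mem_adjoin_simple_self ℚ z) (IntermediateField.algebraMap_mem _ _)
    · rw [adjoin_simple_le_iff]
      have : z = w + algebraMap ℚ ℂ (c : ℚ) := by rw [hw]; ring
      rw [this]
      exact add_mem (mem_adjoin_simple_self ℚ w) (IntermediateField.algebraMap_mem _ _)
  have hfd : FiniteDimensional ℚ ℚ⟮w⟯ := adjoin.finiteDimensional hwq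
  have hnf : NumberField ℚ⟮w⟯ := ⟨⟩
  -- the norm of the generator
  have hmw : minpoly ℚ w = (P.map (algebraMap ℤ ℚ)).comp (X + C (c : ℚ)) := by
    rw [hw, minpoly.sub_algebraMap, hmin]
  have hdim : (adjoin.powerBasis hwq).dim = P.natDegree := by
    rw [adjoin.powerBasis_dim, hmw, natDegree_comp, natDegree_X_add_C, mul_one,
      hP.natDegree_map]
  have hnorm : Algebra.norm ℚ (AdjoinSimple.gen ℚ w) = ((P.eval c : ℤ) : ℚ) := by
    have h2 := Algebra.PowerBasis.norm_gen_eq_coeff_zero_minpoly (adjoin.powerBasis hwq)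
    rw [adjoin.powerBasis_gen, hdim, heven.neg_one_pow, one_mul, minpoly_gen, hmw,
      coeff_zero_eq_eval_zero, eval_comp, eval_add, eval_X, eval_C, zero_add] at h2
    have hinst : (DivisionRing.toRatAlgebra : Algebra ℚ ℚ⟮w⟯) = ℚ⟮w⟯.algebra' :=
      Subsingleton.elim _ _
    rw [hinst, h2, eval_map]
    have h3 : (c : ℚ) = algebraMap ℤ ℚ c := by simp
    rw [h3, eval₂_at_apply]
    simp
  have hgi : IsIntegral ℤ (AdjoinSimple.gen ℚ w) := by
    rw [← isIntegral_algebraMap_iff (algebraMap ℚ⟮w⟯ ℂ).injective, AdjoinSimple.algebraMap_gen]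
    exact hwz
  rw [← hKeq] at hξ
  have hres := roots_of_unity ℚ⟮w⟯ (AdjoinSimple.gen ℚ w) hgi (P.eval c) hnorm hc ⟨ξ, hξ⟩ m hm
    (Subtype.ext h1)
  rcases hres with h | h
  · left
    exact congrArg Subtype.val h
  · right
    exact congrArg Subtype.val h

/-- The degree of `z` over `ℚ(z^n)` and the product of its conjugates. -/
lemma exists_pow_mem (z : ℂ) (hz0 : z ≠ 0) (hzq : IsIntegral ℚ z)
    (hU : ∀ ξ ∈ ℚ⟮z⟯, ∀ m : ℕ, 1 ≤ m → ξ ^ m = 1 → ξ = 1 ∨ ξ = -1) (n : ℕ) (hn : 1 ≤ n) :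
    z ^ (minpoly ℚ⟮z ^ n⟯ z).natDegree ∈ ℚ⟮z ^ n⟯ := by
  set K' := ℚ⟮z ^ n⟯ with hK'
  have hle : K' ≤ ℚ⟮z⟯ := by
    rw [hK', adjoin_simple_le_iff]
    exact pow_mem (mem_adjoin_simple_self ℚ z) n
  have hz' : IsIntegral K' z := hzq.tower_top
  set M := minpoly K' z with hM
  have hMm : M.Monic := minpoly.monic hz'
  set k := M.natDegree with hk
  -- all roots of `M` are roots of unity times `z`
  have hdvd : M ∣ X ^ n - C (⟨z ^ n, mem_adjoin_simple_self ℚ (z ^ n)⟩ : K') := by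
    apply minpoly.dvd
    rw [map_sub, map_pow, aeval_X, aeval_C]
    exact sub_self _
  have hroots : ∀ ρ ∈ (M.map (algebraMap K' ℂ)).roots, ρ ^ n = z ^ n := by
    intro ρ hρ
    have h1 := (mem_roots'.mp hρ).2
    rw [IsRoot.def, eval_map_algebraMap] at h1
    obtain ⟨Q, hQ⟩ := hdvd
    have h2 := congrArg (aeval ρ) hQ
    rw [map_mul, h1, zero_mul, map_sub, map_pow, aeval_X, aeval_C] at h2
    exact sub_eq_zero.mp h2
  have hsplit : (M.map (algebraMap K' ℂ)).Splits := IsAlgClosed.splits _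
  have hcard : Multiset.card (M.map (algebraMap K' ℂ)).roots = k := by
    rw [splits_iff_card_roots.mp hsplit, hMm.natDegree_map]
  have hprod : (M.map (algebraMap K' ℂ)).roots.prod ^ n = (z ^ k) ^ n := by
    have h1 : (M.map (algebraMap K' ℂ)).roots.prod ^ n =
        ((M.map (algebraMap K' ℂ)).roots.map (fun ρ => ρ ^ n)).prod := by
      rw [Multiset.prod_map_pow, Multiset.map_id']
    rw [h1, Multiset.map_congr rfl hroots, Multiset.map_const', Multiset.prod_replicate, hcard]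
    ring
  have hmem : (M.map (algebraMap K' ℂ)).roots.prod ∈ K' := by
    have h1 := hsplit.coeff_zero_eq_prod_roots_of_monic (hMm.map _)
    have h2 : (M.map (algebraMap K' ℂ)).roots.prod =
        (-1) ^ (M.map (algebraMap K' ℂ)).natDegree * (M.map (algebraMap K' ℂ)).coeff 0 := by
      rw [h1, ← mul_assoc, ← mul_pow]
      simp
    rw [h2, coeff_map]
    apply mul_mem
    · exact pow_mem (neg_mem (one_mem _)) _
    · exact (M.coeff 0).2
  set ξ := (M.map (algebraMap K' ℂ)).roots.prod / z ^ k with hξ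
  have hzk : z ^ k ≠ 0 := pow_ne_zero k hz0
  have hξn : ξ ^ n = 1 := by
    rw [hξ, div_pow, hprod, div_self (pow_ne_zero n hzk)]
  have hξmem : ξ ∈ ℚ⟮z⟯ := by
    rw [hξ]
    exact div_mem (hle hmem) (pow_mem (mem_adjoin_simple_self ℚ z) k)
  have heq : z ^ k * ξ = (M.map (algebraMap K' ℂ)).roots.prod := by
    rw [hξ, mul_div_cancel₀ _ hzk]
  rcases hU ξ hξmem n hn hξn with h | h
  · rw [h, mul_one] at heq
    rw [heq]
    exact hmem
  · rw [h, mul_neg, mul_one] at heq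
    have : z ^ k = - (M.map (algebraMap K' ℂ)).roots.prod := by rw [← heq, neg_neg]
    rw [this]
    exact neg_mem hmem

/-- **Powers keep the degree.** -/
theorem natDegree_minpoly_pow (P : ℤ[X]) (hP : P.Monic) (z : ℂ)
    (hmin : minpoly ℚ z = P.map (algebraMap ℤ ℚ)) (heven : Even P.natDegree) (hz0 : z ≠ 0)
    (c : ℤ) (hc : P.eval c % 8 = 6 ∨ P.eval c % 9 = 6)
    (hexp : ∀ k : ℕ, (∀ i, P.coeff i ≠ 0 → k ∣ i) → k = 1) (n : ℕ) (hn : 1 ≤ n) :
    (minpoly ℚ (z ^ n)).natDegree = (minpoly ℚ z).natDegree := by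
  have hzq : IsIntegral ℚ z := by
    by_contra h
    rw [minpoly.eq_zero h] at hmin
    exact (hP.map (algebraMap ℤ ℚ)).ne_zero hmin.symm
  have hU := unity_adjoin P hP z hmin heven c hc
  have hmem := exists_pow_mem z hz0 hzq hU n hn
  set K' := ℚ⟮z ^ n⟯ with hK'
  set k := (minpoly K' z).natDegree with hk
  have hz' : IsIntegral K' z := hzq.tower_top
  have hznq : IsIntegral ℚ (z ^ n) := hzq.pow n
  have hkpos : 0 < k := minpoly.natDegree_pos hz'
  have hle : K' ≤ ℚ⟮z⟯ := by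
    rw [hK', adjoin_simple_le_iff]
    exact pow_mem (mem_adjoin_simple_self ℚ z) n
  have hfd : FiniteDimensional ℚ ℚ⟮z⟯ := adjoin.finiteDimensional hzq
  have hfd' : FiniteDimensional ℚ K' := adjoin.finiteDimensional hznq
  -- tower
  have htower : (minpoly ℚ (z ^ n)).natDegree * k ≤ (minpoly ℚ z).natDegree := by
    rw [← adjoin.finrank hzq, ← adjoin.finrank hznq, hk, ← adjoin.finrank hz',
      Module.finrank_mul_finrank ℚ ℚ⟮z ^ n⟯ ℚ⟮z ^ n⟯⟮z⟯]
    have h1 : ℚ⟮z ^ n⟯⟮z⟯ ≤ extendScalars hle := by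
      rw [adjoin_simple_le_iff]
      exact mem_adjoin_simple_self ℚ z
    let f : ℚ⟮z ^ n⟯⟮z⟯ →+ ℚ⟮z⟯ :=
      { toFun := fun x => ⟨x.1, h1 x.2⟩
        map_zero' := rfl
        map_add' := fun _ _ => rfl }
    apply LinearMap.finrank_le_finrank_of_injective (f := f.toRatLinearMap)
    intro x y hxy
    apply Subtype.ext
    exact congrArg (fun v : ℚ⟮z⟯ => v.1) hxy
  -- `z ^ k` lies in `K'`
  have hle2 : ℚ⟮z ^ k⟯ ≤ K' := by
    rw [adjoin_simple_le_iff]
    exact hmem
  have hzkq : IsIntegral ℚ (z ^ k) := hzq.pow k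
  have he : (minpoly ℚ (z ^ k)).natDegree ≤ (minpoly ℚ (z ^ n)).natDegree := by
    rw [← adjoin.finrank hzkq, ← adjoin.finrank hznq]
    exact finrank_le_of_le_right hle2
  set Q := minpoly ℚ (z ^ k) with hQ
  have hQm : Q.Monic := minpoly.monic hzkq
  have hexpd : minpoly ℚ z ∣ expand ℚ k Q := by
    apply minpoly.dvd
    rw [expand_aeval]
    exact minpoly.aeval ℚ (z ^ k)
  have hQe : (expand ℚ k Q).Monic := hQm.expand hkpos
  have hdeg : (expand ℚ k Q).natDegree ≤ (minpoly ℚ z).natDegree := by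
    rw [natDegree_expand]
    exact (Nat.mul_le_mul_right k he).trans htower
  have heq : expand ℚ k Q = minpoly ℚ z :=
    eq_of_monic_of_dvd_of_natDegree_le (minpoly.monic hzq) hQe hexpd hdeg
  -- exponents
  have hk1 : k = 1 := by
    have hco : ∀ i, P.coeff i ≠ 0 → k ∣ i := by
      intro i hi
      by_contra hnd
      have h1 := coeff_expand hkpos Q i
      rw [if_neg hnd, heq, hmin, coeff_map] at h1
      apply hi
      simpa using h1
    exact hexp k hco
  -- conclusion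
  apply le_antisymm
  · rw [hk1, mul_one] at htower
    exact htower
  · rw [← heq, natDegree_expand, hk1, mul_one]
    exact he

end Pool.Agent.MP_e32a7e_nt
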