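import Pool.Agent.Lib.MP_e32a7e_nt.Signs
import Pool.Agent.Lib.MP_e32a7e_nt.Irred
import Pool.Agent.Lib.MP_e32a7e_nt.Powers

/-!
# The general criterion
-/

open Polynomial Finset

namespace Pool.Agent.MP_e32a7e_nt

/-- There is a Weil polynomial of degree `2 g` over the prime field, of `p`-rank `f`, all of whose
zeros keep their degree under powers. -/
def Good (p g f : ℕ) : Prop :=
  ∃ P : ℤ[X], P.Monic ∧ P.natDegree = 2 * g ∧
    (∀ z : ℂ, aeval z P = 0 → ‖z‖ = √(p : ℝ)) ∧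
    (∀ z : ℂ, aeval z P = 0 → ∀ n : ℕ, 1 ≤ n → (minpoly ℚ (z ^ n)).natDegree = 2 * g) ∧
    (P.map (Int.castRingHom (ZMod p))).rootMultiplicity 0 = 2 * g - f

lemma rootMultiplicity_wPoly (p : ℕ) (g f : ℕ) (hf : f ≤ g) (b : ℕ → ℤ)
    (h1 : ¬ (p : ℤ) ∣ b f) (h2 : ∀ i, f < i → i ≤ g → (p : ℤ) ∣ b i) :
    ((wPoly p g b).map (Int.castRingHom (ZMod p))).rootMultiplicity 0 = 2 * g - f := by
  rw [rootMultiplicity_eq_natTrailingDegree']
  have hco : ∀ k, ((wPoly p g b).map (Int.castRingHom (ZMod p))).coeff k =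
      (((if k < g then (p : ℤ) ^ (g - k) * b k else if k ≤ 2 * g then b (2 * g - k) else 0 : ℤ)) :
        ZMod p) := by
    intro k
    rw [coeff_map, wPoly_coeff]
    rfl
  have hne : ((wPoly p g b).map (Int.castRingHom (ZMod p))).coeff (2 * g - f) ≠ 0 := by
    rw [hco, if_neg (by omega), if_pos (by omega)]
    have e : 2 * g - (2 * g - f) = f := by omega
    rw [e]
    intro h0
    exact h1 ((ZMod.intCast_zmod_eq_zero_iff_dvd _ _).mp h0)
  have hz : ∀ k, k < 2 * g - f →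
      ((wPoly p g b).map (Int.castRingHom (ZMod p))).coeff k = 0 := by
    intro k hk
    rw [hco]
    split_ifs with h3 h4
    · push_cast
      rw [ZMod.natCast_self, zero_pow (by omega), zero_mul]
    · rw [ZMod.intCast_zmod_eq_zero_iff_dvd]
      exact h2 _ (by omega) (by omega)
    · simp
  apply le_antisymm
  · exact natTrailingDegree_le_of_ne_zero hne
  · apply le_natTrailingDegree
    · intro h0
      rw [h0] at hne
      exact hne (coeff_zero _)
    · intro k hk
      exact hz k hk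

/-- **The criterion.** -/
theorem good_of (p : ℕ) (hp : p.Prime) (g f : ℕ) (hg : 1 ≤ g) (hf : f ≤ g) (b : ℕ → ℤ)
    (hb : b 0 = 1)
    (hloc : ∀ z : ℂ, aeval z (wPoly p g b) = 0 → ‖z‖ = √(p : ℝ) ∧ z.im ≠ 0)
    (hirr : Irreducible (hPoly p g b))
    (hunit : ∃ c : ℤ, (wPoly p g b).eval c % 8 = 6 ∨ (wPoly p g b).eval c % 9 = 6)
    (hexp : ∀ k : ℕ, (∀ i, (wPoly p g b).coeff i ≠ 0 → k ∣ i) → k = 1)
    (h1 : ¬ (p : ℤ) ∣ b f) (h2 : ∀ i, f < i → i ≤ g → (p : ℤ) ∣ b i) : Good p g f := by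
  have hmon := wPoly_monic (p : ℤ) g b hg hb
  have hdeg := wPoly_natDegree (p : ℤ) g b hg hb
  refine ⟨wPoly p g b, hmon, hdeg, fun z hz => (hloc z hz).1, ?_,
    rootMultiplicity_wPoly p g f hf b h1 h2⟩
  intro z hz n hn
  obtain ⟨hl1, hl2⟩ := hloc z hz
  obtain ⟨hmin, hd⟩ := minpoly_of_hPoly p hp.pos g hg b hb hirr z hz hl1 hl2
  obtain ⟨hz0, -⟩ := root_transfer (p : ℤ) (by exact_mod_cast hp.ne_zero) g b hg hb z hz
  obtain ⟨c, hc⟩ := hunit
  rw [natDegree_minpoly_pow (wPoly p g b) hmon z hmin (by rw [hdeg]; exact even_two_mul g) hz0 c hc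
    hexp n hn, hd]

/-- Two consecutive non-zero coefficients. -/
lemma exp_of_two {P : ℤ[X]} {m : ℕ} (hm1 : P.coeff m ≠ 0) (hm2 : P.coeff (m + 1) ≠ 0) (k : ℕ)
    (hk : ∀ i, P.coeff i ≠ 0 → k ∣ i) : k = 1 :=
  Nat.dvd_one.mp ((Nat.dvd_add_right (hk m hm1)).mp (hk (m + 1) hm2))

lemma exp_middle (p : ℕ) (g : ℕ) (hg : 1 ≤ g) (b : ℕ → ℤ) (h1 : b g ≠ 0) (h2 : b (g - 1) ≠ 0)
    (k : ℕ) (hk : ∀ i, (wPoly p g b).coeff i ≠ 0 → k ∣ i) : k = 1 := by
  apply exp_of_two (P := wPoly p g b) (m := g) _ _ k hk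
  · rw [wPoly_coeff, if_neg (lt_irrefl g), if_pos (by omega)]
    have : 2 * g - g = g := by omega
    rwa [this]
  · rw [wPoly_coeff, if_neg (by omega), if_pos (by omega)]
    have : 2 * g - (g + 1) = g - 1 := by omega
    rwa [this]

lemma wPoly_eval_one (p : ℤ) (g : ℕ) (b : ℕ → ℤ) :
    (wPoly p g b).eval 1 = (hPoly p g b).eval (p + 1) := by
  have h := wPoly_eval p g b (1 : ℚ) one_ne_zero
  rw [one_pow, one_mul, div_one] at h
  have h1 : aeval (1 : ℚ) (wPoly p g b) = (((wPoly p g b).eval 1 : ℤ) : ℚ) := by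
    have := aeval_algebraMap_apply ℚ (1 : ℤ) (wPoly p g b)
    simpa using this
  have h2 : aeval (1 + (p : ℚ)) (hPoly p g b) = (((hPoly p g b).eval (p + 1) : ℤ) : ℚ) := by
    have := aeval_algebraMap_apply ℚ (p + 1 : ℤ) (hPoly p g b)
    rw [add_comm (1 : ℚ)]
    simpa using this
  rw [h1, h2] at h
  exact_mod_cast h

lemma wPoly_eval_one_sum (p : ℤ) (g : ℕ) (b : ℕ → ℤ) :
    (wPoly p g b).eval 1 = ∑ i ∈ range g, b i * (1 + p ^ (g - i)) + b g := by
  unfold wPoly
  simp [eval_finsetSum]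

/-! ### Eisenstein at an auxiliary prime -/

lemma irreducible_of_map_eq_X_pow (q : ℕ) (hq : q.Prime) (h : ℤ[X]) (hm : h.Monic)
    (hd : 1 ≤ h.natDegree) (hmap : h.map (Int.castRingHom (ZMod q)) = X ^ h.natDegree)
    (h0 : ¬ (q ^ 2 : ℤ) ∣ h.coeff 0) : Irreducible h := by
  have hqp : Prime (q : ℤ) := Nat.prime_iff_prime_int.mp hq
  have hprime : (Ideal.span {(q : ℤ)}).IsPrime :=
    (Ideal.span_singleton_prime hqp.ne_zero).mpr hqp
  have hE : h.IsEisensteinAt (Ideal.span {(q : ℤ)}) := by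
    refine ⟨?_, ?_, ?_⟩
    · rw [hm.leadingCoeff, Ideal.mem_span_singleton]
      exact fun hdv => hqp.not_isUnit (isUnit_of_dvd_one hdv)
    · intro n hn
      rw [Ideal.mem_span_singleton, ← ZMod.intCast_zmod_eq_zero_iff_dvd]
      have h1 : ((h.coeff n : ℤ) : ZMod q) = (h.map (Int.castRingHom (ZMod q))).coeff n := by
        rw [coeff_map]; rfl
      rw [h1, hmap, coeff_X_pow, if_neg (by omega)]
    · rw [Ideal.span_singleton_pow, Ideal.mem_span_singleton]
      exact h0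
  exact hE.irreducible hprime hm.isPrimitive (by omega)

/-- The binomial pattern determines the Weil polynomial modulo `q`. -/
lemma wPoly_map_eq (p : ℤ) (q : ℕ) (g : ℕ) (b : ℕ → ℤ)
    (hpat : ∀ i ≤ g, (b i : ZMod q) =
      if Even i then (g.choose (i / 2) : ZMod q) * (p : ZMod q) ^ (i / 2) else 0) :
    (wPoly p g b).map (Int.castRingHom (ZMod q)) = (X ^ 2 + C (p : ZMod q)) ^ g := by
  have e1 : (X ^ 2 + C (p : ZMod q)) ^ g = expand (ZMod q) 2 ((X + C (p : ZMod q)) ^ g) := by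
    simp
  rw [e1]
  ext k
  rw [coeff_map, wPoly_coeff, coeff_expand (by norm_num), coeff_X_add_C_pow]
  simp only [eq_intCast]
  by_cases hk : 2 ∣ k
  · obtain ⟨j, rfl⟩ := hk
    rw [if_pos (dvd_mul_right 2 j), Nat.mul_div_cancel_left j (by norm_num)]
    split_ifs with h1 h2
    · have h3 := hpat (2 * j) h1.le
      rw [if_pos (even_two_mul j), Nat.mul_div_cancel_left j (by norm_num)] at h3
      push_cast
      rw [h3]
      have h4 : (p : ZMod q) ^ (g - j) = (p : ZMod q) ^ (g - 2 * j) * (p : ZMod q) ^ j := by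
        rw [← pow_add]; congr 1; omega
      rw [h4]
      ring
    · have h3 := hpat (2 * g - 2 * j) (by omega)
      have h5 : 2 * g - 2 * j = 2 * (g - j) := by omega
      rw [h5, if_pos (even_two_mul _), Nat.mul_div_cancel_left _ (by norm_num)] at h3
      rw [h5, h3, Nat.choose_symm (by omega)]
      ring
    · rw [Nat.choose_eq_zero_of_lt (by omega)]
      simp
  · rw [if_neg hk]
    split_ifs with h1 h2
    · have h3 := hpat k h1.le
      rw [if_neg (fun h => hk (even_iff_two_dvd.mp h))] at h3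
      push_cast
      rw [h3, mul_zero]
    · have h3 := hpat (2 * g - k) (by omega)
      rw [if_neg] at h3
      · exact h3
      · intro h
        apply hk
        have := even_iff_two_dvd.mp h
        omega
    · simp

lemma hPoly_map_eq_aux (p : ℤ) (q : ℕ) [Fact q.Prime] (L : Type*) [Field L] [IsAlgClosed L]
    [Algebra (ZMod q) L] (hpq : ¬ (q : ℤ) ∣ p) (g : ℕ) (b : ℕ → ℤ)
    (hW : (wPoly p g b).map (Int.castRingHom (ZMod q)) = (X ^ 2 + C (p : ZMod q)) ^ g) :
    (hPoly p g b).map (Int.castRingHom (ZMod q)) = X ^ g := by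
  have hinj : Function.Injective (algebraMap (ZMod q) L) := (algebraMap (ZMod q) L).injective
  have : Infinite L := IsAlgClosed.instInfinite
  apply map_injective (algebraMap (ZMod q) L) hinj
  rw [Polynomial.map_pow, map_X]
  apply Polynomial.funext
  intro t
  rw [eval_pow, eval_X]
  -- a point above `t`
  have hp0 : (p : L) ≠ 0 := by
    intro h0
    have h1 : algebraMap (ZMod q) L (p : ZMod q) = 0 := by
      rw [map_intCast]
      exact h0
    rw [map_eq_zero_iff _ hinj] at h1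
    exact hpq ((ZMod.intCast_zmod_eq_zero_iff_dvd _ _).mp h1)
  obtain ⟨x, hx⟩ := IsAlgClosed.exists_root (X ^ 2 - C t * X + C (p : L)) (by
    have : (X ^ 2 - C t * X + C (p : L)).natDegree = 2 := by compute_degree!
    rw [degree_eq_natDegree (by intro h; rw [h] at this; simp at this), this]
    norm_num)
  have hx' : x ^ 2 - t * x + p = 0 := by
    simpa [IsRoot.def] using hx
  have hx0 : x ≠ 0 := by
    rintro rfl
    apply hp0
    simpa using hx'
  have ht : x + (p : L) / x = t := by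
    have h1 : (p : L) = t * x - x ^ 2 := by linear_combination hx'
    rw [h1]
    field_simp
    ring
  have hev := wPoly_eval p g b x hx0
  rw [ht] at hev
  have h1 : aeval x (wPoly p g b) = (x ^ 2 + (p : L)) ^ g := by
    have h2 : aeval x (wPoly p g b) = aeval x ((wPoly p g b).map (Int.castRingHom (ZMod q))) := by
      rw [aeval_def, aeval_def, eval₂_map]
      congr 1
      exact RingHom.ext_int _ _
    rw [h2, hW]
    simp
  have h3 : aeval t (hPoly p g b) =
      eval t (((hPoly p g b).map (Int.castRingHom (ZMod q))).map (algebraMap (ZMod q) L)) := by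
    rw [Polynomial.map_map, eval_map, aeval_def]
    congr 1
    exact RingHom.ext_int _ _
  rw [← h3]
  have h4 : x ^ 2 + (p : L) = x * t := by linear_combination hx'
  rw [h1, h4, mul_pow] at hev
  exact (mul_left_cancel₀ (pow_ne_zero g hx0) hev).symm

/-- Congruence of the real polynomial with `X^g` from the binomial pattern. -/
lemma hPoly_map_eq (p : ℤ) (q : ℕ) (hq : q.Prime) (hpq : ¬ (q : ℤ) ∣ p) (g : ℕ) (b : ℕ → ℤ)
    (hpat : ∀ i ≤ g, (b i : ZMod q) =
      if Even i then (g.choose (i / 2) : ZMod q) * (p : ZMod q) ^ (i / 2) else 0) :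
    (hPoly p g b).map (Int.castRingHom (ZMod q)) = X ^ g := by
  have : Fact q.Prime := ⟨hq⟩
  exact hPoly_map_eq_aux p q (AlgebraicClosure (ZMod q)) hpq g b (wPoly_map_eq p q g b hpat)

lemma coeff_zero_of_eval (q : ℕ) (h : ℤ[X]) (g : ℕ) (hg : 2 ≤ g)
    (hmap : h.map (Int.castRingHom (ZMod q)) = X ^ g) (s : ℤ)
    (h1 : ¬ (q ^ 2 : ℤ) ∣ h.eval (q * s)) : ¬ (q ^ 2 : ℤ) ∣ h.coeff 0 := by
  intro h0
  apply h1
  have h2 : h.eval (q * s) = q * s * (h.divX).eval (q * s) + h.coeff 0 := by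
    conv_lhs => rw [← divX_mul_X_add h]
    simp
    ring
  have h3 : (q : ℤ) ∣ (h.divX).eval (q * s) := by
    have h4 : (q : ℤ) * s - 0 ∣ (h.divX).eval (q * s) - (h.divX).eval 0 := sub_dvd_eval_sub _ _ _
    have h5 : (q : ℤ) ∣ (h.divX).eval (q * s) - (h.divX).eval 0 := by
      refine dvd_trans ?_ h4
      rw [sub_zero]
      exact dvd_mul_right _ _
    have h6 : (q : ℤ) ∣ (h.divX).eval 0 := by
      rw [← coeff_zero_eq_eval_zero, coeff_divX, ← ZMod.intCast_zmod_eq_zero_iff_dvd]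
      have h7 : ((h.coeff (0 + 1) : ℤ) : ZMod q) =
          (h.map (Int.castRingHom (ZMod q))).coeff (0 + 1) := by
        rw [coeff_map]; rfl
      rw [h7, hmap, coeff_X_pow, if_neg (by omega)]
    have := dvd_add h5 h6
    simpa using this
  rw [h2]
  apply dvd_add _ h0
  obtain ⟨r, hr⟩ := h3
  exact ⟨s * r, by rw [hr]; ring⟩

end Pool.Agent.MP_e32a7e_nt
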