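import Mathlib

/-!
# Elementary bounds for the sums in the root location criterion
-/

open Finset

namespace Pool.Agent.MP_e32a7e_nt

lemma geom_le (x : ℝ) (hx0 : 0 ≤ x) (hx1 : x < 1) (m : ℕ) :
    ∑ k ∈ range m, x ^ k ≤ 1 / (1 - x) := by
  rw [le_div_iff₀ (by linarith), mul_comm, mul_neg_geom_sum]
  have := pow_nonneg hx0 m
  linarith

lemma even_tail (r x : ℝ) (hr0 : 0 ≤ r) (hx : r ^ 2 = x) (hx1 : x < 1) (J n : ℕ) :
    ∑ i ∈ range n, (if Even (2 * J + i + 1) then r ^ (2 * J + i + 1) else 0) ≤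
      x ^ (J + 1) / (1 - x) := by
  have hx0 : 0 ≤ x := by rw [← hx]; positivity
  have h1 : ∀ m, ∑ i ∈ range (2 * m), (if Even (2 * J + i + 1) then r ^ (2 * J + i + 1) else 0) =
      ∑ k ∈ range m, x ^ (J + 1) * x ^ k := by
    intro m
    induction m with
    | zero => simp
    | succ m ih =>
      rw [show 2 * (m + 1) = 2 * m + 1 + 1 by ring, sum_range_succ, sum_range_succ, ih,
        sum_range_succ, if_neg, if_pos, add_zero]
      · congr 1
        rw [← hx, ← pow_mul, ← pow_mul, ← pow_add]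
        congr 1
        ring
      · rw [show 2 * J + (2 * m + 1) + 1 = 2 * (J + m + 1) by ring]
        exact even_two_mul _
      · rw [Nat.not_even_iff_odd]
        exact ⟨J + m, by ring⟩
  have h2 : ∑ i ∈ range n, (if Even (2 * J + i + 1) then r ^ (2 * J + i + 1) else 0) ≤
      ∑ i ∈ range (2 * n), (if Even (2 * J + i + 1) then r ^ (2 * J + i + 1) else 0) := by
    apply sum_le_sum_of_subset_of_nonneg
    · intro i hi
      rw [mem_range] at hi ⊢
      omega
    · intro i _ _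
      split_ifs
      · positivity
      · exact le_rfl
  refine h2.trans ?_
  rw [h1, ← mul_sum]
  calc x ^ (J + 1) * ∑ k ∈ range n, x ^ k ≤ x ^ (J + 1) * (1 / (1 - x)) :=
        mul_le_mul_of_nonneg_left (geom_le x hx0 hx1 n) (by positivity)
    _ = x ^ (J + 1) / (1 - x) := by ring

lemma single_le (r : ℝ) (hr0 : 0 ≤ r) (J n k : ℕ) (C : ℝ) (hC : 0 ≤ C) :
    ∑ i ∈ range n, (if 2 * J + i + 1 = k then C * r ^ (2 * J + i + 1) else 0) ≤
      if 2 * J < k then C * r ^ k else 0 := by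
  split_ifs with h
  · have h1 : ∀ i ∈ range n, (if 2 * J + i + 1 = k then C * r ^ (2 * J + i + 1) else 0) =
        if i = k - 2 * J - 1 then C * r ^ k else 0 := by
      intro i _
      by_cases hi : 2 * J + i + 1 = k
      · rw [if_pos hi, if_pos (by omega), hi]
      · rw [if_neg hi, if_neg (by omega)]
    rw [sum_congr rfl h1, sum_ite_eq']
    split_ifs
    · exact le_rfl
    · positivity
  · apply le_of_eq
    apply sum_eq_zero
    intro i _
    rw [if_neg (by omega)]

/-- The tail of the sum in the criterion. -/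
lemma tail_bound (r x : ℝ) (hr0 : 0 ≤ r) (hx : r ^ 2 = x) (hx1 : x < 1) (J n k1 k2 k3 k4 : ℕ)
    (A C1 C2 C3 C4 : ℝ) (hA : 0 ≤ A) (h1 : 0 ≤ C1) (h2 : 0 ≤ C2) (h3 : 0 ≤ C3) (h4 : 0 ≤ C4)
    (F : ℕ → ℝ) (hF : ∀ i, 2 * J < i → F i ≤ (if Even i then A else 0) +
      (if i = k1 then C1 else 0) + (if i = k2 then C2 else 0) + (if i = k3 then C3 else 0) +
      (if i = k4 then C4 else 0)) :
    ∑ i ∈ range n, F (2 * J + i + 1) * r ^ (2 * J + i + 1) ≤
      A * (x ^ (J + 1) / (1 - x)) + (if 2 * J < k1 then C1 * r ^ k1 else 0) +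
      (if 2 * J < k2 then C2 * r ^ k2 else 0) + (if 2 * J < k3 then C3 * r ^ k3 else 0) +
      (if 2 * J < k4 then C4 * r ^ k4 else 0) := by
  have hpt : ∀ i ∈ range n, F (2 * J + i + 1) * r ^ (2 * J + i + 1) ≤
      A * (if Even (2 * J + i + 1) then r ^ (2 * J + i + 1) else 0) +
      (if 2 * J + i + 1 = k1 then C1 * r ^ (2 * J + i + 1) else 0) +
      (if 2 * J + i + 1 = k2 then C2 * r ^ (2 * J + i + 1) else 0) +
      (if 2 * J + i + 1 = k3 then C3 * r ^ (2 * J + i + 1) else 0) +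
      (if 2 * J + i + 1 = k4 then C4 * r ^ (2 * J + i + 1) else 0) := by
    intro i _
    have hr : 0 ≤ r ^ (2 * J + i + 1) := pow_nonneg hr0 _
    refine (mul_le_mul_of_nonneg_right (hF (2 * J + i + 1) (by omega)) hr).trans (le_of_eq ?_)
    simp only [add_mul, ite_mul, zero_mul, mul_ite, mul_zero]
  refine (sum_le_sum hpt).trans ?_
  rw [sum_add_distrib, sum_add_distrib, sum_add_distrib, sum_add_distrib, ← mul_sum]
  have e0 := mul_le_mul_of_nonneg_left (even_tail r x hr0 hx hx1 J n) hA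
  have e1 := single_le r hr0 J n k1 C1 h1
  have e2 := single_le r hr0 J n k2 C2 h2
  have e3 := single_le r hr0 J n k3 C3 h3
  have e4 := single_le r hr0 J n k4 C4 h4
  linarith

lemma sum_split (F : ℕ → ℝ) (m n : ℕ) (h : m ≤ n) :
    ∑ i ∈ range n, F i = ∑ i ∈ range m, F i + ∑ i ∈ range (n - m), F (m + i) := by
  obtain ⟨k, rfl⟩ := Nat.exists_eq_add_of_le h
  rw [sum_range_add, Nat.add_sub_cancel_left]

end Pool.Agent.MP_e32a7e_nt
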