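import Pool.Agent.Lib.MP_e32a7e_nt.PowOne
import Pool.Agent.Lib.MP_e32a7e_nt.Tail

/-!
# Factors of the real polynomial, sparse families
-/

open Polynomial Finset ComplexConjugate

namespace Pool.Agent.MP_e32a7e_nt

/-- All zeros of the real polynomial are real and lie in the open interval. -/
lemma hroot_real (p : ℕ) (hp : 0 < p) (g : ℕ) (b : ℕ → ℤ)
    (hloc : ∀ z : ℂ, aeval z (wPoly p g b) = 0 → ‖z‖ = √(p : ℝ) ∧ z.im ≠ 0)
    (t : ℂ) (ht : aeval t (hPoly p g b) = 0) : ∃ c : ℝ, t = c ∧ c ^ 2 < 4 * p := by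
  have hp0 : ((p : ℤ) : ℂ) ≠ 0 := by
    have : (p : ℂ) ≠ 0 := by exact_mod_cast hp.ne'
    exact_mod_cast this
  obtain ⟨x, hx⟩ := IsAlgClosed.exists_root (X ^ 2 - C t * X + C ((p : ℤ) : ℂ)) (by
    have : (X ^ 2 - C t * X + C ((p : ℤ) : ℂ)).natDegree = 2 := by compute_degree!
    rw [degree_eq_natDegree (by intro h; rw [h] at this; simp at this), this]
    norm_num)
  have hx' : x ^ 2 - t * x + ((p : ℤ) : ℂ) = 0 := by
    rw [IsRoot.def, eval_add, eval_sub, eval_mul, eval_pow, eval_X, eval_C, eval_C] at hx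
    exact hx
  have hx0 : x ≠ 0 := by
    rintro rfl
    apply hp0
    linear_combination hx'
  have htx : x + ((p : ℤ) : ℂ) / x = t := by
    have h1 : ((p : ℤ) : ℂ) = t * x - x ^ 2 := by linear_combination hx'
    rw [h1]
    field_simp
    ring
  have hw : aeval x (wPoly p g b) = 0 := by
    rw [wPoly_eval p g b x hx0, htx, ht, mul_zero]
  obtain ⟨h1, h2⟩ := hloc x hw
  have hconj : ((p : ℤ) : ℂ) / x = conj x := by
    rw [div_eq_iff hx0, mul_comm, Complex.mul_conj, Complex.normSq_eq_norm_sq, h1,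
      Real.sq_sqrt (by positivity)]
    push_cast
    rfl
  refine ⟨2 * x.re, ?_, ?_⟩
  · rw [← htx, hconj, Complex.add_conj]
  · have h3 : ‖x‖ ^ 2 = p := by rw [h1, Real.sq_sqrt (by positivity)]
    rw [Complex.sq_norm, Complex.normSq_apply] at h3
    have h4 : 0 < x.im * x.im := mul_self_pos.mpr h2
    nlinarith

lemma int_root_bound (p : ℕ) (hp : 0 < p) (g : ℕ) (b : ℕ → ℤ)
    (hloc : ∀ z : ℂ, aeval z (wPoly p g b) = 0 → ‖z‖ = √(p : ℝ) ∧ z.im ≠ 0)
    (t : ℤ) (ht : (hPoly p g b).eval t = 0) : t ^ 2 < 4 * p := by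
  have h1 : aeval (t : ℂ) (hPoly p g b) = 0 := by
    have := aeval_algebraMap_apply ℂ (t : ℤ) (hPoly p g b)
    have h2 : aeval (t : ℤ) (hPoly p g b) = 0 := by
      rw [← ht]
      simp
    rw [h2, map_zero] at this
    simpa using this
  obtain ⟨c, hc1, hc2⟩ := hroot_real p hp g b hloc t h1
  have h3 : (c : ℝ) = t := by exact_mod_cast hc1.symm
  rw [h3] at hc2
  exact_mod_cast hc2

/-- A factor with constant term prime to `p` divides the unit part modulo `p`. -/
lemma factor_unit_part (p : ℕ) [Fact p.Prime] (A B h : ℤ[X]) (hAB : A * B = h) (m : ℕ)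
    (U : (ZMod p)[X]) (hmap : h.map (Int.castRingHom (ZMod p)) = X ^ m * U)
    (hA : ¬ (p : ℤ) ∣ A.coeff 0) : A.map (Int.castRingHom (ZMod p)) ∣ U := by
  have hd : A.map (Int.castRingHom (ZMod p)) ∣ X ^ m * U := by
    rw [← hmap, ← hAB, Polynomial.map_mul]
    exact dvd_mul_right _ _
  have hcop : IsCoprime (A.map (Int.castRingHom (ZMod p))) (X ^ m) := by
    apply IsCoprime.pow_right
    rw [isCoprime_comm, (irreducible_X).coprime_iff_not_dvd, X_dvd_iff, coeff_map]
    intro h0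
    exact hA ((ZMod.intCast_zmod_eq_zero_iff_dvd _ _).mp (by simpa using h0))
  exact hcop.dvd_of_dvd_mul_left hd

/-- Irreducibility when the unit part modulo `p` is linear. -/
lemma irreducible_of_linear_unit (p : ℕ) (hp : p.Prime) (h : ℤ[X]) (hm : h.Monic)
    (hne : 1 ≤ h.natDegree) (m : ℕ) (U : (ZMod p)[X]) (hU : U ≠ 0) (hUd : U.natDegree ≤ 1)
    (hmap : h.map (Int.castRingHom (ZMod p)) = X ^ m * U)
    (h0 : ¬ (p ^ 2 : ℤ) ∣ h.coeff 0) (hroot : ∀ t : ℤ, h.eval t = 0 → ¬ (p : ℤ) ∣ t → False) :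
    Irreducible h := by
  have : Fact p.Prime := ⟨hp⟩
  have key : ∀ A B : ℤ[X], A.Monic → B.Monic → A * B = h → ¬ (p : ℤ) ∣ A.coeff 0 →
      A.natDegree = 0 := by
    intro A B hA hB hAB hA0
    have h1 := factor_unit_part p A B h hAB m U hmap hA0
    have h2 : A.natDegree ≤ 1 := by
      rw [← hA.natDegree_map (Int.castRingHom (ZMod p))]
      exact (natDegree_le_of_dvd h1 hU).trans hUd
    by_contra h3
    have h4 : A.natDegree = 1 := by omega
    have h5 : A = X + C (A.coeff 0) := hA.eq_X_add_C h4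
    apply hroot (-A.coeff 0)
    · rw [← hAB, eval_mul]
      have : A.eval (-A.coeff 0) = 0 := by
        conv_lhs => rw [h5]
        simp
      rw [this, zero_mul]
    · rwa [dvd_neg]
  rw [hm.irreducible_iff_natDegree]
  refine ⟨?_, ?_⟩
  · rintro rfl
    simp at hne
  · intro A B hA hB hAB
    have hc : h.coeff 0 = A.coeff 0 * B.coeff 0 := by
      rw [← hAB, mul_coeff_zero]
    by_cases hA0 : (p : ℤ) ∣ A.coeff 0
    · by_cases hB0 : (p : ℤ) ∣ B.coeff 0
      · exfalso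
        apply h0
        rw [hc, sq]
        exact mul_dvd_mul hA0 hB0
      · right
        exact key B A hB hA (by rw [mul_comm]; exact hAB) hB0
    · left
      exact key A B hA hB hAB hA0

lemma dPoly_map (p : ℕ) (n : ℕ) (hn : 1 ≤ n) :
    (dPoly p n).map (Int.castRingHom (ZMod p)) = X ^ n := by
  induction n using Nat.strong_induction_on with
  | _ n ih =>
    match n with
    | 0 => omega
    | 1 => simp [dPoly]
    | (m + 2) =>
      rw [dPoly_add_two, Polynomial.map_sub, Polynomial.map_mul, ih (m + 1) (by omega) (by omega)]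
      simp
      ring

lemma hPoly_map (p : ℕ) (g : ℕ) (b : ℕ → ℤ) :
    (hPoly p g b).map (Int.castRingHom (ZMod p)) =
      ∑ i ∈ range g, C (b i : ZMod p) * X ^ (g - i) + C (b g : ZMod p) := by
  unfold hPoly
  rw [Polynomial.map_add, Polynomial.map_sum, map_C]
  congr 1
  apply sum_congr rfl
  intro i hi
  have := mem_range.mp hi
  rw [Polynomial.map_mul, map_C, dPoly_map p (g - i) (by omega)]
  rfl

/-- Irreducibility of the Weil polynomial itself. -/
lemma irreducible_wPoly (p : ℕ) (hp : 0 < p) (g : ℕ) (hg : 1 ≤ g) (b : ℕ → ℤ) (hb : b 0 = 1)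
    (hloc : ∀ z : ℂ, aeval z (wPoly p g b) = 0 → ‖z‖ = √(p : ℝ) ∧ z.im ≠ 0)
    (hirr : Irreducible (hPoly p g b)) : Irreducible (wPoly p g b) := by
  have hm := wPoly_monic (p : ℤ) g b hg hb
  have hd := wPoly_natDegree (p : ℤ) g b hg hb
  obtain ⟨z, hz⟩ := IsAlgClosed.exists_aeval_eq_zero ℂ (wPoly p g b) (by
    rw [degree_eq_natDegree hm.ne_zero, hd]
    have : 2 * g ≠ 0 := by omega
    exact_mod_cast this)
  obtain ⟨h1, h2⟩ := hloc z hz
  obtain ⟨h3, h4⟩ := minpoly_of_hPoly p hp g hg b hb hirr z hz h1 h2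
  have hint : IsIntegral ℚ z := by
    by_contra h
    rw [minpoly.eq_zero h] at h3
    exact (hm.map (algebraMap ℤ ℚ)).ne_zero h3.symm
  rw [hm.irreducible_iff_irreducible_map_fraction_map (K := ℚ), ← h3]
  exact minpoly.irreducible hint

/-- **Criterion for `p`-rank one.** -/
theorem good_one_of (p : ℕ) (hp : p.Prime) (g : ℕ) (hg : 1 ≤ g) (b : ℕ → ℤ) (hb : b 0 = 1)
    (hloc : ∀ z : ℂ, aeval z (wPoly p g b) = 0 → ‖z‖ = √(p : ℝ) ∧ z.im ≠ 0)
    (hirr : Irreducible (hPoly p g b)) (h1 : ¬ (p : ℤ) ∣ b 1)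
    (h2 : ∀ i, 1 < i → i ≤ g → (p : ℤ) ∣ b i) : Good p g 1 := by
  have hmon := wPoly_monic (p : ℤ) g b hg hb
  have hdeg := wPoly_natDegree (p : ℤ) g b hg hb
  refine ⟨wPoly p g b, hmon, hdeg, fun z hz => (hloc z hz).1, ?_,
    rootMultiplicity_wPoly p g 1 hg b h1 h2⟩
  intro z hz n hn
  have hred : (wPoly p g b).map (Int.castRingHom (ZMod p)) =
      X ^ ((wPoly p g b).natDegree - 1) * (X + C (b 1 : ZMod p)) := by
    rw [hdeg]
    ext k
    rw [coeff_map, wPoly_coeff, coeff_X_pow_mul', eq_intCast]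
    split_ifs with h3 h4 h5 h6 h7
    · omega
    · push_cast
      rw [ZMod.natCast_self, zero_pow (by omega), zero_mul]
    · have hk : k = 2 * g - 1 ∨ k = 2 * g := by omega
      rcases hk with hk | hk
      · subst hk
        have e : 2 * g - (2 * g - 1) = 1 := by omega
        rw [e, Nat.sub_self]
        simp
      · subst hk
        have e : 2 * g - (2 * g - 1) = 1 := by omega
        rw [e, Nat.sub_self, hb, coeff_add, coeff_X, coeff_C, if_pos rfl, if_neg one_ne_zero]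
        simp
    · rw [ZMod.intCast_zmod_eq_zero_iff_dvd]
      exact h2 _ (by omega) (by omega)
    · have e : k - (2 * g - 1) = (k - 2 * g - 1) + 2 := by omega
      rw [e, coeff_add, coeff_X, coeff_C, if_neg (by omega), if_neg (by omega)]
      simp
    · simp
  have ha : (b 1 : ZMod p) ≠ 0 := by
    intro h0
    exact h1 ((ZMod.intCast_zmod_eq_zero_iff_dvd _ _).mp h0)
  rw [natDegree_minpoly_pow_one p hp (wPoly p g b) hmon
    (irreducible_wPoly p hp.pos g hg b hb hloc hirr) _ ha hred z hz n hn, hdeg]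

/-- Location for sparse coefficients. -/
lemma loc_sparse (p : ℕ) (hp : 2 ≤ p) (g : ℕ) (hg : 1 ≤ g) (b : ℕ → ℤ) (hb : b 0 = 1)
    (k1 k2 k3 k4 : ℕ) (C1 C2 C3 C4 : ℝ) (h1 : 0 ≤ C1) (h2 : 0 ≤ C2) (h3 : 0 ≤ C3) (h4 : 0 ≤ C4)
    (r : ℝ) (hr : r = (√(p : ℝ))⁻¹)
    (hF : ∀ i, 0 < i → |beta g b i| ≤ (if i = k1 then C1 else 0) + (if i = k2 then C2 else 0) +
      (if i = k3 then C3 else 0) + (if i = k4 then C4 else 0))
    (hlt : C1 * r ^ k1 + C2 * r ^ k2 + C3 * r ^ k3 + C4 * r ^ k4 < 1)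
    (z : ℂ) (hz : aeval z (wPoly p g b) = 0) : ‖z‖ = √(p : ℝ) ∧ z.im ≠ 0 := by
  have hp0 : (0 : ℝ) < p := by
    have : 0 < p := by omega
    exact_mod_cast this
  have hp1 : (1 : ℝ) < p := by
    have : 1 < p := by omega
    exact_mod_cast this
  have hr0 : 0 ≤ r := by rw [hr]; positivity
  have hrx : r ^ 2 = 1 / p := by
    rw [hr, inv_pow, Real.sq_sqrt hp0.le, one_div]
  have hx1 : (1 : ℝ) / p < 1 := by
    rw [div_lt_one hp0]
    exact hp1
  apply loc_plain p (by omega) g hg b hb _ z hz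
  rw [← hr]
  have htail := tail_bound r (1 / p) hr0 hrx hx1 0 g k1 k2 k3 k4 0 C1 C2 C3 C4
    le_rfl h1 h2 h3 h4 (fun i => |beta g b i|) (by
      intro i hi
      have := hF i (by omega)
      have e : (if Even i then (0 : ℝ) else 0) = 0 := by split_ifs <;> rfl
      rw [e]
      linarith)
  have hle : ∀ (k : ℕ) (D : ℝ), 0 ≤ D → (if 2 * 0 < k then D * r ^ k else 0) ≤ D * r ^ k := by
    intro k D hD
    split_ifs
    · exact le_rfl
    · positivity
  have e1 := hle k1 C1 h1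
  have e2 := hle k2 C2 h2
  have e3 := hle k3 C3 h3
  have e4 := hle k4 C4 h4
  have e5 : ∑ i ∈ range g, |beta g b (i + 1)| * r ^ (i + 1) =
      ∑ i ∈ range g, |beta g b (2 * 0 + i + 1)| * r ^ (2 * 0 + i + 1) := by
    apply sum_congr rfl
    intro i _
    have : 2 * 0 + i + 1 = i + 1 := by omega
    rw [this]
  rw [e5]
  have e6 : (0 : ℝ) * ((1 / p : ℝ) ^ (0 + 1) / (1 - 1 / p)) = 0 := zero_mul _
  rw [e6] at htail
  linarith

end Pool.Agent.MP_e32a7e_nt
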