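import Pool.Agent.Lib.MP_e32a7e_nt.RankOne

/-!
# `p`-rank zero
-/

open Polynomial Finset

namespace Pool.Agent.MP_e32a7e_nt

/-- The coefficients for `p`-rank zero. -/
def b0 (g : ℕ) (d c : ℤ) (i : ℕ) : ℤ :=
  if i = 0 then 1 else if i = g then c else if i = g - 1 then d else 0

lemma hPoly_b0 (p : ℤ) (g : ℕ) (hg : 2 ≤ g) (d c : ℤ) :
    hPoly p g (b0 g d c) = dPoly p g + C d * X + C c := by
  obtain ⟨k, rfl⟩ : ∃ k, g = k + 2 := ⟨g - 2, by omega⟩
  unfold hPoly
  rw [sum_range_succ, sum_range_succ']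
  have h1 : ∑ i ∈ range k, C (b0 (k + 2) d c (i + 1)) * dPoly p (k + 2 - (i + 1)) = 0 := by
    apply sum_eq_zero
    intro i hi
    have := mem_range.mp hi
    rw [b0, if_neg (by omega), if_neg (by omega), if_neg (by omega)]
    simp
  have h2 : b0 (k + 2) d c (k + 1) = d := by
    rw [b0, if_neg (by omega), if_neg (by omega), if_pos (by omega)]
  have h3 : b0 (k + 2) d c 0 = 1 := by simp [b0]
  have h4 : b0 (k + 2) d c (k + 2) = c := by
    rw [b0, if_neg (by omega), if_pos rfl]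
  have h5 : k + 2 - (k + 1) = 1 := by omega
  rw [h1, h2, h3, h4, h5, dPoly_one]
  simp

lemma beta_b0 (g : ℕ) (hg : 2 ≤ g) (d c : ℤ) (i : ℕ) (hi : 0 < i) :
    |beta g (b0 g d c) i| ≤ (if i = g - 1 then |(d : ℝ)| else 0) +
      (if i = g then |(c : ℝ)| / 2 else 0) +
      (if i = 0 then 0 else 0) + (if i = 0 then 0 else 0) := by
  have h5 : (if i = 0 then (0 : ℝ) else 0) = 0 := by split_ifs <;> rfl
  rw [h5, add_zero, add_zero]
  rcases lt_trichotomy i g with h | h | h
  · rw [beta, if_pos h, if_neg (by omega : ¬ i = g), add_zero, b0, if_neg (by omega),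
      if_neg (by omega)]
    by_cases h1 : i = g - 1
    · rw [if_pos h1, if_pos h1]
    · rw [if_neg h1, if_neg h1]
      norm_num
  · subst h
    rw [beta, if_neg (lt_irrefl i), if_pos rfl, b0, if_neg (by omega), if_pos rfl, if_pos rfl,
      if_neg (by omega), zero_add, abs_div, abs_of_pos (by norm_num : (0 : ℝ) < 2)]
  · rw [beta_eq_zero h, abs_zero, if_neg (by omega), if_neg (by omega)]
    norm_num

/-- General criterion for `p`-rank zero. -/
lemma good_zero_of (p : ℕ) (hp : p.Prime) (g : ℕ) (hg : 3 ≤ g) (d c : ℤ)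
    (hd : (p : ℤ) ∣ d) (hd0 : d ≠ 0) (hc : (p : ℤ) ∣ c) (hc2 : ¬ (p ^ 2 : ℤ) ∣ c)
    (hN : (1 + (p : ℤ) ^ g + d * (1 + p) + c) % 8 = 6 ∨ (1 + (p : ℤ) ^ g + d * (1 + p) + c) % 9 = 6)
    (hlt : |(d : ℝ)| * ((√(p : ℝ))⁻¹) ^ (g - 1) + |(c : ℝ)| / 2 * ((√(p : ℝ))⁻¹) ^ g < 1) :
    Good p g 0 := by
  have hb : b0 g d c 0 = 1 := by simp [b0]
  have hbg : b0 g d c g = c := by rw [b0, if_neg (by omega), if_pos rfl]
  have hbg1 : b0 g d c (g - 1) = d := by
    rw [b0, if_neg (by omega), if_neg (by omega), if_pos rfl]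
  have hc0 : c ≠ 0 := by
    rintro rfl
    exact hc2 (dvd_zero _)
  have hpdvd : ∀ i, 0 < i → (p : ℤ) ∣ b0 g d c i := by
    intro i hi
    rw [b0, if_neg (by omega)]
    split_ifs
    · exact hc
    · exact hd
    · exact dvd_zero _
  have hloc : ∀ z : ℂ, aeval z (wPoly p g (b0 g d c)) = 0 → ‖z‖ = √(p : ℝ) ∧ z.im ≠ 0 := by
    intro z hz
    apply loc_sparse p hp.two_le g (by omega) _ hb (g - 1) g 0 0 (|(d : ℝ)|) (|(c : ℝ)| / 2) 0 0
      (abs_nonneg _) (by positivity) le_rfl le_rfl (√(p : ℝ))⁻¹ rfl (beta_b0 g (by omega) d c) _ z hz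
    simp only [pow_zero]
    linarith
  have hirr : Irreducible (hPoly p g (b0 g d c)) := by
    have hmon := hPoly_monic (p : ℤ) g (b0 g d c) (by omega) hb
    have hdeg := hPoly_natDegree (p : ℤ) g (b0 g d c) (by omega) hb
    apply irreducible_of_map_eq_X_pow p hp _ hmon (by omega)
    · rw [hdeg, hPoly_b0 (p : ℤ) g (by omega), Polynomial.map_add, Polynomial.map_add,
        dPoly_map p g (by omega), Polynomial.map_mul, map_C, map_C, eq_intCast, eq_intCast,
        (ZMod.intCast_zmod_eq_zero_iff_dvd c p).mpr hc,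
        (ZMod.intCast_zmod_eq_zero_iff_dvd d p).mpr hd]
      simp
    · rw [h_coeff_zero, hPoly_b0 (p : ℤ) g (by omega)]
      intro h1
      apply hc2
      simp only [eval_add, eval_mul, eval_X, eval_C, mul_zero, add_zero] at h1
      exact (dvd_add_right (dPoly_eval_zero_sq_dvd (p : ℤ) g hg)).mp h1
  apply good_of p hp g 0 (by omega) (by omega) (b0 g d c) hb hloc hirr
  · refine ⟨1, ?_⟩
    have : (wPoly p g (b0 g d c)).eval 1 = 1 + (p : ℤ) ^ g + d * (1 + p) + c := by
      rw [wPoly_eval_one_sum, hbg]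
      obtain ⟨k, rfl⟩ : ∃ k, g = k + 2 := ⟨g - 2, by omega⟩
      rw [sum_range_succ, sum_range_succ']
      have h1 : ∑ i ∈ range k, b0 (k + 2) d c (i + 1) * (1 + (p : ℤ) ^ (k + 2 - (i + 1))) = 0 := by
        apply sum_eq_zero
        intro i hi
        have := mem_range.mp hi
        rw [b0, if_neg (by omega), if_neg (by omega), if_neg (by omega)]
        simp
      have h2 : b0 (k + 2) d c (k + 1) = d := by
        rw [b0, if_neg (by omega), if_neg (by omega), if_pos (by omega)]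
      have h5 : k + 2 - (k + 1) = 1 := by omega
      rw [h1, h2, hb, h5]
      simp
    rw [this]
    exact hN
  · intro k hk
    exact exp_middle p g (by omega) _ (by rw [hbg]; exact hc0) (by rw [hbg1]; exact hd0) k hk
  · rw [hb]
    intro h
    have := Int.le_of_dvd (by norm_num) h
    have := hp.two_le
    omega
  · intro i hi1 _
    exact hpdvd i hi1

/-- The choice of the middle coefficient. -/
lemma exists_mid' (R u : ℤ) (hR : R % 2 = 0) (hu : u % 2 = 1) :
    ∃ c : ℤ, (c = 8 ∨ c = 4 ∨ c = 2 ∨ c = -2) ∧ (R + u * c) % 8 = 6 := by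
  obtain ⟨k, hk⟩ : ∃ k, u = 2 * k + 1 := ⟨u / 2, by omega⟩
  obtain ⟨m, hm⟩ : ∃ m, R = 2 * m := ⟨R / 2, by omega⟩
  have h4 : m % 4 = 0 ∨ m % 4 = 1 ∨ m % 4 = 2 ∨ m % 4 = 3 := by omega
  rcases h4 with h | h | h | h
  · rcases Int.emod_two_eq_zero_or_one k with h' | h'
    · exact ⟨-2, by norm_num, by rw [hk, hm]; omega⟩
    · exact ⟨2, by norm_num, by rw [hk, hm]; omega⟩
  · exact ⟨4, by norm_num, by rw [hk, hm]; omega⟩
  · rcases Int.emod_two_eq_zero_or_one k with h' | h'
    · exact ⟨2, by norm_num, by rw [hk, hm]; omega⟩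
    · exact ⟨-2, by norm_num, by rw [hk, hm]; omega⟩
  · exact ⟨8, by norm_num, by rw [hk, hm]; omega⟩

/-- Odd primes, `p`-rank zero, large dimension. -/
lemma good_zero_odd (p : ℕ) (hp : p.Prime) (hp2 : p ≠ 2) (g : ℕ) (hg : 4 ≤ g)
    (h5 : p = 5 → 5 ≤ g) (h3 : p = 3 → 6 ≤ g) : Good p g 0 := by
  have hp3 : 3 ≤ p := by
    have := hp.two_le
    omega
  have hodd : (p : ℤ) % 2 = 1 := by
    obtain ⟨k, hk⟩ := hp.odd_of_ne_two hp2
    omega
  have hp0 : (0 : ℤ) < p := by exact_mod_cast hp.pos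
  have hR : (1 + (p : ℤ) ^ g + p * (1 + p)) % 2 = 0 := by
    obtain ⟨a, ha⟩ : ∃ a, (p : ℤ) = 2 * a + 1 := ⟨(p : ℤ) / 2, by omega⟩
    obtain ⟨m, hm⟩ : ∃ m, (p : ℤ) ^ g = 2 * m + 1 := by
      have : Odd ((p : ℤ) ^ g) := Odd.pow ⟨a, ha⟩
      exact this
    rw [hm, ha, show 1 + (2 * m + 1) + (2 * a + 1) * (1 + (2 * a + 1)) =
      2 * (m + 1 + (2 * a + 1) * (a + 1)) by ring]
    omega
  obtain ⟨c, hc, hc2⟩ := exists_mid' (1 + (p : ℤ) ^ g + p * (1 + p)) p hR hodd
  have hpR : (3 : ℝ) ≤ p := by exact_mod_cast hp3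
  have hc0 : |(c : ℝ)| ≤ 8 := by
    rcases hc with h | h | h | h <;> rw [h] <;> norm_num
  have hcop : ¬ (p : ℤ) ∣ c := by
    have hpn2 : ¬ (p : ℤ) ∣ 2 := by
      intro h
      have := Int.le_of_dvd (by norm_num) h
      omega
    rcases hc with h | h | h | h
    · rw [h]
      intro hd
      have h3 : p ∣ 2 ^ 3 := by exact_mod_cast hd
      exact hp2 ((Nat.prime_dvd_prime_iff_eq hp Nat.prime_two).mp (hp.dvd_of_dvd_pow h3))
    · rw [h]
      intro hd
      have h3 : p ∣ 2 ^ 2 := by exact_mod_cast hd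
      exact hp2 ((Nat.prime_dvd_prime_iff_eq hp Nat.prime_two).mp (hp.dvd_of_dvd_pow h3))
    · rw [h]
      exact hpn2
    · rw [h, dvd_neg]
      exact hpn2
  apply good_zero_of p hp g (by omega) p (p * c) dvd_rfl hp0.ne' (dvd_mul_right _ _)
  · intro h
    apply hcop
    rw [sq] at h
    exact (mul_dvd_mul_iff_left hp0.ne').mp h
  · left
    exact hc2
  · set r : ℝ := (√(p : ℝ))⁻¹ with hr
    have hr0 : 0 ≤ r := by rw [hr]; positivity
    have hrx : r ^ 2 * p = 1 := by
      rw [hr, inv_pow, Real.sq_sqrt (by linarith)]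
      field_simp
    have hr1 : r ≤ 0.5774 := by
      by_contra h
      push Not at h
      have : (0.5774 : ℝ) ^ 2 < r ^ 2 := pow_lt_pow_left₀ h (by norm_num) (by norm_num)
      norm_num at this
      nlinarith
    have habs1 : |((p : ℤ) : ℝ)| = p := by simp
    have habs2 : |((p * c : ℤ) : ℝ)| / 2 ≤ 4 * p := by
      push_cast
      rw [abs_mul, abs_of_nonneg (by positivity : (0 : ℝ) ≤ p)]
      nlinarith
    rw [habs1]
    have hmid : |((p * c : ℤ) : ℝ)| / 2 * r ^ g ≤ 4 * p * r ^ g :=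
      mul_le_mul_of_nonneg_right habs2 (pow_nonneg hr0 g)
    have hx : r ^ 2 ≤ 1 / 3 := by
      have : r ^ 2 = 1 / p := by
        rw [eq_div_iff (by positivity)]
        exact hrx
      rw [this]
      exact one_div_le_one_div_of_le (by norm_num) hpR
    by_cases hp3' : p = 3
    · have hg6 := h3 hp3'
      have h1 : r ^ (g - 1) ≤ r ^ 5 := pow_le_pow_of_le_one hr0 (by linarith) (by omega)
      have h2 : r ^ g ≤ r ^ 6 := pow_le_pow_of_le_one hr0 (by linarith) (by omega)
      have e1 : (p : ℝ) * r ^ 5 = r ^ 2 * r := by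
        have : (p : ℝ) * r ^ 5 = (r ^ 2 * p) * (r ^ 2 * r) := by ring
        rw [this, hrx, one_mul]
      have e2 : 4 * (p : ℝ) * r ^ 6 = 4 * (r ^ 2 * r ^ 2) := by
        have : 4 * (p : ℝ) * r ^ 6 = 4 * ((r ^ 2 * p) * (r ^ 2 * r ^ 2)) := by ring
        rw [this, hrx, one_mul]
      have e3 : (p : ℝ) * r ^ (g - 1) ≤ p * r ^ 5 := mul_le_mul_of_nonneg_left h1 (by positivity)
      have e4 : 4 * (p : ℝ) * r ^ g ≤ 4 * p * r ^ 6 :=
        mul_le_mul_of_nonneg_left h2 (by positivity)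
      have e5 : r ^ 2 * r ≤ 1 / 3 * 0.5774 := mul_le_mul hx hr1 hr0 (by norm_num)
      have e6 : r ^ 2 * r ^ 2 ≤ 1 / 3 * (1 / 3) := mul_le_mul hx hx (by positivity) (by norm_num)
      linarith
    · by_cases hp5' : p = 5
      · have hg5 := h5 hp5'
        have hx5 : r ^ 2 ≤ 1 / 5 := by
          have : r ^ 2 = 1 / p := by
            rw [eq_div_iff (by positivity)]
            exact hrx
          rw [this, hp5']
          norm_num
        have h1 : r ^ (g - 1) ≤ r ^ 4 := pow_le_pow_of_le_one hr0 (by linarith) (by omega)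
        have h2 : r ^ g ≤ r ^ 5 := pow_le_pow_of_le_one hr0 (by linarith) (by omega)
        have e1 : (p : ℝ) * r ^ 4 = r ^ 2 := by
          have : (p : ℝ) * r ^ 4 = (r ^ 2 * p) * (r ^ 2) := by ring
          rw [this, hrx, one_mul]
        have e2 : 4 * (p : ℝ) * r ^ 5 = 4 * (r ^ 2 * r) := by
          have : 4 * (p : ℝ) * r ^ 5 = 4 * ((r ^ 2 * p) * (r ^ 2 * r)) := by ring
          rw [this, hrx, one_mul]
        have e3 : (p : ℝ) * r ^ (g - 1) ≤ p * r ^ 4 := mul_le_mul_of_nonneg_left h1 (by positivity)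
        have e4 : 4 * (p : ℝ) * r ^ g ≤ 4 * p * r ^ 5 :=
          mul_le_mul_of_nonneg_left h2 (by positivity)
        have e5 : r ^ 2 * r ≤ 1 / 5 * 0.5774 := mul_le_mul hx5 hr1 hr0 (by norm_num)
        linarith
      · have h7 : 7 ≤ p := by
          by_contra hlt
          have h46 : p = 4 ∨ p = 6 := by omega
          rcases h46 with h | h <;> subst h <;> revert hp <;> decide
        have h7' : (7 : ℝ) ≤ p := by exact_mod_cast h7
        have hx7 : r ^ 2 ≤ 1 / 7 := by
          have : r ^ 2 = 1 / p := by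
            rw [eq_div_iff (by positivity)]
            exact hrx
          rw [this]
          exact one_div_le_one_div_of_le (by norm_num) h7'
        have hr7 : r ≤ 0.378 := by
          by_contra h
          push Not at h
          have : (0.378 : ℝ) ^ 2 < r ^ 2 := pow_lt_pow_left₀ h (by norm_num) (by norm_num)
          norm_num at this
          linarith
        have h1 : r ^ (g - 1) ≤ r ^ 3 := pow_le_pow_of_le_one hr0 (by linarith) (by omega)
        have h2 : r ^ g ≤ r ^ 4 := pow_le_pow_of_le_one hr0 (by linarith) (by omega)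
        have e1 : (p : ℝ) * r ^ 3 = r := by
          have : (p : ℝ) * r ^ 3 = (r ^ 2 * p) * r := by ring
          rw [this, hrx, one_mul]
        have e2 : 4 * (p : ℝ) * r ^ 4 = 4 * r ^ 2 := by
          have : 4 * (p : ℝ) * r ^ 4 = 4 * ((r ^ 2 * p) * (r ^ 2)) := by ring
          rw [this, hrx, one_mul]
        have e3 : (p : ℝ) * r ^ (g - 1) ≤ p * r ^ 3 := mul_le_mul_of_nonneg_left h1 (by positivity)
        have e4 : 4 * (p : ℝ) * r ^ g ≤ 4 * p * r ^ 4 :=
          mul_le_mul_of_nonneg_left h2 (by positivity)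
        linarith

end Pool.Agent.MP_e32a7e_nt
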