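import Pool.Agent.Lib.MP_e32a7e_nt.OddLoc3
import Pool.Agent.Lib.MP_e32a7e_nt.RankZero

/-!
# Odd primes: dimensions at most four
-/

open Polynomial Finset

namespace Pool.Agent.MP_e32a7e_nt

section

variable {p f : ℕ} {mid : ℤ}

lemma r_facts (hp : 1 ≤ p) : 0 < ((√(p : ℝ))⁻¹) ∧ ((√(p : ℝ))⁻¹) ^ 2 = 1 / p ∧
    (p : ℝ) * ((√(p : ℝ))⁻¹) ^ 2 = 1 := by
  have hp0 : (0 : ℝ) < p := by
    have : 0 < p := by omega
    exact_mod_cast this
  have h1 : 0 < √(p : ℝ) := Real.sqrt_pos.mpr hp0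
  have h2 : ((√(p : ℝ))⁻¹) ^ 2 = 1 / p := by
    rw [inv_pow, Real.sq_sqrt hp0.le, one_div]
  exact ⟨inv_pos.mpr h1, h2, by rw [h2]; field_simp⟩

lemma mid_abs_le (g : ℕ) (hmid : |mid| ≤ 8 * (if f < g then (p : ℤ) else 1)) :
    |(mid : ℝ)| ≤ 8 * (if f < g then (p : ℝ) else 1) := by
  split_ifs at hmid ⊢ with h
  · exact_mod_cast hmid
  · exact_mod_cast hmid

lemma loc_small_three (hp : 7 ≤ p) (hf2 : 2 ≤ f) (hf : f ≤ 3) (hp2 : f = 2 → 19 ≤ p)
    (hmid : |mid| ≤ 8 * (if f < 3 then (p : ℤ) else 1))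
    (z : ℂ) (hz : aeval z (wPoly p 3 (bo p 3 f mid)) = 0) : ‖z‖ = √(p : ℝ) ∧ z.im ≠ 0 := by
  obtain ⟨hr0, hr2, hr3⟩ := r_facts (p := p) (by omega)
  have hm := mid_abs_le 3 hmid
  apply loc_plain p (by omega) 3 (by norm_num) _ (bo_zero p 3 f mid (by norm_num)) _ z hz
  set r := (√(p : ℝ))⁻¹ with hr
  have hpR : (7 : ℝ) ≤ p := by exact_mod_cast hp
  have b1 : beta 3 (bo p 3 f mid) 1 = 0 := by
    have h1 : dl 3 1 = 0 := by decide
    rw [beta, if_pos (by norm_num), bo, if_pos (by norm_num), if_neg (by norm_num), h1,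
      if_neg (by norm_num), if_neg (by omega)]
    simp
  have b2 : beta 3 (bo p 3 f mid) 2 = 1 := by
    have h1 : dl 3 2 = 1 := by decide
    rw [beta, if_pos (by norm_num), bo, if_pos (by norm_num), if_neg (by norm_num), h1,
      if_pos rfl, cc, if_pos hf2]
    simp
  have b3 : beta 3 (bo p 3 f mid) 3 = mid / 2 := by
    rw [beta, if_neg (by norm_num), if_pos rfl, bo_last]
  simp only [sum_range_succ, sum_range_zero, zero_add, b1, b2, b3]
  norm_num only [abs_zero, abs_one, abs_div, zero_mul, one_mul, Nat.abs_ofNat]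
  have hx : r ^ 2 ≤ 1 / 7 := by
    rw [hr2]
    exact one_div_le_one_div_of_le (by norm_num) hpR
  have hr1 : r ≤ 0.378 := by nlinarith
  rcases (by omega : f = 2 ∨ f = 3) with h | h
  · subst h
    rw [if_pos (by norm_num)] at hm
    have hp19 : (19 : ℝ) ≤ p := by exact_mod_cast hp2 rfl
    have hx' : r ^ 2 ≤ 1 / 19 := by
      rw [hr2]
      exact one_div_le_one_div_of_le (by norm_num) hp19
    have hr1' : r ≤ 0.2295 := by nlinarith
    have h3 : |(mid : ℝ)| / 2 * r ^ 3 ≤ 4 * r := by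
      calc |(mid : ℝ)| / 2 * r ^ 3 ≤ (8 * p) / 2 * r ^ 3 := by gcongr
        _ = 4 * ((p : ℝ) * r ^ 2) * r := by ring
        _ = 4 * r := by rw [hr3]; ring
    linarith
  · subst h
    rw [if_neg (by norm_num)] at hm
    have h3 : |(mid : ℝ)| / 2 * r ^ 3 ≤ 4 * (1 / 7) * 0.378 := by
      calc |(mid : ℝ)| / 2 * r ^ 3 ≤ (8 * 1) / 2 * r ^ 3 := by gcongr
        _ = 4 * r ^ 2 * r := by ring
        _ ≤ 4 * (1 / 7) * 0.378 := by gcongr
    linarith

lemma loc_small_four (hp : 7 ≤ p) (hf2 : 2 ≤ f) (hf : f ≤ 4) (hp2 : f = 2 → 17 ≤ p)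
    (hmid : |mid| ≤ 8 * (if f < 4 then (p : ℤ) else 1))
    (z : ℂ) (hz : aeval z (wPoly p 4 (bo p 4 f mid)) = 0) : ‖z‖ = √(p : ℝ) ∧ z.im ≠ 0 := by
  obtain ⟨hr0, hr2, hr3⟩ := r_facts (p := p) (by omega)
  have hm := mid_abs_le 4 hmid
  apply loc_plain p (by omega) 4 (by norm_num) _ (bo_zero p 4 f mid (by norm_num)) _ z hz
  set r := (√(p : ℝ))⁻¹ with hr
  have hpR : (7 : ℝ) ≤ p := by exact_mod_cast hp
  have b1 : beta 4 (bo p 4 f mid) 1 = 0 := by
    have h1 : dl 4 1 = 0 := by decide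
    rw [beta, if_pos (by norm_num), bo, if_pos (by norm_num), if_neg (by norm_num), h1,
      if_neg (by norm_num), if_neg (by omega)]
    simp
  have b2 : beta 4 (bo p 4 f mid) 2 = if f = 2 then 2 else 0 := by
    have h1 : dl 4 2 = 0 := by decide
    rw [beta, if_pos (by norm_num), bo, if_pos (by norm_num), if_neg (by norm_num), h1,
      if_neg (by norm_num), cc, if_pos hf2]
    by_cases h : f = 2
    · subst h; simp
    · rw [if_neg (by omega), if_neg h]; simp
  have b3 : beta 4 (bo p 4 f mid) 3 = if f = 2 then (2 * p : ℝ) else 2 := by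
    have h1 : dl 4 3 = 0 := by decide
    rw [beta, if_pos (by norm_num), bo, if_pos (by norm_num), if_neg (by norm_num), h1,
      if_neg (by norm_num), if_pos (Or.inr rfl), cc]
    by_cases h : f = 2
    · subst h; simp; ring
    · rw [if_pos (by omega), if_neg h]; simp
  have b4 : beta 4 (bo p 4 f mid) 4 = mid / 2 := by
    rw [beta, if_neg (by norm_num), if_pos rfl, bo_last]
  simp only [sum_range_succ, sum_range_zero, zero_add, b1, b2, b3, b4]
  norm_num only [abs_zero, abs_one, abs_div, zero_mul, one_mul, Nat.abs_ofNat]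
  have hx : r ^ 2 ≤ 1 / 7 := by
    rw [hr2]
    exact one_div_le_one_div_of_le (by norm_num) hpR
  have hr1 : r ≤ 0.378 := by nlinarith
  rcases (by omega : f = 2 ∨ f = 3 ∨ f = 4) with h | h | h
  · subst h
    rw [if_pos (by norm_num)] at hm
    rw [if_pos rfl, if_pos rfl]
    have hp17 : (17 : ℝ) ≤ p := by exact_mod_cast hp2 rfl
    have hx' : r ^ 2 ≤ 1 / 17 := by
      rw [hr2]
      exact one_div_le_one_div_of_le (by norm_num) hp17
    have hr1' : r ≤ 0.2426 := by nlinarith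
    have h3 : |(mid : ℝ)| / 2 * r ^ 4 ≤ 4 * r ^ 2 := by
      calc |(mid : ℝ)| / 2 * r ^ 4 ≤ (8 * p) / 2 * r ^ 4 := by gcongr
        _ = 4 * ((p : ℝ) * r ^ 2) * r ^ 2 := by ring
        _ = 4 * r ^ 2 := by rw [hr3]; ring
    have h4 : |2 * (p : ℝ)| * r ^ 3 = 2 * r := by
      rw [abs_of_nonneg (by positivity)]
      calc 2 * (p : ℝ) * r ^ 3 = 2 * (p * r ^ 2) * r := by ring
        _ = 2 * r := by rw [hr3]; ring
    rw [h4, Nat.abs_ofNat]
    linarith
  · subst h
    rw [if_pos (by norm_num)] at hm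
    rw [if_neg (by norm_num), if_neg (by norm_num)]
    have h3 : |(mid : ℝ)| / 2 * r ^ 4 ≤ 4 * r ^ 2 := by
      calc |(mid : ℝ)| / 2 * r ^ 4 ≤ (8 * p) / 2 * r ^ 4 := by gcongr
        _ = 4 * ((p : ℝ) * r ^ 2) * r ^ 2 := by ring
        _ = 4 * r ^ 2 := by rw [hr3]; ring
    have h4 : r ^ 3 ≤ 1 / 7 * 0.378 := by
      calc r ^ 3 = r ^ 2 * r := by ring
        _ ≤ 1 / 7 * 0.378 := by gcongr
    rw [Nat.abs_ofNat, abs_zero]
    linarith
  · subst h
    rw [if_neg (by norm_num)] at hm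
    rw [if_neg (by norm_num), if_neg (by norm_num)]
    have h3 : |(mid : ℝ)| / 2 * r ^ 4 ≤ 4 * (1 / 7) * (1 / 7) := by
      calc |(mid : ℝ)| / 2 * r ^ 4 ≤ (8 * 1) / 2 * r ^ 4 := by gcongr
        _ = 4 * r ^ 2 * r ^ 2 := by ring
        _ ≤ 4 * (1 / 7) * (1 / 7) := by gcongr
    have h4 : r ^ 3 ≤ 1 / 7 * 0.378 := by
      calc r ^ 3 = r ^ 2 * r := by ring
        _ ≤ 1 / 7 * 0.378 := by gcongr
    rw [Nat.abs_ofNat, abs_zero]
    linarith

end

lemma good_small_three (p : ℕ) (hp : p.Prime) (hp7 : 7 ≤ p) (f : ℕ) (hf2 : 2 ≤ f) (hf : f ≤ 3)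
    (h2 : f = 2 → 19 ≤ p) : Good p 3 f :=
  good_bo p hp (by omega) 3 f (by norm_num) (by omega) hf fun _ hmid z hz =>
    loc_small_three hp7 hf2 hf h2 hmid z hz

lemma good_small_four (p : ℕ) (hp : p.Prime) (hp7 : 7 ≤ p) (f : ℕ) (hf2 : 2 ≤ f) (hf : f ≤ 4)
    (h2 : f = 2 → 17 ≤ p) : Good p 4 f :=
  good_bo p hp (by omega) 4 f (by norm_num) (by omega) hf fun _ hmid z hz =>
    loc_small_four hp7 hf2 hf h2 hmid z hz

/-- Coefficients in dimension two. -/
def b22 (a : ℤ) (i : ℕ) : ℤ := if i = 0 then 1 else if i = 1 then 2 else a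

lemma good_two_two (p : ℕ) (hp : p.Prime) (hp11 : 11 ≤ p) : Good p 2 2 := by
  have hodd : Odd p := hp.odd_of_ne_two (by omega)
  obtain ⟨a, ha, hN⟩ : ∃ a : ℤ, (a = 4 ∨ a = 8) ∧
      (∑ i ∈ range 2, b22 a i * (1 + (p : ℤ) ^ (2 - i)) + b22 a 2) % 8 = 6 := by
    obtain ⟨k, hk⟩ := hodd
    have h4 : k % 2 = 0 ∨ k % 2 = 1 := by omega
    have hsum : ∀ a : ℤ, ∑ i ∈ range 2, b22 a i * (1 + (p : ℤ) ^ (2 - i)) + b22 a 2 =
        (1 + (p : ℤ) ^ 2) + 2 * (1 + p) + a := by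
      intro a
      simp [sum_range_succ, b22]
    rcases h4 with h | h
    · refine ⟨8, Or.inr rfl, ?_⟩
      obtain ⟨m, hm⟩ : ∃ m, k = 2 * m := ⟨k / 2, by omega⟩
      rw [hsum, hk, hm]
      push_cast
      have : (1 + (2 * (2 * (m : ℤ)) + 1) ^ 2) + 2 * (1 + (2 * (2 * (m : ℤ)) + 1)) + 8 =
          8 * (2 * m ^ 2 + 2 * m + 1) + 6 := by ring
      rw [this]
      omega
    · refine ⟨4, Or.inl rfl, ?_⟩
      obtain ⟨m, hm⟩ : ∃ m, k = 2 * m + 1 := ⟨k / 2, by omega⟩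
      rw [hsum, hk, hm]
      push_cast
      have : (1 + (2 * (2 * (m : ℤ) + 1) + 1) ^ 2) + 2 * (1 + (2 * (2 * (m : ℤ) + 1) + 1)) + 4 =
          8 * (2 * m ^ 2 + 4 * m + 2) + 6 := by ring
      rw [this]
      omega
  have hpR : (11 : ℝ) ≤ p := by exact_mod_cast hp11
  apply good_two p hp (by omega) 2 2 le_rfl le_rfl (b22 a) (by simp [b22])
  · intro i hi
    rcases (by omega : i = 0 ∨ i = 1) with h | h
    · subst h
      have : dl 2 0 = 1 := by decide
      rw [this]; simp [b22]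
    · subst h
      have : dl 2 1 = 0 := by decide
      rw [this]; simp [b22]
  · rcases ha with h | h <;> rw [h] <;> simp [b22]
  · exact hN
  · intro z hz
    obtain ⟨hr0, hr2, -⟩ := r_facts (p := p) (by omega)
    apply loc_plain p (by omega) 2 (by norm_num) (b22 a) (by simp [b22]) _ z hz
    set r := (√(p : ℝ))⁻¹ with hr
    have hx : r ^ 2 ≤ 1 / 11 := by
      rw [hr2]
      exact one_div_le_one_div_of_le (by norm_num) hpR
    have hr1 : r ≤ 0.3016 := by nlinarith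
    have b1 : beta 2 (b22 a) 1 = 2 := by
      rw [beta, if_pos (by norm_num)]; simp [b22]
    have b2 : beta 2 (b22 a) 2 = a / 2 := by
      rw [beta, if_neg (by norm_num), if_pos rfl]; simp [b22]
    simp only [sum_range_succ, sum_range_zero, zero_add, b1, b2, pow_one]
    have ha' : |(a : ℝ) / 2| ≤ 4 := by
      rcases ha with h | h <;> rw [h] <;> norm_num
    have h3 : |(a : ℝ) / 2| * r ^ 2 ≤ 4 * (1 / 11) := by gcongr
    rw [Nat.abs_ofNat]
    norm_num at h3 ⊢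
    linarith
  · intro k hk
    apply exp_middle p 2 (by norm_num) (b22 a) _ _ k hk
    · rcases ha with h | h <;> rw [h] <;> simp [b22]
    · simp [b22]
  · intro h
    have h3 : (p : ℤ) ∣ 8 := by
      have h4 : b22 a 2 = a := by simp [b22]
      rw [h4] at h
      rcases ha with h5 | h5
      · rw [h5] at h; exact dvd_trans h (by norm_num)
      · rw [h5] at h; exact h
    have := Int.le_of_dvd (by norm_num) h3
    omega
  · intro i hi1 hi2
    omega

/-- Coefficients for `(g, f) = (3, 0)`. -/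
def b30 (p : ℤ) (i : ℕ) : ℤ := if i = 0 then 1 else if i = 1 then 0 else if i = 2 then p else 2 * p

lemma hPoly_b30 (p : ℤ) : hPoly p 3 (b30 p) = X ^ 3 - C (2 * p) * X + C (2 * p) := by
  have h2 : dPoly p 2 = X * X - C p * 2 := by rw [dPoly_add_two, dPoly_one, dPoly_zero]
  have h3 : dPoly p 3 = X * (X * X - C p * 2) - C p * X := by
    rw [dPoly_add_two, h2, dPoly_one]
  unfold hPoly
  rw [sum_range_succ, sum_range_succ, sum_range_succ, sum_range_zero]
  have e0 : b30 p 0 = 1 := by simp [b30]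
  have e1 : b30 p 1 = 0 := by simp [b30]
  have e2 : b30 p 2 = p := by simp [b30]
  have e3 : b30 p 3 = 2 * p := by simp [b30]
  rw [e0, e1, e2, e3, Nat.sub_zero, h3]
  have e4 : 3 - 2 = 1 := rfl
  rw [e4, dPoly_one, C_mul, C_1, C_0, show (C (2 : ℤ) : ℤ[X]) = 2 from rfl]
  ring

lemma good_three_zero (p : ℕ) (hp : p.Prime) (hp5 : 5 ≤ p) : Good p 3 0 := by
  have hodd : Odd p := hp.odd_of_ne_two (by omega)
  have hpR : (5 : ℝ) ≤ p := by exact_mod_cast hp5
  have hs : 0 < √(p : ℝ) := Real.sqrt_pos.mpr (by linarith)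
  have hs2 : √(p : ℝ) ^ 2 = p := Real.sq_sqrt (by linarith)
  have hs3 : 2 < √(p : ℝ) := by
    rw [Real.lt_sqrt (by norm_num)]
    linarith
  have hb : b30 p 0 = 1 := by simp [b30]
  have hloc : ∀ z : ℂ, aeval z (wPoly p 3 (b30 p)) = 0 → ‖z‖ = √(p : ℝ) ∧ z.im ≠ 0 := by
    intro z hz
    set s := √(p : ℝ) with hsdef
    have hev : ∀ t : ℝ, aeval t (hPoly p 3 (b30 p)) = t ^ 3 - 2 * s ^ 2 * t + 2 * s ^ 2 := by
      intro t
      rw [hPoly_b30, hs2]
      simp [map_ofNat]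
    set t : ℕ → ℝ := fun i => if i = 0 then -2 * s else if i = 1 then 0 else if i = 2 then s
      else 2 * s with ht
    have t0 : t 0 = -2 * s := by simp [ht]
    have t1 : t 1 = 0 := by simp [ht]
    have t2 : t 2 = s := by simp [ht]
    have t3 : t 3 = 2 * s := by simp [ht]
    apply loc_of_signs p (by omega) 3 (by norm_num) (b30 p) hb t _ _ _ _ z hz
    · intro i hi
      rcases (by omega : i = 0 ∨ i = 1 ∨ i = 2) with h | h | h <;> subst h
      · rw [t0, t1]; linarith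
      · rw [t1, t2]; exact hs
      · rw [t2, t3]; linarith
    · rw [t0]; nlinarith
    · rw [t3]; nlinarith
    · have v0 : aeval (t 0) (hPoly p 3 (b30 p)) < 0 := by
        rw [hev, t0]
        have : (-2 * s) ^ 3 - 2 * s ^ 2 * (-2 * s) + 2 * s ^ 2 = s ^ 2 * (2 - 4 * s) := by ring
        rw [this]
        exact mul_neg_of_pos_of_neg (by positivity) (by linarith)
      have v1 : 0 < aeval (t 1) (hPoly p 3 (b30 p)) := by
        rw [hev, t1]
        have : (0 : ℝ) ^ 3 - 2 * s ^ 2 * 0 + 2 * s ^ 2 = 2 * s ^ 2 := by ring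
        rw [this]
        positivity
      have v2 : aeval (t 2) (hPoly p 3 (b30 p)) < 0 := by
        rw [hev, t2]
        have : s ^ 3 - 2 * s ^ 2 * s + 2 * s ^ 2 = s ^ 2 * (2 - s) := by ring
        rw [this]
        exact mul_neg_of_pos_of_neg (by positivity) (by linarith)
      have v3 : 0 < aeval (t 3) (hPoly p 3 (b30 p)) := by
        rw [hev, t3]
        have : (2 * s) ^ 3 - 2 * s ^ 2 * (2 * s) + 2 * s ^ 2 = s ^ 2 * (4 * s + 2) := by ring
        rw [this]
        positivity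
      intro i hi
      rcases (by omega : i = 0 ∨ i = 1 ∨ i = 2) with h | h | h <;> subst h
      · exact mul_neg_of_neg_of_pos v0 v1
      · exact mul_neg_of_pos_of_neg v1 v2
      · exact mul_neg_of_neg_of_pos v2 v3
  have hirr : Irreducible (hPoly p 3 (b30 p)) := by
    have hmon := hPoly_monic (p : ℤ) 3 (b30 p) (by norm_num) hb
    have hdeg := hPoly_natDegree (p : ℤ) 3 (b30 p) (by norm_num) hb
    have h0 : (Int.castRingHom (ZMod p)) (2 * (p : ℤ)) = 0 := by
      rw [eq_intCast, ZMod.intCast_zmod_eq_zero_iff_dvd]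
      exact dvd_mul_left _ _
    apply irreducible_of_map_eq_X_pow p hp _ hmon (by omega)
    · rw [hdeg, hPoly_b30, Polynomial.map_add, Polynomial.map_sub, Polynomial.map_pow, map_X,
        Polynomial.map_mul, map_C, h0]
      simp
    · rw [hPoly_b30]
      intro h
      simp only [coeff_add, coeff_sub, coeff_X_pow, coeff_C_mul, coeff_X_zero, coeff_C_zero] at h
      norm_num at h
      have h2 : (p : ℤ) ∣ 2 := by
        obtain ⟨k, hk⟩ := h
        have hp0 : (p : ℤ) ≠ 0 := by exact_mod_cast hp.ne_zero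
        refine ⟨k, mul_left_cancel₀ hp0 ?_⟩
        linear_combination hk
      have := Int.le_of_dvd (by norm_num) h2
      omega
  apply good_of p hp 3 0 (by norm_num) (by norm_num) (b30 p) hb hloc hirr
  · refine ⟨1, Or.inl ?_⟩
    rw [wPoly_eval_one, hPoly_b30]
    simp only [eval_add, eval_sub, eval_pow, eval_X, eval_mul, eval_C]
    obtain ⟨k, hk⟩ := hodd
    rcases (by omega : k % 2 = 0 ∨ k % 2 = 1) with h | h
    · obtain ⟨m, hm⟩ : ∃ m, k = 2 * m := ⟨k / 2, by omega⟩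
      rw [hk, hm]
      push_cast
      have : ((2 * (2 * (m : ℤ)) + 1) + 1) ^ 3 - 2 * (2 * (2 * m) + 1) * ((2 * (2 * m) + 1) + 1) +
          2 * (2 * (2 * m) + 1) = 8 * (8 * m ^ 3 + 8 * m ^ 2 + 4 * m) + 6 := by ring
      rw [this]
      omega
    · obtain ⟨m, hm⟩ : ∃ m, k = 2 * m + 1 := ⟨k / 2, by omega⟩
      rw [hk, hm]
      push_cast
      have : ((2 * (2 * (m : ℤ) + 1) + 1) + 1) ^ 3 -
          2 * (2 * (2 * m + 1) + 1) * ((2 * (2 * m + 1) + 1) + 1) +
          2 * (2 * (2 * m + 1) + 1) = 8 * (8 * m ^ 3 + 20 * m ^ 2 + 18 * m + 5) + 6 := by ring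
      rw [this]
      omega
  · intro k hk
    apply exp_middle p 3 (by norm_num) (b30 p) _ _ k hk
    · simp [b30, hp.ne_zero]
    · simp [b30, hp.ne_zero]
  · rw [hb]
    intro h
    have := Int.le_of_dvd (by norm_num) h
    omega
  · intro i hi1 hi2
    rcases (by omega : i = 1 ∨ i = 2 ∨ i = 3) with h | h | h <;> subst h <;> simp [b30]

end Pool.Agent.MP_e32a7e_nt
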