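import Pool.Agent.Lib.MP_e32a7e_nt.RankOne

/-!
# `p`-rank one: the prime `2` and small dimensions
-/

open Polynomial Finset

namespace Pool.Agent.MP_e32a7e_nt

lemma dPoly_one_mod_four (n : ℕ) (hn : 1 ≤ n) :
    (dPoly 2 n).eval 1 % 2 = 1 ∧ ((dPoly 2 (n + 1)).eval 1 % 2 = 1) ∧
      ((dPoly 2 (n + 1)).eval 1 + (dPoly 2 (n + 2)).eval 1) % 4 = 0 := by
  induction n, hn using Nat.le_induction with
  | base => simp [dPoly]
  | succ n hn ih =>
    obtain ⟨h1, h2, h3⟩ := ih
    have e : (dPoly 2 (n + 2)).eval 1 = (dPoly 2 (n + 1)).eval 1 - 2 * (dPoly 2 n).eval 1 := by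
      rw [dPoly_add_two]
      simp
    have e' : (dPoly 2 (n + 1 + 2)).eval 1 =
        (dPoly 2 (n + 1 + 1)).eval 1 - 2 * (dPoly 2 (n + 1)).eval 1 := by
      rw [dPoly_add_two]
      simp
    refine ⟨h2, ?_, ?_⟩
    · show (dPoly 2 (n + 2)).eval 1 % 2 = 1
      omega
    · rw [e']
      show ((dPoly 2 (n + 2)).eval 1 + ((dPoly 2 (n + 2)).eval 1 -
        2 * (dPoly 2 (n + 1)).eval 1)) % 4 = 0
      omega

/-- `p = 2`, `g ≥ 4`. -/
lemma good_one_two (g : ℕ) (hg : 4 ≤ g) : Good 2 g 1 := by
  set F : ℤ := (dPoly 2 g).eval (-1) + (dPoly 2 (g - 1)).eval (-1) with hF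
  obtain ⟨mid, hmid, hm1⟩ : ∃ mid : ℤ, (mid = 2 ∨ mid = -2) ∧
      (hPoly (2 : ℕ) g (b1 g mid)).eval (-1) ≠ 0 := by
    have hev : ∀ mid : ℤ, (hPoly (2 : ℕ) g (b1 g mid)).eval (-1) = F + mid := by
      intro mid
      rw [hPoly_b1 _ g (by omega)]
      simp [hF]
    by_cases h1 : F + 2 = 0
    · refine ⟨-2, Or.inr rfl, ?_⟩
      rw [hev]
      omega
    · exact ⟨2, Or.inl rfl, by rw [hev]; exact h1⟩
  have hm0 : ¬ ((2 : ℕ) ^ 2 : ℤ) ∣ (hPoly (2 : ℕ) g (b1 g mid)).eval 0 := by
    intro h1
    rw [hPoly_b1 _ g (by omega)] at h1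
    simp only [eval_add, eval_C] at h1
    have h2 := dPoly_eval_zero_sq_dvd (2 : ℕ) g (by omega)
    have h3 := dPoly_eval_zero_sq_dvd (2 : ℕ) (g - 1) (by omega)
    have h4 := (dvd_add_right (dvd_add h2 h3)).mp h1
    push_cast at h4
    rcases hmid with h | h <;> rw [h] at h4 <;> norm_num at h4
  have hmdvd : ((2 : ℕ) : ℤ) ∣ mid := by
    rcases hmid with h | h <;> rw [h] <;> norm_num
  have hmabs : |(mid : ℝ)| = 2 := by
    rcases hmid with h | h <;> rw [h] <;> norm_num
  have hb : b1 g mid 0 = 1 := by simp [b1]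
  -- location of the zeros
  have hloc : ∀ z : ℂ, aeval z (wPoly (2 : ℕ) g (b1 g mid)) = 0 →
      ‖z‖ = √((2 : ℕ) : ℝ) ∧ z.im ≠ 0 := by
    set r : ℝ := (√((2 : ℕ) : ℝ))⁻¹ with hr
    have hr0 : 0 ≤ r := by rw [hr]; positivity
    have hrx : r ^ 2 = 1 / 2 := by
      rw [hr, inv_pow, Real.sq_sqrt (by positivity)]
      norm_num
    have hr1 : r ≤ 0.7072 := by
      by_contra h
      push Not at h
      have : (0.7072 : ℝ) ^ 2 < r ^ 2 := pow_lt_pow_left₀ h (by norm_num) (by norm_num)
      norm_num at this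
      nlinarith
    intro z hz
    apply loc_sparse 2 (by omega) g (by omega) _ hb 1 g 0 0 1 (|(mid : ℝ)| / 2) 0 0 (by norm_num)
      (by positivity) le_rfl le_rfl r hr (beta_b1 g (by omega) mid) _ z hz
    rw [hmabs]
    have h1 : r ^ g ≤ r ^ 4 := pow_le_pow_of_le_one hr0 (by linarith) (by omega)
    have h2 : r ^ 4 = 1 / 4 := by
      have : r ^ 4 = (r ^ 2) ^ 2 := by ring
      rw [this, hrx]
      norm_num
    simp only [pow_one, pow_zero]
    linarith
  -- irreducibility
  have hirr : Irreducible (hPoly (2 : ℕ) g (b1 g mid)) := by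
    have hmon := hPoly_monic ((2 : ℕ) : ℤ) g (b1 g mid) (by omega) hb
    have hdeg := hPoly_natDegree ((2 : ℕ) : ℤ) g (b1 g mid) (by omega) hb
    have hone : (X + 1 : (ZMod 2)[X]) = X + C 1 := by simp
    apply irreducible_of_linear_unit 2 Nat.prime_two _ hmon (by omega) (g - 1) (X + 1)
      (by rw [hone]; exact X_add_C_ne_zero 1) (by rw [hone]; exact natDegree_X_add_C 1 |>.le)
      (b1_map 2 g (by omega) mid hmdvd) (by rw [h_coeff_zero]; exact hm0)
    intro t ht htp
    have hbd := int_root_bound 2 (by norm_num) g _ hloc t ht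
    have h2 : t ^ 2 < 8 := by
      push_cast at hbd
      linarith
    have h3 : t ≤ 2 := by nlinarith
    have h4 : -2 ≤ t := by nlinarith
    have h5 : t = 1 ∨ t = -1 := by
      push_cast at htp
      omega
    rcases h5 with h5 | h5
    · rw [h5, hPoly_b1 _ g (by omega)] at ht
      obtain ⟨-, -, h6⟩ := dPoly_one_mod_four (g - 2) (by omega)
      have e1 : g - 2 + 1 = g - 1 := by omega
      have e2 : g - 2 + 2 = g := by omega
      rw [e1, e2] at h6
      simp only [eval_add, eval_C] at ht
      push_cast at ht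
      rcases hmid with h | h <;> rw [h] at ht <;> omega
    · rw [h5] at ht
      exact hm1 ht
  apply good_one_of 2 Nat.prime_two g (by omega) (b1 g mid) hb hloc hirr
  · rw [b1, if_pos (Or.inr rfl)]
    norm_num
  · intro i hi1 hi2
    rw [b1, if_neg (by omega)]
    split_ifs
    · exact hmdvd
    · exact dvd_zero _

/-- Dimension one. -/
lemma good_one_one (p : ℕ) (hp : p.Prime) : Good p 1 1 := by
  have hp2 := hp.two_le
  have hpR : (2 : ℝ) ≤ p := by exact_mod_cast hp2
  have hs : 1 < √(p : ℝ) := by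
    rw [Real.lt_sqrt (by norm_num)]
    norm_num
    linarith
  have hs2 : √(p : ℝ) ^ 2 = p := Real.sq_sqrt (by positivity)
  have hh : hPoly p 1 (fun _ => 1) = X + C 1 := by
    simp [hPoly, dPoly]
  apply good_one_of p hp 1 le_rfl (fun _ => 1) rfl
  · intro z hz
    apply loc_of_signs p hp.pos 1 le_rfl _ rfl
      (fun i => if i = 0 then -(2 * √(p : ℝ)) else 2 * √(p : ℝ)) _ _ _ _ z hz
    · intro i hi
      have : i = 0 := by omega
      subst this
      simp only [if_true, zero_add, one_ne_zero, if_false]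
      linarith
    · simp only [if_true]
      nlinarith
    · simp only [one_ne_zero, if_false]
      nlinarith
    · intro i hi
      have : i = 0 := by omega
      subst this
      rw [hh]
      simp only [if_true, zero_add, one_ne_zero, if_false, map_add, aeval_X, aeval_C]
      simp only [algebraMap_int_eq, eq_intCast, Int.cast_one]
      nlinarith
  · rw [hh]
    exact (monic_X_add_C 1).irreducible_of_degree_eq_one (degree_X_add_C 1)
  · intro h
    have := Int.le_of_dvd (by norm_num) h
    omega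
  · intro i hi1 hi2
    omega

/-- Dimension two, odd primes. -/
lemma good_two_one (p : ℕ) (hp : p.Prime) (hp2 : p ≠ 2) : Good p 2 1 := by
  have hp3 : 3 ≤ p := by
    have := hp.two_le
    omega
  have hodd : (p : ℤ) % 2 = 1 := by
    obtain ⟨k, hk⟩ := hp.odd_of_ne_two hp2
    omega
  have hpR : (3 : ℝ) ≤ p := by exact_mod_cast hp3
  have hp0 : (0 : ℤ) < p := by exact_mod_cast hp.pos
  set s : ℝ := √(p : ℝ) with hs
  have hs2 : s ^ 2 = p := Real.sq_sqrt (by positivity)
  have hs0 : 0 ≤ s := Real.sqrt_nonneg _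
  have hs1 : 1.7 < s := by
    rw [hs, Real.lt_sqrt (by norm_num)]
    norm_num
    linarith
  set b : ℕ → ℤ := fun i => if i = 2 then p else 1 with hb
  have hh : hPoly p 2 b = X ^ 2 + X - C (p : ℤ) := by
    simp [hPoly, dPoly, sum_range_succ, hb]
    ring
  have hev : ∀ x : ℝ, aeval x (hPoly p 2 b) = x ^ 2 + x - p := by
    intro x
    rw [hh]
    simp
  have hloc : ∀ z : ℂ, aeval z (wPoly p 2 b) = 0 → ‖z‖ = √(p : ℝ) ∧ z.im ≠ 0 := by
    intro z hz
    apply loc_of_signs p hp.pos 2 (by norm_num) b rfl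
      (fun i => if i = 0 then -(2 * s) else if i = 1 then 0 else 2 * s) _ _ _ _ z hz
    · intro i hi
      have : i = 0 ∨ i = 1 := by omega
      rcases this with rfl | rfl
      · simp
        linarith
      · simp
        linarith
    · simp
      nlinarith
    · simp
      nlinarith
    · intro i hi
      have : i = 0 ∨ i = 1 := by omega
      have e2 : (0 : ℝ) < p := by linarith
      rcases this with rfl | rfl
      · rw [hev, hev]
        have e1 : 0 < (2 * s) ^ 2 + -(2 * s) - p := by nlinarith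
        have e3 := mul_pos e1 e2
        simp
        linarith
      · rw [hev, hev]
        have e1 : 0 < (2 * s) ^ 2 + (2 * s) - p := by nlinarith
        have e3 := mul_pos e2 e1
        simp
        linarith
  apply good_one_of p hp 2 (by norm_num) b rfl hloc
  · have hmon := hPoly_monic (p : ℤ) 2 b (by norm_num) rfl
    have hdeg := hPoly_natDegree (p : ℤ) 2 b (by norm_num) rfl
    have hone : (X + 1 : (ZMod p)[X]) = X + C 1 := by simp
    have : Fact p.Prime := ⟨hp⟩
    apply irreducible_of_linear_unit p hp _ hmon (by omega) 1 (X + 1)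
      (by rw [hone]; exact X_add_C_ne_zero 1) (by rw [hone]; exact natDegree_X_add_C 1 |>.le)
    · rw [hh]
      simp
      ring
    · rw [hh]
      simp
      intro h
      have h1 := Int.le_of_dvd hp0 h
      have : (3 : ℤ) ≤ p := by exact_mod_cast hp3
      nlinarith
    · intro t ht _
      rw [hh] at ht
      simp at ht
      have h1 : t * (t + 1) = p := by linarith
      have h2 : t * (t + 1) % 2 = 0 := by
        rcases Int.emod_two_eq_zero_or_one t with h | h
        · rw [Int.mul_emod, h]
          norm_num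
        · have : (t + 1) % 2 = 0 := by omega
          rw [Int.mul_emod, this]
          norm_num
      omega
  · simp only [hb]
    norm_num
    intro h
    have := Int.le_of_dvd (by norm_num) h
    omega
  · intro i hi1 hi2
    have : i = 2 := by omega
    subst this
    simp [hb]

/-- Irreducibility of a monic quadratic or cubic integer polynomial without integer zeros. -/
lemma irreducible_of_no_root (h : ℤ[X]) (hm : h.Monic) (h2 : 2 ≤ h.natDegree)
    (h3 : h.natDegree ≤ 3) (hr : ∀ t : ℤ, h.eval t ≠ 0) : Irreducible h := by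
  rw [hm.irreducible_iff_roots_eq_zero_of_degree_le_three h2 h3]
  rw [Multiset.eq_zero_iff_forall_notMem]
  intro t ht
  exact hr t (mem_roots'.mp ht).2

/-- `p = 2`, dimension two. -/
lemma good_two_one_two : Good 2 2 1 := by
  set b : ℕ → ℤ := fun i => if i = 2 then 0 else 1 with hb
  have hh : hPoly (2 : ℕ) 2 b = X ^ 2 + X - C 4 := by
    simp [hPoly, dPoly, sum_range_succ, hb]
    ring
  have hev : ∀ x : ℝ, aeval x (hPoly (2 : ℕ) 2 b) = x ^ 2 + x - 4 := by
    intro x
    rw [hh]
    simp only [map_sub, map_add, map_pow, aeval_X, aeval_C, algebraMap_int_eq,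
      Int.coe_castRingHom]
    norm_num
  have hloc : ∀ z : ℂ, aeval z (wPoly (2 : ℕ) 2 b) = 0 → ‖z‖ = √((2 : ℕ) : ℝ) ∧ z.im ≠ 0 := by
    intro z hz
    apply loc_of_signs 2 (by norm_num) 2 (by norm_num) b rfl
      (fun i => if i = 0 then -2.8 else if i = 1 then 0 else 2.8) _ _ _ _ z hz
    · intro i hi
      have : i = 0 ∨ i = 1 := by omega
      rcases this with rfl | rfl <;> norm_num
    · norm_num
    · norm_num
    · intro i hi
      have : i = 0 ∨ i = 1 := by omega
      rcases this with rfl | rfl <;> rw [hev, hev] <;> norm_num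
  apply good_one_of 2 Nat.prime_two 2 (by norm_num) b rfl hloc
  · have hmon := hPoly_monic ((2 : ℕ) : ℤ) 2 b (by norm_num) rfl
    have hdeg := hPoly_natDegree ((2 : ℕ) : ℤ) 2 b (by norm_num) rfl
    apply irreducible_of_no_root _ hmon (by omega) (by omega)
    intro t ht
    have hbd := int_root_bound 2 (by norm_num) 2 _ hloc t ht
    rw [hh] at ht
    simp at ht
    have h1 : t ≤ 2 := by push_cast at hbd; nlinarith
    have h2 : -2 ≤ t := by push_cast at hbd; nlinarith
    interval_cases t <;> omega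
  · simp [hb]
  · intro i hi1 hi2
    have : i = 2 := by omega
    subst this
    simp [hb]

/-- `p = 2`, dimension three. -/
lemma good_three_one_two : Good 2 3 1 := by
  set b : ℕ → ℤ := fun i => if i ≤ 1 then 1 else 2 with hb
  have hh : hPoly (2 : ℕ) 3 b = X ^ 3 + X ^ 2 - C 4 * X - C 2 := by
    simp [hPoly, dPoly, sum_range_succ, hb]
    norm_num
    ring
  have hev : ∀ x : ℝ, aeval x (hPoly (2 : ℕ) 3 b) = x ^ 3 + x ^ 2 - 4 * x - 2 := by
    intro x
    rw [hh]
    simp only [map_sub, map_add, map_mul, map_pow, aeval_X, aeval_C, algebraMap_int_eq,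
      Int.coe_castRingHom]
    norm_num
  have hloc : ∀ z : ℂ, aeval z (wPoly (2 : ℕ) 3 b) = 0 → ‖z‖ = √((2 : ℕ) : ℝ) ∧ z.im ≠ 0 := by
    intro z hz
    apply loc_of_signs 2 (by norm_num) 3 (by norm_num) b rfl
      (fun i => if i = 0 then -2.8 else if i = 1 then -2 else if i = 2 then 0 else 2) _ _ _ _ z hz
    · intro i hi
      have : i = 0 ∨ i = 1 ∨ i = 2 := by omega
      rcases this with rfl | rfl | rfl <;> norm_num
    · norm_num
    · norm_num
    · intro i hi
      have : i = 0 ∨ i = 1 ∨ i = 2 := by omega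
      rcases this with rfl | rfl | rfl <;> rw [hev, hev] <;> norm_num
  apply good_one_of 2 Nat.prime_two 3 (by norm_num) b rfl hloc
  · have hmon := hPoly_monic ((2 : ℕ) : ℤ) 3 b (by norm_num) rfl
    have hdeg := hPoly_natDegree ((2 : ℕ) : ℤ) 3 b (by norm_num) rfl
    apply irreducible_of_no_root _ hmon (by omega) (by omega)
    intro t ht
    have hbd := int_root_bound 2 (by norm_num) 3 _ hloc t ht
    rw [hh] at ht
    simp at ht
    have h1 : t ≤ 2 := by push_cast at hbd; nlinarith
    have h2 : -2 ≤ t := by push_cast at hbd; nlinarith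
    interval_cases t <;> omega
  · simp [hb]
  · intro i hi1 hi2
    simp only [hb]
    rw [if_neg (by omega)]
    norm_num

/-- **`p`-rank one, all cases.** -/
theorem good_rank_one (p : ℕ) (hp : p.Prime) (g : ℕ) (hg : 1 ≤ g) : Good p g 1 := by
  by_cases h1 : g = 1
  · subst h1
    exact good_one_one p hp
  by_cases hp2 : p = 2
  · subst hp2
    by_cases h2 : g = 2
    · subst h2
      exact good_two_one_two
    by_cases h3 : g = 3
    · subst h3
      exact good_three_one_two
    exact good_one_two g (by omega)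
  · by_cases h2 : g = 2
    · subst h2
      exact good_two_one p hp hp2
    exact good_one_odd p hp hp2 g (by omega)

end Pool.Agent.MP_e32a7e_nt
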