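import Pool.Agent.Lib.MP_e32a7e_nt.OddTable
import Pool.Agent.Lib.MP_e32a7e_nt.OddSmall
import Pool.Agent.Lib.MP_e32a7e_nt.RankOne2

/-!
# Odd primes
-/

namespace Pool.Agent.MP_e32a7e_nt

lemma good_odd_zero (p : ℕ) (hp : p.Prime) (hp2 : p ≠ 2) (g : ℕ) (hg : 3 ≤ g) : Good p g 0 := by
  have h2 := hp.two_le
  rcases Nat.lt_or_ge g 4 with h | h
  · have hg3 : g = 3 := by omega
    subst hg3
    by_cases h3 : p = 3
    · subst h3; exact good_3_3_0
    · have h4 : p ≠ 4 := by rintro rfl; exact absurd hp (by norm_num)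
      exact good_three_zero p hp (by omega)
  · by_cases h3 : p = 3
    · subst h3
      rcases (by omega : g = 4 ∨ g = 5 ∨ 6 ≤ g) with h' | h' | h'
      · subst h'; exact good_3_4_0
      · subst h'; exact good_3_5_0
      · exact good_zero_odd 3 hp hp2 g h (by norm_num) (fun _ => h')
    · by_cases h5 : p = 5
      · subst h5
        rcases (by omega : g = 4 ∨ 5 ≤ g) with h' | h'
        · subst h'; exact good_5_4_0
        · exact good_zero_odd 5 hp hp2 g h (fun _ => h') (by norm_num)
      · exact good_zero_odd p hp hp2 g h (fun h6 => absurd h6 h5) (fun h6 => absurd h6 h3)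

lemma good_three_table (g f : ℕ) (hf2 : 2 ≤ f) (hf : f ≤ g) (hg : g ≤ 9) : Good 3 g f := by
  rcases (by omega : g = 2 ∨ g = 3 ∨ g = 4 ∨ g = 5 ∨ g = 6 ∨ g = 7 ∨ g = 8 ∨ g = 9) with
    h | h | h | h | h | h | h | h
  · subst h
    rcases (by omega : f = 2) with h
    subst h; exact good_3_2_2
  · subst h
    rcases (by omega : f = 2 ∨ f = 3) with h | h
    · subst h; exact good_3_3_2
    · subst h; exact good_3_3_3
  · subst h
    rcases (by omega : f = 2 ∨ f = 3 ∨ f = 4) with h | h | h
    · subst h; exact good_3_4_2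
    · subst h; exact good_3_4_3
    · subst h; exact good_3_4_4
  · subst h
    rcases (by omega : f = 2 ∨ f = 3 ∨ f = 4 ∨ f = 5) with h | h | h | h
    · subst h; exact good_3_5_2
    · subst h; exact good_3_5_3
    · subst h; exact good_3_5_4
    · subst h; exact good_3_5_5
  · subst h
    rcases (by omega : f = 2 ∨ f = 3 ∨ f = 4 ∨ f = 5 ∨ f = 6) with h | h | h | h | h
    · subst h; exact good_3_6_2
    · subst h; exact good_3_6_3
    · subst h; exact good_3_6_4
    · subst h; exact good_3_6_5
    · subst h; exact good_3_6_6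
  · subst h
    rcases (by omega : f = 2 ∨ f = 3 ∨ f = 4 ∨ f = 5 ∨ f = 6 ∨ f = 7) with h | h | h | h | h | h
    · subst h; exact good_3_7_2
    · subst h; exact good_3_7_3
    · subst h; exact good_3_7_4
    · subst h; exact good_3_7_5
    · subst h; exact good_3_7_6
    · subst h; exact good_3_7_7
  · subst h
    rcases (by omega : f = 2 ∨ f = 3 ∨ f = 4 ∨ f = 5 ∨ f = 6 ∨ f = 7 ∨ f = 8) with
      h | h | h | h | h | h | h
    · subst h; exact good_3_8_2
    · subst h; exact good_3_8_3
    · subst h; exact good_3_8_4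
    · subst h; exact good_3_8_5
    · subst h; exact good_3_8_6
    · subst h; exact good_3_8_7
    · subst h; exact good_3_8_8
  · subst h
    rcases (by omega : f = 2 ∨ f = 3 ∨ f = 4 ∨ f = 5 ∨ f = 6 ∨ f = 7 ∨ f = 8 ∨ f = 9) with
      h | h | h | h | h | h | h | h
    · subst h; exact good_3_9_2
    · subst h; exact good_3_9_3
    · subst h; exact good_3_9_4
    · subst h; exact good_3_9_5
    · subst h; exact good_3_9_6
    · subst h; exact good_3_9_7
    · subst h; exact good_3_9_8
    · subst h; exact good_3_9_9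

lemma good_five_table (g f : ℕ) (hf2 : 2 ≤ f) (hf : f ≤ g) (hg : g ≤ 6) : Good 5 g f := by
  rcases (by omega : g = 2 ∨ g = 3 ∨ g = 4 ∨ g = 5 ∨ g = 6) with h | h | h | h | h
  · subst h
    rcases (by omega : f = 2) with h
    subst h; exact good_5_2_2
  · subst h
    rcases (by omega : f = 2 ∨ f = 3) with h | h
    · subst h; exact good_5_3_2
    · subst h; exact good_5_3_3
  · subst h
    rcases (by omega : f = 2 ∨ f = 3 ∨ f = 4) with h | h | h
    · subst h; exact good_5_4_2
    · subst h; exact good_5_4_3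
    · subst h; exact good_5_4_4
  · subst h
    rcases (by omega : f = 2 ∨ f = 3 ∨ f = 4 ∨ f = 5) with h | h | h | h
    · subst h; exact good_5_5_2
    · subst h; exact good_5_5_3
    · subst h; exact good_5_5_4
    · subst h; exact good_5_5_5
  · subst h
    rcases (by omega : f = 2 ∨ f = 3 ∨ f = 4 ∨ f = 5 ∨ f = 6) with h | h | h | h | h
    · subst h; exact good_5_6_2
    · subst h; exact good_5_6_3
    · subst h; exact good_5_6_4
    · subst h; exact good_5_6_5
    · subst h; exact good_5_6_6

/-- All `p`-ranks at least two, for odd primes. -/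
lemma good_odd_two (p : ℕ) (hp : p.Prime) (hp2 : p ≠ 2) (g f : ℕ) (hf2 : 2 ≤ f) (hf : f ≤ g) :
    Good p g f := by
  have h2 := hp.two_le
  by_cases h3 : p = 3
  · subst h3
    rcases Nat.lt_or_ge g 10 with h | h
    · exact good_three_table g f hf2 hf (by omega)
    · exact good_odd_large 3 hp hp2 g f hf2 hf (by omega) (by norm_num) (fun _ => h)
  by_cases h5 : p = 5
  · subst h5
    rcases Nat.lt_or_ge g 7 with h | h
    · exact good_five_table g f hf2 hf (by omega)
    · exact good_odd_large 5 hp hp2 g f hf2 hf (by omega) (fun _ => h) (by norm_num)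
  have hne : ∀ n : ℕ, ¬ n.Prime → p ≠ n := fun n hn h => hn (h ▸ hp)
  have n4 := hne 4 (by norm_num)
  have n6 := hne 6 (by norm_num)
  have n8 := hne 8 (by norm_num)
  have n9 := hne 9 (by norm_num)
  have n10 := hne 10 (by norm_num)
  have n12 := hne 12 (by norm_num)
  have n14 := hne 14 (by norm_num)
  have n15 := hne 15 (by norm_num)
  have n16 := hne 16 (by norm_num)
  have n18 := hne 18 (by norm_num)
  rcases Nat.lt_or_ge g 5 with h | h
  · rcases (by omega : g = 2 ∨ g = 3 ∨ g = 4) with h' | h' | h'
    · subst h'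
      have hf' : f = 2 := by omega
      subst hf'
      by_cases h7 : p = 7
      · subst h7; exact good_7_2_2
      · exact good_two_two p hp (by omega)
    · subst h'
      by_cases hf' : f = 2
      · subst hf'
        rcases (by omega : p = 7 ∨ p = 11 ∨ p = 13 ∨ p = 17 ∨ 19 ≤ p) with h6 | h6 | h6 | h6 | h6
        · subst h6; exact good_7_3_2
        · subst h6; exact good_11_3_2
        · subst h6; exact good_13_3_2
        · subst h6; exact good_17_3_2
        · exact good_small_three p hp (by omega) 2 le_rfl hf (fun _ => h6)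
      · exact good_small_three p hp (by omega) f hf2 hf (fun h6 => absurd h6 hf')
    · subst h'
      by_cases hf' : f = 2
      · subst hf'
        rcases (by omega : p = 7 ∨ p = 11 ∨ p = 13 ∨ 17 ≤ p) with h6 | h6 | h6 | h6
        · subst h6; exact good_7_4_2
        · subst h6; exact good_11_4_2
        · subst h6; exact good_13_4_2
        · exact good_small_four p hp (by omega) 2 le_rfl hf (fun _ => h6)
      · exact good_small_four p hp (by omega) f hf2 hf (fun h6 => absurd h6 hf')
  · exact good_odd_large p hp hp2 g f hf2 hf h (fun h6 => absurd h6 h5) (fun h6 => absurd h6 h3)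

/-- **Odd primes.** -/
theorem good_odd (p : ℕ) (hp : p.Prime) (hp2 : p ≠ 2) (g f : ℕ) (hf : f ≤ g)
    (h : 3 ≤ g ∨ 1 ≤ f) : Good p g f := by
  rcases (by omega : f = 0 ∨ f = 1 ∨ 2 ≤ f) with h1 | h1 | h1
  · subst h1
    exact good_odd_zero p hp hp2 g (by omega)
  · subst h1
    exact good_rank_one p hp g hf
  · exact good_odd_two p hp hp2 g f h1 hf

end Pool.Agent.MP_e32a7e_nt
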