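import Pool.Agent.Lib.MP_e32a7e_nt.Table

/-!
# Table for the prime two, second part
-/

namespace Pool.Agent.MP_e32a7e_nt

lemma good_2_15_3 : Good 2 15 3 :=
  good_of_chk 2 Nat.prime_two 15 3 [-2, 6, 0, 0, 0, 0, -2, 0, 0, 2, 0, 0, 1, 0, 0, 1] 16
    [-45, -44, -41, -37, -30, -22, -13, -3, 6, 14, 23, 30, 36, 41, 44, 45] 3 Nat.prime_three 1 (-3)
    (by decide +kernel)

lemma good_2_15_4 : Good 2 15 4 :=
  good_of_chk 2 Nat.prime_two 15 4 [6, 0, 0, -8, 0, 0, 0, 0, 0, -2, 0, 3, 0, 0, 0, 1] 50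
    [-141, -137, -126, -110, -94, -77, -50, -16, 17, 51, 77, 94, 110, 126, 137, 141] 3 Nat.prime_three 0 1
    (by decide +kernel)

lemma good_2_15_5 : Good 2 15 5 :=
  good_of_chk 2 Nat.prime_two 15 5 [2, 10, 0, 0, 0, -2, 0, 0, 0, 0, 1, 0, 0, 0, 0, 1] 50
    [-141, -138, -129, -114, -93, -69, -43, -16, 14, 44, 72, 96, 114, 128, 138, 141] 5 Nat.prime_five 3 3
    (by decide +kernel)

lemma good_2_15_6 : Good 2 15 6 :=
  good_of_chk 2 Nat.prime_two 15 6 [6, 6, 0, -2, 0, 0, 0, 0, 0, 1, 0, 0, 0, 0, 0, 1] 16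
    [-45, -43, -41, -36, -30, -22, -14, -4, 5, 14, 23, 31, 37, 41, 44, 45] 3 Nat.prime_three 0 1
    (by decide +kernel)

lemma good_2_15_7 : Good 2 15 7 :=
  good_of_chk 2 Nat.prime_two 15 7 [0, 0, 0, -2, 0, 0, 0, 0, -3, 1, 0, 0, 0, 0, 0, 1] 50
    [-141, -137, -128, -115, -95, -68, -41, -15, 13, 44, 72, 95, 113, 128, 138, 141] 3 Nat.prime_three 0 (-1)
    (by decide +kernel)

lemma good_2_15_8 : Good 2 15 8 :=
  good_of_chk 2 Nat.prime_two 15 8 [6, 0, 0, -2, 0, 0, 0, -3, 0, 1, 0, 0, 0, 0, 0, 1] 50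
    [-141, -137, -128, -113, -95, -71, -42, -13, 14, 42, 71, 95, 114, 128, 138, 141] 3 Nat.prime_three 0 1
    (by decide +kernel)

lemma good_2_15_9 : Good 2 15 9 :=
  good_of_chk 2 Nat.prime_two 15 9 [0, 6, 0, -2, 0, 0, -3, 0, 0, 1, 0, 0, 0, 0, 0, 1] 50
    [-141, -137, -128, -114, -94, -70, -43, -13, 15, 42, 70, 95, 114, 128, 138, 141] 3 Nat.prime_three 0 (-1)
    (by decide +kernel)

lemma good_2_16_3 : Good 2 16 3 :=
  good_of_chk 2 Nat.prime_two 16 3 [-6, 0, 2, 6, -2, 0, 0, 6, 2, -6, 4, 0, 0, 3, -1, 0, 1] 50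
    [-141, -139, -135, -125, -105, -79, -50, -22, 3, 33, 64, 85, 97, 113, 128, 137, 141] 3 Nat.prime_three 0 1
    (by decide +kernel)

lemma good_2_16_4 : Good 2 16 4 :=
  good_of_chk 2 Nat.prime_two 16 4 [0, -6, 2, 0, -2, 0, 0, 0, 2, 0, -2, 0, 3, 0, -1, 0, 1] 50
    [-141, -137, -129, -117, -102, -85, -61, -32, 0, 32, 61, 85, 103, 117, 129, 138, 141] 3 Nat.prime_three 0 1
    (by decide +kernel)

lemma good_2_16_5 : Good 2 16 5 :=
  good_of_chk 2 Nat.prime_two 16 5 [6, 0, 2, 0, -2, 0, 0, 0, 2, -6, -2, 3, 0, 0, -1, 0, 1] 64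
    [-181, -178, -170, -154, -128, -96, -69, -43, -6, 36, 77, 109, 131, 150, 167, 178, 181] 3 Nat.prime_three 0 1
    (by decide +kernel)

lemma good_2_16_6 : Good 2 16 6 :=
  good_of_chk 2 Nat.prime_two 16 6 [0, -6, 2, 0, -2, 0, 0, 0, 2, 0, 1, 0, 0, 0, -1, 0, 1] 50
    [-141, -138, -131, -120, -103, -80, -55, -28, 0, 29, 56, 81, 103, 121, 132, 138, 141] 3 Nat.prime_three 0 1
    (by decide +kernel)

lemma good_2_16_7 : Good 2 16 7 :=
  good_of_chk 2 Nat.prime_two 16 7 [0, 18, 2, 0, -2, 0, 0, 0, 2, 3, 1, 0, 0, 0, -1, 0, 1] 64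
    [-181, -177, -168, -152, -130, -104, -72, -36, 2, 37, 70, 102, 133, 156, 168, 176, 181] 3 Nat.prime_three 0 1
    (by decide +kernel)

lemma good_2_16_8 : Good 2 16 8 :=
  good_of_chk 2 Nat.prime_two 16 8 [6, 6, 2, 0, -2, 0, 0, 0, -1, 0, 1, 0, 0, 0, -1, 0, 1] 50
    [-141, -138, -131, -119, -103, -81, -55, -27, 0, 28, 56, 82, 104, 120, 132, 139, 141] 3 Nat.prime_three 0 1
    (by decide +kernel)

lemma good_2_16_9 : Good 2 16 9 :=
  good_of_chk 2 Nat.prime_two 16 9 [-6, 0, 2, 0, 4, 0, 0, -3, -1, 0, 1, 0, 0, 0, -1, 0, 1] 50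
    [-141, -138, -132, -120, -103, -81, -56, -28, 1, 28, 55, 82, 104, 120, 132, 139, 141] 3 Nat.prime_three 0 1
    (by decide +kernel)

lemma good_2_17_3 : Good 2 17 3 :=
  good_of_chk 2 Nat.prime_two 17 3 [0, 4, 6, 4, 0, -2, -12, 4, 6, -2, 6, -2, 0, -2, -3, 1, 0, 1] 64
    [-181, -177, -167, -148, -117, -92, -73, -51, -33, -2, 40, 73, 105, 135, 158, 172, 179, 181] 3 Nat.prime_three 0 1
    (by decide +kernel)

lemma good_2_17_4 : Good 2 17 4 :=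
  good_of_chk 2 Nat.prime_two 17 4 [-6, -2, 0, -2, 0, 4, 0, -2, 0, -2, 0, -2, 0, 1, 0, 1, 0, 1] 50
    [-141, -138, -130, -116, -99, -81, -61, -39, -14, 15, 40, 62, 82, 100, 117, 131, 138, 141] 3 Nat.prime_three 0 (-1)
    (by decide +kernel)

lemma good_2_17_5 : Good 2 17 5 :=
  good_of_chk 2 Nat.prime_two 17 5 [0, 4, 0, -2, 0, -2, -6, 4, 0, -2, 0, -2, 3, 1, 0, 1, 0, 1] 50
    [-141, -138, -131, -118, -98, -77, -58, -39, -18, 9, 39, 66, 85, 100, 116, 130, 138, 141] 3 Nat.prime_three 0 (-1)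
    (by decide +kernel)

lemma good_2_17_6 : Good 2 17 6 :=
  good_of_chk 2 Nat.prime_two 17 6 [6, -2, 0, -2, 0, -2, 0, -2, 0, -2, 0, 1, 0, 1, 0, 1, 0, 1] 50
    [-141, -138, -130, -117, -101, -83, -61, -36, -12, 12, 36, 61, 84, 102, 117, 130, 138, 141] 3 Nat.prime_three 0 1
    (by decide +kernel)

lemma good_2_17_7 : Good 2 17 7 :=
  good_of_chk 2 Nat.prime_two 17 7 [0, -2, 0, -2, 0, -2, 0, -2, 0, -2, 3, 1, 0, 1, 0, 1, 0, 1] 50
    [-141, -138, -130, -116, -100, -83, -63, -37, -10, 14, 35, 59, 83, 103, 117, 129, 138, 141] 3 Nat.prime_three 0 1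
    (by decide +kernel)

lemma good_2_17_8 : Good 2 17 8 :=
  good_of_chk 2 Nat.prime_two 17 8 [6, -2, 0, -2, 0, -2, 0, -2, 0, 1, 0, 1, 0, 1, 0, 1, 0, 1] 50
    [-141, -137, -129, -117, -102, -82, -60, -37, -13, 13, 37, 60, 82, 102, 118, 130, 138, 141] 3 Nat.prime_three 0 1
    (by decide +kernel)

lemma good_2_17_9 : Good 2 17 9 :=
  good_of_chk 2 Nat.prime_two 17 9 [-2, 34, 0, 0, 0, 0, 0, 0, 17, 0, 0, 0, 0, 0, 0, 0, 0, 1] 64
    [-181, -178, -167, -150, -135, -112, -77, -45, -20, 13, 53, 83, 105, 132, 156, 169, 176, 181] 17 (by norm_num : Nat.Prime 17) 2 1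
    (by decide +kernel)

end Pool.Agent.MP_e32a7e_nt
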