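import Pool.Agent.Lib.MP_e32a7e_nt.TwoLoc
import Pool.Agent.Lib.MP_e32a7e_nt.TwoTable2
import Pool.Agent.Lib.MP_e32a7e_nt.OddMain

/-!
# The prime two, and the main theorem
-/

namespace Pool.Agent.MP_e32a7e_nt

lemma table_two_2 (f : ℕ) (h1 : 2 ≤ f) (h2 : f ≤ 2) : Good 2 2 f := by
  obtain rfl : f = 2 := by omega
  exact good_2_2_2

lemma table_two_3 (f : ℕ) (h1 : 2 ≤ f) (h2 : f ≤ 3) : Good 2 3 f := by
  rcases (by omega : f = 2 ∨ f = 3) with
    h | h
  · subst h; exact good_2_3_2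
  · subst h; exact good_2_3_3

lemma table_two_4 (f : ℕ) (h1 : 2 ≤ f) (h2 : f ≤ 4) : Good 2 4 f := by
  rcases (by omega : f = 2 ∨ f = 3 ∨ f = 4) with
    h | h | h
  · subst h; exact good_2_4_2
  · subst h; exact good_2_4_3
  · subst h; exact good_2_4_4

lemma table_two_5 (f : ℕ) (h1 : 2 ≤ f) (h2 : f ≤ 5) : Good 2 5 f := by
  rcases (by omega : f = 2 ∨ f = 3 ∨ f = 4 ∨ f = 5) with
    h | h | h | h
  · subst h; exact good_2_5_2
  · subst h; exact good_2_5_3
  · subst h; exact good_2_5_4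
  · subst h; exact good_2_5_5

lemma table_two_6 (f : ℕ) (h1 : 2 ≤ f) (h2 : f ≤ 6) : Good 2 6 f := by
  rcases (by omega : f = 2 ∨ f = 3 ∨ f = 4 ∨ f = 5 ∨ f = 6) with
    h | h | h | h | h
  · subst h; exact good_2_6_2
  · subst h; exact good_2_6_3
  · subst h; exact good_2_6_4
  · subst h; exact good_2_6_5
  · subst h; exact good_2_6_6

lemma table_two_7 (f : ℕ) (h1 : 2 ≤ f) (h2 : f ≤ 7) : Good 2 7 f := by
  rcases (by omega : f = 2 ∨ f = 3 ∨ f = 4 ∨ f = 5 ∨ f = 6 ∨ f = 7) with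
    h | h | h | h | h | h
  · subst h; exact good_2_7_2
  · subst h; exact good_2_7_3
  · subst h; exact good_2_7_4
  · subst h; exact good_2_7_5
  · subst h; exact good_2_7_6
  · subst h; exact good_2_7_7

lemma table_two_8 (f : ℕ) (h1 : 2 ≤ f) (h2 : f ≤ 8) : Good 2 8 f := by
  rcases (by omega : f = 2 ∨ f = 3 ∨ f = 4 ∨ f = 5 ∨ f = 6 ∨ f = 7 ∨ f = 8) with
    h | h | h | h | h | h | h
  · subst h; exact good_2_8_2
  · subst h; exact good_2_8_3
  · subst h; exact good_2_8_4
  · subst h; exact good_2_8_5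
  · subst h; exact good_2_8_6
  · subst h; exact good_2_8_7
  · subst h; exact good_2_8_8

lemma table_two_9 (f : ℕ) (h1 : 2 ≤ f) (h2 : f ≤ 9) : Good 2 9 f := by
  rcases (by omega : f = 2 ∨ f = 3 ∨ f = 4 ∨ f = 5 ∨ f = 6 ∨ f = 7 ∨ f = 8 ∨ f = 9) with
    h | h | h | h | h | h | h | h
  · subst h; exact good_2_9_2
  · subst h; exact good_2_9_3
  · subst h; exact good_2_9_4
  · subst h; exact good_2_9_5
  · subst h; exact good_2_9_6
  · subst h; exact good_2_9_7
  · subst h; exact good_2_9_8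
  · subst h; exact good_2_9_9

lemma table_two_10 (f : ℕ) (h1 : 3 ≤ f) (h2 : f ≤ 10) : Good 2 10 f := by
  rcases (by omega : f = 3 ∨ f = 4 ∨ f = 5 ∨ f = 6 ∨ f = 7 ∨ f = 8 ∨ f = 9 ∨ f = 10) with
    h | h | h | h | h | h | h | h
  · subst h; exact good_2_10_3
  · subst h; exact good_2_10_4
  · subst h; exact good_2_10_5
  · subst h; exact good_2_10_6
  · subst h; exact good_2_10_7
  · subst h; exact good_2_10_8
  · subst h; exact good_2_10_9
  · subst h; exact good_2_10_10

lemma table_two_11 (f : ℕ) (h1 : 3 ≤ f) (h2 : f ≤ 11) : Good 2 11 f := by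
  rcases (by omega : f = 3 ∨ f = 4 ∨ f = 5 ∨ f = 6 ∨ f = 7 ∨ f = 8 ∨ f = 9 ∨ f = 10 ∨ f = 11) with
    h | h | h | h | h | h | h | h | h
  · subst h; exact good_2_11_3
  · subst h; exact good_2_11_4
  · subst h; exact good_2_11_5
  · subst h; exact good_2_11_6
  · subst h; exact good_2_11_7
  · subst h; exact good_2_11_8
  · subst h; exact good_2_11_9
  · subst h; exact good_2_11_10
  · subst h; exact good_2_11_11

lemma table_two_12 (f : ℕ) (h1 : 3 ≤ f) (h2 : f ≤ 12) : Good 2 12 f := by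
  rcases (by omega : f = 3 ∨ f = 4 ∨ f = 5 ∨ f = 6 ∨ f = 7 ∨ f = 8 ∨ f = 9 ∨ f = 10 ∨ f = 11 ∨ f = 12) with
    h | h | h | h | h | h | h | h | h | h
  · subst h; exact good_2_12_3
  · subst h; exact good_2_12_4
  · subst h; exact good_2_12_5
  · subst h; exact good_2_12_6
  · subst h; exact good_2_12_7
  · subst h; exact good_2_12_8
  · subst h; exact good_2_12_9
  · subst h; exact good_2_12_10
  · subst h; exact good_2_12_11
  · subst h; exact good_2_12_12

lemma table_two_13 (f : ℕ) (h1 : 3 ≤ f) (h2 : f ≤ 13) : Good 2 13 f := by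
  rcases (by omega : f = 3 ∨ f = 4 ∨ f = 5 ∨ f = 6 ∨ f = 7 ∨ f = 8 ∨ f = 9 ∨ f = 10 ∨ f = 11 ∨ f = 12 ∨ f = 13) with
    h | h | h | h | h | h | h | h | h | h | h
  · subst h; exact good_2_13_3
  · subst h; exact good_2_13_4
  · subst h; exact good_2_13_5
  · subst h; exact good_2_13_6
  · subst h; exact good_2_13_7
  · subst h; exact good_2_13_8
  · subst h; exact good_2_13_9
  · subst h; exact good_2_13_10
  · subst h; exact good_2_13_11
  · subst h; exact good_2_13_12
  · subst h; exact good_2_13_13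

lemma table_two_14 (f : ℕ) (h1 : 3 ≤ f) (h2 : f ≤ 14) : Good 2 14 f := by
  rcases (by omega : f = 3 ∨ f = 4 ∨ f = 5 ∨ f = 6 ∨ f = 7 ∨ f = 8 ∨ f = 9 ∨ f = 10 ∨ f = 11 ∨ f = 12 ∨ f = 13 ∨ f = 14) with
    h | h | h | h | h | h | h | h | h | h | h | h
  · subst h; exact good_2_14_3
  · subst h; exact good_2_14_4
  · subst h; exact good_2_14_5
  · subst h; exact good_2_14_6
  · subst h; exact good_2_14_7
  · subst h; exact good_2_14_8
  · subst h; exact good_2_14_9
  · subst h; exact good_2_14_10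
  · subst h; exact good_2_14_11
  · subst h; exact good_2_14_12
  · subst h; exact good_2_14_13
  · subst h; exact good_2_14_14

lemma table_two_15 (f : ℕ) (h1 : 3 ≤ f) (h2 : f ≤ 9) : Good 2 15 f := by
  rcases (by omega : f = 3 ∨ f = 4 ∨ f = 5 ∨ f = 6 ∨ f = 7 ∨ f = 8 ∨ f = 9) with
    h | h | h | h | h | h | h
  · subst h; exact good_2_15_3
  · subst h; exact good_2_15_4
  · subst h; exact good_2_15_5
  · subst h; exact good_2_15_6
  · subst h; exact good_2_15_7
  · subst h; exact good_2_15_8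
  · subst h; exact good_2_15_9

lemma table_two_16 (f : ℕ) (h1 : 3 ≤ f) (h2 : f ≤ 9) : Good 2 16 f := by
  rcases (by omega : f = 3 ∨ f = 4 ∨ f = 5 ∨ f = 6 ∨ f = 7 ∨ f = 8 ∨ f = 9) with
    h | h | h | h | h | h | h
  · subst h; exact good_2_16_3
  · subst h; exact good_2_16_4
  · subst h; exact good_2_16_5
  · subst h; exact good_2_16_6
  · subst h; exact good_2_16_7
  · subst h; exact good_2_16_8
  · subst h; exact good_2_16_9

lemma table_two_17 (f : ℕ) (h1 : 3 ≤ f) (h2 : f ≤ 9) : Good 2 17 f := by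
  rcases (by omega : f = 3 ∨ f = 4 ∨ f = 5 ∨ f = 6 ∨ f = 7 ∨ f = 8 ∨ f = 9) with
    h | h | h | h | h | h | h
  · subst h; exact good_2_17_3
  · subst h; exact good_2_17_4
  · subst h; exact good_2_17_5
  · subst h; exact good_2_17_6
  · subst h; exact good_2_17_7
  · subst h; exact good_2_17_8
  · subst h; exact good_2_17_9

/-- `p`-rank two. -/
lemma good_two_f_two (g : ℕ) (hg : 2 ≤ g) : Good 2 g 2 := by
  rcases (by omega : g = 2 ∨ g = 3 ∨ g = 4 ∨ g = 5 ∨ g = 6 ∨ g = 7 ∨ g = 8 ∨ g = 9 ∨ 10 ≤ g) with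
    h | h | h | h | h | h | h | h | h
  · subst h; exact good_2_2_2
  · subst h; exact good_2_3_2
  · subst h; exact good_2_4_2
  · subst h; exact good_2_5_2
  · subst h; exact good_2_6_2
  · subst h; exact good_2_7_2
  · subst h; exact good_2_8_2
  · subst h; exact good_2_9_2
  · exact good_two_rank_two g h

/-- `p`-rank at least three. -/
lemma good_two_f_three (g f : ℕ) (hf3 : 3 ≤ f) (hf : f ≤ g) : Good 2 g f := by
  by_cases h10 : 10 ≤ f
  · rcases (by omega : g = 10 ∨ g = 11 ∨ g = 12 ∨ g = 13 ∨ g = 14 ∨ 15 ≤ g) with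
      h | h | h | h | h | h
    · subst h; exact table_two_10 f hf3 hf
    · subst h; exact table_two_11 f hf3 hf
    · subst h; exact table_two_12 f hf3 hf
    · subst h; exact table_two_13 f hf3 hf
    · subst h; exact table_two_14 f hf3 hf
    · exact good_two_large h h10 hf
  · have h9 : f ≤ 9 := by omega
    rcases (by omega : g = 3 ∨ g = 4 ∨ g = 5 ∨ g = 6 ∨ g = 7 ∨ g = 8 ∨ g = 9 ∨ g = 10 ∨ g = 11 ∨
      g = 12 ∨ g = 13 ∨ g = 14 ∨ g = 15 ∨ g = 16 ∨ g = 17 ∨ 18 ≤ g) with
      h | h | h | h | h | h | h | h | h | h | h | h | h | h | h | h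
    · subst h; exact table_two_3 f (by omega) hf
    · subst h; exact table_two_4 f (by omega) hf
    · subst h; exact table_two_5 f (by omega) hf
    · subst h; exact table_two_6 f (by omega) hf
    · subst h; exact table_two_7 f (by omega) hf
    · subst h; exact table_two_8 f (by omega) hf
    · subst h; exact table_two_9 f (by omega) hf
    · subst h; exact table_two_10 f hf3 hf
    · subst h; exact table_two_11 f hf3 hf
    · subst h; exact table_two_12 f hf3 hf
    · subst h; exact table_two_13 f hf3 hf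
    · subst h; exact table_two_14 f hf3 hf
    · subst h; exact table_two_15 f hf3 h9
    · subst h; exact table_two_16 f hf3 h9
    · subst h; exact table_two_17 f hf3 h9
    · exact good_two_mid g f h hf3 h9

/-- **The prime two.** -/
theorem good_two_all (g f : ℕ) (hf : f ≤ g) (h : 3 ≤ g ∨ 1 ≤ f) : Good 2 g f := by
  rcases (by omega : f = 0 ∨ f = 1 ∨ f = 2 ∨ 3 ≤ f) with h1 | h1 | h1 | h1
  · subst h1
    exact good_two_zero g (by omega)
  · subst h1
    exact good_rank_one 2 Nat.prime_two g hf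
  · subst h1
    exact good_two_f_two g hf
  · exact good_two_f_three g f h1 hf

/-- **Main theorem.** -/
theorem good_all (p : ℕ) (hp : p.Prime) (g f : ℕ) (hf : f ≤ g) (h : 3 ≤ g ∨ 1 ≤ f) :
    Good p g f := by
  by_cases h2 : p = 2
  · subst h2
    exact good_two_all g f hf h
  · exact good_odd p hp h2 g f hf h

end Pool.Agent.MP_e32a7e_nt
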