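import Pool.Agent.Lib.MP_e32a7e_nt.Criterion
import Pool.Agent.Lib.MP_e32a7e_nt.Tail

/-!
# Odd primes: the binomial pattern modulo `2`
-/

open Polynomial Finset

namespace Pool.Agent.MP_e32a7e_nt

/-- The pattern modulo two. -/
def dl (g i : ℕ) : ℤ := if Even i then ((g.choose (i / 2) % 2 : ℕ) : ℤ) else 0

lemma dl_cases (g i : ℕ) : dl g i = 0 ∨ dl g i = 1 := by
  unfold dl
  split_ifs
  · have := Nat.mod_two_eq_zero_or_one (g.choose (i / 2))
    rcases this with h | h <;> rw [h] <;> simp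
  · left; rfl

/-- **Criterion for odd primes.** -/
theorem good_two (p : ℕ) (hp : p.Prime) (hp2 : p ≠ 2) (g f : ℕ) (hg : 2 ≤ g) (hf : f ≤ g)
    (b : ℕ → ℤ) (hb : b 0 = 1) (hpat : ∀ i < g, b i % 2 = dl g i) (hmid : b g % 2 = 0)
    (hN : (∑ i ∈ range g, b i * (1 + (p : ℤ) ^ (g - i)) + b g) % 8 = 6)
    (hloc : ∀ z : ℂ, aeval z (wPoly p g b) = 0 → ‖z‖ = √(p : ℝ) ∧ z.im ≠ 0)
    (hexp : ∀ k : ℕ, (∀ i, (wPoly p g b).coeff i ≠ 0 → k ∣ i) → k = 1)
    (h1 : ¬ (p : ℤ) ∣ b f) (h2 : ∀ i, f < i → i ≤ g → (p : ℤ) ∣ b i) : Good p g f := by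
  have hodd : Odd p := hp.odd_of_ne_two hp2
  have hN' : (wPoly p g b).eval 1 % 8 = 6 := by
    rw [wPoly_eval_one_sum]
    exact hN
  have hp1 : ((p : ℤ) : ZMod 2) = 1 := by
    obtain ⟨k, hk⟩ := hodd
    rw [hk]
    push_cast
    have : (2 : ZMod 2) = 0 := by decide
    rw [this]
    ring
  have hmap : (hPoly p g b).map (Int.castRingHom (ZMod 2)) = X ^ g := by
    apply hPoly_map_eq p 2 Nat.prime_two _ g b _
    · intro h
      have h3 : (2 : ℕ) ∣ p := by exact_mod_cast h
      exact hp2 ((Nat.prime_dvd_prime_iff_eq Nat.prime_two hp).mp h3).symm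
    · intro i hi
      rw [hp1, one_pow, mul_one]
      rcases lt_or_eq_of_le hi with h | h
      · have h3 := hpat i h
        have h4 : (b i : ZMod 2) = (dl g i : ZMod 2) := by
          rw [ZMod.intCast_eq_intCast_iff, Int.ModEq]
          rcases dl_cases g i with h5 | h5 <;> rw [h5] at h3 ⊢ <;> omega
        rw [h4]
        unfold dl
        split_ifs
        · rw [Int.cast_natCast, ZMod.natCast_mod]
        · simp
      · subst h
        have h3 : (b i : ZMod 2) = 0 := by
          rw [ZMod.intCast_zmod_eq_zero_iff_dvd]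
          push_cast
          omega
        rw [h3]
        split_ifs with h4
        · obtain ⟨m, hm⟩ := h4
          have h5 : i / 2 = m := by omega
          have h6 : 2 ∣ i.choose (i / 2) := by
            have h7 := Nat.two_dvd_centralBinom_of_one_le (n := m) (by omega)
            rw [Nat.centralBinom_eq_two_mul_choose] at h7
            rw [h5, hm]
            have : m + m = 2 * m := by ring
            rwa [this]
          exact ((ZMod.natCast_eq_zero_iff _ 2).mpr h6).symm
        · rfl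
  have hirr : Irreducible (hPoly p g b) := by
    have hd := hPoly_natDegree (p : ℤ) g b (by omega) hb
    apply irreducible_of_map_eq_X_pow 2 Nat.prime_two _ (hPoly_monic (p : ℤ) g b (by omega) hb)
      (by omega) (by rw [hd]; exact hmap)
    obtain ⟨k, hk⟩ := hodd
    apply coeff_zero_of_eval 2 _ g hg hmap (k + 1)
    have h3 : ((2 : ℕ) : ℤ) * ((k : ℤ) + 1) = (p : ℤ) + 1 := by
      rw [hk]; push_cast; ring
    rw [h3, ← wPoly_eval_one]
    push_cast
    omega
  exact good_of p hp g f (by omega) hf b hb hloc hirr ⟨1, Or.inl hN'⟩ hexp h1 h2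

/-- The divisibility factor. -/
def cc (p f i : ℕ) : ℤ := if i ≤ f then 1 else p

/-- The coefficients for odd primes. -/
def bo (p g f : ℕ) (mid : ℤ) (i : ℕ) : ℤ :=
  if i < g then (if i = 0 then 1 else
    cc p f i * (if dl g i = 1 then 1 else if i = f ∨ i = g - 1 then 2 else 0)) else mid

lemma bo_zero (p g f : ℕ) (mid : ℤ) (hg : 1 ≤ g) : bo p g f mid 0 = 1 := by
  rw [bo, if_pos (by omega), if_pos rfl]

lemma bo_last (p g f : ℕ) (mid : ℤ) : bo p g f mid g = mid := by
  rw [bo, if_neg (lt_irrefl g)]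

lemma cc_odd (p f i : ℕ) (hp : Odd p) : cc p f i % 2 = 1 := by
  unfold cc
  split_ifs
  · norm_num
  · obtain ⟨k, hk⟩ := hp
    omega

lemma bo_mod_two (p g f : ℕ) (mid : ℤ) (hp : Odd p) (i : ℕ) (hi : i < g) :
    bo p g f mid i % 2 = dl g i := by
  rw [bo, if_pos hi]
  split_ifs with h1 h2 h3
  · subst h1
    simp [dl]
  · rw [mul_one, h2]
    exact cc_odd p f i hp
  · rcases dl_cases g i with h | h
    · rw [h]; omega
    · exact absurd h h2
  · rcases dl_cases g i with h | h
    · rw [h]; omega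
    · exact absurd h h2

/-- The choice of the middle coefficient. -/
lemma exists_mid (R u : ℤ) (hR : R % 2 = 0) (hu : u % 2 = 1) :
    ∃ c : ℤ, (c = 8 ∨ c = 4 ∨ c = 2 ∨ c = -2) ∧ (R + u * c) % 8 = 6 := by
  obtain ⟨k, hk⟩ : ∃ k, u = 2 * k + 1 := ⟨u / 2, by omega⟩
  obtain ⟨m, hm⟩ : ∃ m, R = 2 * m := ⟨R / 2, by omega⟩
  have h4 : m % 4 = 0 ∨ m % 4 = 1 ∨ m % 4 = 2 ∨ m % 4 = 3 := by omega
  rcases h4 with h | h | h | h
  · -- R = 0 mod 8 : need `u c = 6`
    rcases Int.emod_two_eq_zero_or_one k with h' | h'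
    · exact ⟨-2, by norm_num, by rw [hk, hm]; omega⟩
    · exact ⟨2, by norm_num, by rw [hk, hm]; omega⟩
  · exact ⟨4, by norm_num, by rw [hk, hm]; omega⟩
  · rcases Int.emod_two_eq_zero_or_one k with h' | h'
    · exact ⟨2, by norm_num, by rw [hk, hm]; omega⟩
    · exact ⟨-2, by norm_num, by rw [hk, hm]; omega⟩
  · exact ⟨8, by norm_num, by rw [hk, hm]; omega⟩

lemma bo_sum_indep (p g f : ℕ) (m1 m2 : ℤ) :
    ∑ i ∈ range g, bo p g f m1 i * (1 + (p : ℤ) ^ (g - i)) =
      ∑ i ∈ range g, bo p g f m2 i * (1 + (p : ℤ) ^ (g - i)) := by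
  apply sum_congr rfl
  intro i hi
  rw [bo, bo, if_pos (mem_range.mp hi), if_pos (mem_range.mp hi)]

/-- All requirements except the location of the zeros. -/
theorem good_bo (p : ℕ) (hp : p.Prime) (hp2 : p ≠ 2) (g f : ℕ) (hg : 3 ≤ g) (hf2 : 1 ≤ f)
    (hf : f ≤ g)
    (hloc : ∀ mid : ℤ, |mid| ≤ 8 * (if f < g then (p : ℤ) else 1) →
      ∀ z : ℂ, aeval z (wPoly p g (bo p g f mid)) = 0 → ‖z‖ = √(p : ℝ) ∧ z.im ≠ 0) :
    Good p g f := by
  have hodd : Odd p := hp.odd_of_ne_two hp2
  have hp3 : 3 ≤ p := by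
    have := hp.two_le
    omega
  set u : ℤ := if f < g then (p : ℤ) else 1 with hu
  have hu1 : u % 2 = 1 := by
    rw [hu]
    split_ifs
    · obtain ⟨k, hk⟩ := hodd
      omega
    · norm_num
  set R : ℤ := ∑ i ∈ range g, bo p g f 0 i * (1 + (p : ℤ) ^ (g - i)) with hR
  have hR2 : R % 2 = 0 := by
    have : (2 : ℤ) ∣ R := by
      rw [hR]
      apply dvd_sum
      intro i _
      apply dvd_mul_of_dvd_right
      have h3 : Odd ((p : ℤ) ^ (g - i)) := Odd.pow (by exact_mod_cast hodd)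
      obtain ⟨k, hk⟩ := h3
      exact ⟨k + 1, by rw [hk]; ring⟩
    omega
  obtain ⟨c, hc, hc2⟩ := exists_mid R u hR2 hu1
  set mid : ℤ := u * c with hmid
  have hu0 : 0 < u := by
    rw [hu]
    split_ifs
    · exact_mod_cast hp.pos
    · norm_num
  have hmne : mid ≠ 0 := by
    rw [hmid]
    apply mul_ne_zero hu0.ne'
    rcases hc with h | h | h | h <;> rw [h] <;> norm_num
  have hmabs : |mid| ≤ 8 * u := by
    rw [hmid, abs_mul, abs_of_pos hu0, mul_comm]
    apply mul_le_mul_of_nonneg_right _ hu0.le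
    rcases hc with h | h | h | h <;> rw [h] <;> norm_num
  have hlast := bo_last p g f mid
  have hpn2 : ¬ (p : ℤ) ∣ 2 := by
    intro h
    have := Int.le_of_dvd (by norm_num) h
    omega
  have hpn1 : ¬ (p : ℤ) ∣ 1 := by
    intro h
    have := Int.le_of_dvd (by norm_num) h
    omega
  have hgm1 : bo p g f mid (g - 1) ≠ 0 := by
    rw [bo, if_pos (by omega), if_neg (by omega)]
    apply mul_ne_zero
    · unfold cc
      split_ifs
      · norm_num
      · exact_mod_cast hp.ne_zero
    · split_ifs with h3 h4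
      · norm_num
      · norm_num
      · exact absurd (Or.inr rfl) h4
  apply good_two p hp hp2 g f (by omega) hf (bo p g f mid) (bo_zero p g f mid (by omega))
  · intro i hi
    exact bo_mod_two p g f mid hodd i hi
  · rw [hlast, hmid]
    have : c % 2 = 0 := by
      rcases hc with h | h | h | h <;> rw [h] <;> norm_num
    obtain ⟨k, hk⟩ : ∃ k, c = 2 * k := ⟨c / 2, by omega⟩
    rw [hk, show u * (2 * k) = 2 * (u * k) by ring]
    omega
  · rw [hlast, bo_sum_indep p g f mid 0]
    exact hc2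
  · exact hloc mid hmabs
  · intro k hk
    exact exp_middle p g (by omega) _ (by rw [hlast]; exact hmne) hgm1 k hk
  · rcases lt_or_eq_of_le hf with h | h
    · rw [bo, if_pos h, if_neg (by omega), cc, if_pos le_rfl, one_mul]
      split_ifs with h3 h4
      · exact hpn1
      · exact hpn2
      · exact absurd (Or.inl rfl) h4
    · subst h
      rw [hlast, hmid, hu, if_neg (lt_irrefl f), one_mul]
      rcases hc with h | h | h | h
      · rw [h]
        intro hd
        have h3 : p ∣ 2 ^ 3 := by exact_mod_cast hd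
        exact hp2 ((Nat.prime_dvd_prime_iff_eq hp Nat.prime_two).mp (hp.dvd_of_dvd_pow h3))
      · rw [h]
        intro hd
        have h3 : p ∣ 2 ^ 2 := by exact_mod_cast hd
        exact hp2 ((Nat.prime_dvd_prime_iff_eq hp Nat.prime_two).mp (hp.dvd_of_dvd_pow h3))
      · rw [h]
        exact hpn2
      · rw [h, dvd_neg]
        exact hpn2
  · intro i hi1 hi2
    rcases lt_or_eq_of_le hi2 with h | h
    · rw [bo, if_pos h, if_neg (by omega), cc, if_neg (by omega)]
      exact dvd_mul_right _ _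
    · subst h
      rw [hlast, hmid, hu, if_pos hi1]
      exact dvd_mul_right _ _

end Pool.Agent.MP_e32a7e_nt
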