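import Pool.Agent.Lib.MP_e32a7e_nt.OddFamily

/-!
# Odd primes: location of the zeros for the binomial pattern
-/

open Polynomial Finset

namespace Pool.Agent.MP_e32a7e_nt

section

variable {p g f : ℕ} {mid : ℤ}

lemma cc_bounds (hp : 1 ≤ p) (i : ℕ) : 0 ≤ cc p f i ∧ cc p f i ≤ p := by
  unfold cc
  split_ifs
  · exact ⟨by norm_num, by exact_mod_cast hp⟩
  · exact ⟨by positivity, le_rfl⟩

/-- The basic bound for the coefficients. -/
lemma beta_bo_le (hp : 1 ≤ p) (hmid : |mid| ≤ 8 * (if f < g then (p : ℤ) else 1)) (i : ℕ)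
    (hi : 1 ≤ i) :
    |beta g (bo p g f mid) i| ≤ (if Even i then (p : ℝ) else 0) + (if i = f then 2 else 0) +
      (if i = g - 1 then (2 * p : ℝ) else 0) + (if i = g then (4 * p : ℝ) else 0) +
      (if i = 0 then 0 else 0) := by
  have hp0 : (0 : ℝ) ≤ p := by positivity
  have hp1 : (1 : ℝ) ≤ p := by exact_mod_cast hp
  have h1 : (0 : ℝ) ≤ (if Even i then (p : ℝ) else 0) := by split_ifs <;> linarith
  have h2 : (0 : ℝ) ≤ (if i = f then (2 : ℝ) else 0) := by split_ifs <;> norm_num
  have h3 : (0 : ℝ) ≤ (if i = g - 1 then (2 * p : ℝ) else 0) := by split_ifs <;> linarith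
  have h4 : (0 : ℝ) ≤ (if i = g then (4 * p : ℝ) else 0) := by split_ifs <;> linarith
  have h5 : (if i = 0 then (0 : ℝ) else 0) = 0 := by split_ifs <;> rfl
  rw [h5, add_zero]
  rcases lt_trichotomy i g with h | h | h
  · rw [beta, if_pos h, bo, if_pos h, if_neg (by omega)]
    obtain ⟨hc1, hc2⟩ := cc_bounds (p := p) (f := f) hp i
    have hc1' : (0 : ℝ) ≤ (cc p f i : ℝ) := by exact_mod_cast hc1
    have hc2' : (cc p f i : ℝ) ≤ p := by exact_mod_cast hc2
    by_cases e1 : dl g i = 1
    · have hev : Even i := by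
        by_contra hne
        rw [dl, if_neg hne] at e1
        exact absurd e1 (by norm_num)
      rw [if_pos e1, mul_one, abs_of_nonneg hc1']
      rw [if_pos hev] at h1 ⊢
      linarith
    · rw [if_neg e1]
      by_cases e2 : i = f
      · rw [if_pos (Or.inl e2), cc, if_pos e2.le]
        rw [if_pos e2] at h2 ⊢
        norm_num
        linarith
      · by_cases e3 : i = g - 1
        · rw [if_pos (Or.inr e3)]
          rw [if_pos e3] at h3 ⊢
          push_cast
          rw [abs_of_nonneg (by linarith)]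
          linarith
        · rw [if_neg (by tauto)]
          simp only [mul_zero, Int.cast_zero, abs_zero]
          linarith
  · subst h
    rw [beta, if_neg (lt_irrefl i), if_pos rfl, bo_last]
    have h6 : (|(mid : ℝ)|) ≤ 8 * p := by
      have h7 : |mid| ≤ 8 * (p : ℤ) := by
        refine hmid.trans ?_
        split_ifs
        · exact le_rfl
        · have : (1 : ℤ) ≤ p := by exact_mod_cast hp
          linarith
      exact_mod_cast h7
    rw [abs_div, abs_of_pos (by norm_num : (0 : ℝ) < 2)]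
    rw [if_pos rfl] at h4 ⊢
    linarith
  · rw [beta_eq_zero h, abs_zero]
    linarith

/-- Location from a bound of the first coefficients. -/
lemma loc_bo (hp : 2 ≤ p) (hg : 3 ≤ g)
    (hmid : |mid| ≤ 8 * (if f < g then (p : ℤ) else 1)) (r x : ℝ) (hr : r = (√(p : ℝ))⁻¹)
    (hx : x = 1 / p) (J : ℕ) (hJ : 2 * J ≤ g) (Pre : ℝ)
    (hPre : ∑ i ∈ range (2 * J), |beta g (bo p g f mid) (i + 1)| * r ^ (i + 1) ≤ Pre)
    (hlt : Pre + p * (x ^ (J + 1) / (1 - x)) + (if 2 * J < f then 2 * r ^ f else 0) +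
      2 * p * r ^ (g - 1) + 4 * p * r ^ g < 1)
    (z : ℂ) (hz : aeval z (wPoly p g (bo p g f mid)) = 0) : ‖z‖ = √(p : ℝ) ∧ z.im ≠ 0 := by
  have hp0 : (0 : ℝ) < p := by
    have : 0 < p := by omega
    exact_mod_cast this
  have hp1 : (1 : ℝ) < p := by
    have : 1 < p := by omega
    exact_mod_cast this
  have hr0 : 0 ≤ r := by rw [hr]; positivity
  have hrx : r ^ 2 = x := by
    rw [hr, hx, inv_pow, Real.sq_sqrt hp0.le, one_div]
  have hx1 : x < 1 := by
    rw [hx, div_lt_one hp0]
    exact hp1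
  apply loc_plain p (by omega) g (by omega) _ (bo_zero p g f mid (by omega)) _ z hz
  rw [← hr, sum_split _ (2 * J) g hJ]
  have htail := tail_bound r x hr0 hrx hx1 J (g - 2 * J) f (g - 1) g 0 p 2 (2 * p) (4 * p) 0
    hp0.le (by norm_num) (by positivity) (by positivity) le_rfl
    (fun i => |beta g (bo p g f mid) i|) (fun i hi => beta_bo_le (by omega) hmid i (by omega))
  have h1 : (if 2 * J < g - 1 then (2 * p : ℝ) * r ^ (g - 1) else 0) ≤ 2 * p * r ^ (g - 1) := by
    split_ifs
    · exact le_rfl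
    · positivity
  have h2 : (if 2 * J < g then (4 * p : ℝ) * r ^ g else 0) ≤ 4 * p * r ^ g := by
    split_ifs
    · exact le_rfl
    · positivity
  have h3 : (if 2 * J < 0 then (0 : ℝ) * r ^ 0 else 0) = 0 := by simp
  rw [h3] at htail
  linarith

lemma prefix_two (F : ℕ → ℝ) : ∑ i ∈ range (2 * 1), F i = F 0 + F 1 := by
  simp [sum_range_succ]

lemma beta_bo_one (hg : 3 ≤ g) (hf : 2 ≤ f) : beta g (bo p g f mid) 1 = 0 := by
  rw [beta, if_pos (by omega), bo, if_pos (by omega), if_neg (by omega), if_neg, if_neg]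
  · simp
  · omega
  · simp [dl]

lemma beta_bo_two (hg : 4 ≤ g) (hf : 2 ≤ f) : |beta g (bo p g f mid) 2| ≤ if f = 2 then 2 else 1 := by
  rw [beta, if_pos (by omega), bo, if_pos (by omega), if_neg (by omega), cc, if_pos hf, one_mul]
  by_cases h : f = 2
  · rw [if_pos h]
    split_ifs <;> norm_num
  · rw [if_neg h]
    split_ifs
    · norm_num
    · omega
    · norm_num

/-- `p ≥ 7`. -/
lemma loc_seven (hp : 7 ≤ p) (hg : 5 ≤ g) (hf2 : 2 ≤ f)
    (hmid : |mid| ≤ 8 * (if f < g then (p : ℤ) else 1))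
    (z : ℂ) (hz : aeval z (wPoly p g (bo p g f mid)) = 0) : ‖z‖ = √(p : ℝ) ∧ z.im ≠ 0 := by
  set r : ℝ := (√(p : ℝ))⁻¹ with hr
  set x : ℝ := 1 / p with hx
  have hp7 : (7 : ℝ) ≤ p := by exact_mod_cast hp
  have hp0 : (0 : ℝ) < p := by linarith
  have hr0 : 0 ≤ r := by rw [hr]; positivity
  have hrx : r ^ 2 = x := by
    rw [hr, hx, inv_pow, Real.sq_sqrt hp0.le, one_div]
  have hpx : p * x = 1 := by rw [hx]; field_simp
  have hx0 : 0 < x := by rw [hx]; positivity
  have hx7 : x ≤ 1 / 7 := by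
    rw [hx]
    exact one_div_le_one_div_of_le (by norm_num) hp7
  have hr1 : r ≤ 0.378 := by
    by_contra h
    push Not at h
    have : (0.378 : ℝ) ^ 2 < r ^ 2 := pow_lt_pow_left₀ h (by norm_num) (by norm_num)
    rw [hrx] at this
    norm_num at this
    linarith
  have hgeo : x / (1 - x) ≤ 1 / 6 := by
    rw [div_le_div_iff₀ (by linarith) (by norm_num)]
    linarith
  have hA : p * (x ^ (1 + 1) / (1 - x)) = x / (1 - x) := by
    rw [show (1 + 1) = 2 from rfl, pow_two, ← mul_div_assoc, ← mul_assoc, hpx, one_mul]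
  have hD : 2 * p * r ^ (g - 1) ≤ 2 * x := by
    have h1 : r ^ (g - 1) ≤ r ^ 4 := pow_le_pow_of_le_one hr0 (by linarith) (by omega)
    have h2 : r ^ 4 = x ^ 2 := by rw [← hrx]; ring
    calc 2 * p * r ^ (g - 1) ≤ 2 * p * r ^ 4 := by
          apply mul_le_mul_of_nonneg_left h1 (by positivity)
      _ = 2 * (p * x) * x := by rw [h2]; ring
      _ = 2 * x := by rw [hpx]; ring
  have hM : 4 * p * r ^ g ≤ 4 * x * r := by
    have h1 : r ^ g ≤ r ^ 5 := pow_le_pow_of_le_one hr0 (by linarith) (by omega)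
    have h2 : r ^ 5 = x ^ 2 * r := by rw [← hrx]; ring
    calc 4 * p * r ^ g ≤ 4 * p * r ^ 5 := by
          apply mul_le_mul_of_nonneg_left h1 (by positivity)
      _ = 4 * (p * x) * x * r := by rw [h2]; ring
      _ = 4 * x * r := by rw [hpx]; ring
  have hxr : x * r ≤ 0.054 := by nlinarith
  by_cases h2 : f = 2
  · apply loc_bo (by omega) (by omega) hmid r x hr hx 1 (by omega) (2 * x) _ _ z hz
    · rw [prefix_two, beta_bo_one (by omega) hf2]
      have h3 := beta_bo_two (p := p) (mid := mid) (by omega : 4 ≤ g) hf2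
      rw [if_pos h2] at h3
      have h4 : r ^ (1 + 1) = x := hrx
      simp only [abs_zero, zero_mul, zero_add]
      rw [h4]
      nlinarith
    · rw [hA, if_neg (by omega)]
      linarith
  · apply loc_bo (by omega) (by omega) hmid r x hr hx 1 (by omega) x _ _ z hz
    · rw [prefix_two, beta_bo_one (by omega) hf2]
      have h3 := beta_bo_two (p := p) (mid := mid) (by omega : 4 ≤ g) hf2
      rw [if_neg h2] at h3
      have h4 : r ^ (1 + 1) = x := hrx
      simp only [abs_zero, zero_mul, zero_add]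
      rw [h4]
      nlinarith
    · rw [hA, if_pos (by omega)]
      have h5 : r ^ f ≤ r ^ 3 := pow_le_pow_of_le_one hr0 (by linarith) (by omega)
      have h6 : r ^ 3 = x * r := by rw [← hrx]; ring
      linarith

end

end Pool.Agent.MP_e32a7e_nt
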