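import Pool.Agent.Lib.MP_e32a7e_nt.OddLoc

/-!
# The primes `3` and `5`: location of the zeros for the binomial pattern
-/

open Polynomial Finset

namespace Pool.Agent.MP_e32a7e_nt

variable {g f : ℕ} {mid : ℤ}

/-- `p = 5`. -/
lemma loc_five (hg : 7 ≤ g) (hf2 : 2 ≤ f)
    (hmid : |mid| ≤ 8 * (if f < g then ((5 : ℕ) : ℤ) else 1))
    (z : ℂ) (hz : aeval z (wPoly (5 : ℕ) g (bo 5 g f mid)) = 0) :
    ‖z‖ = √((5 : ℕ) : ℝ) ∧ z.im ≠ 0 := by
  set r : ℝ := (√((5 : ℕ) : ℝ))⁻¹ with hr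
  have hr0 : 0 ≤ r := by rw [hr]; positivity
  have hrx : r ^ 2 = 1 / 5 := by
    rw [hr, inv_pow, Real.sq_sqrt (by norm_num)]
    norm_num
  have hr1 : r ≤ 0.4473 := by
    by_contra h
    push Not at h
    have : (0.4473 : ℝ) ^ 2 < r ^ 2 := pow_lt_pow_left₀ h (by norm_num) (by norm_num)
    rw [hrx] at this
    norm_num at this
  have hD : r ^ (g - 1) ≤ 1 / 125 := by
    have h1 : r ^ (g - 1) ≤ r ^ 6 := pow_le_pow_of_le_one hr0 (by linarith) (by omega)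
    have h2 : r ^ 6 = (r ^ 2) ^ 3 := by ring
    rw [h2, hrx] at h1
    norm_num at h1
    linarith
  have hM : r ^ g ≤ 1 / 125 * 0.4473 := by
    have h1 : r ^ g ≤ r ^ 7 := pow_le_pow_of_le_one hr0 (by linarith) (by omega)
    have h2 : r ^ 7 = (r ^ 2) ^ 3 * r := by ring
    rw [h2, hrx] at h1
    linarith
  have hr3 : r ^ 3 ≤ 1 / 5 * 0.4473 := by
    have h2 : r ^ 3 = r ^ 2 * r := by ring
    rw [h2, hrx]
    linarith
  by_cases h2 : f = 2
  · apply loc_bo (by omega) (by omega) hmid r (1 / 5) hr (by norm_num) 1 (by omega) (2 / 5) _ _ z hz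
    · rw [prefix_two, beta_bo_one (by omega) hf2]
      have h3 := beta_bo_two (p := 5) (mid := mid) (by omega : 4 ≤ g) hf2
      rw [if_pos h2] at h3
      have h4 : r ^ (1 + 1) = 1 / 5 := hrx
      simp only [abs_zero, zero_mul, zero_add]
      rw [h4]
      linarith
    · rw [if_neg (by omega)]
      norm_num
      norm_num at hD hM
      linarith
  · apply loc_bo (by omega) (by omega) hmid r (1 / 5) hr (by norm_num) 1 (by omega) (1 / 5) _ _ z hz
    · rw [prefix_two, beta_bo_one (by omega) hf2]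
      have h3 := beta_bo_two (p := 5) (mid := mid) (by omega : 4 ≤ g) hf2
      rw [if_neg h2] at h3
      have h4 : r ^ (1 + 1) = 1 / 5 := hrx
      simp only [abs_zero, zero_mul, zero_add]
      rw [h4]
      linarith
    · rw [if_pos (by omega)]
      have h5 : r ^ f ≤ r ^ 3 := pow_le_pow_of_le_one hr0 (by linarith) (by omega)
      norm_num
      norm_num at hD hM hr3
      linarith

/-! ### `p = 3` -/

lemma dl_four (g : ℕ) : dl g 4 = ((g / 2 % 2 : ℕ) : ℤ) := by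
  have h := Choose.choose_modEq_choose_mod_mul_choose_div_nat (p := 2) (n := g) (k := 2)
  have h2 : g.choose 2 % 2 = g / 2 % 2 := by
    rw [h]
    norm_num
  rw [dl, if_pos (by decide)]
  norm_num [h2]

lemma dl_six (g : ℕ) : dl g 6 = (((g % 2) * (g / 2) % 2 : ℕ) : ℤ) := by
  have h := Choose.choose_modEq_choose_mod_mul_choose_div_nat (p := 2) (n := g) (k := 3)
  have h2 : g.choose 3 % 2 = (g % 2) * (g / 2) % 2 := by
    rw [h]
    norm_num
  rw [dl, if_pos (by decide)]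
  norm_num [h2]

lemma dl_two (g : ℕ) : dl g 2 = ((g % 2 : ℕ) : ℤ) := by
  rw [dl, if_pos (by decide)]
  norm_num

lemma dl_odd (g i : ℕ) (hi : ¬ Even i) : dl g i = 0 := by
  rw [dl, if_neg hi]

lemma beta_bo_val (p : ℕ) {i : ℕ} (h1 : i < g) (h0 : i ≠ 0) :
    beta g (bo p g f mid) i =
      ((cc p f i * (if dl g i = 1 then 1 else if i = f ∨ i = g - 1 then 2 else 0) : ℤ) : ℝ) := by
  rw [beta, if_pos h1, bo, if_pos h1, if_neg h0]

lemma r3_facts (r : ℝ) (hr : r = (√((3 : ℕ) : ℝ))⁻¹) : 0 ≤ r ∧ r ^ 2 = 1 / 3 ∧ r ≤ 0.5774 := by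
  have hr0 : 0 ≤ r := by rw [hr]; positivity
  have hrx : r ^ 2 = 1 / 3 := by
    rw [hr, inv_pow, Real.sq_sqrt (by norm_num)]
    norm_num
  refine ⟨hr0, hrx, ?_⟩
  by_contra h
  push Not at h
  have : (0.5774 : ℝ) ^ 2 < r ^ 2 := pow_lt_pow_left₀ h (by norm_num) (by norm_num)
  rw [hrx] at this
  norm_num at this

lemma r3_pow (r : ℝ) (hr : r = (√((3 : ℕ) : ℝ))⁻¹) (hg : 10 ≤ g) :
    r ^ (g - 1) ≤ 0.00713 ∧ r ^ g ≤ 1 / 243 := by
  obtain ⟨hr0, hrx, hr1⟩ := r3_facts r hr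
  constructor
  · have h1 : r ^ (g - 1) ≤ r ^ 9 := pow_le_pow_of_le_one hr0 (by linarith) (by omega)
    have h2 : r ^ 9 = (r ^ 2) ^ 4 * r := by ring
    rw [h2, hrx] at h1
    linarith
  · have h1 : r ^ g ≤ r ^ 10 := pow_le_pow_of_le_one hr0 (by linarith) (by omega)
    have h2 : r ^ 10 = (r ^ 2) ^ 5 := by ring
    rw [h2, hrx] at h1
    linarith

/-- `p = 3`, `f ≥ 4`. -/
lemma loc_three_four (hg : 10 ≤ g) (hf4 : 4 ≤ f)
    (hmid : |mid| ≤ 8 * (if f < g then ((3 : ℕ) : ℤ) else 1))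
    (z : ℂ) (hz : aeval z (wPoly (3 : ℕ) g (bo 3 g f mid)) = 0) :
    ‖z‖ = √((3 : ℕ) : ℝ) ∧ z.im ≠ 0 := by
  set r : ℝ := (√((3 : ℕ) : ℝ))⁻¹ with hr
  obtain ⟨hr0, hrx, hr1⟩ := r3_facts r hr
  obtain ⟨hD, hM⟩ := r3_pow r hr hg
  have hβ2 : |beta g (bo 3 g f mid) 2| ≤ 1 := by
    have h3 := beta_bo_two (p := 3) (mid := mid) (by omega : 4 ≤ g) (by omega : 2 ≤ f)
    rwa [if_neg (by omega)] at h3
  have hβ3 : beta g (bo 3 g f mid) 3 = 0 := by
    rw [beta_bo_val 3 (by omega) (by norm_num), dl_odd g 3 (by decide), if_neg (by norm_num),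
      if_neg (by omega)]
    simp
  have hβ4 : |beta g (bo 3 g f mid) 4| ≤ if f = 4 then 2 else 1 := by
    rw [beta_bo_val 3 (by omega) (by norm_num), cc, if_pos hf4, one_mul]
    by_cases h : f = 4
    · rw [if_pos h]
      split_ifs <;> norm_num
    · rw [if_neg h]
      split_ifs
      · norm_num
      · omega
      · norm_num
  have hpre : ∑ i ∈ range (2 * 2), |beta g (bo 3 g f mid) (i + 1)| * r ^ (i + 1) =
      |beta g (bo 3 g f mid) 2| * (1 / 3) + |beta g (bo 3 g f mid) 4| * (1 / 9) := by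
    have e4 : r ^ 4 = 1 / 9 := by
      have : r ^ 4 = (r ^ 2) ^ 2 := by ring
      rw [this, hrx]; norm_num
    norm_num [sum_range_succ, beta_bo_one (p := 3) (mid := mid) (by omega : 3 ≤ g)
      (by omega : 2 ≤ f), hβ3, hrx, e4]
  by_cases h : f = 4
  · rw [if_pos h] at hβ4
    apply loc_bo (by omega) (by omega) hmid r (1 / 3) hr (by norm_num) 2 (by omega) (5 / 9) _ _ z hz
    · rw [hpre]
      linarith
    · rw [if_neg (by omega)]
      norm_num
      norm_num at hD hM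
      linarith
  · rw [if_neg h] at hβ4
    apply loc_bo (by omega) (by omega) hmid r (1 / 3) hr (by norm_num) 2 (by omega) (4 / 9) _ _ z hz
    · rw [hpre]
      linarith
    · rw [if_pos (by omega)]
      have h5 : r ^ f ≤ r ^ 5 := pow_le_pow_of_le_one hr0 (by linarith) (by omega)
      have h6 : r ^ 5 = (r ^ 2) ^ 2 * r := by ring
      rw [h6, hrx] at h5
      norm_num
      norm_num at hD hM h5
      linarith

/-- `p = 3`, `f = 2`, `g` odd. -/
lemma loc_three_two_odd (hg : 10 ≤ g) (hgo : g % 2 = 1)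
    (hmid : |mid| ≤ 8 * (if 2 < g then ((3 : ℕ) : ℤ) else 1))
    (z : ℂ) (hz : aeval z (wPoly (3 : ℕ) g (bo 3 g 2 mid)) = 0) :
    ‖z‖ = √((3 : ℕ) : ℝ) ∧ z.im ≠ 0 := by
  set r : ℝ := (√((3 : ℕ) : ℝ))⁻¹ with hr
  obtain ⟨hr0, hrx, hr1⟩ := r3_facts r hr
  obtain ⟨hD, hM⟩ := r3_pow r hr hg
  have hβ2 : beta g (bo 3 g 2 mid) 2 = 1 := by
    rw [beta_bo_val 3 (by omega) (by norm_num), dl_two, hgo, cc]
    norm_num
  apply loc_bo (by omega) (by omega) hmid r (1 / 3) hr (by norm_num) 1 (by omega) (1 / 3) _ _ z hz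
  · rw [prefix_two, beta_bo_one (by omega) le_rfl]
    have h4 : r ^ (1 + 1) = 1 / 3 := hrx
    have h5 : beta g (bo 3 g 2 mid) (1 + 1) = 1 := hβ2
    rw [h4, h5]
    norm_num
  · rw [if_neg (by omega)]
    norm_num
    norm_num at hD hM
    linarith

/-- The first six coefficients. -/
lemma prefix_six (hg : 10 ≤ g) (hf2 : 2 ≤ f) (hf3 : f ≤ 3) (r : ℝ) (hrx : r ^ 2 = 1 / 3) :
    ∑ i ∈ range (2 * 3), |beta g (bo 3 g f mid) (i + 1)| * r ^ (i + 1) =
      |beta g (bo 3 g f mid) 2| * (1 / 3) + |beta g (bo 3 g f mid) 3| * (1 / 3 * r) +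
      |beta g (bo 3 g f mid) 4| * (1 / 9) + |beta g (bo 3 g f mid) 6| * (1 / 27) := by
  have hβ5 : beta g (bo 3 g f mid) 5 = 0 := by
    rw [beta_bo_val 3 (by omega) (by norm_num), dl_odd g 5 (by decide), if_neg (by norm_num),
      if_neg (by omega)]
    simp
  have e3 : r ^ 3 = 1 / 3 * r := by
    have : r ^ 3 = r ^ 2 * r := by ring
    rw [this, hrx]
  have e4 : r ^ 4 = 1 / 9 := by
    have : r ^ 4 = (r ^ 2) ^ 2 := by ring
    rw [this, hrx]; norm_num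
  have e6 : r ^ 6 = 1 / 27 := by
    have : r ^ 6 = (r ^ 2) ^ 3 := by ring
    rw [this, hrx]; norm_num
  norm_num [sum_range_succ, beta_bo_one (p := 3) (mid := mid) (by omega : 3 ≤ g) hf2, hβ5, hrx,
    e3, e4, e6]

/-- `p = 3`, `f = 2`, `4 ∣ g`. -/
lemma loc_three_two_four (hg : 10 ≤ g) (hgo : g % 4 = 0)
    (hmid : |mid| ≤ 8 * (if 2 < g then ((3 : ℕ) : ℤ) else 1))
    (z : ℂ) (hz : aeval z (wPoly (3 : ℕ) g (bo 3 g 2 mid)) = 0) :
    ‖z‖ = √((3 : ℕ) : ℝ) ∧ z.im ≠ 0 := by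
  set r : ℝ := (√((3 : ℕ) : ℝ))⁻¹ with hr
  obtain ⟨hr0, hrx, hr1⟩ := r3_facts r hr
  obtain ⟨hD, hM⟩ := r3_pow r hr hg
  have hg2 : g % 2 = 0 := by omega
  have hg3 : g / 2 % 2 = 0 := by omega
  have hβ2 : beta g (bo 3 g 2 mid) 2 = 2 := by
    rw [beta_bo_val 3 (by omega) (by norm_num), dl_two, hg2, cc]
    norm_num
  have hβ3 : beta g (bo 3 g 2 mid) 3 = 0 := by
    rw [beta_bo_val 3 (by omega) (by norm_num), dl_odd g 3 (by decide), if_neg (by norm_num),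
      if_neg (by omega)]
    simp
  have hβ4 : beta g (bo 3 g 2 mid) 4 = 0 := by
    rw [beta_bo_val 3 (by omega) (by norm_num), dl_four, hg3, if_neg (by norm_num),
      if_neg (by omega)]
    simp
  have hβ6 : beta g (bo 3 g 2 mid) 6 = 0 := by
    rw [beta_bo_val 3 (by omega) (by norm_num), dl_six, hg2, if_neg (by norm_num),
      if_neg (by omega)]
    simp
  apply loc_bo (by omega) (by omega) hmid r (1 / 3) hr (by norm_num) 3 (by omega) (2 / 3) _ _ z hz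
  · rw [prefix_six hg le_rfl (by norm_num) r hrx, hβ2, hβ3, hβ4, hβ6]
    norm_num
  · rw [if_neg (by omega)]
    norm_num
    norm_num at hD hM
    linarith

/-- `p = 3`, `f = 3`, `g` even. -/
lemma loc_three_three_even (hg : 10 ≤ g) (hgo : g % 2 = 0)
    (hmid : |mid| ≤ 8 * (if 3 < g then ((3 : ℕ) : ℤ) else 1))
    (z : ℂ) (hz : aeval z (wPoly (3 : ℕ) g (bo 3 g 3 mid)) = 0) :
    ‖z‖ = √((3 : ℕ) : ℝ) ∧ z.im ≠ 0 := by
  set r : ℝ := (√((3 : ℕ) : ℝ))⁻¹ with hr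
  obtain ⟨hr0, hrx, hr1⟩ := r3_facts r hr
  obtain ⟨hD, hM⟩ := r3_pow r hr hg
  have hβ2 : beta g (bo 3 g 3 mid) 2 = 0 := by
    rw [beta_bo_val 3 (by omega) (by norm_num), dl_two, hgo, if_neg (by norm_num),
      if_neg (by omega)]
    simp
  have hβ3 : beta g (bo 3 g 3 mid) 3 = 2 := by
    rw [beta_bo_val 3 (by omega) (by norm_num), dl_odd g 3 (by decide), if_neg (by norm_num),
      if_pos (Or.inl rfl), cc]
    norm_num
  have hβ4 : |beta g (bo 3 g 3 mid) 4| ≤ 3 := by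
    rw [beta_bo_val 3 (by omega) (by norm_num), cc, if_neg (by norm_num)]
    split_ifs
    · norm_num
    · omega
    · norm_num
  have hβ6 : beta g (bo 3 g 3 mid) 6 = 0 := by
    rw [beta_bo_val 3 (by omega) (by norm_num), dl_six, hgo, if_neg (by norm_num),
      if_neg (by omega)]
    simp
  apply loc_bo (by omega) (by omega) hmid r (1 / 3) hr (by norm_num) 3 (by omega)
    (1 / 3 + 2 * (1 / 3 * r)) _ _ z hz
  · rw [prefix_six hg (by norm_num) le_rfl r hrx, hβ2, hβ3, hβ6]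
    norm_num
    linarith
  · rw [if_neg (by omega)]
    norm_num
    norm_num at hD hM hr1
    linarith

/-- `p = 3`, `f = 3`, `g = 1 mod 4`. -/
lemma loc_three_three_one (hg : 10 ≤ g) (hgo : g % 4 = 1)
    (hmid : |mid| ≤ 8 * (if 3 < g then ((3 : ℕ) : ℤ) else 1))
    (z : ℂ) (hz : aeval z (wPoly (3 : ℕ) g (bo 3 g 3 mid)) = 0) :
    ‖z‖ = √((3 : ℕ) : ℝ) ∧ z.im ≠ 0 := by
  set r : ℝ := (√((3 : ℕ) : ℝ))⁻¹ with hr
  obtain ⟨hr0, hrx, hr1⟩ := r3_facts r hr
  obtain ⟨hD, hM⟩ := r3_pow r hr hg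
  have hg2 : g % 2 = 1 := by omega
  have hg3 : g / 2 % 2 = 0 := by omega
  have hβ2 : beta g (bo 3 g 3 mid) 2 = 1 := by
    rw [beta_bo_val 3 (by omega) (by norm_num), dl_two, hg2, cc]
    norm_num
  have hβ3 : beta g (bo 3 g 3 mid) 3 = 2 := by
    rw [beta_bo_val 3 (by omega) (by norm_num), dl_odd g 3 (by decide), if_neg (by norm_num),
      if_pos (Or.inl rfl), cc]
    norm_num
  have hβ4 : beta g (bo 3 g 3 mid) 4 = 0 := by
    rw [beta_bo_val 3 (by omega) (by norm_num), dl_four, hg3, if_neg (by norm_num),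
      if_neg (by omega)]
    simp
  have hβ6 : beta g (bo 3 g 3 mid) 6 = 0 := by
    have : g % 2 * (g / 2) % 2 = 0 := by rw [hg2, one_mul]; exact hg3
    rw [beta_bo_val 3 (by omega) (by norm_num), dl_six, this, if_neg (by norm_num),
      if_neg (by omega)]
    simp
  apply loc_bo (by omega) (by omega) hmid r (1 / 3) hr (by norm_num) 3 (by omega)
    (1 / 3 + 2 * (1 / 3 * r)) _ _ z hz
  · rw [prefix_six hg (by norm_num) le_rfl r hrx, hβ2, hβ3, hβ4, hβ6]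
    norm_num
  · rw [if_neg (by omega)]
    norm_num
    norm_num at hD hM hr1
    linarith

end Pool.Agent.MP_e32a7e_nt
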