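import Pool.Agent.Lib.MP_e32a7e_nt.OddLoc2

/-!
# The prime `3`: the cases that need a multiplier
-/

open Polynomial Finset

namespace Pool.Agent.MP_e32a7e_nt

variable {g f : ℕ} {mid : ℤ}

/-- The coefficients beyond `f`, in three parts. -/
lemma beta_bo_parts (hf3 : f ≤ 3) (i : ℕ) (hi : 4 ≤ i) :
    beta g (bo 3 g f mid) i = (if Even i ∧ i < g ∧ dl g i = 1 then 3 else 0) +
      (if i = g - 1 ∧ i < g ∧ dl g i ≠ 1 then 6 else 0) + (if i = g then (mid : ℝ) / 2 else 0) := by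
  rcases lt_trichotomy i g with h | h | h
  · rw [beta_bo_val 3 h (by omega), cc, if_neg (by omega), if_neg (by omega : ¬ i = g), add_zero]
    by_cases e1 : dl g i = 1
    · have hev : Even i := by
        by_contra hne
        rw [dl, if_neg hne] at e1
        exact absurd e1 (by norm_num)
      rw [if_pos e1, if_pos ⟨hev, h, e1⟩, if_neg (by tauto)]
      norm_num
    · have hz1 : (if Even i ∧ i < g ∧ dl g i = 1 then (3 : ℝ) else 0) = 0 :=
        if_neg (fun h' => e1 h'.2.2)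
      rw [if_neg e1, hz1]
      by_cases e3 : i = g - 1
      · have hz2 : (if i = g - 1 ∧ i < g ∧ dl g i ≠ 1 then (6 : ℝ) else 0) = 6 :=
          if_pos ⟨e3, h, e1⟩
        rw [if_pos (Or.inr e3), hz2]
        norm_num
      · have hz2 : (if i = g - 1 ∧ i < g ∧ dl g i ≠ 1 then (6 : ℝ) else 0) = 0 :=
          if_neg (fun h' => e3 h'.1)
        rw [if_neg (by omega), hz2]
        norm_num
  · subst h
    rw [beta, if_neg (lt_irrefl i), if_pos rfl, bo_last, if_pos rfl,
      if_neg (fun h' => lt_irrefl i h'.2.1), if_neg (fun h' => lt_irrefl i h'.2.1)]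
    ring
  · rw [beta_eq_zero h, if_neg (by omega), if_neg (by omega), if_neg (by omega)]
    ring

lemma diff_bound (hg : 10 ≤ g) (hf3 : f ≤ 3)
    (hmid : |mid| ≤ 8 * (if f < g then ((3 : ℕ) : ℤ) else 1)) (i : ℕ) (hi : 2 * 3 < i) :
    |beta g (bo 3 g f mid) i - (if 2 ≤ i then beta g (bo 3 g f mid) (i - 2) else 0)| ≤
      (if Even i then (3 : ℝ) else 0) + (if i = g - 1 then 6 else 0) +
        (if i = g + 1 then 6 else 0) + (if i = g then 12 else 0) +
        (if i = g + 2 then 12 else 0) := by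
  have hm : |(mid : ℝ) / 2| ≤ 12 := by
    have h6 : (|(mid : ℝ)|) ≤ 24 := by
      have h7 : |mid| ≤ 24 := by
        refine hmid.trans ?_
        rw [if_pos (by omega)]
        norm_num
      exact_mod_cast h7
    rw [abs_div, abs_of_pos (by norm_num : (0 : ℝ) < 2)]
    linarith
  rw [if_pos (by omega), beta_bo_parts hf3 i (by omega), beta_bo_parts hf3 (i - 2) (by omega)]
  have hpar : Even (i - 2) ↔ Even i := by
    constructor
    · intro h
      have : i = (i - 2) + 2 := by omega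
      rw [this]
      exact h.add even_two
    · intro h
      exact (Nat.even_sub (by omega)).mpr ⟨fun _ => even_two, fun _ => h⟩
  set e1 : ℝ := (if Even i ∧ i < g ∧ dl g i = 1 then 3 else 0) with he1
  set e2 : ℝ := (if Even (i - 2) ∧ i - 2 < g ∧ dl g (i - 2) = 1 then 3 else 0) with he2
  set d1 : ℝ := (if i = g - 1 ∧ i < g ∧ dl g i ≠ 1 then 6 else 0) with hd1
  set d2 : ℝ := (if i - 2 = g - 1 ∧ i - 2 < g ∧ dl g (i - 2) ≠ 1 then 6 else 0) with hd2
  set m1 : ℝ := (if i = g then (mid : ℝ) / 2 else 0) with hm1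
  set m2 : ℝ := (if i - 2 = g then (mid : ℝ) / 2 else 0) with hm2
  have hE : |e1 - e2| ≤ (if Even i then (3 : ℝ) else 0) := by
    by_cases hev : Even i
    · rw [if_pos hev, he1, he2]
      split_ifs <;> norm_num
    · rw [if_neg hev, he1, he2, if_neg (by tauto), if_neg (by rw [hpar]; tauto)]
      norm_num
  have hD1 : |d1| ≤ (if i = g - 1 then 6 else 0) := by
    rw [hd1]
    by_cases h : i = g - 1
    · rw [if_pos h]
      split_ifs <;> norm_num
    · rw [if_neg h, if_neg (by tauto)]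
      norm_num
  have hD2 : |d2| ≤ (if i = g + 1 then 6 else 0) := by
    rw [hd2]
    by_cases h : i = g + 1
    · rw [if_pos h]
      split_ifs <;> norm_num
    · rw [if_neg h, if_neg (by omega)]
      norm_num
  have hM1 : |m1| ≤ (if i = g then 12 else 0) := by
    rw [hm1]
    by_cases h : i = g
    · rw [if_pos h, if_pos h]
      exact hm
    · rw [if_neg h, if_neg h]
      norm_num
  have hM2 : |m2| ≤ (if i = g + 2 then 12 else 0) := by
    rw [hm2]
    by_cases h : i = g + 2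
    · rw [if_pos h, if_pos (by omega)]
      exact hm
    · rw [if_neg h, if_neg (by omega)]
      norm_num
  have hsplit : (e1 + d1 + m1) - (e2 + d2 + m2) = (e1 - e2) + d1 + (-d2) + m1 + (-m2) := by ring
  rw [hsplit]
  have t1 := abs_add_le ((e1 - e2) + d1 + (-d2) + m1) (-m2)
  have t2 := abs_add_le ((e1 - e2) + d1 + (-d2)) m1
  have t3 := abs_add_le ((e1 - e2) + d1) (-d2)
  have t4 := abs_add_le (e1 - e2) d1
  rw [abs_neg] at t1 t3
  linarith

/-- Location with the multiplier `1 - u^2`. -/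
lemma loc_bo_mult (hg : 10 ≤ g) (hf3 : f ≤ 3)
    (hmid : |mid| ≤ 8 * (if f < g then ((3 : ℕ) : ℤ) else 1)) (r : ℝ)
    (hr : r = (√((3 : ℕ) : ℝ))⁻¹) (Pre : ℝ)
    (hPre : ∑ i ∈ range (2 * 3), |beta g (bo 3 g f mid) (i + 1) -
      (if 2 ≤ i + 1 then beta g (bo 3 g f mid) (i + 1 - 2) else 0)| * r ^ (i + 1) ≤ Pre)
    (hlt : Pre ≤ 0.82)
    (z : ℂ) (hz : aeval z (wPoly (3 : ℕ) g (bo 3 g f mid)) = 0) :
    ‖z‖ = √((3 : ℕ) : ℝ) ∧ z.im ≠ 0 := by
  obtain ⟨hr0, hrx, hr1⟩ := r3_facts r hr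
  obtain ⟨hD, hM⟩ := r3_pow r hr hg
  apply loc_mult 3 (by norm_num) g (by omega) _ (bo_zero 3 g f mid (by omega)) 2 (by norm_num) _ z hz
  rw [← hr, sum_split _ (2 * 3) (g + 2) (by omega)]
  have htail := tail_bound r (1 / 3) hr0 hrx (by norm_num) 3 (g + 2 - 2 * 3) (g - 1) (g + 1) g
    (g + 2) 3 6 6 12 12 (by norm_num) (by norm_num) (by norm_num) (by norm_num) (by norm_num)
    (fun i => |beta g (bo 3 g f mid) i - (if 2 ≤ i then beta g (bo 3 g f mid) (i - 2) else 0)|)
    (fun i hi => diff_bound hg hf3 hmid i hi)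
  rw [if_pos (by omega), if_pos (by omega), if_pos (by omega), if_pos (by omega)] at htail
  have h1 : r ^ (g + 1) = r ^ (g - 1) * (1 / 3) := by
    rw [← hrx, ← pow_add]
    congr 1
    omega
  have h2 : r ^ (g + 2) = r ^ g * (1 / 3) := by
    rw [← hrx, ← pow_add]
  rw [h1, h2] at htail
  norm_num at htail hD hM hPre hlt ⊢
  linarith

lemma prefix_mult (hg : 10 ≤ g) (hf2 : 2 ≤ f) (hf3 : f ≤ 3) (r : ℝ) (hrx : r ^ 2 = 1 / 3) :
    ∑ i ∈ range (2 * 3), |beta g (bo 3 g f mid) (i + 1) -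
      (if 2 ≤ i + 1 then beta g (bo 3 g f mid) (i + 1 - 2) else 0)| * r ^ (i + 1) =
      |beta g (bo 3 g f mid) 2 - 1| * (1 / 3) + |beta g (bo 3 g f mid) 3| * (1 / 3 * r) +
      |beta g (bo 3 g f mid) 4 - beta g (bo 3 g f mid) 2| * (1 / 9) +
      |beta g (bo 3 g f mid) 3| * (1 / 9 * r) +
      |beta g (bo 3 g f mid) 6 - beta g (bo 3 g f mid) 4| * (1 / 27) := by
  have hβ5 : beta g (bo 3 g f mid) 5 = 0 := by
    rw [beta_bo_val 3 (by omega) (by norm_num), dl_odd g 5 (by decide), if_neg (by norm_num),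
      if_neg (by omega)]
    simp
  have hβ0 : beta g (bo 3 g f mid) 0 = 1 := by
    rw [beta, if_pos (by omega), bo_zero 3 g f mid (by omega)]
    norm_num
  have e3 : r ^ 3 = 1 / 3 * r := by
    have : r ^ 3 = r ^ 2 * r := by ring
    rw [this, hrx]
  have e4 : r ^ 4 = 1 / 9 := by
    have : r ^ 4 = (r ^ 2) ^ 2 := by ring
    rw [this, hrx]; norm_num
  have e5 : r ^ 5 = 1 / 9 * r := by
    have : r ^ 5 = (r ^ 2) ^ 2 * r := by ring
    rw [this, hrx]; norm_num
  have e6 : r ^ 6 = 1 / 27 := by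
    have : r ^ 6 = (r ^ 2) ^ 3 := by ring
    rw [this, hrx]; norm_num
  norm_num [sum_range_succ, beta_bo_one (p := 3) (mid := mid) (by omega : 3 ≤ g) hf2, hβ5, hβ0,
    hrx, e3, e4, e5, e6]

/-- `p = 3`, `f = 2`, `g = 2 mod 4`. -/
lemma loc_three_two_two (hg : 10 ≤ g) (hgo : g % 4 = 2)
    (hmid : |mid| ≤ 8 * (if 2 < g then ((3 : ℕ) : ℤ) else 1))
    (z : ℂ) (hz : aeval z (wPoly (3 : ℕ) g (bo 3 g 2 mid)) = 0) :
    ‖z‖ = √((3 : ℕ) : ℝ) ∧ z.im ≠ 0 := by
  set r : ℝ := (√((3 : ℕ) : ℝ))⁻¹ with hr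
  obtain ⟨hr0, hrx, hr1⟩ := r3_facts r hr
  have hg2 : g % 2 = 0 := by omega
  have hg3 : g / 2 % 2 = 1 := by omega
  have hβ2 : beta g (bo 3 g 2 mid) 2 = 2 := by
    rw [beta_bo_val 3 (by omega) (by norm_num), dl_two, hg2, cc]
    norm_num
  have hβ3 : beta g (bo 3 g 2 mid) 3 = 0 := by
    rw [beta_bo_val 3 (by omega) (by norm_num), dl_odd g 3 (by decide), if_neg (by norm_num),
      if_neg (by omega)]
    simp
  have hβ4 : beta g (bo 3 g 2 mid) 4 = 3 := by
    rw [beta_bo_val 3 (by omega) (by norm_num), dl_four, hg3, if_pos (by norm_num), cc,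
      if_neg (by norm_num)]
    norm_num
  have hβ6 : beta g (bo 3 g 2 mid) 6 = 0 := by
    rw [beta_bo_val 3 (by omega) (by norm_num), dl_six, hg2, if_neg (by norm_num),
      if_neg (by omega)]
    simp
  apply loc_bo_mult hg (by norm_num) hmid r hr (5 / 9) _ (by norm_num) z hz
  rw [prefix_mult hg le_rfl (by norm_num) r hrx, hβ2, hβ3, hβ4, hβ6]
  norm_num

/-- `p = 3`, `f = 3`, `g = 3 mod 4`. -/
lemma loc_three_three_three (hg : 10 ≤ g) (hgo : g % 4 = 3)
    (hmid : |mid| ≤ 8 * (if 3 < g then ((3 : ℕ) : ℤ) else 1))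
    (z : ℂ) (hz : aeval z (wPoly (3 : ℕ) g (bo 3 g 3 mid)) = 0) :
    ‖z‖ = √((3 : ℕ) : ℝ) ∧ z.im ≠ 0 := by
  set r : ℝ := (√((3 : ℕ) : ℝ))⁻¹ with hr
  obtain ⟨hr0, hrx, hr1⟩ := r3_facts r hr
  have hg2 : g % 2 = 1 := by omega
  have hg3 : g / 2 % 2 = 1 := by omega
  have hβ2 : beta g (bo 3 g 3 mid) 2 = 1 := by
    rw [beta_bo_val 3 (by omega) (by norm_num), dl_two, hg2, cc]
    norm_num
  have hβ3 : beta g (bo 3 g 3 mid) 3 = 2 := by
    rw [beta_bo_val 3 (by omega) (by norm_num), dl_odd g 3 (by decide), if_neg (by norm_num),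
      if_pos (Or.inl rfl), cc]
    norm_num
  have hβ4 : beta g (bo 3 g 3 mid) 4 = 3 := by
    rw [beta_bo_val 3 (by omega) (by norm_num), dl_four, hg3, if_pos (by norm_num), cc,
      if_neg (by norm_num)]
    norm_num
  have hβ6 : beta g (bo 3 g 3 mid) 6 = 3 := by
    have : g % 2 * (g / 2) % 2 = 1 := by rw [hg2, one_mul]; exact hg3
    rw [beta_bo_val 3 (by omega) (by norm_num), dl_six, this, if_pos (by norm_num), cc,
      if_neg (by norm_num)]
    norm_num
  apply loc_bo_mult hg (by norm_num) hmid r hr (2 / 9 + 8 / 9 * r) _ _ z hz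
  · rw [prefix_mult hg (by norm_num) le_rfl r hrx, hβ2, hβ3, hβ4, hβ6]
    norm_num
    linarith
  · norm_num at hr1 ⊢
    linarith

/-- **Odd primes, large dimension.** -/
theorem good_odd_large (p : ℕ) (hp : p.Prime) (hp2 : p ≠ 2) (g f : ℕ) (hf2 : 2 ≤ f) (hf : f ≤ g)
    (hg : 5 ≤ g) (hg5 : p = 5 → 7 ≤ g) (hg3 : p = 3 → 10 ≤ g) : Good p g f := by
  apply good_bo p hp hp2 g f (by omega) (by omega) hf
  intro mid hmid z hz
  have hp2' := hp.two_le
  by_cases h3 : p = 3
  · subst h3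
    have hg' := hg3 rfl
    rcases lt_or_ge f 4 with h | h
    · have h23 : f = 2 ∨ f = 3 := by omega
      rcases h23 with h' | h'
      · subst h'
        have hm : g % 2 = 1 ∨ g % 4 = 0 ∨ g % 4 = 2 := by omega
        rcases hm with hm | hm | hm
        · exact loc_three_two_odd hg' hm hmid z hz
        · exact loc_three_two_four hg' hm hmid z hz
        · exact loc_three_two_two hg' hm hmid z hz
      · subst h'
        have hm : g % 2 = 0 ∨ g % 4 = 1 ∨ g % 4 = 3 := by omega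
        rcases hm with hm | hm | hm
        · exact loc_three_three_even hg' hm hmid z hz
        · exact loc_three_three_one hg' hm hmid z hz
        · exact loc_three_three_three hg' hm hmid z hz
    · exact loc_three_four hg' h hmid z hz
  · by_cases h5 : p = 5
    · subst h5
      exact loc_five (hg5 rfl) hf2 hmid z hz
    · have h7 : 7 ≤ p := by
        by_contra hlt
        have h46 : p = 4 ∨ p = 6 := by omega
        rcases h46 with h | h <;> subst h <;> revert hp <;> decide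
      exact loc_seven h7 hg hf2 hmid z hz

end Pool.Agent.MP_e32a7e_nt
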