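import Pool.Agent.Lib.MP_e32a7e_nt.Table

/-!
# Table for the small odd primes
-/

namespace Pool.Agent.MP_e32a7e_nt

lemma good_3_2_2 : Good 3 2 2 :=
  good_of_chk 3 Nat.prime_three 2 2 [1, 1, 1] 1
    [-3, 0, 3] 3 Nat.prime_three 1 1
    (by decide +kernel)

lemma good_3_3_0 : Good 3 3 0 :=
  good_of_chk 3 Nat.prime_three 3 0 [-12, 6, -3, 1] 5
    [-17, -1, 11, 17] 3 Nat.prime_three 0 (-1)
    (by decide +kernel)

lemma good_3_3_2 : Good 3 3 2 :=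
  good_of_chk 3 Nat.prime_three 3 2 [-6, 1, 0, 1] 4
    [-13, -6, 5, 13] 2 Nat.prime_two 0 (-1)
    (by decide +kernel)

lemma good_3_3_3 : Good 3 3 3 :=
  good_of_chk 3 Nat.prime_three 3 3 [-2, 1, 0, 1] 1
    [-3, -1, 1, 3] 2 Nat.prime_two 0 1
    (by decide +kernel)

lemma good_3_4_0 : Good 3 4 0 :=
  good_of_chk 3 Nat.prime_three 4 0 [6, 6, 3, 0, 1] 4
    [-13, -7, 2, 8, 13] 3 Nat.prime_three 0 1
    (by decide +kernel)

lemma good_3_4_2 : Good 3 4 2 :=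
  good_of_chk 3 Nat.prime_three 4 2 [0, 6, 2, 0, 1] 5
    [-17, -9, 2, 10, 17] 2 Nat.prime_two 0 1
    (by decide +kernel)

lemma good_3_4_3 : Good 3 4 3 :=
  good_of_chk 3 Nat.prime_three 4 3 [-3, 2, 0, 0, 1] 5
    [-17, -11, 1, 11, 17] 2 Nat.prime_two 1 1
    (by decide +kernel)

lemma good_3_4_4 : Good 3 4 4 :=
  good_of_chk 3 Nat.prime_three 4 4 [1, 2, 0, 0, 1] 5
    [-17, -11, 1, 12, 17] 2 Nat.prime_two 1 2
    (by decide +kernel)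

lemma good_3_5_0 : Good 3 5 0 :=
  good_of_chk 3 Nat.prime_three 5 0 [6, 3, 0, 0, 0, 1] 5
    [-17, -13, -5, 6, 14, 17] 3 Nat.prime_three 0 1
    (by decide +kernel)

lemma good_3_5_2 : Good 3 5 2 :=
  good_of_chk 3 Nat.prime_three 5 2 [-6, 0, 0, 1, 0, 1] 5
    [-17, -13, -4, 5, 13, 17] 2 Nat.prime_two 0 (-1)
    (by decide +kernel)

lemma good_3_5_3 : Good 3 5 3 :=
  good_of_chk 3 Nat.prime_three 5 3 [-6, 0, -2, 1, 0, 1] 5
    [-17, -12, -5, 5, 13, 17] 2 Nat.prime_two 0 1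
    (by decide +kernel)

lemma good_3_5_4 : Good 3 5 4 :=
  good_of_chk 3 Nat.prime_three 5 4 [-3, 5, 0, 0, 0, 1] 4
    [-13, -11, -4, 5, 11, 13] 5 Nat.prime_five 3 (-1)
    (by decide +kernel)

lemma good_3_5_5 : Good 3 5 5 :=
  good_of_chk 3 Nat.prime_three 5 5 [2, 0, 0, 1, 0, 1] 5
    [-17, -13, -5, 5, 13, 17] 2 Nat.prime_two 0 (-1)
    (by decide +kernel)

lemma good_3_6_2 : Good 3 6 2 :=
  good_of_chk 3 Nat.prime_three 6 2 [9, -6, 0, 0, -1, 0, 1] 16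
    [-55, -48, -29, 1, 28, 48, 55] 2 Nat.prime_two 1 (-1)
    (by decide +kernel)

lemma good_3_6_3 : Good 3 6 3 :=
  good_of_chk 3 Nat.prime_three 6 3 [6, 0, 3, 2, 0, 0, 1] 5
    [-17, -14, -8, 1, 9, 14, 17] 2 Nat.prime_two 0 1
    (by decide +kernel)

lemma good_3_6_4 : Good 3 6 4 :=
  good_of_chk 3 Nat.prime_three 6 4 [6, 0, 1, 2, 0, 0, 1] 5
    [-17, -14, -8, 1, 9, 14, 17] 2 Nat.prime_two 0 (-1)
    (by decide +kernel)

lemma good_3_6_5 : Good 3 6 5 :=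
  good_of_chk 3 Nat.prime_three 6 5 [6, 2, -1, 0, 0, 0, 1] 5
    [-17, -14, -8, 0, 8, 15, 17] 2 Nat.prime_two 0 1
    (by decide +kernel)

lemma good_3_6_6 : Good 3 6 6 :=
  good_of_chk 3 Nat.prime_three 6 6 [2, -2, -1, 0, 0, 0, 1] 5
    [-17, -14, -8, 0, 9, 15, 17] 2 Nat.prime_two 0 (-2)
    (by decide +kernel)

lemma good_3_7_2 : Good 3 7 2 :=
  good_of_chk 3 Nat.prime_three 7 2 [6, -3, 0, 3, 0, -1, 0, 1] 5
    [-17, -15, -11, -4, 5, 11, 15, 17] 2 Nat.prime_two 0 1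
    (by decide +kernel)

lemma good_3_7_3 : Good 3 7 3 :=
  good_of_chk 3 Nat.prime_three 7 3 [-6, 3, 0, 3, -2, -1, 0, 1] 5
    [-17, -15, -11, -4, 4, 12, 16, 17] 2 Nat.prime_two 0 1
    (by decide +kernel)

lemma good_3_7_4 : Good 3 7 4 :=
  good_of_chk 3 Nat.prime_three 7 4 [6, -3, 0, 1, 0, 1, 0, 1] 5
    [-17, -14, -10, -3, 4, 10, 15, 17] 2 Nat.prime_two 0 1
    (by decide +kernel)

lemma good_3_7_5 : Good 3 7 5 :=
  good_of_chk 3 Nat.prime_three 7 5 [0, 0, -7, 0, 0, 0, 0, 1] 16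
    [-55, -48, -34, -11, 13, 32, 49, 55] 7 (by norm_num : Nat.Prime 7) 0 1
    (by decide +kernel)

lemma good_3_7_6 : Good 3 7 6 :=
  good_of_chk 3 Nat.prime_three 7 6 [-3, -7, 0, 0, 0, 0, 0, 1] 16
    [-55, -48, -33, -12, 13, 34, 49, 55] 7 (by norm_num : Nat.Prime 7) 3 1
    (by decide +kernel)

lemma good_3_7_7 : Good 3 7 7 :=
  good_of_chk 3 Nat.prime_three 7 7 [-1, 7, 0, 0, 0, 0, 0, 1] 5
    [-17, -15, -10, -4, 4, 11, 15, 17] 7 (by norm_num : Nat.Prime 7) 1 2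
    (by decide +kernel)

lemma good_3_8_2 : Good 3 8 2 :=
  good_of_chk 3 Nat.prime_three 8 2 [9, 6, 0, 0, 0, 0, 2, 0, 1] 5
    [-17, -15, -11, -5, 0, 6, 11, 15, 17] 2 Nat.prime_two 1 (-1)
    (by decide +kernel)

lemma good_3_8_3 : Good 3 8 3 :=
  good_of_chk 3 Nat.prime_three 8 3 [12, 0, 0, 0, 0, 2, 0, 0, 1] 16
    [-55, -51, -39, -20, 2, 22, 37, 50, 55] 2 Nat.prime_two 0 1
    (by decide +kernel)

lemma good_3_8_4 : Good 3 8 4 :=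
  good_of_chk 3 Nat.prime_three 8 4 [0, 6, 0, 0, 2, 0, 0, 0, 1] 5
    [-17, -15, -12, -7, 0, 7, 12, 16, 17] 2 Nat.prime_two 0 1
    (by decide +kernel)

lemma good_3_8_5 : Good 3 8 5 :=
  good_of_chk 3 Nat.prime_three 8 5 [0, 0, 0, 2, 0, 0, 0, 0, 1] 16
    [-55, -50, -38, -21, 0, 21, 39, 50, 55] 2 Nat.prime_two 0 (-2)
    (by decide +kernel)

lemma good_3_8_6 : Good 3 8 6 :=
  good_of_chk 3 Nat.prime_three 8 6 [0, 0, 2, 2, 0, 0, 0, 0, 1] 16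
    [-55, -50, -38, -20, 0, 21, 39, 51, 55] 2 Nat.prime_two 0 1
    (by decide +kernel)

lemma good_3_8_7 : Good 3 8 7 :=
  good_of_chk 3 Nat.prime_three 8 7 [0, 2, 0, 0, 0, 0, 0, 0, 1] 16
    [-55, -50, -38, -20, 0, 21, 39, 51, 55] 2 Nat.prime_two 0 (-2)
    (by decide +kernel)

lemma good_3_8_8 : Good 3 8 8 :=
  good_of_chk 3 Nat.prime_three 8 8 [4, 2, 0, 0, 0, 0, 0, 0, 1] 5
    [-17, -15, -12, -6, 0, 7, 12, 16, 17] 2 Nat.prime_two 0 1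
    (by decide +kernel)

lemma good_3_9_2 : Good 3 9 2 :=
  good_of_chk 3 Nat.prime_three 9 2 [6, 0, 0, 0, 0, 0, 0, 1, 0, 1] 16
    [-55, -51, -41, -26, -9, 9, 26, 41, 51, 55] 2 Nat.prime_two 0 1
    (by decide +kernel)

lemma good_3_9_3 : Good 3 9 3 :=
  good_of_chk 3 Nat.prime_three 9 3 [6, 0, 0, 0, 0, 0, -2, 1, 0, 1] 16
    [-55, -50, -39, -25, -11, 7, 26, 42, 52, 55] 2 Nat.prime_two 0 1
    (by decide +kernel)

lemma good_3_9_4 : Good 3 9 4 :=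
  good_of_chk 3 Nat.prime_three 9 4 [6, 0, 0, 0, 0, 2, 0, -1, 0, 1] 16
    [-55, -51, -43, -29, -10, 11, 30, 43, 52, 55] 2 Nat.prime_two 0 1
    (by decide +kernel)

lemma good_3_9_5 : Good 3 9 5 :=
  good_of_chk 3 Nat.prime_three 9 5 [6, 0, 0, 0, -2, 0, 0, 1, 0, 1] 16
    [-55, -50, -40, -26, -8, 9, 26, 41, 51, 55] 2 Nat.prime_two 0 1
    (by decide +kernel)

lemma good_3_9_6 : Good 3 9 6 :=
  good_of_chk 3 Nat.prime_three 9 6 [-6, 0, 0, -2, 0, 0, 0, 1, 0, 1] 16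
    [-55, -51, -40, -26, -9, 9, 26, 41, 51, 55] 2 Nat.prime_two 0 (-1)
    (by decide +kernel)

lemma good_3_9_7 : Good 3 9 7 :=
  good_of_chk 3 Nat.prime_three 9 7 [6, 0, 2, 0, 0, 0, 0, 1, 0, 1] 16
    [-55, -51, -41, -26, -8, 9, 26, 41, 51, 55] 2 Nat.prime_two 0 (-1)
    (by decide +kernel)

lemma good_3_9_8 : Good 3 9 8 :=
  good_of_chk 3 Nat.prime_three 9 8 [6, 2, 0, 0, 0, 0, 0, 1, 0, 1] 16
    [-55, -51, -41, -26, -9, 9, 26, 41, 51, 55] 2 Nat.prime_two 0 1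
    (by decide +kernel)

lemma good_3_9_9 : Good 3 9 9 :=
  good_of_chk 3 Nat.prime_three 9 9 [1, -3, 0, 0, 0, 0, 0, 0, 0, 1] 16
    [-55, -51, -41, -27, -9, 9, 27, 42, 51, 55] 3 Nat.prime_three 2 (-1)
    (by decide +kernel)

lemma good_5_2_2 : Good 5 2 2 :=
  good_of_chk 5 Nat.prime_five 2 2 [2, 1, 1] 1
    [-4, 0, 4] 3 Nat.prime_three 1 (-1)
    (by decide +kernel)

lemma good_5_3_0 : Good 5 3 0 :=
  good_of_chk 5 Nat.prime_five 3 0 [10, 5, 0, 1] 1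
    [-4, -1, 2, 4] 2 Nat.prime_two 0 1
    (by decide +kernel)

lemma good_5_3_2 : Good 5 3 2 :=
  good_of_chk 5 Nat.prime_five 3 2 [-10, 1, 0, 1] 4
    [-17, -8, 7, 17] 2 Nat.prime_two 0 (-1)
    (by decide +kernel)

lemma good_5_3_3 : Good 5 3 3 :=
  good_of_chk 5 Nat.prime_five 3 3 [2, 1, 0, 1] 1
    [-4, -1, 2, 4] 2 Nat.prime_two 0 1
    (by decide +kernel)

lemma good_5_4_0 : Good 5 4 0 :=
  good_of_chk 5 Nat.prime_five 4 0 [-5, -5, 0, 0, 1] 5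
    [-22, -14, 0, 15, 22] 5 Nat.prime_five 0 1
    (by decide +kernel)

lemma good_5_4_2 : Good 5 4 2 :=
  good_of_chk 5 Nat.prime_five 4 2 [0, -5, 2, -1, 1] 5
    [-22, -12, 2, 15, 22] 7 (by norm_num : Nat.Prime 7) 2 (-1)
    (by decide +kernel)

lemma good_5_4_3 : Good 5 4 3 :=
  good_of_chk 5 Nat.prime_five 4 3 [0, -2, 0, 0, 1] 4
    [-17, -12, 0, 12, 17] 2 Nat.prime_two 0 1
    (by decide +kernel)

lemma good_5_4_4 : Good 5 4 4 :=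
  good_of_chk 5 Nat.prime_five 4 4 [1, -2, 0, 0, 1] 4
    [-17, -12, 0, 12, 17] 2 Nat.prime_two 1 2
    (by decide +kernel)

lemma good_5_5_2 : Good 5 5 2 :=
  good_of_chk 5 Nat.prime_five 5 2 [10, 0, 0, 1, 0, 1] 4
    [-17, -13, -5, 5, 14, 17] 2 Nat.prime_two 0 1
    (by decide +kernel)

lemma good_5_5_3 : Good 5 5 3 :=
  good_of_chk 5 Nat.prime_five 5 3 [10, 0, 2, 1, 0, 1] 5
    [-22, -17, -6, 7, 17, 22] 2 Nat.prime_two 0 (-1)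
    (by decide +kernel)

lemma good_5_5_4 : Good 5 5 4 :=
  good_of_chk 5 Nat.prime_five 5 4 [10, 2, 0, -1, 0, 1] 5
    [-22, -17, -7, 7, 18, 22] 2 Nat.prime_two 0 1
    (by decide +kernel)

lemma good_5_5_5 : Good 5 5 5 :=
  good_of_chk 5 Nat.prime_five 5 5 [2, 0, 0, 1, 0, 1] 4
    [-17, -13, -5, 5, 13, 17] 2 Nat.prime_two 0 1
    (by decide +kernel)

lemma good_5_6_2 : Good 5 6 2 :=
  good_of_chk 5 Nat.prime_five 6 2 [-25, 10, 0, 0, 1, 0, 1] 5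
    [-22, -18, -10, 0, 11, 19, 22] 2 Nat.prime_two 1 1
    (by decide +kernel)

lemma good_5_6_3 : Good 5 6 3 :=
  good_of_chk 5 Nat.prime_five 6 3 [-10, 0, 5, -2, 0, 0, 1] 5
    [-22, -18, -11, 0, 12, 19, 22] 2 Nat.prime_two 0 1
    (by decide +kernel)

lemma good_5_6_4 : Good 5 6 4 :=
  good_of_chk 5 Nat.prime_five 6 4 [10, 0, -1, 2, 0, 0, 1] 5
    [-22, -19, -11, 0, 11, 19, 22] 2 Nat.prime_two 0 1
    (by decide +kernel)

lemma good_5_6_5 : Good 5 6 5 :=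
  good_of_chk 5 Nat.prime_five 6 5 [-5, -3, 0, 0, 0, 0, 1] 5
    [-22, -18, -10, 0, 11, 19, 22] 3 Nat.prime_three 0 1
    (by decide +kernel)

lemma good_5_6_6 : Good 5 6 6 :=
  good_of_chk 5 Nat.prime_five 6 6 [4, 3, 0, 0, 0, 0, 1] 5
    [-22, -18, -10, 0, 11, 19, 22] 3 Nat.prime_three 0 1
    (by decide +kernel)

lemma good_7_2_2 : Good 7 2 2 :=
  good_of_chk 7 (by norm_num : Nat.Prime 7) 2 2 [4, 1, 1] 1
    [-5, 0, 5] 41 (by norm_num : Nat.Prime 41) 20 1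
    (by decide +kernel)

lemma good_7_3_2 : Good 7 3 2 :=
  good_of_chk 7 (by norm_num : Nat.Prime 7) 3 2 [14, 1, 0, 1] 1
    [-5, -2, 3, 5] 2 Nat.prime_two 0 1
    (by decide +kernel)

lemma good_7_4_2 : Good 7 4 2 :=
  good_of_chk 7 (by norm_num : Nat.Prime 7) 4 2 [0, 14, 2, 0, 1] 4
    [-21, -13, 2, 13, 21] 2 Nat.prime_two 0 1
    (by decide +kernel)

lemma good_11_3_2 : Good 11 3 2 :=
  good_of_chk 11 (by norm_num : Nat.Prime 11) 3 2 [22, 1, 0, 1] 1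
    [-6, -2, 3, 6] 2 Nat.prime_two 0 1
    (by decide +kernel)

lemma good_11_4_2 : Good 11 4 2 :=
  good_of_chk 11 (by norm_num : Nat.Prime 11) 4 2 [0, 22, 2, 0, 1] 2
    [-13, -8, 1, 9, 13] 2 Nat.prime_two 0 1
    (by decide +kernel)

lemma good_13_3_2 : Good 13 3 2 :=
  good_of_chk 13 (by norm_num : Nat.Prime 13) 3 2 [26, 1, 0, 1] 1
    [-7, -3, 3, 7] 2 Nat.prime_two 0 1
    (by decide +kernel)

lemma good_13_4_2 : Good 13 4 2 :=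
  good_of_chk 13 (by norm_num : Nat.Prime 13) 4 2 [0, 26, 4, 0, 1] 1
    [-7, -4, 0, 5, 7] 2 Nat.prime_two 0 1
    (by decide +kernel)

lemma good_17_3_2 : Good 17 3 2 :=
  good_of_chk 17 (by norm_num : Nat.Prime 17) 3 2 [34, 1, 0, 1] 1
    [-8, -3, 4, 8] 2 Nat.prime_two 0 1
    (by decide +kernel)

end Pool.Agent.MP_e32a7e_nt
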