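import Pool.Agent.Lib.MP_e32a7e_nt.Criterion

/-!
# `p`-rank one: powers keep the degree
-/

open Polynomial Finset IntermediateField

namespace Pool.Agent.MP_e32a7e_nt

/-- Two zeros of an irreducible polynomial: their powers have the same minimal polynomial. -/
lemma minpoly_pow_conj (z z' : ℂ) (hz : IsIntegral ℚ z) (h : minpoly ℚ z' = minpoly ℚ z) (n : ℕ) :
    minpoly ℚ (z' ^ n) = minpoly ℚ (z ^ n) := by
  have hz' : IsIntegral ℚ z' := by
    by_contra hn
    rw [minpoly.eq_zero hn] at h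
    exact minpoly.ne_zero hz h.symm
  have hirr : Irreducible (minpoly ℚ z) := minpoly.irreducible hz
  have : Fact (Irreducible (minpoly ℚ z)) := ⟨hirr⟩
  have e1 : aeval z (minpoly ℚ z) = 0 := minpoly.aeval ℚ z
  have e2 : aeval z' (minpoly ℚ z) = 0 := by
    rw [← h]
    exact minpoly.aeval ℚ z'
  let φ : AdjoinRoot (minpoly ℚ z) →ₐ[ℚ] ℂ :=
    AdjoinRoot.liftAlgHom (minpoly ℚ z) (Algebra.ofId ℚ ℂ) z e1
  let ψ : AdjoinRoot (minpoly ℚ z) →ₐ[ℚ] ℂ :=
    AdjoinRoot.liftAlgHom (minpoly ℚ z) (Algebra.ofId ℚ ℂ) z' e2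
  have hφ : φ (AdjoinRoot.root _ ^ n) = z ^ n := by
    rw [map_pow]
    congr 1
    exact AdjoinRoot.liftAlgHom_root ..
  have hψ : ψ (AdjoinRoot.root _ ^ n) = z' ^ n := by
    rw [map_pow]
    congr 1
    exact AdjoinRoot.liftAlgHom_root ..
  rw [← hφ, ← hψ, minpoly.algHom_eq φ φ.toRingHom.injective,
    minpoly.algHom_eq ψ ψ.toRingHom.injective]

/-- A reduction map from the ring of algebraic integers to a field of characteristic `p`. -/
lemma exists_reduction (p : ℕ) (hp : p.Prime) :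
    ∃ (k : Type) (_ : Field k) (_ : integralClosure ℤ ℂ →+* k), (p : k) = 0 := by
  have hne : Ideal.span {(p : integralClosure ℤ ℂ)} ≠ ⊤ := by
    intro h
    rw [Ideal.span_singleton_eq_top] at h
    obtain ⟨u, hu⟩ := h
    have h1 : (p : integralClosure ℤ ℂ) * (u⁻¹ : (integralClosure ℤ ℂ)ˣ) = 1 := by
      rw [← hu]
      exact u.mul_inv
    set v : integralClosure ℤ ℂ := ((u⁻¹ : (integralClosure ℤ ℂ)ˣ) : integralClosure ℤ ℂ) with hv
    have h2 : (p : ℂ) * (v : ℂ) = 1 := by
      have := congrArg (fun x : integralClosure ℤ ℂ => (x : ℂ)) h1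
      simpa using this
    have hp0 : (p : ℂ) ≠ 0 := by exact_mod_cast hp.ne_zero
    have h3 : (v : ℂ) = algebraMap ℚ ℂ (1 / p : ℚ) := by
      rw [map_div₀, map_one, map_natCast, eq_div_iff hp0, mul_comm]
      exact h2
    have h4 : IsIntegral ℤ (1 / p : ℚ) := by
      rw [← isIntegral_algebraMap_iff (algebraMap ℚ ℂ).injective, ← h3]
      exact v.2
    obtain ⟨m, hm⟩ := rat_int_of_integral _ h4
    have hpq : (p : ℚ) ≠ 0 := by exact_mod_cast hp.ne_zero
    have h5 : (1 : ℚ) = m * p := by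
      rw [← hm]
      field_simp
    have h6 : (1 : ℤ) = m * p := by exact_mod_cast h5
    have h7 : (p : ℤ) ∣ 1 := ⟨m, by rw [h6]; ring⟩
    have h8 := Int.le_of_dvd (by norm_num) h7
    have := hp.two_le
    omega
  obtain ⟨M, hM, hle⟩ := Ideal.exists_le_maximal _ hne
  refine ⟨integralClosure ℤ ℂ ⧸ M, Ideal.Quotient.field M, Ideal.Quotient.mk M, ?_⟩
  have h1 : (p : integralClosure ℤ ℂ) ∈ M := hle (Ideal.subset_span rfl)
  have h2 := Ideal.Quotient.eq_zero_iff_mem.mpr h1
  rw [← h2]
  simp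

/-- **`p`-rank one.** -/
theorem natDegree_minpoly_pow_one (p : ℕ) (hp : p.Prime) (P : ℤ[X]) (hP : P.Monic)
    (hirr : Irreducible P) (a : ZMod p) (ha : a ≠ 0)
    (hred : P.map (Int.castRingHom (ZMod p)) = X ^ (P.natDegree - 1) * (X + C a))
    (z : ℂ) (hz : aeval z P = 0) (n : ℕ) (hn : 1 ≤ n) :
    (minpoly ℚ (z ^ n)).natDegree = P.natDegree := by
  classical
  have hd1 : 1 ≤ P.natDegree := by
    by_contra h
    have h0 : P.natDegree = 0 := by omega
    rw [hP.natDegree_eq_zero.mp h0] at hirr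
    exact not_irreducible_one hirr
  have hPq : Irreducible (P.map (algebraMap ℤ ℚ)) :=
    (hP.irreducible_iff_irreducible_map_fraction_map (K := ℚ)).mp hirr
  have hmin : ∀ w : ℂ, aeval w P = 0 → minpoly ℚ w = P.map (algebraMap ℤ ℚ) := by
    intro w hw
    symm
    apply minpoly.eq_of_irreducible_of_monic hPq
    · rw [aeval_map_algebraMap]
      exact hw
    · exact hP.map _
  have hint : ∀ w : ℂ, aeval w P = 0 → IsIntegral ℤ w := by
    intro w hw
    exact ⟨P, hP, by rwa [aeval_def] at hw⟩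
  obtain ⟨k, _, φ, hk⟩ := exists_reduction p hp
  have : Fact p.Prime := ⟨hp⟩
  have hchar : CharP k p := (CharP.charP_iff_prime_eq_zero hp).mpr hk
  -- extension of the reduction map by zero
  let ψ : ℂ → k := fun x => if h : IsIntegral ℤ x then φ ⟨x, h⟩ else 0
  have hψ : ∀ x : integralClosure ℤ ℂ, ψ (x : ℂ) = φ x := by
    intro x
    have : IsIntegral ℤ (x : ℂ) := x.2
    simp only [ψ, this, dif_pos]
  -- the roots
  set s := (P.map (algebraMap ℤ ℂ)).roots with hs
  have hsplit : (P.map (algebraMap ℤ ℂ)).Splits := IsAlgClosed.splits _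
  have hsroot : ∀ ρ ∈ s, aeval ρ P = 0 := by
    intro ρ hρ
    have := (mem_roots'.mp hρ).2
    rwa [IsRoot.def, eval_map_algebraMap] at this
  have hlift : ∃ s' : Multiset (integralClosure ℤ ℂ),
      s'.map (algebraMap (integralClosure ℤ ℂ) ℂ) = s := by
    refine ⟨s.attach.map (fun ρ => (⟨ρ.1, hint ρ.1 (hsroot ρ.1 ρ.2)⟩ : integralClosure ℤ ℂ)), ?_⟩
    rw [Multiset.map_map]
    exact Multiset.attach_map_val s
  obtain ⟨s', hs'⟩ := hlift
  have hfac : P.map (algebraMap ℤ (integralClosure ℤ ℂ)) = (s'.map fun x => X - C x).prod := by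
    have hinj : Function.Injective (algebraMap (integralClosure ℤ ℂ) ℂ) :=
      Subtype.val_injective
    apply map_injective _ hinj
    rw [Polynomial.map_map, Polynomial.map_multiset_prod, Multiset.map_map]
    have h1 : ((algebraMap (integralClosure ℤ ℂ) ℂ).comp
        (algebraMap ℤ (integralClosure ℤ ℂ))) = algebraMap ℤ ℂ := RingHom.ext_int _ _
    rw [h1, hsplit.eq_prod_roots_of_monic (hP.map _), ← hs, ← hs', Multiset.map_map]
    congr 1
    apply Multiset.map_congr rfl
    intro x _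
    simp
  have hfack : P.map (Int.castRingHom k) = ((s.map ψ).map fun x => X - C x).prod := by
    have h1 := congrArg (Polynomial.map φ) hfac
    rw [Polynomial.map_map, Polynomial.map_multiset_prod, Multiset.map_map] at h1
    have h2 : φ.comp (algebraMap ℤ (integralClosure ℤ ℂ)) = Int.castRingHom k :=
      RingHom.ext_int _ _
    rw [h2] at h1
    rw [h1, ← hs', Multiset.map_map, Multiset.map_map]
    congr 1
    apply Multiset.map_congr rfl
    intro x _
    have h3 : ψ (x : ℂ) = φ x := hψ x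
    simp [h3]
  let ι : ZMod p →+* k := ZMod.castHom dvd_rfl k
  have hιinj : Function.Injective ι := ι.injective
  have hredk : P.map (Int.castRingHom k) = X ^ (P.natDegree - 1) * (X + C (ι a)) := by
    have h1 := congrArg (Polynomial.map ι) hred
    rw [Polynomial.map_map, Polynomial.map_mul, Polynomial.map_pow, map_X, Polynomial.map_add,
      map_X, map_C] at h1
    have h2 : ι.comp (Int.castRingHom (ZMod p)) = Int.castRingHom k := RingHom.ext_int _ _
    rwa [h2] at h1
  have hιa : ι a ≠ 0 := by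
    intro h0
    apply ha
    apply hιinj
    rw [h0, map_zero]
  -- the multiplicity of `-a`
  have hroots : (P.map (Int.castRingHom k)).roots = s.map ψ := by
    rw [hfack, roots_multiset_prod_X_sub_C]
  have hcount : (s.map ψ).count (-ι a) = 1 := by
    have hne : (X ^ (P.natDegree - 1) * (X + C (ι a)) : k[X]) ≠ 0 :=
      mul_ne_zero (pow_ne_zero _ X_ne_zero) (X_add_C_ne_zero _)
    rw [← hroots, hredk, roots_mul hne, roots_X_pow, roots_X_add_C, Multiset.count_add,
      Multiset.count_nsmul, Multiset.count_singleton, Multiset.count_singleton,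
      if_neg (neg_ne_zero.mpr hιa), if_pos rfl]
    ring
  rw [Multiset.count_map] at hcount
  -- the distinguished root
  obtain ⟨z', hz'⟩ := Multiset.card_eq_one.mp hcount
  have hz'mem : z' ∈ s.filter (fun x => -ι a = ψ x) := by
    rw [hz']
    exact Multiset.mem_singleton_self z'
  rw [Multiset.mem_filter] at hz'mem
  obtain ⟨hz's, hz'ψ⟩ := hz'mem
  have hz'0 := hsroot z' hz's
  have hzmin := hmin z hz
  have hz'min := hmin z' hz'0
  have hz'q : IsIntegral ℚ z' := (hint z' hz'0).tower_top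
  have hdeg : (minpoly ℚ z').natDegree = P.natDegree := by
    rw [hz'min, hP.natDegree_map]
  rw [minpoly_pow_conj z' z hz'q (by rw [hzmin, hz'min]) n, ← hdeg]
  -- now work with `z'`
  set K' := ℚ⟮z' ^ n⟯ with hK'
  have hz'K : IsIntegral K' z' := hz'q.tower_top
  set M := minpoly K' z' with hM
  have hMm : M.Monic := minpoly.monic hz'K
  have hdvd : M ∣ X ^ n - C (⟨z' ^ n, mem_adjoin_simple_self ℚ (z' ^ n)⟩ : K') := by
    apply minpoly.dvd
    rw [map_sub, map_pow, aeval_X, aeval_C]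
    exact sub_self _
  have hroots1 : ∀ ρ ∈ (M.map (algebraMap K' ℂ)).roots, ρ ^ n = z' ^ n := by
    intro ρ hρ
    have h1 := (mem_roots'.mp hρ).2
    rw [IsRoot.def, eval_map_algebraMap] at h1
    obtain ⟨Q, hQ⟩ := hdvd
    have h2 := congrArg (aeval ρ) hQ
    rw [map_mul, h1, zero_mul, map_sub, map_pow, aeval_X, aeval_C] at h2
    exact sub_eq_zero.mp h2
  have hle : (M.map (algebraMap K' ℂ)).roots ≤ s := by
    rw [hs]
    apply roots.le_of_dvd (hP.map _).ne_zero
    have h1 : M ∣ P.map (algebraMap ℤ K') := by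
      apply minpoly.dvd
      rw [aeval_map_algebraMap]
      exact hz'0
    have h2 := Polynomial.map_dvd (algebraMap K' ℂ) h1
    rw [Polynomial.map_map] at h2
    have h3 : (algebraMap K' ℂ).comp (algebraMap ℤ K') = algebraMap ℤ ℂ := RingHom.ext_int _ _
    rwa [h3] at h2
  have hψroot : ∀ ρ ∈ (M.map (algebraMap K' ℂ)).roots, -ι a = ψ ρ := by
    intro ρ hρ
    have hρs := Multiset.mem_of_le hle hρ
    have hρ0 := hsroot ρ hρs
    have hρi := hint ρ hρ0
    have h1 : ψ ρ ∈ s.map ψ := Multiset.mem_map_of_mem ψ hρs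
    rw [← hroots, mem_roots', IsRoot.def, hredk, eval_mul, eval_pow, eval_X, eval_add, eval_X,
      eval_C] at h1
    have h2 : ψ ρ ^ n = (-ι a) ^ n := by
      rw [hz'ψ]
      have e1 : ψ ρ = φ ⟨ρ, hρi⟩ := hψ ⟨ρ, hρi⟩
      have e2 : ψ z' = φ ⟨z', hint z' hz'0⟩ := hψ ⟨z', hint z' hz'0⟩
      rw [e1, e2, ← map_pow, ← map_pow]
      congr 1
      apply Subtype.ext
      exact hroots1 ρ hρ
    have h3 : ψ ρ ≠ 0 := by
      intro h0
      rw [h0, zero_pow (by omega)] at h2
      exact pow_ne_zero n (neg_ne_zero.mpr hιa) h2.symm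
    rcases mul_eq_zero.mp h1.2 with h | h
    · exact absurd (eq_zero_of_pow_eq_zero h) h3
    · exact (eq_neg_of_add_eq_zero_left h).symm
  have hcard : Multiset.card (M.map (algebraMap K' ℂ)).roots ≤ 1 := by
    rw [← hcount]
    apply Multiset.card_le_card
    rw [Multiset.le_filter]
    exact ⟨hle, hψroot⟩
  have hMdeg : M.natDegree ≤ 1 := by
    have h1 : (M.map (algebraMap K' ℂ)).Splits := IsAlgClosed.splits _
    have h2 := splits_iff_card_roots.mp h1
    rw [hMm.natDegree_map] at h2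
    omega
  -- conclusion
  have hmem : z' ∈ K' := by
    have h1 : M.degree = 1 := by
      rw [degree_eq_natDegree hMm.ne_zero]
      have : 0 < M.natDegree := minpoly.natDegree_pos hz'K
      have h2 : M.natDegree = 1 := by omega
      rw [h2]
      rfl
    obtain ⟨y, hy⟩ := minpoly.mem_range_of_degree_eq_one K' z' h1
    rw [← hy]
    exact y.2
  have hznq : IsIntegral ℚ (z' ^ n) := hz'q.pow n
  have hKeq : ℚ⟮z' ^ n⟯ = ℚ⟮z'⟯ := by
    apply le_antisymm
    · rw [adjoin_simple_le_iff]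
      exact pow_mem (mem_adjoin_simple_self ℚ z') n
    · rw [adjoin_simple_le_iff]
      exact hmem
  rw [← adjoin.finrank hz'q, ← adjoin.finrank hznq, hKeq]

end Pool.Agent.MP_e32a7e_nt
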