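import Pool.Agent.Lib.MP_e32a7e_nt.Factor

/-!
# `p`-rank one
-/

open Polynomial Finset

namespace Pool.Agent.MP_e32a7e_nt

lemma dPoly_eval_zero_dvd (p : ℤ) (n : ℕ) (hn : 1 ≤ n) : p ∣ (dPoly p n).eval 0 := by
  induction n using Nat.strong_induction_on with
  | _ n ih =>
    match n with
    | 0 => omega
    | 1 => simp [dPoly]
    | (m + 2) =>
      rw [dPoly_add_two]
      simp

lemma dPoly_eval_zero_sq_dvd (p : ℤ) (n : ℕ) (hn : 3 ≤ n) : p ^ 2 ∣ (dPoly p n).eval 0 := by
  obtain ⟨m, rfl⟩ : ∃ m, n = m + 2 := ⟨n - 2, by omega⟩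
  rw [dPoly_add_two]
  obtain ⟨k, hk⟩ := dPoly_eval_zero_dvd p m (by omega)
  simp only [eval_sub, eval_mul, eval_X, eval_C, hk]
  exact ⟨-k, by ring⟩

lemma dPoly_even (p t : ℤ) (ht : t % 2 = 0) (n : ℕ) : (dPoly p n).eval t % 2 = 0 := by
  induction n using Nat.strong_induction_on with
  | _ n ih =>
    match n with
    | 0 => rw [dPoly_zero]; simp
    | 1 => simpa [dPoly] using ht
    | (m + 2) =>
      rw [dPoly_add_two]
      obtain ⟨a, ha⟩ : ∃ a, t = 2 * a := ⟨t / 2, by omega⟩
      have h1 := ih m (by omega)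
      obtain ⟨c, hc⟩ : ∃ c, (dPoly p m).eval t = 2 * c := ⟨(dPoly p m).eval t / 2, by omega⟩
      simp only [eval_sub, eval_mul, eval_X, eval_C, hc]
      rw [show t * eval t (dPoly p (m + 1)) - p * (2 * c) =
        2 * (a * eval t (dPoly p (m + 1)) - p * c) by rw [ha]; ring]
      omega

/-- The coefficients for `p`-rank one. -/
def b1 (g : ℕ) (mid : ℤ) (i : ℕ) : ℤ := if i = 0 ∨ i = 1 then 1 else if i = g then mid else 0

lemma hPoly_b1 (p : ℤ) (g : ℕ) (hg : 2 ≤ g) (mid : ℤ) :
    hPoly p g (b1 g mid) = dPoly p g + dPoly p (g - 1) + C mid := by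
  obtain ⟨k, rfl⟩ : ∃ k, g = k + 2 := ⟨g - 2, by omega⟩
  unfold hPoly
  rw [sum_range_succ', sum_range_succ']
  have h1 : ∑ i ∈ range k, C (b1 (k + 2) mid (i + 1 + 1)) * dPoly p (k + 2 - (i + 1 + 1)) = 0 := by
    apply sum_eq_zero
    intro i hi
    have := mem_range.mp hi
    rw [b1, if_neg (by omega), if_neg (by omega)]
    simp
  have h2 : b1 (k + 2) mid (0 + 1) = 1 := by simp [b1]
  have h3 : b1 (k + 2) mid 0 = 1 := by simp [b1]
  have h4 : b1 (k + 2) mid (k + 2) = mid := by
    rw [b1, if_neg (by omega), if_pos rfl]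
  rw [h1, h2, h3, h4]
  simp
  ring

lemma b1_map (p : ℕ) (g : ℕ) (hg : 2 ≤ g) (mid : ℤ) (hmid : (p : ℤ) ∣ mid) :
    (hPoly p g (b1 g mid)).map (Int.castRingHom (ZMod p)) = X ^ (g - 1) * (X + 1) := by
  rw [hPoly_b1 (p : ℤ) g hg mid, Polynomial.map_add, Polynomial.map_add, dPoly_map p g (by omega),
    dPoly_map p (g - 1) (by omega), map_C, eq_intCast,
    (ZMod.intCast_zmod_eq_zero_iff_dvd mid p).mpr hmid]
  have : X ^ g = X ^ (g - 1) * (X : (ZMod p)[X]) := by
    rw [← pow_succ]
    congr 1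
    omega
  rw [this]
  simp
  ring

lemma beta_b1 (g : ℕ) (hg : 3 ≤ g) (mid : ℤ) (i : ℕ) (hi : 0 < i) :
    |beta g (b1 g mid) i| ≤ (if i = 1 then (1 : ℝ) else 0) + (if i = g then |(mid : ℝ)| / 2 else 0) +
      (if i = 0 then 0 else 0) + (if i = 0 then 0 else 0) := by
  have h5 : (if i = 0 then (0 : ℝ) else 0) = 0 := by split_ifs <;> rfl
  rw [h5, add_zero, add_zero]
  rcases lt_trichotomy i g with h | h | h
  · rw [beta, if_pos h, if_neg (by omega : ¬ i = g), add_zero, b1]
    by_cases h1 : i = 1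
    · rw [if_pos (Or.inr h1), if_pos h1]
      norm_num
    · rw [if_neg (by omega), if_neg (by omega), if_neg h1]
      norm_num
  · subst h
    rw [beta, if_neg (lt_irrefl i), if_pos rfl, b1, if_neg (by omega), if_pos rfl, if_pos rfl,
      if_neg (by omega), zero_add, abs_div, abs_of_pos (by norm_num : (0 : ℝ) < 2)]
  · rw [beta_eq_zero h, abs_zero, if_neg (by omega), if_neg (by omega)]
    norm_num

lemma h_coeff_zero (h : ℤ[X]) : h.coeff 0 = h.eval 0 := coeff_zero_eq_eval_zero h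

/-- Odd primes, `g ≥ 3`. -/
lemma good_one_odd (p : ℕ) (hp : p.Prime) (hp2 : p ≠ 2) (g : ℕ) (hg : 3 ≤ g) : Good p g 1 := by
  have hp3 : 3 ≤ p := by
    have := hp.two_le
    omega
  have hodd : (p : ℤ) % 2 = 1 := by
    obtain ⟨k, hk⟩ := hp.odd_of_ne_two hp2
    omega
  have hp0 : (0 : ℤ) < p := by exact_mod_cast hp.pos
  -- choice of the middle coefficient
  obtain ⟨mid, hmid, hm1, hm0⟩ : ∃ mid : ℤ, (mid = p ∨ mid = -p) ∧
      (hPoly p g (b1 g mid)).eval (-1) ≠ 0 ∧ ¬ (p ^ 2 : ℤ) ∣ (hPoly p g (b1 g mid)).eval 0 := by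
    have hsq : ¬ (p ^ 2 : ℤ) ∣ p := by
      intro h
      have h1 := Int.le_of_dvd hp0 h
      nlinarith
    rcases eq_or_lt_of_le hg with h | h
    · subst h
      refine ⟨p, Or.inl rfl, ?_, ?_⟩
      · rw [hPoly_b1 (p : ℤ) 3 (by norm_num)]
        simp [dPoly]
        intro h
        apply hp0.ne'
        linarith
      · rw [hPoly_b1 (p : ℤ) 3 (by norm_num)]
        have : eval 0 (dPoly (p : ℤ) 3 + dPoly (p : ℤ) (3 - 1) + C (p : ℤ)) = -p := by
          simp [dPoly]
          ring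
        rw [this, dvd_neg]
        exact hsq
    · set F : ℤ := (dPoly p g).eval (-1) + (dPoly p (g - 1)).eval (-1) with hF
      have hev : ∀ mid : ℤ, (hPoly p g (b1 g mid)).eval (-1) = F + mid := by
        intro mid
        rw [hPoly_b1 (p : ℤ) g (by omega)]
        simp [hF]
      have hev0 : ∀ mid : ℤ, ¬ (p ^ 2 : ℤ) ∣ mid → ¬ (p ^ 2 : ℤ) ∣ (hPoly p g (b1 g mid)).eval 0 := by
        intro mid hmid h1
        rw [hPoly_b1 (p : ℤ) g (by omega)] at h1
        simp only [eval_add, eval_C] at h1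
        apply hmid
        have h2 := dPoly_eval_zero_sq_dvd (p : ℤ) g (by omega)
        have h3 := dPoly_eval_zero_sq_dvd (p : ℤ) (g - 1) (by omega)
        exact (dvd_add_right (dvd_add h2 h3)).mp h1
      by_cases h1 : F + p = 0
      · refine ⟨-p, Or.inr rfl, ?_, hev0 _ (by rwa [dvd_neg])⟩
        rw [hev]
        intro h2
        apply hp0.ne'
        linarith
      · exact ⟨p, Or.inl rfl, by rw [hev]; exact h1, hev0 _ hsq⟩
  have hmdvd : (p : ℤ) ∣ mid := by
    rcases hmid with h | h <;> rw [h] <;> simp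
  have hmabs : |(mid : ℝ)| = p := by
    rcases hmid with h | h <;> rw [h] <;> simp
  have hb : b1 g mid 0 = 1 := by simp [b1]
  -- location of the zeros
  have hloc : ∀ z : ℂ, aeval z (wPoly p g (b1 g mid)) = 0 → ‖z‖ = √(p : ℝ) ∧ z.im ≠ 0 := by
    set r : ℝ := (√(p : ℝ))⁻¹ with hr
    have hpR : (3 : ℝ) ≤ p := by exact_mod_cast hp3
    have hr0 : 0 ≤ r := by rw [hr]; positivity
    have hrx : r ^ 2 * p = 1 := by
      rw [hr, inv_pow, Real.sq_sqrt (by linarith)]
      field_simp
    have hr1 : r ≤ 0.5774 := by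
      by_contra h
      push Not at h
      have : (0.5774 : ℝ) ^ 2 < r ^ 2 := pow_lt_pow_left₀ h (by norm_num) (by norm_num)
      norm_num at this
      nlinarith
    intro z hz
    apply loc_sparse p (by omega) g (by omega) _ hb 1 g 0 0 1 (|(mid : ℝ)| / 2) 0 0 (by norm_num)
      (by positivity) le_rfl le_rfl r hr (beta_b1 g hg mid) _ z hz
    rw [hmabs]
    have h1 : r ^ g ≤ r ^ 3 := pow_le_pow_of_le_one hr0 (by linarith) (by omega)
    have h2 : (p : ℝ) / 2 * r ^ g ≤ p / 2 * r ^ 3 := mul_le_mul_of_nonneg_left h1 (by positivity)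
    have h3 : (p : ℝ) / 2 * r ^ 3 = r / 2 := by
      have : (p : ℝ) / 2 * r ^ 3 = (r ^ 2 * p) * (r / 2) := by ring
      rw [this, hrx, one_mul]
    simp only [pow_one, pow_zero]
    linarith
  -- irreducibility
  have hirr : Irreducible (hPoly p g (b1 g mid)) := by
    have hmon := hPoly_monic (p : ℤ) g (b1 g mid) (by omega) hb
    have hdeg := hPoly_natDegree (p : ℤ) g (b1 g mid) (by omega) hb
    have hone : (X + 1 : (ZMod p)[X]) = X + C 1 := by simp
    have : Fact p.Prime := ⟨hp⟩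
    apply irreducible_of_linear_unit p hp _ hmon (by omega) (g - 1) (X + 1)
      (by rw [hone]; exact X_add_C_ne_zero 1) (by rw [hone]; exact natDegree_X_add_C 1 |>.le)
      (b1_map p g (by omega) mid hmdvd) (by rw [h_coeff_zero]; exact hm0)
    intro t ht htp
    have hbd := int_root_bound p hp.pos g _ hloc t ht
    -- `p` divides `t + 1`
    have hdvd : (p : ℤ) ∣ t + 1 := by
      have h1 : ((hPoly p g (b1 g mid)).map (Int.castRingHom (ZMod p))).eval (t : ZMod p) = 0 := by
        rw [eval_intCast_map, Int.cast_id, ht]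
        simp
      rw [b1_map p g (by omega) mid hmdvd, eval_mul, eval_pow, eval_X, eval_add, eval_X,
        eval_one] at h1
      rcases mul_eq_zero.mp h1 with h2 | h2
      · exfalso
        have h3 := eq_zero_of_pow_eq_zero h2
        exact htp ((ZMod.intCast_zmod_eq_zero_iff_dvd _ _).mp h3)
      · rw [← ZMod.intCast_zmod_eq_zero_iff_dvd]
        push_cast
        exact h2
    -- `t` is odd
    have htodd : t % 2 = 1 := by
      by_contra hne
      have h0 : t % 2 = 0 := by omega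
      rw [hPoly_b1 (p : ℤ) g (by omega)] at ht
      simp only [eval_add, eval_C] at ht
      have h1 := dPoly_even p t h0 g
      have h2 := dPoly_even p t h0 (g - 1)
      rcases hmid with h | h <;> rw [h] at ht <;> omega
    obtain ⟨k, hk⟩ := hdvd
    have hk2 : k % 2 = 0 := by
      by_contra hne
      have h1 : k % 2 = 1 := by omega
      have h2 : ((p : ℤ) * k) % 2 = 1 := by
        rw [Int.mul_emod, hodd, h1]
        norm_num
      omega
    obtain ⟨j, hj⟩ : ∃ j, k = 2 * j := ⟨k / 2, by omega⟩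
    have hj0 : j = 0 := by
      by_contra hne
      have hp3' : (3 : ℤ) ≤ p := by exact_mod_cast hp3
      have ht' : t = 2 * p * j - 1 := by rw [hj] at hk; linarith
      rcases lt_or_gt_of_ne hne with h | h
      · have h1 : t ≤ -2 * p - 1 := by nlinarith
        nlinarith
      · have h1 : 2 * p - 1 ≤ t := by nlinarith
        nlinarith
    have htm : t = -1 := by
      rw [hj, hj0] at hk
      linarith
    rw [htm] at ht
    exact hm1 ht
  apply good_one_of p hp g (by omega) (b1 g mid) hb hloc hirr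
  · rw [b1, if_pos (Or.inr rfl)]
    intro h
    have := Int.le_of_dvd (by norm_num) h
    omega
  · intro i hi1 hi2
    rw [b1, if_neg (by omega)]
    split_ifs
    · exact hmdvd
    · exact dvd_zero _

end Pool.Agent.MP_e32a7e_nt
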