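import Mathlib

/-!
# Roots of unity in a number field with an integer of suitable norm

If an algebraic integer of a number field `K` has norm `N` with `N ≡ 6 mod 8` or `N ≡ 6 mod 9`
then the only roots of unity in `K` are `1` and `-1`.
-/

open Polynomial Finset NumberField

namespace Pool.Agent.MP_e32a7e_nt

/-- A prime dividing the norm of an integer exactly once gives a residue field of prime order. -/
lemma exists_hom_zmod (K : Type*) [Field K] [NumberField K] (a : 𝓞 K) (q : ℕ) (hq : q.Prime)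
    (h1 : (q : ℤ) ∣ Algebra.norm ℤ a) (h2 : ¬ (q ^ 2 : ℤ) ∣ Algebra.norm ℤ a) :
    Nonempty (𝓞 K →+* ZMod q) := by
  classical
  have hN0 : Algebra.norm ℤ a ≠ 0 := by
    intro h0
    apply h2
    rw [h0]
    exact dvd_zero _
  set J : Ideal (𝓞 K) := Ideal.span {a} with hJ
  set I : Ideal (𝓞 K) := Ideal.span {a, (q : 𝓞 K)} with hI
  have hJn : Ideal.absNorm J = (Algebra.norm ℤ a).natAbs := Ideal.absNorm_span_singleton a
  have hIa : a ∈ I := Ideal.subset_span (by simp)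
  have hIq : (q : 𝓞 K) ∈ I := Ideal.subset_span (by simp)
  have hd1 : Ideal.absNorm I ∣ (Algebra.norm ℤ a).natAbs := by
    rw [← hJn]
    apply Ideal.absNorm_dvd_absNorm_of_le
    rw [hJ, Ideal.span_le, Set.singleton_subset_iff]
    exact hIa
  have hd2 : Ideal.absNorm I ∣ q ^ Module.finrank ℤ (𝓞 K) := by
    have h3 : Ideal.absNorm (Ideal.span {(q : 𝓞 K)}) = q ^ Module.finrank ℤ (𝓞 K) := by
      rw [Ideal.absNorm_span_singleton]
      have h4 : Algebra.norm ℤ (algebraMap ℤ (𝓞 K) q) = (q : ℤ) ^ Module.finrank ℤ (𝓞 K) :=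
        Algebra.norm_algebraMap _
      have h5 : (algebraMap ℤ (𝓞 K) q) = (q : 𝓞 K) := by simp
      rw [h5] at h4
      rw [h4, Int.natAbs_pow, Int.natAbs_natCast]
    rw [← h3]
    apply Ideal.absNorm_dvd_absNorm_of_le
    rw [Ideal.span_le, Set.singleton_subset_iff]
    exact hIq
  obtain ⟨m, -, hm⟩ := (Nat.dvd_prime_pow hq).mp hd2
  have hm1 : m ≤ 1 := by
    by_contra hlt
    apply h2
    have h3 : q ^ 2 ∣ (Algebra.norm ℤ a).natAbs := by
      refine dvd_trans ?_ hd1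
      rw [hm]
      exact pow_dvd_pow q (by omega)
    have h4 : ((q ^ 2 : ℕ) : ℤ) ∣ Algebra.norm ℤ a := Int.natCast_dvd.mpr h3
    exact_mod_cast h4
  have hm0 : m ≠ 0 := by
    rintro rfl
    rw [pow_zero, Ideal.absNorm_eq_one_iff] at hm
    have h3 : (1 : 𝓞 K) ∈ I := by rw [hm]; trivial
    rw [hI, Ideal.mem_span_pair] at h3
    obtain ⟨u, v, huv⟩ := h3
    -- in the quotient by `a`, multiplication by `q` is invertible
    have hcard : Nat.card (𝓞 K ⧸ J) = (Algebra.norm ℤ a).natAbs := by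
      rw [← hJn]
      rfl
    have hfin : Finite (𝓞 K ⧸ J) := by
      apply Nat.finite_of_card_ne_zero
      rw [hcard]
      simpa using hN0
    have hqd : q ∣ Nat.card (𝓞 K ⧸ J) := by
      rw [hcard]
      exact Int.natCast_dvd.mp h1
    have : Fact q.Prime := ⟨hq⟩
    obtain ⟨x, hx⟩ := exists_prime_addOrderOf_dvd_card' (G := 𝓞 K ⧸ J) q hqd
    have hx0 : q • x = 0 := by
      rw [← hx]
      exact addOrderOf_nsmul_eq_zero x
    have hxne : x ≠ 0 := by
      intro h0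
      rw [h0, addOrderOf_zero] at hx
      exact hq.one_lt.ne hx
    apply hxne
    have h4 : (Ideal.Quotient.mk J v) * (q : 𝓞 K ⧸ J) = 1 := by
      have h5 : Ideal.Quotient.mk J (u * a + v * q) = 1 := by
        rw [huv, map_one]
      rw [map_add, map_mul, map_mul, map_natCast] at h5
      have h6 : Ideal.Quotient.mk J a = 0 := by
        rw [Ideal.Quotient.eq_zero_iff_mem, hJ]
        exact Ideal.subset_span rfl
      rwa [h6, mul_zero, zero_add] at h5
    calc x = (Ideal.Quotient.mk J v * (q : 𝓞 K ⧸ J)) * x := by rw [h4, one_mul]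
      _ = Ideal.Quotient.mk J v * (q • x) := by rw [mul_assoc, nsmul_eq_mul]
      _ = 0 := by rw [hx0, mul_zero]
  have hmeq : m = 1 := by omega
  rw [hmeq, pow_one] at hm
  have hcard : Nat.card (𝓞 K ⧸ I) = q := hm
  have hfin : Finite (𝓞 K ⧸ I) := by
    apply Nat.finite_of_card_ne_zero
    rw [hcard]
    exact hq.ne_zero
  have : Fintype (𝓞 K ⧸ I) := Fintype.ofFinite _
  rw [Nat.card_eq_fintype_card] at hcard
  exact ⟨(ZMod.ringEquivOfPrime (𝓞 K ⧸ I) hq hcard).symm.toRingHom.comp (Ideal.Quotient.mk I)⟩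

lemma rat_int_of_integral (x : ℚ) (hx : IsIntegral ℤ x) : ∃ n : ℤ, x = n := by
  obtain ⟨n, hn⟩ := IsIntegrallyClosed.isIntegral_iff.mp hx
  exact ⟨n, by simpa using hn.symm⟩

section quad

variable {a b : ℚ}

lemma quad_norm (β : QuadraticAlgebra ℚ a b) : Algebra.norm ℚ β = β.norm := by
  rw [Algebra.norm_apply, ← QuadraticAlgebra.det_toLinearMap_eq_norm]
  congr 1

/-- The norm of an integral element of the quadratic algebra is an integer, and so is its trace. -/
lemma quad_integral (β : QuadraticAlgebra ℚ a b) (hβ : IsIntegral ℤ β) :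
    (∃ n : ℤ, β.norm = n) ∧ (∃ n : ℤ, 2 * β.re + b * β.im = n) := by
  have hstar : IsIntegral ℤ (star β) :=
    hβ.map (starRingEnd (QuadraticAlgebra ℚ a b)).toIntAlgHom
  have hinj : Function.Injective (algebraMap ℚ (QuadraticAlgebra ℚ a b)) := by
    intro x y hxy
    have := congrArg QuadraticAlgebra.re hxy
    simpa using this
  constructor
  · apply rat_int_of_integral
    rw [← isIntegral_algebraMap_iff hinj, QuadraticAlgebra.algebraMap_norm_eq_mul_star]
    exact hβ.mul hstar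
  · apply rat_int_of_integral
    rw [← isIntegral_algebraMap_iff hinj]
    have : algebraMap ℚ (QuadraticAlgebra ℚ a b) (2 * β.re + b * β.im) = β + star β := by
      ext
      · simp; ring
      · simp
    rw [this]
    exact hβ.add hstar

end quad

/-- No square root of `-1` in a number field having an integer of norm `6 mod 8`. -/
lemma no_sqrt_neg_one (K : Type*) [Field K] [NumberField K] (α : K) (hα : IsIntegral ℤ α) (N : ℤ)
    (hN : Algebra.norm ℚ α = N) (hN8 : N % 8 = 6) (θ : K) : θ ^ 2 ≠ -1 := by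
  intro hθ
  have hfact : Fact (∀ r : ℚ, r ^ 2 ≠ (-1) + 0 * r) := ⟨fun r h => by nlinarith [sq_nonneg r]⟩
  let f : QuadraticAlgebra ℚ (-1) 0 →ₐ[ℚ] K :=
    QuadraticAlgebra.lift ⟨θ, by rw [← sq, hθ]; simp⟩
  let _ : Algebra (QuadraticAlgebra ℚ (-1) 0) K := f.toRingHom.toAlgebra
  have hst : IsScalarTower ℚ (QuadraticAlgebra ℚ (-1) 0) K :=
    IsScalarTower.of_algebraMap_eq (fun x => (f.commutes x).symm)
  set β : QuadraticAlgebra ℚ (-1) 0 := Algebra.norm (QuadraticAlgebra ℚ (-1) 0) α with hβ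
  have hβi : IsIntegral ℤ β := Algebra.isIntegral_norm _ hα
  have hnn : β.norm = N := by
    rw [← quad_norm, hβ, Algebra.norm_norm, hN]
  obtain ⟨-, A, hA⟩ := quad_integral β hβi
  have hωi : IsIntegral ℤ (QuadraticAlgebra.omega : QuadraticAlgebra ℚ (-1) 0) := by
    refine ⟨X ^ 2 + 1, by monicity!, ?_⟩
    rw [← aeval_def]
    simp only [map_add, map_one, sq]
    ext
    · simp
      exact (by norm_num : (-1 : ℚ) + 1 = 0)
    · simp
      rfl
  obtain ⟨-, B, hB⟩ := quad_integral (β * QuadraticAlgebra.omega) (hβi.mul hωi)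
  have hB' : -2 * β.im = B := by
    rw [← hB]
    simp
  have hA' : 2 * β.re = A := by
    rw [← hA]
    ring
  have hsum : A ^ 2 + B ^ 2 = 4 * N := by
    have h1 : ((A ^ 2 + B ^ 2 : ℤ) : ℚ) = ((4 * N : ℤ) : ℚ) := by
      push_cast
      rw [← hA', ← hB', ← hnn, QuadraticAlgebra.norm_def]
      ring
    exact_mod_cast h1
  obtain ⟨k, hk⟩ : ∃ k, N = 8 * k + 6 := ⟨N / 8, by omega⟩
  have hAe : A % 2 = 0 := by
    rcases Int.emod_two_eq_zero_or_one A with h | h
    · exact h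
    · exfalso
      obtain ⟨a', ha'⟩ : ∃ a', A = 2 * a' + 1 := ⟨A / 2, by omega⟩
      rcases Int.emod_two_eq_zero_or_one B with h' | h'
      · obtain ⟨b', hb'⟩ : ∃ b', B = 2 * b' := ⟨B / 2, by omega⟩
        rw [ha', hb', hk] at hsum
        ring_nf at hsum
        omega
      · obtain ⟨b', hb'⟩ : ∃ b', B = 2 * b' + 1 := ⟨B / 2, by omega⟩
        rw [ha', hb', hk] at hsum
        ring_nf at hsum
        omega
  obtain ⟨a', ha'⟩ : ∃ a', A = 2 * a' := ⟨A / 2, by omega⟩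
  have hBe : B % 2 = 0 := by
    rcases Int.emod_two_eq_zero_or_one B with h | h
    · exact h
    · exfalso
      obtain ⟨b', hb'⟩ : ∃ b', B = 2 * b' + 1 := ⟨B / 2, by omega⟩
      rw [ha', hb', hk] at hsum
      ring_nf at hsum
      omega
  obtain ⟨b', hb'⟩ : ∃ b', B = 2 * b' := ⟨B / 2, by omega⟩
  have hsq : a' ^ 2 + b' ^ 2 = 8 * k + 6 := by
    rw [ha', hb', hk] at hsum
    linarith
  have h8 : ∀ x : ℤ, x ^ 2 % 8 = 0 ∨ x ^ 2 % 8 = 1 ∨ x ^ 2 % 8 = 4 := by
    intro x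
    have : x % 8 = 0 ∨ x % 8 = 1 ∨ x % 8 = 2 ∨ x % 8 = 3 ∨ x % 8 = 4 ∨ x % 8 = 5 ∨ x % 8 = 6 ∨
      x % 8 = 7 := by omega
    rcases this with h | h | h | h | h | h | h | h <;> simp [sq, Int.mul_emod, h]
  have h1 := h8 a'
  have h2 := h8 b'
  omega

/-- No primitive cube root of unity in a number field having an integer of norm `6 mod 9`. -/
lemma no_cube_root (K : Type*) [Field K] [NumberField K] (α : K) (hα : IsIntegral ℤ α) (N : ℤ)
    (hN : Algebra.norm ℚ α = N) (hN9 : N % 9 = 6) (θ : K) : θ ^ 2 + θ + 1 ≠ 0 := by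
  intro hθ
  have hfact : Fact (∀ r : ℚ, r ^ 2 ≠ (-1) + (-1) * r) :=
    ⟨fun r h => by nlinarith [sq_nonneg (2 * r + 1)]⟩
  let f : QuadraticAlgebra ℚ (-1) (-1) →ₐ[ℚ] K :=
    QuadraticAlgebra.lift ⟨θ, by
      simp only [neg_smul, one_smul]
      linear_combination hθ⟩
  let _ : Algebra (QuadraticAlgebra ℚ (-1) (-1)) K := f.toRingHom.toAlgebra
  have hst : IsScalarTower ℚ (QuadraticAlgebra ℚ (-1) (-1)) K :=
    IsScalarTower.of_algebraMap_eq (fun x => (f.commutes x).symm)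
  set β : QuadraticAlgebra ℚ (-1) (-1) := Algebra.norm (QuadraticAlgebra ℚ (-1) (-1)) α with hβ
  have hβi : IsIntegral ℤ β := Algebra.isIntegral_norm _ hα
  have hnn : β.norm = N := by
    rw [← quad_norm, hβ, Algebra.norm_norm, hN]
  obtain ⟨-, A, hA⟩ := quad_integral β hβi
  have hωi : IsIntegral ℤ (QuadraticAlgebra.omega : QuadraticAlgebra ℚ (-1) (-1)) := by
    refine ⟨X ^ 2 + X + 1, by monicity!, ?_⟩
    rw [← aeval_def]
    simp only [map_add, aeval_X, map_one, sq]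
    ext
    · simp
      exact (by norm_num : (-1 : ℚ) + 1 = 0)
    · simp
      rfl
  obtain ⟨-, B, hB⟩ := quad_integral (β * QuadraticAlgebra.omega) (hβi.mul hωi)
  have hB' : -β.re - β.im = B := by
    rw [← hB]
    simp
    ring
  have hA' : 2 * β.re - β.im = A := by
    rw [← hA]
    ring
  -- `Y = 3 im` is an integer
  obtain ⟨Y, hY⟩ : ∃ Y : ℤ, Y = - (A + 2 * B) := ⟨_, rfl⟩
  have hYq : 3 * β.im = Y := by
    rw [hY]
    push_cast
    rw [← hA', ← hB']
    ring
  have hsum : 3 * A ^ 2 + Y ^ 2 = 12 * N := by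
    have h1 : ((3 * A ^ 2 + Y ^ 2 : ℤ) : ℚ) = ((12 * N : ℤ) : ℚ) := by
      push_cast
      rw [← hA', ← hYq, ← hnn, QuadraticAlgebra.norm_def]
      ring
    exact_mod_cast h1
  obtain ⟨k, hk⟩ : ∃ k, N = 9 * k + 6 := ⟨N / 9, by omega⟩
  have hY3 : (3 : ℤ) ∣ Y := by
    have h1 : (3 : ℤ) ∣ Y ^ 2 := ⟨4 * N - A ^ 2, by linarith⟩
    exact Int.prime_three.dvd_of_dvd_pow h1
  obtain ⟨y, hy⟩ := hY3
  have hs2 : A ^ 2 + 3 * y ^ 2 = 4 * N := by
    rw [hy] at hsum
    linarith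
  have hA3 : (3 : ℤ) ∣ A := by
    have h1 : (3 : ℤ) ∣ A ^ 2 := ⟨4 * (3 * k + 2) - y ^ 2, by rw [hk] at hs2; linarith⟩
    exact Int.prime_three.dvd_of_dvd_pow h1
  obtain ⟨x, hx⟩ := hA3
  have hs3 : 3 * x ^ 2 + y ^ 2 = 12 * k + 8 := by
    rw [hx, hk] at hs2
    linarith
  have h3 : ∀ x : ℤ, x ^ 2 % 3 = 0 ∨ x ^ 2 % 3 = 1 := by
    intro x
    have : x % 3 = 0 ∨ x % 3 = 1 ∨ x % 3 = 2 := by omega
    rcases this with h | h | h <;> simp [sq, Int.mul_emod, h]
  have h1 := h3 y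
  omega

end Pool.Agent.MP_e32a7e_nt
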