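import Pool.Agent.Lib.MP_e32a7e_nt.Basic

/-!
# Location of the zeros of a Weil polynomial

First criterion (Blaschke product): if `1 + β_1 u + ⋯ + β_g u^g` has no zero in the closed disc
of radius `1/√p` then all zeros of the Weil polynomial have absolute value `√p`.
-/

open Polynomial Finset ComplexConjugate

namespace Pool.Agent.MP_e32a7e_nt

lemma dist_lt_aux (R : ℝ) (hR : 0 < R) (z ρ : ℂ) (hz : R < ‖z‖) (hρ : ‖ρ‖ < R) :
    ‖(R ^ 2 / ‖z‖ ^ 2 : ℝ) * z - ρ‖ < ‖z - ρ‖ := by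
  have hz0 : 0 < ‖z‖ := lt_trans hR hz
  set c : ℝ := R ^ 2 / ‖z‖ ^ 2 with hc
  have hs : c * ‖z‖ ^ 2 = R ^ 2 := by
    rw [hc]; field_simp
  have hc1 : c < 1 := by
    rw [hc, div_lt_one (by positivity)]
    nlinarith
  have e1 : ‖z‖ ^ 2 = z.re ^ 2 + z.im ^ 2 := by
    rw [Complex.sq_norm, Complex.normSq_apply]; ring
  have e2 : ‖ρ‖ ^ 2 = ρ.re ^ 2 + ρ.im ^ 2 := by
    rw [Complex.sq_norm, Complex.normSq_apply]; ring
  have e3 : ‖(c : ℂ) * z - ρ‖ ^ 2 = (c * z.re - ρ.re) ^ 2 + (c * z.im - ρ.im) ^ 2 := by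
    rw [Complex.sq_norm, Complex.normSq_apply]
    simp
    ring
  have e4 : ‖z - ρ‖ ^ 2 = (z.re - ρ.re) ^ 2 + (z.im - ρ.im) ^ 2 := by
    rw [Complex.sq_norm, Complex.normSq_apply]
    simp
    ring
  have hρ2 : ‖ρ‖ ^ 2 < R ^ 2 := by
    have := norm_nonneg ρ
    nlinarith
  have key : ‖(c : ℂ) * z - ρ‖ ^ 2 < ‖z - ρ‖ ^ 2 := by
    rw [e3, e4]
    have h5 : (z.re - ρ.re) ^ 2 + (z.im - ρ.im) ^ 2 -
        ((c * z.re - ρ.re) ^ 2 + (c * z.im - ρ.im) ^ 2) =
        (1 - c) * ((z.re ^ 2 + z.im ^ 2) + c * (z.re ^ 2 + z.im ^ 2) -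
          2 * (z.re * ρ.re + z.im * ρ.im)) := by ring
    have h6 : 0 < (z.re ^ 2 + z.im ^ 2) + c * (z.re ^ 2 + z.im ^ 2) -
          2 * (z.re * ρ.re + z.im * ρ.im) := by
      rw [← e1, hs]
      nlinarith [sq_nonneg (z.re - ρ.re), sq_nonneg (z.im - ρ.im)]
    have h7 : 0 < 1 - c := by linarith
    have := mul_pos h7 h6
    linarith
  exact lt_of_pow_lt_pow_left₀ 2 (norm_nonneg _) key

lemma prod_lt_aux (R : ℝ) (hR : 0 < R) (z : ℂ) (hz : R < ‖z‖) (s : Multiset ℂ) :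
    (∀ ρ ∈ s, ‖ρ‖ < R) →
    ((s.map fun ρ => ‖((R ^ 2 / ‖z‖ ^ 2 : ℝ) : ℂ) * z - ρ‖).prod ≤ (s.map fun ρ => ‖z - ρ‖).prod ∧
     0 < (s.map fun ρ => ‖z - ρ‖).prod ∧
      (s ≠ 0 → (s.map fun ρ => ‖((R ^ 2 / ‖z‖ ^ 2 : ℝ) : ℂ) * z - ρ‖).prod <
        (s.map fun ρ => ‖z - ρ‖).prod)) := by
  induction s using Multiset.induction_on with
  | empty => intro _; simp
  | cons a t ih =>
    intro h
    obtain ⟨h1, h2, _⟩ := ih (fun ρ hρ => h ρ (Multiset.mem_cons_of_mem hρ))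
    have ha := h a (Multiset.mem_cons_self a t)
    have h4 := dist_lt_aux R hR z a hz ha
    have h5 : 0 < ‖z - a‖ := lt_of_le_of_lt (norm_nonneg _) h4
    simp only [Multiset.map_cons, Multiset.prod_cons]
    have h6 : ‖((R ^ 2 / ‖z‖ ^ 2 : ℝ) : ℂ) * z - a‖ *
        (t.map fun ρ => ‖((R ^ 2 / ‖z‖ ^ 2 : ℝ) : ℂ) * z - ρ‖).prod <
        ‖z - a‖ * (t.map fun ρ => ‖z - ρ‖).prod :=
      mul_lt_mul h4 h1 |> fun f => by
        refine lt_of_le_of_lt (mul_le_mul_of_nonneg_left h1 (norm_nonneg _)) ?_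
        exact mul_lt_mul_of_pos_right h4 h2
    exact ⟨h6.le, mul_pos h5 h2, fun _ => h6⟩

/-- The Blaschke comparison for a monic polynomial with real coefficients. -/
lemma eval_lt_aux (R : ℝ) (hR : 0 < R) (G : ℝ[X]) (hG : G.Monic) (hd : 1 ≤ G.natDegree)
    (hroot : ∀ ρ : ℂ, aeval ρ G = 0 → ‖ρ‖ < R) (z : ℂ) (hz : R < ‖z‖) :
    ‖aeval ((R ^ 2 : ℝ) / z : ℂ) G‖ < ‖aeval z G‖ := by
  have hz0 : z ≠ 0 := by
    rintro rfl
    rw [norm_zero] at hz
    linarith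
  set G' : ℂ[X] := G.map (algebraMap ℝ ℂ) with hG'
  have hG'm : G'.Monic := hG.map _
  have hsplit : G'.Splits := IsAlgClosed.splits G'
  have hev : ∀ w : ℂ, aeval w G = (G'.roots.map fun ρ => w - ρ).prod := by
    intro w
    have h1 : aeval w G = G'.eval w := by
      rw [hG', eval_map_algebraMap]
    rw [h1]
    exact hsplit.eval_eq_prod_roots_of_monic hG'm w
  have hroots : ∀ ρ ∈ G'.roots, ‖ρ‖ < R := by
    intro ρ hρ
    apply hroot
    have := (mem_roots'.mp hρ).2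
    rwa [hG', IsRoot.def, eval_map_algebraMap] at this
  have hcard : G'.roots ≠ 0 := by
    intro h0
    have h1 := splits_iff_card_roots.mp hsplit
    rw [h0, Multiset.card_zero, hG', natDegree_map] at h1
    omega
  -- conjugation
  have hconj : ∀ w : ℂ, ‖aeval (conj w) G‖ = ‖aeval w G‖ := by
    intro w
    rw [aeval_conj, RCLike.norm_conj]
  have hw : conj ((R ^ 2 : ℝ) / z : ℂ) = ((R ^ 2 / ‖z‖ ^ 2 : ℝ) : ℂ) * z := by
    rw [map_div₀, Complex.conj_ofReal]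
    have h2 : (z * conj z : ℂ) = ((‖z‖ ^ 2 : ℝ) : ℂ) := by
      rw [Complex.mul_conj, Complex.normSq_eq_norm_sq]
    have h3 : conj z ≠ 0 := by simpa using hz0
    have h4 : ((‖z‖ : ℝ) : ℂ) ≠ 0 := by
      simpa using hz0
    push_cast at h2 ⊢
    rw [div_mul_eq_mul_div, div_eq_div_iff h3 (pow_ne_zero 2 h4), ← h2]
    ring
  have hn : ∀ w : ℂ, ‖(G'.roots.map fun ρ => w - ρ).prod‖ =
      (G'.roots.map fun ρ => ‖w - ρ‖).prod := by
    intro w
    have := map_multiset_prod (normHom : ℂ →*₀ ℝ) (G'.roots.map fun ρ => w - ρ)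
    rw [Multiset.map_map] at this
    exact this
  rw [← hconj, hw, hev, hev, hn, hn]
  exact (prod_lt_aux R hR z hz G'.roots hroots).2.2 hcard

/-- The half of the Weil polynomial, in the variable `1/x`. -/
noncomputable def beta (g : ℕ) (b : ℕ → ℤ) (i : ℕ) : ℝ :=
  if i < g then (b i : ℝ) else if i = g then (b g : ℝ) / 2 else 0

lemma wPoly_split (p : ℤ) (g : ℕ) (b : ℕ → ℤ) (z : ℂ) (hz : z ≠ 0) :
    aeval z (wPoly p g b) = z ^ g *
      (∑ i ∈ range (g + 1), (beta g b i : ℂ) * z ^ (g - i) +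
        ∑ i ∈ range (g + 1), (beta g b i : ℂ) * (p / z) ^ (g - i)) := by
  have h1 : ∀ w : ℂ, ∑ i ∈ range (g + 1), (beta g b i : ℂ) * w ^ (g - i) =
      ∑ i ∈ range g, (b i : ℂ) * w ^ (g - i) + (b g : ℂ) / 2 := by
    intro w
    rw [sum_range_succ]
    congr 1
    · apply sum_congr rfl
      intro i hi
      rw [beta, if_pos (mem_range.mp hi)]
      push_cast
      rfl
    · rw [beta, if_neg (lt_irrefl g), if_pos rfl]
      simp
  rw [h1, h1, wPoly_eval p g b z hz]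
  congr 1
  unfold hPoly
  rw [map_add, map_sum, aeval_C]
  have h2 : ∀ i ∈ range g, aeval (z + p / z) (C (b i) * dPoly p (g - i)) =
      (b i : ℂ) * z ^ (g - i) + (b i : ℂ) * (p / z) ^ (g - i) := by
    intro i _
    rw [map_mul, aeval_C, dPoly_eval p z hz]
    simp only [algebraMap_int_eq, Int.coe_castRingHom]
    ring
  rw [sum_congr rfl h2, sum_add_distrib]
  simp only [algebraMap_int_eq, Int.coe_castRingHom]
  ring

/-- **Location of the zeros.** -/
lemma loc_of_ne_zero (p : ℕ) (hp : 0 < p) (g : ℕ) (hg : 1 ≤ g) (b : ℕ → ℤ) (hb : b 0 = 1)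
    (hne : ∀ u : ℂ, ‖u‖ ≤ (√p)⁻¹ → ∑ i ∈ range (g + 1), (beta g b i : ℂ) * u ^ i ≠ 0)
    (z : ℂ) (hz : aeval z (wPoly p g b) = 0) : ‖z‖ = √p ∧ z.im ≠ 0 := by
  have hR : 0 < √(p : ℝ) := Real.sqrt_pos.mpr (by exact_mod_cast hp)
  have hR2 : √(p : ℝ) ^ 2 = p := Real.sq_sqrt (by positivity)
  set R : ℝ := √(p : ℝ) with hRdef
  obtain ⟨hz0, -⟩ := root_transfer (p : ℤ) (by exact_mod_cast hp.ne') g b hg hb z hz
  -- the auxiliary polynomial
  set G : ℝ[X] := ∑ i ∈ range (g + 1), C (beta g b i) * X ^ (g - i) with hG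
  have hGev : ∀ w : ℂ, aeval w G = ∑ i ∈ range (g + 1), (beta g b i : ℂ) * w ^ (g - i) := by
    intro w
    rw [hG, map_sum]
    apply sum_congr rfl
    intro i _
    simp
  have hb0 : beta g b 0 = 1 := by
    rw [beta, if_pos (by omega), hb]
    simp
  have hGdeg : G.natDegree ≤ g := by
    rw [hG]
    apply natDegree_sum_le_of_forall_le
    intro i _
    refine (natDegree_C_mul_X_pow_le _ _).trans (by omega)
  have hGc : G.coeff g = 1 := by
    rw [hG, finsetSum_coeff, sum_eq_single 0]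
    · rw [coeff_C_mul, Nat.sub_zero, coeff_X_pow, if_pos rfl, hb0, mul_one]
    · intro i hi h0
      rw [coeff_C_mul, coeff_X_pow, if_neg (by omega), mul_zero]
    · intro h
      exact absurd (mem_range.mpr (by omega)) h
  have hGm : G.Monic := monic_of_natDegree_le_of_coeff_eq_one g hGdeg hGc
  have hGd : G.natDegree = g := by
    apply le_antisymm hGdeg
    apply le_natDegree_of_ne_zero
    rw [hGc]
    exact one_ne_zero
  have hnz : ∀ w : ℂ, R ≤ ‖w‖ → aeval w G ≠ 0 := by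
    intro w hw h0
    have hw0 : w ≠ 0 := by
      rintro rfl
      rw [norm_zero] at hw
      linarith
    apply hne w⁻¹
    · rw [norm_inv]
      exact inv_anti₀ hR hw
    · rw [hGev] at h0
      have h1 : ∑ i ∈ range (g + 1), (beta g b i : ℂ) * w⁻¹ ^ i =
          w⁻¹ ^ g * ∑ i ∈ range (g + 1), (beta g b i : ℂ) * w ^ (g - i) := by
        rw [mul_sum]
        apply sum_congr rfl
        intro i hi
        have hi' : i ≤ g := by
          have := mem_range.mp hi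
          omega
        have h2 : w⁻¹ ^ g = w⁻¹ ^ i * w⁻¹ ^ (g - i) := by
          rw [← pow_add]; congr 1; omega
        rw [h2]
        have h3 : w⁻¹ ^ (g - i) * w ^ (g - i) = 1 := by
          rw [← mul_pow, inv_mul_cancel₀ hw0, one_pow]
        linear_combination (-(beta g b i : ℂ) * w⁻¹ ^ i) * h3
      rw [h1, h0, mul_zero]
  have hroot : ∀ ρ : ℂ, aeval ρ G = 0 → ‖ρ‖ < R := by
    intro ρ h0
    by_contra h
    exact hnz ρ (not_lt.mp h) h0
  have hcmp := eval_lt_aux R hR G hGm (by omega) hroot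
  have hsum : aeval z G + aeval ((R ^ 2 : ℝ) / z : ℂ) G = 0 := by
    have h1 := wPoly_split (p : ℤ) g b z hz0
    rw [hz] at h1
    have h2 := (mul_eq_zero.mp h1.symm).resolve_left (pow_ne_zero g hz0)
    rw [hGev, hGev, hR2]
    exact_mod_cast h2
  have hnorm : ‖aeval z G‖ = ‖aeval ((R ^ 2 : ℝ) / z : ℂ) G‖ := by
    rw [← norm_neg (aeval ((R ^ 2 : ℝ) / z : ℂ) G)]
    congr 1
    linear_combination hsum
  have hzn : ‖z‖ = R := by
    rcases lt_trichotomy ‖z‖ R with h | h | h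
    · exfalso
      have h1 : R < ‖((R ^ 2 : ℝ) / z : ℂ)‖ := by
        rw [norm_div, Complex.norm_real, Real.norm_of_nonneg (by positivity),
          lt_div_iff₀ (norm_pos_iff.mpr hz0)]
        nlinarith
      have h2 := hcmp _ h1
      have h3 : ((R ^ 2 : ℝ) / ((R ^ 2 : ℝ) / z : ℂ) : ℂ) = z := by
        have : ((R ^ 2 : ℝ) : ℂ) ≠ 0 := by
          exact_mod_cast (pow_pos hR 2).ne'
        field_simp
      rw [h3] at h2
      linarith
    · exact h
    · exfalso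
      have := hcmp z h
      linarith
  refine ⟨hzn, ?_⟩
  intro him
  -- a real zero
  have hzr : conj z = z := Complex.conj_eq_iff_im.mpr him
  have h2 : ((R ^ 2 : ℝ) / z : ℂ) = z := by
    have h3 : (z * conj z : ℂ) = ((‖z‖ ^ 2 : ℝ) : ℂ) := by
      rw [Complex.mul_conj, Complex.normSq_eq_norm_sq]
    rw [hzr, hzn] at h3
    rw [← h3]
    field_simp
  rw [h2] at hsum
  have h3 : aeval z G = 0 := by
    have : (2 : ℂ) * aeval z G = 0 := by linear_combination hsum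
    exact (mul_eq_zero.mp this).resolve_left two_ne_zero
  exact hnz z hzn.ge h3

/-- A power series type bound: coefficient domination excludes zeros. -/
lemma ne_zero_of_sum_lt (B : ℝ[X]) (h0 : B.coeff 0 = 1) (n : ℕ) (hn : B.natDegree ≤ n) (r : ℝ)
    (H : ∑ i ∈ range n, |B.coeff (i + 1)| * r ^ (i + 1) < 1) (u : ℂ) (hu : ‖u‖ ≤ r) :
    aeval u B ≠ 0 := by
  intro hB
  rw [aeval_eq_sum_range' (n := n + 1) (by omega), sum_range_succ'] at hB
  simp only [h0, pow_zero, one_smul] at hB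
  have h1 : (1 : ℂ) = - ∑ i ∈ range n, B.coeff (i + 1) • u ^ (i + 1) := by
    linear_combination hB
  have h2 : (1 : ℝ) ≤ ∑ i ∈ range n, |B.coeff (i + 1)| * r ^ (i + 1) := by
    calc (1 : ℝ) = ‖(1 : ℂ)‖ := by simp
      _ = ‖∑ i ∈ range n, B.coeff (i + 1) • u ^ (i + 1)‖ := by rw [h1, norm_neg]
      _ ≤ ∑ i ∈ range n, ‖B.coeff (i + 1) • u ^ (i + 1)‖ := norm_sum_le _ _
      _ ≤ ∑ i ∈ range n, |B.coeff (i + 1)| * r ^ (i + 1) := by
        apply sum_le_sum
        intro i _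
        rw [norm_smul, Real.norm_eq_abs, norm_pow]
        exact mul_le_mul_of_nonneg_left (pow_le_pow_left₀ (norm_nonneg _) hu _) (abs_nonneg _)
  linarith

/-- The half Weil polynomial in `u = 1/x`. -/
noncomputable def betaPoly (g : ℕ) (b : ℕ → ℤ) : ℝ[X] :=
  ∑ i ∈ range (g + 1), C (beta g b i) * X ^ i

lemma beta_eq_zero {g : ℕ} {b : ℕ → ℤ} {i : ℕ} (h : g < i) : beta g b i = 0 := by
  rw [beta, if_neg (by omega), if_neg (by omega)]

lemma betaPoly_coeff (g : ℕ) (b : ℕ → ℤ) (i : ℕ) : (betaPoly g b).coeff i = beta g b i := by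
  unfold betaPoly
  rw [finsetSum_coeff]
  simp only [coeff_C_mul, coeff_X_pow, mul_ite, mul_one, mul_zero]
  rw [sum_ite_eq]
  split_ifs with h
  · rfl
  · rw [beta_eq_zero]
    rw [mem_range] at h
    omega

lemma betaPoly_natDegree_le (g : ℕ) (b : ℕ → ℤ) : (betaPoly g b).natDegree ≤ g := by
  rw [natDegree_le_iff_coeff_eq_zero]
  intro i hi
  rw [betaPoly_coeff, beta_eq_zero hi]

lemma aeval_betaPoly (g : ℕ) (b : ℕ → ℤ) (u : ℂ) :
    aeval u (betaPoly g b) = ∑ i ∈ range (g + 1), (beta g b i : ℂ) * u ^ i := by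
  unfold betaPoly
  rw [map_sum]
  apply sum_congr rfl
  intro i _
  simp

/-- Criterion without multiplier. -/
lemma loc_plain (p : ℕ) (hp : 0 < p) (g : ℕ) (hg : 1 ≤ g) (b : ℕ → ℤ) (hb : b 0 = 1)
    (H : ∑ i ∈ range g, |beta g b (i + 1)| * ((√p)⁻¹ : ℝ) ^ (i + 1) < 1)
    (z : ℂ) (hz : aeval z (wPoly p g b) = 0) : ‖z‖ = √p ∧ z.im ≠ 0 := by
  apply loc_of_ne_zero p hp g hg b hb _ z hz
  intro u hu
  rw [← aeval_betaPoly]
  apply ne_zero_of_sum_lt (betaPoly g b) _ g (betaPoly_natDegree_le g b) _ _ u hu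
  · rw [betaPoly_coeff, beta, if_pos (by omega), hb]
    simp
  · simpa only [betaPoly_coeff] using H

/-- Criterion with the multiplier `1 - u^s`. -/
lemma loc_mult (p : ℕ) (hp : 0 < p) (g : ℕ) (hg : 1 ≤ g) (b : ℕ → ℤ) (hb : b 0 = 1)
    (s : ℕ) (hs : 1 ≤ s)
    (H : ∑ i ∈ range (g + s), |beta g b (i + 1) - (if s ≤ i + 1 then beta g b (i + 1 - s) else 0)| *
      ((√p)⁻¹ : ℝ) ^ (i + 1) < 1)
    (z : ℂ) (hz : aeval z (wPoly p g b) = 0) : ‖z‖ = √p ∧ z.im ≠ 0 := by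
  apply loc_of_ne_zero p hp g hg b hb _ z hz
  intro u hu
  rw [← aeval_betaPoly]
  have hco : ∀ i, (betaPoly g b * (1 - X ^ s)).coeff i =
      beta g b i - (if s ≤ i then beta g b (i - s) else 0) := by
    intro i
    rw [mul_sub, mul_one, coeff_sub, betaPoly_coeff, coeff_mul_X_pow']
    split_ifs
    · rw [betaPoly_coeff]
    · rfl
  have h1 : aeval u (betaPoly g b * (1 - X ^ s)) ≠ 0 := by
    apply ne_zero_of_sum_lt _ _ (g + s) _ _ _ u hu
    · rw [hco, if_neg (by omega), beta, if_pos (by omega), hb]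
      simp
    · refine natDegree_mul_le.trans (add_le_add (betaPoly_natDegree_le g b) ?_)
      refine (natDegree_sub_le _ _).trans ?_
      rw [natDegree_one, natDegree_X_pow]
      omega
    · simpa only [hco] using H
  intro h0
  apply h1
  rw [map_mul, h0, zero_mul]

end Pool.Agent.MP_e32a7e_nt
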