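import Pool.Agent.Lib.MP_e32a7e_nt.RootLoc

/-!
# Second criterion for the location of the zeros: sign changes of the real polynomial
-/

open Polynomial Finset ComplexConjugate

namespace Pool.Agent.MP_e32a7e_nt

lemma loc_of_real (p : ℕ) (c : ℝ) (hc : c ^ 2 < 4 * p) (z : ℂ) (hz0 : z ≠ 0)
    (hz : z + p / z = c) : ‖z‖ = √p ∧ z.im ≠ 0 := by
  have h1 : z * z - c * z + p = 0 := by
    rw [← hz]
    field_simp
    ring
  have hre := congrArg Complex.re h1
  have him := congrArg Complex.im h1
  simp at hre him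
  have hy : z.im ≠ 0 := by
    intro h
    rw [h] at hre
    nlinarith [sq_nonneg (2 * z.re - c)]
  refine ⟨?_, hy⟩
  have h2 : c = 2 * z.re := by
    have : z.im * (2 * z.re - c) = 0 := by linear_combination him
    rcases mul_eq_zero.mp this with h | h
    · exact absurd h hy
    · linarith
  have h3 : ‖z‖ ^ 2 = p := by
    rw [Complex.sq_norm, Complex.normSq_apply]
    rw [h2] at hre
    linarith
  rw [← h3, Real.sqrt_sq (norm_nonneg z)]

/-- All complex zeros of a real polynomial with enough sign changes are real and lie strictly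
between the extreme points. -/
lemma roots_of_signs (h : ℝ[X]) (g : ℕ) (hd : h.natDegree = g) (hg : 1 ≤ g)
    (t : ℕ → ℝ) (hmono : ∀ i < g, t i < t (i + 1))
    (hsign : ∀ i < g, h.eval (t i) * h.eval (t (i + 1)) < 0)
    (w : ℂ) (hw : aeval w h = 0) : ∃ c : ℝ, t 0 < c ∧ c < t g ∧ w = c := by
  have hex : ∀ i : ℕ, i < g → ∃ c : ℝ, t i < c ∧ c < t (i + 1) ∧ h.eval c = 0 := by
    intro i hi
    have hcont : ContinuousOn (fun x => h.eval x) (Set.Icc (t i) (t (i + 1))) :=
      h.continuous.continuousOn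
    have hs := hsign i hi
    rcases mul_neg_iff.mp hs with ⟨h1, h2⟩ | ⟨h1, h2⟩
    · obtain ⟨c, hc, hc0⟩ := intermediate_value_Ioo' (hmono i hi).le hcont ⟨h2, h1⟩
      exact ⟨c, hc.1, hc.2, hc0⟩
    · obtain ⟨c, hc, hc0⟩ := intermediate_value_Ioo (hmono i hi).le hcont ⟨h1, h2⟩
      exact ⟨c, hc.1, hc.2, hc0⟩
  choose! c hc1 hc2 hc3 using hex
  have hle : ∀ i j, i ≤ j → j ≤ g → t i ≤ t j := by
    intro i j hij
    induction j, hij using Nat.le_induction with
    | base => intro _; exact le_rfl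
    | succ j hij ih =>
      intro hj
      exact (ih (by omega)).trans (hmono j (by omega)).le
  have hlt : ∀ i j, i < j → j < g → c i < c j := by
    intro i j hij hj
    calc c i < t (i + 1) := hc2 i (by omega)
      _ ≤ t j := hle _ _ (by omega) (by omega)
      _ < c j := hc1 j hj
  have hinj : Set.InjOn (fun i => (c i : ℂ)) (range g : Finset ℕ) := by
    intro i hi j hj hij
    simp only [coe_range, Set.mem_Iio] at hi hj
    have hij' : c i = c j := Complex.ofReal_injective hij
    rcases lt_trichotomy i j with h | h | h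
    · exact absurd hij' (hlt i j h hj).ne
    · exact h
    · exact absurd hij'.symm (hlt j i h hi).ne
  set H : ℂ[X] := h.map (algebraMap ℝ ℂ) with hH
  have hH0 : H ≠ 0 := by
    intro h0
    have : H.natDegree = g := by rw [hH, natDegree_map, hd]
    rw [h0, natDegree_zero] at this
    omega
  have hev : ∀ x : ℂ, H.eval x = aeval x h := by
    intro x
    rw [hH, eval_map_algebraMap]
  set S : Finset ℂ := (range g).image (fun i => (c i : ℂ)) with hS
  have hcard : S.card = g := by
    rw [hS, card_image_of_injOn hinj, card_range]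
  have hsub : S ⊆ H.roots.toFinset := by
    intro x hx
    rw [hS, mem_image] at hx
    obtain ⟨i, hi, rfl⟩ := hx
    rw [Multiset.mem_toFinset, mem_roots hH0, IsRoot.def, hev]
    have h1 := hc3 i (mem_range.mp hi)
    have h2 : aeval (c i : ℂ) h = ((h.eval (c i) : ℝ) : ℂ) := by
      rw [← coe_aeval_eq_eval]
      exact (aeval_algebraMap_apply ℂ (c i) h)
    rw [h2, h1]
    simp
  have hcard2 : H.roots.toFinset.card ≤ g := by
    calc H.roots.toFinset.card ≤ Multiset.card H.roots := Multiset.toFinset_card_le _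
      _ ≤ H.natDegree := card_roots' H
      _ = g := by rw [hH, natDegree_map, hd]
  have heq := eq_of_subset_of_card_le hsub (by rw [hcard]; exact hcard2)
  have hwm : w ∈ H.roots.toFinset := by
    rw [Multiset.mem_toFinset, mem_roots hH0, IsRoot.def, hev]
    exact hw
  rw [← heq, hS, mem_image] at hwm
  obtain ⟨i, hi, rfl⟩ := hwm
  have hi' := mem_range.mp hi
  exact ⟨c i, lt_of_le_of_lt (hle 0 i (by omega) (by omega)) (hc1 i hi'),
    lt_of_lt_of_le (hc2 i hi') (hle _ _ (by omega) le_rfl), rfl⟩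

/-- **Location of the zeros by sign changes.** -/
lemma loc_of_signs (p : ℕ) (hp : 0 < p) (g : ℕ) (hg : 1 ≤ g) (b : ℕ → ℤ) (hb : b 0 = 1)
    (t : ℕ → ℝ) (hmono : ∀ i < g, t i < t (i + 1)) (h0 : (t 0) ^ 2 ≤ 4 * p)
    (h1 : (t g) ^ 2 ≤ 4 * p)
    (hsign : ∀ i < g, aeval (t i) (hPoly p g b) * aeval (t (i + 1)) (hPoly p g b) < 0)
    (z : ℂ) (hz : aeval z (wPoly p g b) = 0) : ‖z‖ = √p ∧ z.im ≠ 0 := by
  obtain ⟨hz0, hz1⟩ := root_transfer (p : ℤ) (by exact_mod_cast hp.ne') g b hg hb z hz
  set h : ℝ[X] := (hPoly p g b).map (algebraMap ℤ ℝ) with hh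
  have hm : h.Monic := (hPoly_monic (p : ℤ) g b hg hb).map _
  have hd : h.natDegree = g := by
    rw [hh, (hPoly_monic (p : ℤ) g b hg hb).natDegree_map, hPoly_natDegree (p : ℤ) g b hg hb]
  have hev : ∀ x : ℝ, h.eval x = aeval x (hPoly p g b) := by
    intro x
    rw [hh, eval_map_algebraMap]
  obtain ⟨c, hc1, hc2, hc3⟩ := roots_of_signs h g hd hg t hmono
    (by
      intro i hi
      rw [hev, hev]
      exact hsign i hi)
    (z + ((p : ℤ) : ℂ) / z) (by
      rw [hh, aeval_map_algebraMap]
      exact hz1)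
  apply loc_of_real p c _ z hz0
  · rw [← hc3]
    push_cast
    rfl
  · have hp0 : (0 : ℝ) ≤ 4 * p := by positivity
    have ha : |t 0| ≤ √(4 * p) := Real.abs_le_sqrt h0
    have hb' : |t g| ≤ √(4 * p) := Real.abs_le_sqrt h1
    have hc4 : |c| < √(4 * p) := by
      rw [abs_lt]
      constructor
      · have := neg_abs_le (t 0)
        linarith
      · have := le_abs_self (t g)
        linarith
    calc c ^ 2 = |c| ^ 2 := (sq_abs c).symm
      _ < √(4 * p) ^ 2 := pow_lt_pow_left₀ hc4 (abs_nonneg c) two_ne_zero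
      _ = 4 * p := Real.sq_sqrt hp0

end Pool.Agent.MP_e32a7e_nt
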