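import Pool.Agent.Lib.MP_e32a7e_nt.Factor

/-!
# Irreducibility through resultants
-/

open Polynomial Finset

namespace Pool.Agent.MP_e32a7e_nt

/-- Resultants through homomorphisms to algebraically closed fields. -/
lemma resultant_hom {K : Type*} [Field K] [IsAlgClosed K] (φ : ℤ →+* K) (A F : ℤ[X])
    (hA : A.Monic) (n : ℕ) (hn : F.natDegree ≤ n) :
    φ (resultant A F A.natDegree n) =
      ((A.map φ).roots.map (fun α => (F.map φ).eval α)).prod := by
  rw [← resultant_map_map]
  have h1 := resultant_eq_prod_eval (A.map φ) (F.map φ) n (natDegree_map_le.trans hn)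
    (IsAlgClosed.splits _)
  rw [hA.natDegree_map, (hA.map φ).leadingCoeff, one_pow, one_mul] at h1
  exact h1

lemma prod_norm_lt (F : ℂ → ℂ) (B : ℝ) (S : Multiset ℂ) (hne : S ≠ 0)
    (h : ∀ α ∈ S, ‖F α‖ < B) : ‖(S.map F).prod‖ < B ^ Multiset.card S := by
  induction S using Multiset.induction with
  | empty => exact absurd rfl hne
  | cons a S ih =>
    rw [Multiset.map_cons, Multiset.prod_cons, norm_mul, Multiset.card_cons, pow_succ']
    have ha : ‖F a‖ < B := h a (Multiset.mem_cons_self a S)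
    by_cases hS : S = 0
    · subst hS
      simpa using ha
    · have h2 := ih hS fun α hα => h α (Multiset.mem_cons_of_mem hα)
      exact mul_lt_mul'' ha h2 (norm_nonneg _) (norm_nonneg _)

lemma resultant_unit (p : ℕ) [Fact p.Prime] (A F : ℤ[X]) (hA : A.Monic) (n : ℕ)
    (hn : F.natDegree ≤ n) (hA0 : ¬ (p : ℤ) ∣ A.coeff 0) (m : ℕ)
    (hF : F.map (Int.castRingHom (ZMod p)) = X ^ m) :
    ¬ (p : ℤ) ∣ resultant A F A.natDegree n := by
  set ψ : ℤ →+* AlgebraicClosure (ZMod p) :=
    (algebraMap (ZMod p) (AlgebraicClosure (ZMod p))).comp (Int.castRingHom (ZMod p)) with hψ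
  have h1 := resultant_hom ψ A F hA n hn
  have hF' : F.map ψ = X ^ m := by
    rw [hψ, ← Polynomial.map_map, hF]
    simp
  have h0 : ∀ k : ℤ, ψ k = 0 → (p : ℤ) ∣ k := by
    intro k hk
    rw [hψ, RingHom.comp_apply] at hk
    have h2 := (algebraMap (ZMod p) (AlgebraicClosure (ZMod p))).injective
      (hk.trans (map_zero _).symm)
    exact (ZMod.intCast_zmod_eq_zero_iff_dvd _ _).mp h2
  intro hdvd
  have h2 : ψ (resultant A F A.natDegree n) = 0 := by
    rw [hψ, RingHom.comp_apply]
    have : (Int.castRingHom (ZMod p)) (resultant A F A.natDegree n) = 0 :=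
      (ZMod.intCast_zmod_eq_zero_iff_dvd _ _).mpr hdvd
    rw [this, map_zero]
  rw [h1, Multiset.prod_eq_zero_iff, Multiset.mem_map] at h2
  obtain ⟨α, hα, hα2⟩ := h2
  rw [hF', eval_pow, eval_X] at hα2
  have hα0 : α = 0 := eq_zero_of_pow_eq_zero hα2
  rw [mem_roots (hA.map ψ).ne_zero, IsRoot.def, hα0, ← coeff_zero_eq_eval_zero, coeff_map] at hα
  exact hA0 (h0 _ hα)

/-- No factor has a constant term prime to `p`. -/
theorem no_factor (p : ℕ) (hp : p.Prime) (κ m e : ℕ) (A h M W E : ℤ[X]) (hA : A.Monic)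
    (hdA : 1 ≤ A.natDegree) (hAh : A ∣ h) (hA0 : ¬ (p : ℤ) ∣ A.coeff 0)
    (hdec : h = M * W - C ((p : ℤ) ^ κ) * E)
    (hW : W.map (Int.castRingHom (ZMod p)) = X ^ m)
    (hE : E.map (Int.castRingHom (ZMod p)) = X ^ e)
    (hM : ∀ α : ℂ, aeval α h = 0 → ‖aeval α M‖ < (p : ℝ) ^ κ) : False := by
  have : Fact p.Prime := ⟨hp⟩
  set n := M.natDegree + W.natDegree + E.natDegree with hn
  set d := A.natDegree with hd
  have hRM := resultant_hom (Int.castRingHom ℂ) A M hA n (by omega)
  have hRW := resultant_hom (Int.castRingHom ℂ) A W hA n (by omega)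
  have hRE := resultant_hom (Int.castRingHom ℂ) A E hA n (by omega)
  have huW := resultant_unit p A W hA n (by omega) hA0 m hW
  have huE := resultant_unit p A E hA n (by omega) hA0 e hE
  set S := (A.map (Int.castRingHom ℂ)).roots with hS
  have hcard : Multiset.card S = d := by
    rw [hS, ← (IsAlgClosed.splits (A.map (Int.castRingHom ℂ))).natDegree_eq_card_roots,
      hA.natDegree_map]
  have hroot : ∀ α ∈ S, aeval α h = 0 := by
    intro α hα
    rw [hS, mem_roots (hA.map _).ne_zero, IsRoot.def, eval_map] at hα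
    obtain ⟨B, hB⟩ := hAh
    rw [hB, map_mul]
    have : aeval α A = 0 := hα
    rw [this, zero_mul]
  have hev : ∀ (F : ℤ[X]) (α : ℂ), (F.map (Int.castRingHom ℂ)).eval α = aeval α F := by
    intro F α
    rw [eval_map]
    rfl
  have hprod : (resultant A M A.natDegree n) * (resultant A W A.natDegree n) =
      ((p : ℤ) ^ κ) ^ d * resultant A E A.natDegree n := by
    have h1 : (Int.castRingHom ℂ) ((resultant A M A.natDegree n) * (resultant A W A.natDegree n)) =
        (Int.castRingHom ℂ) (((p : ℤ) ^ κ) ^ d * resultant A E A.natDegree n) := by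
      rw [map_mul, map_mul, hRM, hRW, hRE, ← Multiset.prod_map_mul]
      have h2 : (Int.castRingHom ℂ) (((p : ℤ) ^ κ) ^ d) =
          (S.map fun _ => ((p : ℂ) ^ κ)).prod := by
        rw [Multiset.map_const', Multiset.prod_replicate, hcard]
        simp
      rw [h2, ← Multiset.prod_map_mul]
      congr 1
      apply Multiset.map_congr rfl
      intro α hα
      have h3 := hroot α hα
      rw [hdec, map_sub, map_mul, map_mul, aeval_C] at h3
      rw [hev, hev, hev]
      have h4 : (algebraMap ℤ ℂ) ((p : ℤ) ^ κ) = (p : ℂ) ^ κ := by simp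
      rw [h4] at h3
      exact sub_eq_zero.mp h3
    exact (RingHom.injective_int (Int.castRingHom ℂ)) h1
  have hpz : Prime (p : ℤ) := Nat.prime_iff_prime_int.mp hp
  have hcop : IsCoprime (((p : ℤ) ^ κ) ^ d) (resultant A W A.natDegree n) := by
    apply IsCoprime.pow_left
    apply IsCoprime.pow_left
    exact (Prime.coprime_iff_not_dvd hpz).mpr huW
  have hdvd : ((p : ℤ) ^ κ) ^ d ∣ resultant A M A.natDegree n := by
    apply hcop.dvd_of_dvd_mul_right
    rw [hprod]
    exact dvd_mul_right _ _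
  have hne : resultant A M A.natDegree n ≠ 0 := by
    intro h0
    rw [h0, zero_mul] at hprod
    have h1 : ((p : ℤ) ^ κ) ^ d ≠ 0 := pow_ne_zero _ (pow_ne_zero _ hpz.ne_zero)
    have h2 := (mul_eq_zero.mp hprod.symm).resolve_left h1
    exact huE (h2 ▸ dvd_zero _)
  have hge : ((p : ℤ) ^ κ) ^ d ≤ |resultant A M A.natDegree n| :=
    Int.le_of_dvd (abs_pos.mpr hne) ((dvd_abs _ _).mpr hdvd)
  have hSne : S ≠ 0 := by
    intro h0
    rw [h0, Multiset.card_zero] at hcard
    omega
  have hlt := prod_norm_lt (fun α => (M.map (Int.castRingHom ℂ)).eval α) ((p : ℝ) ^ κ) S hSne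
    (by
      intro α hα
      rw [hev]
      exact hM α (hroot α hα))
  rw [← hRM, hcard] at hlt
  have h5 : ‖(Int.castRingHom ℂ) (resultant A M A.natDegree n)‖ =
      ((|resultant A M A.natDegree n| : ℤ) : ℝ) := by
    rw [eq_intCast, Complex.norm_intCast]
    push_cast
    rfl
  rw [h5] at hlt
  have h6 : ((|resultant A M A.natDegree n| : ℤ) : ℝ) < ((((p : ℤ) ^ κ) ^ d : ℤ) : ℝ) := by
    push_cast
    push_cast at hlt
    exact hlt
  have h7 : |resultant A M A.natDegree n| < ((p : ℤ) ^ κ) ^ d := by exact_mod_cast h6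
  omega

/-- Irreducibility from the exclusion of factors with constant term prime to `p`. -/
lemma irreducible_of_no_unit_factor (p : ℕ) (hp : p.Prime) (h : ℤ[X]) (hm : h.Monic)
    (hne : 1 ≤ h.natDegree) (h0 : ¬ (p ^ 2 : ℤ) ∣ h.coeff 0)
    (hno : ∀ A : ℤ[X], A.Monic → 1 ≤ A.natDegree → A ∣ h → ¬ (p : ℤ) ∣ A.coeff 0 → False) :
    Irreducible h := by
  rw [hm.irreducible_iff_natDegree]
  refine ⟨?_, ?_⟩
  · rintro rfl
    simp at hne
  · intro A B hA hB hAB
    have hc : h.coeff 0 = A.coeff 0 * B.coeff 0 := by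
      rw [← hAB, mul_coeff_zero]
    by_contra hcon
    push Not at hcon
    have hA1 : 1 ≤ A.natDegree := by omega
    have hB1 : 1 ≤ B.natDegree := by omega
    by_cases hA0 : (p : ℤ) ∣ A.coeff 0
    · by_cases hB0 : (p : ℤ) ∣ B.coeff 0
      · apply h0
        rw [hc, sq]
        exact mul_dvd_mul hA0 hB0
      · exact hno B hB hB1 ⟨A, by rw [mul_comm]; exact hAB.symm⟩ hB0
    · exact hno A hA hA1 ⟨B, hAB.symm⟩ hA0

end Pool.Agent.MP_e32a7e_nt
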