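import Pool.Agent.Lib.MP_e32a7e_nt.Criterion

/-!
# A certificate checker for single polynomials
-/

open Polynomial Finset

namespace Pool.Agent.MP_e32a7e_nt

/-- Polynomial with a given list of coefficients. -/
noncomputable def ofL : List ℤ → ℤ[X]
  | [] => 0
  | a :: l => C a + X * ofL l

/-- Sum of coefficient lists. -/
def addL : List ℤ → List ℤ → List ℤ
  | [], m => m
  | a :: l, [] => a :: l
  | a :: l, b :: m => (a + b) :: addL l m

/-- Multiples of coefficient lists. -/
def smulL (c : ℤ) : List ℤ → List ℤ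
  | [] => []
  | a :: l => (c * a) :: smulL c l

lemma ofL_addL (l m : List ℤ) : ofL (addL l m) = ofL l + ofL m := by
  induction l generalizing m with
  | nil => simp [addL, ofL]
  | cons a l ih =>
    cases m with
    | nil => simp [addL, ofL]
    | cons b m =>
      rw [addL, ofL, ih, ofL, ofL, C_add]
      ring

lemma ofL_smulL (c : ℤ) (l : List ℤ) : ofL (smulL c l) = C c * ofL l := by
  induction l with
  | nil => simp [smulL, ofL]
  | cons a l ih =>
    rw [smulL, ofL, ih, ofL, C_mul]
    ring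

/-- The loop computing the coefficients of the real polynomial. -/
def hLoop (p : ℤ) : List ℤ → List ℤ → List ℤ → List ℤ → List ℤ
  | [], _, _, acc => acc
  | b :: bs, D0, D1, acc =>
    hLoop p bs D1 (addL (0 :: D1) (smulL (-p) D0)) (addL acc (smulL b D1))

lemma ofL_hLoop (p : ℤ) (bs : List ℤ) (D0 D1 acc : List ℤ) (k : ℕ)
    (h0 : ofL D0 = dPoly p k) (h1 : ofL D1 = dPoly p (k + 1)) :
    ofL (hLoop p bs D0 D1 acc) =
      ofL acc + ∑ j ∈ range bs.length, C (bs.getD j 0) * dPoly p (k + 1 + j) := by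
  induction bs generalizing D0 D1 acc k with
  | nil => simp [hLoop]
  | cons b bs ih =>
    rw [hLoop, ih D1 _ _ (k + 1) h1 _, ofL_addL, ofL_smulL, h1, List.length_cons,
      sum_range_succ']
    · simp only [List.getD_cons_zero, List.getD_cons_succ]
      have : ∀ j, k + 1 + 1 + j = k + 1 + (j + 1) := fun j => by omega
      simp only [this]
      ring
    · rw [ofL_addL, ofL_smulL, h0, ofL, h1, dPoly_add_two, C_neg, C_0]
      ring

/-- The coefficients `b`, from the reversed list. -/
def bR (rl : List ℤ) (g i : ℕ) : ℤ := rl.getD (g - i) 0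

/-- Coefficients of the real polynomial, from the reversed list. -/
def hList (p : ℤ) : List ℤ → List ℤ
  | [] => []
  | b :: bs => hLoop p bs [2] [0, 1] [b]

lemma ofL_hList (p : ℤ) (g : ℕ) (rl : List ℤ) (hl : rl.length = g + 1) :
    ofL (hList p rl) = hPoly p g (bR rl g) := by
  cases rl with
  | nil => simp at hl
  | cons b bs =>
    have hl' : bs.length = g := by simpa using hl
    rw [hList, ofL_hLoop p bs _ _ _ 0, hl', hPoly, ← sum_range_reflect, add_comm]
    · congr 1
      · apply sum_congr rfl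
        intro j hj
        have := mem_range.mp hj
        rw [bR]
        have e1 : g - j = g - 1 - j + 1 := by omega
        have e2 : 0 + 1 + (g - 1 - j) = g - 1 - j + 1 := by omega
        rw [e1, e2, List.getD_cons_succ]
      · rw [bR, Nat.sub_self, List.getD_cons_zero]
        simp [ofL]
    · simp [ofL, dPoly_zero]
    · simp [ofL, dPoly_one]

/-! ### Evaluation at rational numbers -/

/-- Homogeneous evaluation. -/
def evH (n d : ℤ) : List ℤ → ℤ × ℤ
  | [] => (0, 1)
  | a :: l => (d * (evH n d l).2 * a + n * (evH n d l).1, d * (evH n d l).2)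

lemma evH_snd (n d : ℤ) (l : List ℤ) : (evH n d l).2 = d ^ l.length := by
  induction l with
  | nil => simp [evH]
  | cons a l ih => rw [evH, List.length_cons, ih, pow_succ']

lemma evH_fst (n d : ℤ) (hd : d ≠ 0) (l : List ℤ) :
    ((evH n d l).1 : ℝ) = (d : ℝ) ^ l.length * aeval ((n : ℝ) / d) (ofL l) := by
  have hd' : (d : ℝ) ≠ 0 := by exact_mod_cast hd
  induction l with
  | nil => simp [evH, ofL]
  | cons a l ih =>
    rw [evH, ofL, map_add, map_mul, aeval_C, aeval_X, List.length_cons]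
    push_cast
    rw [evH_snd, ih]
    simp only [algebraMap_int_eq, eq_intCast]
    push_cast
    field_simp
    ring

/-- A relation holds along a list. -/
def chainB (r : ℤ → ℤ → Bool) : List ℤ → Bool
  | [] => true
  | [_] => true
  | a :: b :: l => r a b && chainB r (b :: l)

lemma chainB_getD (r : ℤ → ℤ → Bool) (l : List ℤ) (h : chainB r l = true) (i : ℕ)
    (hi : i + 1 < l.length) : r (l.getD i 0) (l.getD (i + 1) 0) = true := by
  induction l generalizing i with
  | nil => simp at hi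
  | cons a l ih =>
    cases l with
    | nil => simp at hi
    | cons b l =>
      rw [chainB, Bool.and_eq_true] at h
      cases i with
      | zero => simpa using h.1
      | succ i =>
        have := ih h.2 i (by simpa using hi)
        simpa using this

/-- Locating the zeros. -/
def locB (p d : ℕ) (h : List ℤ) (pts : List ℤ) : Bool :=
  decide (0 < d) && chainB (fun a b => decide (a < b)) pts &&
    decide ((pts.getD 0 0) ^ 2 ≤ 4 * (p : ℤ) * d ^ 2) &&
    decide ((pts.getD (pts.length - 1) 0) ^ 2 ≤ 4 * (p : ℤ) * d ^ 2) &&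
    chainB (fun a b => decide ((evH a d h).1 * (evH b d h).1 < 0)) pts

lemma loc_of_locB (p : ℕ) (hp : 0 < p) (g : ℕ) (hg : 1 ≤ g) (b : ℕ → ℤ) (hb : b 0 = 1)
    (h : List ℤ) (hh : ofL h = hPoly p g b) (d : ℕ) (pts : List ℤ) (hpts : pts.length = g + 1)
    (hloc : locB p d h pts = true)
    (z : ℂ) (hz : aeval z (wPoly p g b) = 0) : ‖z‖ = √p ∧ z.im ≠ 0 := by
  unfold locB at hloc
  simp only [Bool.and_eq_true, decide_eq_true_eq] at hloc
  obtain ⟨⟨⟨⟨hd, hinc⟩, h0⟩, h1⟩, hs⟩ := hloc
  have hdR : (0 : ℝ) < d := by exact_mod_cast hd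
  have hsq : ∀ n : ℤ, n ^ 2 ≤ 4 * (p : ℤ) * d ^ 2 → ((n : ℝ) / d) ^ 2 ≤ 4 * p := by
    intro n hn
    rw [div_pow, div_le_iff₀ (by positivity)]
    exact_mod_cast hn
  apply loc_of_signs p hp g hg b hb (fun i => ((pts.getD i 0 : ℤ) : ℝ) / d) _ _ _ _ z hz
  · intro i hi
    have := chainB_getD _ pts hinc i (by omega)
    rw [decide_eq_true_eq] at this
    apply div_lt_div_of_pos_right _ hdR
    exact_mod_cast this
  · exact hsq _ h0
  · have e : pts.length - 1 = g := by omega
    rw [e] at h1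
    exact hsq _ h1
  · intro i hi
    have h3 := chainB_getD _ pts hs i (by omega)
    rw [decide_eq_true_eq] at h3
    have h4 : (((evH (pts.getD i 0) d h).1 : ℤ) : ℝ) * (((evH (pts.getD (i + 1) 0) d h).1 : ℤ) : ℝ)
        < 0 := by exact_mod_cast h3
    have hdz : (d : ℤ) ≠ 0 := by exact_mod_cast hd.ne'
    rw [evH_fst _ _ hdz, evH_fst _ _ hdz, hh] at h4
    have h5 : (0 : ℝ) < ((d : ℤ) : ℝ) ^ h.length := by positivity
    by_contra hcon
    push Not at hcon
    have h6 : 0 ≤ (((d : ℤ) : ℝ) ^ h.length * aeval (((pts.getD i 0 : ℤ) : ℝ) / ((d : ℤ) : ℝ))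
        (hPoly (p : ℤ) g b)) * (((d : ℤ) : ℝ) ^ h.length *
        aeval (((pts.getD (i + 1) 0 : ℤ) : ℝ) / ((d : ℤ) : ℝ)) (hPoly (p : ℤ) g b)) := by
      have h7 : (((d : ℤ) : ℝ) ^ h.length * aeval (((pts.getD i 0 : ℤ) : ℝ) / ((d : ℤ) : ℝ))
        (hPoly (p : ℤ) g b)) * (((d : ℤ) : ℝ) ^ h.length *
        aeval (((pts.getD (i + 1) 0 : ℤ) : ℝ) / ((d : ℤ) : ℝ)) (hPoly (p : ℤ) g b)) =
        (((d : ℤ) : ℝ) ^ h.length * ((d : ℤ) : ℝ) ^ h.length) *
        (aeval (((pts.getD i 0 : ℤ) : ℝ) / (d : ℝ)) (hPoly (p : ℤ) g b) *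
        aeval (((pts.getD (i + 1) 0 : ℤ) : ℝ) / (d : ℝ)) (hPoly (p : ℤ) g b)) := by
        push_cast
        ring
      rw [h7]
      exact mul_nonneg (mul_nonneg h5.le h5.le) hcon
    exact absurd h4 (not_lt.mpr h6)

/-! ### Shifts and Eisenstein's criterion -/

/-- Coefficients of `a + (X + c) * s`. -/
def goL (c : ℤ) : ℤ → List ℤ → List ℤ
  | a, [] => [a]
  | a, s :: l => (a + c * s) :: goL c s l

lemma ofL_goL (c a : ℤ) (s : List ℤ) : ofL (goL c a s) = C a + (X + C c) * ofL s := by
  induction s generalizing a with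
  | nil => simp [goL, ofL]
  | cons b s ih =>
    rw [goL, ofL, ih, ofL, C_add, C_mul]
    ring

/-- Coefficients of the shifted polynomial. -/
def shL (c : ℤ) : List ℤ → List ℤ
  | [] => []
  | a :: l => goL c a (shL c l)

lemma ofL_shL (c : ℤ) (l : List ℤ) : ofL (shL c l) = (ofL l).comp (X + C c) := by
  induction l with
  | nil => simp [shL, ofL]
  | cons a l ih =>
    rw [shL, ofL_goL, ih, ofL, add_comp, C_comp, mul_comp, X_comp]

/-- All coefficients but the last vanish modulo `q`, the last is one. -/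
def eisL (q : ℤ) : List ℤ → Bool
  | [] => false
  | [a] => decide (a = 1)
  | a :: b :: l => decide (a % q = 0) && eisL q (b :: l)

lemma map_of_eisL (q : ℕ) (l : List ℤ) (h : eisL q l = true) :
    (ofL l).map (Int.castRingHom (ZMod q)) = X ^ (l.length - 1) := by
  induction l with
  | nil => simp [eisL] at h
  | cons a l ih =>
    cases l with
    | nil =>
      simp only [eisL, decide_eq_true_eq] at h
      subst h
      simp [ofL]
    | cons b l =>
      rw [eisL, Bool.and_eq_true, decide_eq_true_eq] at h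
      have h1 := ih h.2
      rw [ofL, Polynomial.map_add, Polynomial.map_mul, map_C, map_X, h1]
      have h2 : (Int.castRingHom (ZMod q)) a = 0 := by
        rw [eq_intCast, ZMod.intCast_zmod_eq_zero_iff_dvd]
        exact Int.dvd_of_emod_eq_zero h.1
      rw [h2, C_0, zero_add, ← pow_succ']
      congr 1

lemma monic_ofL (l : List ℤ) (h : eisL 1 l = true) :
    (ofL l).Monic ∧ (ofL l).natDegree = l.length - 1 := by
  induction l with
  | nil => simp [eisL] at h
  | cons a l ih =>
    cases l with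
    | nil =>
      simp only [eisL, decide_eq_true_eq] at h
      subst h
      simp [ofL]
    | cons b l =>
      rw [eisL, Bool.and_eq_true, decide_eq_true_eq] at h
      obtain ⟨h1, h2⟩ := ih h.2
      have h3 : (X * ofL (b :: l)).Monic := monic_X.mul h1
      have h4 : (X * ofL (b :: l)).natDegree = (a :: b :: l).length - 1 := by
        rw [natDegree_X_mul h1.ne_zero, h2]
        simp
      have h5 : (C a).degree < (X * ofL (b :: l)).degree := by
        rw [degree_eq_natDegree h3.ne_zero, h4]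
        refine lt_of_le_of_lt degree_C_le ?_
        have : (0 : ℕ) < (a :: b :: l).length - 1 := by simp
        exact_mod_cast this
      rw [ofL]
      refine ⟨h3.add_of_right h5, ?_⟩
      rw [natDegree_add_eq_right_of_degree_lt h5, h4]

/-- Irreducibility certificate by Eisenstein's criterion after a shift. -/
def irrB (q : ℤ) (c : ℤ) (h : List ℤ) : Bool :=
  eisL q (shL c h) && decide ((shL c h).getD 0 0 % (q ^ 2) ≠ 0)

lemma ofL_coeff_zero (l : List ℤ) : (ofL l).coeff 0 = l.getD 0 0 := by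
  cases l with
  | nil => simp [ofL]
  | cons a l => simp [ofL]

lemma irreducible_of_irrB (q : ℕ) (hq : q.Prime) (c : ℤ) (h : List ℤ) (hm : (ofL h).Monic)
    (hd : 1 ≤ (ofL h).natDegree) (hB : irrB q c h = true) : Irreducible (ofL h) := by
  have : Fact q.Prime := ⟨hq⟩
  unfold irrB at hB
  rw [Bool.and_eq_true, decide_eq_true_eq] at hB
  have h1 := map_of_eisL q _ hB.1
  rw [ofL_shL] at h1
  have hcm : ((ofL h).comp (X + C c)).Monic := hm.comp_X_add_C c
  have hcd : ((ofL h).comp (X + C c)).natDegree = (ofL h).natDegree := by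
    rw [natDegree_comp, natDegree_X_add_C, mul_one]
  have h2 : ((ofL h).comp (X + C c)).natDegree = (shL c h).length - 1 := by
    have := congrArg natDegree h1
    rw [natDegree_X_pow, hcm.natDegree_map] at this
    exact this
  have hirr : Irreducible ((ofL h).comp (X + C c)) := by
    apply irreducible_of_map_eq_X_pow q hq _ hcm (by omega)
    · rw [h1, h2]
    · rw [← ofL_shL, ofL_coeff_zero]
      intro hdvd
      exact hB.2 (Int.emod_eq_zero_of_dvd (by exact_mod_cast hdvd))
  have e : (algEquivAevalXAddC c) (ofL h) = (ofL h).comp (X + C c) := by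
    rw [algEquivAevalXAddC_apply, comp_eq_aeval]
  rw [← e] at hirr
  exact (MulEquiv.irreducible_iff (algEquivAevalXAddC c)).mp hirr

/-! ### The exponent condition and the values -/

/-- The gcd of the indices. -/
def gN (b : ℕ → ℤ) (g : ℕ) : ℕ → ℕ
  | 0 => 2 * g
  | n + 1 => if b (n + 1) = 0 then gN b g n else Nat.gcd (gN b g n) (n + 1)

lemma dvd_gN (p g : ℕ) (b : ℕ → ℤ) (hb : b 0 = 1) (k : ℕ)
    (hk : ∀ i, (wPoly p g b).coeff i ≠ 0 → k ∣ i) (n : ℕ) (hn : n ≤ g) : k ∣ gN b g n := by
  have h2g : k ∣ 2 * g := by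
    apply hk
    rw [wPoly_coeff]
    split_ifs with h1 h2
    · have : g = 0 := by omega
      omega
    · rw [Nat.sub_self, hb]
      norm_num
    · omega
  induction n with
  | zero => exact h2g
  | succ n ih =>
    rw [gN]
    split_ifs with h
    · exact ih (by omega)
    · apply Nat.dvd_gcd (ih (by omega))
      have h3 : k ∣ 2 * g - (n + 1) := by
        apply hk
        rw [wPoly_coeff, if_neg (by omega), if_pos (by omega)]
        have : 2 * g - (2 * g - (n + 1)) = n + 1 := by omega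
        rw [this]
        exact h
      have h4 : n + 1 = 2 * g - (2 * g - (n + 1)) := by omega
      rw [h4]
      exact Nat.dvd_sub h2g h3

/-- Sums by recursion. -/
def sumN (F : ℕ → ℤ) : ℕ → ℤ
  | 0 => 0
  | n + 1 => sumN F n + F n

lemma sumN_eq (F : ℕ → ℤ) (n : ℕ) : sumN F n = ∑ i ∈ range n, F i := by
  induction n with
  | zero => simp [sumN]
  | succ n ih => rw [sumN, ih, sum_range_succ]

/-- Values of the Weil polynomial. -/
def wVal (p : ℤ) (g : ℕ) (b : ℕ → ℤ) (m : ℤ) : ℤ :=
  sumN (fun i => b i * (m ^ (2 * g - i) + p ^ (g - i) * m ^ i)) g + b g * m ^ g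

lemma wPoly_eval_eq (p : ℤ) (g : ℕ) (b : ℕ → ℤ) (m : ℤ) :
    (wPoly p g b).eval m = wVal p g b m := by
  unfold wPoly wVal
  rw [sumN_eq]
  simp [eval_finsetSum]

/-- The `p`-rank check. -/
def rankB (p : ℤ) (g f : ℕ) (b : ℕ → ℤ) : Bool :=
  decide (b f % p ≠ 0) && Nat.all g fun i _ => decide (f < i + 1 → b (i + 1) % p = 0)

lemma rank_of_rankB (p : ℤ) (g f : ℕ) (b : ℕ → ℤ) (h : rankB p g f b = true) :
    ¬ p ∣ b f ∧ ∀ i, f < i → i ≤ g → p ∣ b i := by
  unfold rankB at h
  rw [Bool.and_eq_true, decide_eq_true_eq] at h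
  refine ⟨fun h1 => h.1 (Int.emod_eq_zero_of_dvd h1), ?_⟩
  intro i hi1 hi2
  have h2 := h.2
  rw [Nat.all_eq_finRange_all, List.all_eq_true] at h2
  have h3 := h2 ⟨i - 1, by omega⟩ (List.mem_finRange _)
  rw [decide_eq_true_eq] at h3
  have e : i - 1 + 1 = i := by omega
  rw [e] at h3
  exact Int.dvd_of_emod_eq_zero (h3 hi1)

/-- **The certificate checker.** -/
def chk (p g f : ℕ) (rl : List ℤ) (d : ℕ) (pts : List ℤ) (q : ℕ) (c m : ℤ) : Bool :=
  decide (1 ≤ g) && decide (f ≤ g) && decide (rl.length = g + 1) && decide (pts.length = g + 1) &&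
    decide (bR rl g 0 = 1) && locB p d (hList p rl) pts && irrB q c (hList p rl) &&
    (decide (wVal p g (bR rl g) m % 8 = 6) || decide (wVal p g (bR rl g) m % 9 = 6)) &&
    decide (gN (bR rl g) g g = 1) && rankB p g f (bR rl g)

theorem good_of_chk (p : ℕ) (hp : p.Prime) (g f : ℕ) (rl : List ℤ) (d : ℕ) (pts : List ℤ) (q : ℕ)
    (hq : q.Prime) (c m : ℤ) (h : chk p g f rl d pts q c m = true) : Good p g f := by
  unfold chk at h
  simp only [Bool.and_eq_true, Bool.or_eq_true, decide_eq_true_eq] at h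
  obtain ⟨⟨⟨⟨⟨⟨⟨⟨⟨hg, hf⟩, hrl⟩, hpts⟩, hb⟩, hloc⟩, hirr⟩, hv⟩, hgn⟩, hrank⟩ := h
  have hh := ofL_hList (p : ℤ) g rl hrl
  have hmon := hPoly_monic (p : ℤ) g (bR rl g) hg hb
  have hdeg := hPoly_natDegree (p : ℤ) g (bR rl g) hg hb
  obtain ⟨hr1, hr2⟩ := rank_of_rankB p g f _ hrank
  apply good_of p hp g f hg hf (bR rl g) hb
    (loc_of_locB p hp.pos g hg _ hb _ hh d pts hpts hloc) _ _ _ hr1 hr2
  · rw [← hh]
    exact irreducible_of_irrB q hq c _ (by rw [hh]; exact hmon) (by rw [hh]; omega) hirr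
  · refine ⟨m, ?_⟩
    rw [wPoly_eval_eq]
    exact hv
  · intro k hk
    have := dvd_gN p g (bR rl g) hb k hk g le_rfl
    rw [hgn] at this
    exact Nat.dvd_one.mp this

end Pool.Agent.MP_e32a7e_nt
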