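import Pool.Agent.Lib.MP_e32a7e_nt.Table

/-!
# A certificate checker, irreducibility modulo a prime
-/

open Polynomial Finset

namespace Pool.Agent.MP_e32a7e_nt

/-- Remainder modulo `X - s`. -/
def rem1 (s : ℤ) : List ℤ → ℤ
  | [] => 0
  | a :: l => a + s * rem1 s l

/-- Remainder modulo `X ^ 2 - s X - t`. -/
def rem2 (s t : ℤ) : List ℤ → ℤ × ℤ
  | [] => (0, 0)
  | a :: l => (a + t * (rem2 s t l).2, (rem2 s t l).1 + s * (rem2 s t l).2)

/-- Remainder modulo `X ^ 3 - s X ^ 2 - t X - w`. -/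
def rem3 (s t w : ℤ) : List ℤ → ℤ × ℤ × ℤ
  | [] => (0, 0, 0)
  | a :: l => (a + w * (rem3 s t w l).2.2, (rem3 s t w l).1 + t * (rem3 s t w l).2.2,
      (rem3 s t w l).2.1 + s * (rem3 s t w l).2.2)

lemma rem1_spec (s : ℤ) (l : List ℤ) :
    ∃ Q : ℤ[X], ofL l = (X - C s) * Q + C (rem1 s l) := by
  induction l with
  | nil => exact ⟨0, by simp [ofL, rem1]⟩
  | cons a l ih =>
    obtain ⟨Q, hQ⟩ := ih
    refine ⟨X * Q + C (rem1 s l), ?_⟩
    rw [ofL, hQ, rem1, C_add, C_mul]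
    ring

lemma rem2_spec (s t : ℤ) (l : List ℤ) :
    ∃ Q : ℤ[X], ofL l = (X ^ 2 - C s * X - C t) * Q +
      (C (rem2 s t l).1 + C (rem2 s t l).2 * X) := by
  induction l with
  | nil => exact ⟨0, by simp [ofL, rem2]⟩
  | cons a l ih =>
    obtain ⟨Q, hQ⟩ := ih
    refine ⟨X * Q + C (rem2 s t l).2, ?_⟩
    rw [ofL, hQ, rem2]
    simp only [C_add, C_mul]
    ring

lemma rem3_spec (s t w : ℤ) (l : List ℤ) :
    ∃ Q : ℤ[X], ofL l = (X ^ 3 - C s * X ^ 2 - C t * X - C w) * Q +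
      (C (rem3 s t w l).1 + C (rem3 s t w l).2.1 * X + C (rem3 s t w l).2.2 * X ^ 2) := by
  induction l with
  | nil => exact ⟨0, by simp [ofL, rem3]⟩
  | cons a l ih =>
    obtain ⟨Q, hQ⟩ := ih
    refine ⟨X * Q + C (rem3 s t w l).2.2, ?_⟩
    rw [ofL, hQ, rem3]
    simp only [C_add, C_mul]
    ring

lemma crh (q : ℕ) (a : ℤ) : (Int.castRingHom (ZMod q)) a = (a : ZMod q) := rfl

lemma rem_zero (q : ℕ) [Fact q.Prime] (A M h Q R : ℤ[X]) (hA : A.Monic)
    (hM : M.map (Int.castRingHom (ZMod q)) = A.map (Int.castRingHom (ZMod q)))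
    (hdec : h = M * Q + R) (hR : R.natDegree < A.natDegree) (hdvd : A ∣ h) :
    R.map (Int.castRingHom (ZMod q)) = 0 := by
  have h1 : A.map (Int.castRingHom (ZMod q)) ∣ h.map (Int.castRingHom (ZMod q)) :=
    Polynomial.map_dvd _ hdvd
  rw [hdec, Polynomial.map_add, Polynomial.map_mul, hM] at h1
  have h2 := (dvd_add_right (dvd_mul_right _ _)).mp h1
  by_contra hne
  have h3 := natDegree_le_of_dvd h2 hne
  rw [hA.natDegree_map] at h3
  have h4 : (R.map (Int.castRingHom (ZMod q))).natDegree ≤ R.natDegree := natDegree_map_le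
  omega

lemma exists_rep (q : ℕ) [Fact q.Prime] (a : ℤ) :
    ∃ s : ℕ, s < q ∧ ((s : ℤ) : ZMod q) = -(a : ZMod q) := by
  have hq : (0 : ℤ) < q := by exact_mod_cast (Fact.out : q.Prime).pos
  refine ⟨((-a) % q).toNat, ?_, ?_⟩
  · have h1 := Int.emod_lt_of_pos (-a) hq
    have h2 := Int.emod_nonneg (-a) hq.ne'
    omega
  · have h2 := Int.emod_nonneg (-a) hq.ne'
    rw [Int.toNat_of_nonneg h2, ZMod.intCast_mod]
    push_cast
    rfl

/-- No factors of degrees one, two, three modulo `q`. -/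
def nf1 (q : ℕ) (h : List ℤ) : Bool := (List.range q).all fun s => decide (rem1 s h % q ≠ 0)

def nf2 (q : ℕ) (h : List ℤ) : Bool := (List.range q).all fun s => (List.range q).all fun t =>
  decide (¬ ((rem2 s t h).1 % q = 0 ∧ (rem2 s t h).2 % q = 0))

def nf3 (q : ℕ) (h : List ℤ) : Bool := (List.range q).all fun s => (List.range q).all fun t =>
  (List.range q).all fun w =>
  decide (¬ ((rem3 s t w h).1 % q = 0 ∧ (rem3 s t w h).2.1 % q = 0 ∧ (rem3 s t w h).2.2 % q = 0))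

lemma not_dvd_one (q : ℕ) [Fact q.Prime] (h : List ℤ) (hB : nf1 q h = true) (A : ℤ[X])
    (hA : A.Monic) (hd : A.natDegree = 1) : ¬ A ∣ ofL h := by
  intro hdvd
  unfold nf1 at hB
  rw [List.all_eq_true] at hB
  obtain ⟨s, hs1, hs2⟩ := exists_rep q (A.coeff 0)
  have hAe : A = X + C (A.coeff 0) := by
    have := hA.as_sum
    rw [hd] at this
    simpa using this
  obtain ⟨Q, hQ⟩ := rem1_spec s h
  have hM : (X - C (s : ℤ)).map (Int.castRingHom (ZMod q)) =
      A.map (Int.castRingHom (ZMod q)) := by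
    conv_rhs => rw [hAe]
    simp only [Polynomial.map_sub, Polynomial.map_add, map_X, map_C, crh, hs2, C_neg]
    ring
  have h0 := rem_zero q A _ _ Q _ hA hM hQ (by rw [hd, natDegree_C]; norm_num) hdvd
  rw [map_C, C_eq_zero, eq_intCast, ZMod.intCast_zmod_eq_zero_iff_dvd] at h0
  have h1 := hB s (List.mem_range.mpr hs1)
  rw [decide_eq_true_eq] at h1
  exact h1 (Int.emod_eq_zero_of_dvd h0)

lemma not_dvd_two (q : ℕ) [Fact q.Prime] (h : List ℤ) (hB : nf2 q h = true) (A : ℤ[X])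
    (hA : A.Monic) (hd : A.natDegree = 2) : ¬ A ∣ ofL h := by
  intro hdvd
  unfold nf2 at hB
  rw [List.all_eq_true] at hB
  obtain ⟨s, hs1, hs2⟩ := exists_rep q (A.coeff 1)
  obtain ⟨t, ht1, ht2⟩ := exists_rep q (A.coeff 0)
  have hAe : A = X ^ 2 + (C (A.coeff 0) + C (A.coeff 1) * X) := by
    have := hA.as_sum
    rw [hd] at this
    simpa [sum_range_succ] using this
  obtain ⟨Q, hQ⟩ := rem2_spec s t h
  have hM : (X ^ 2 - C (s : ℤ) * X - C (t : ℤ)).map (Int.castRingHom (ZMod q)) =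
      A.map (Int.castRingHom (ZMod q)) := by
    conv_rhs => rw [hAe]
    simp only [Polynomial.map_sub, Polynomial.map_add, Polynomial.map_mul, Polynomial.map_pow,
      map_X, map_C, crh, hs2, ht2, C_neg]
    ring
  have h0 := rem_zero q A _ _ Q _ hA hM hQ (by
    rw [hd]
    have : (C (rem2 s t h).1 + C (rem2 s t h).2 * X : ℤ[X]).natDegree ≤ 1 := by compute_degree
    omega) hdvd
  have hco : ∀ n, (C (rem2 (s : ℤ) t h).1 + C (rem2 (s : ℤ) t h).2 * X : ℤ[X]).coeff n % q = 0 := by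
    intro n
    have c0 := congrArg (fun P => coeff P n) h0
    simp only [coeff_map, coeff_zero, crh, ZMod.intCast_zmod_eq_zero_iff_dvd] at c0
    exact Int.emod_eq_zero_of_dvd c0
  have c0 := hco 0
  have c1 := hco 1
  have e0 : (C (rem2 (s : ℤ) t h).1 + C (rem2 (s : ℤ) t h).2 * X : ℤ[X]).coeff 0 =
      (rem2 (s : ℤ) t h).1 := by
    simp only [coeff_add, coeff_C_mul, coeff_C, coeff_X]
    norm_num
  have e1 : (C (rem2 (s : ℤ) t h).1 + C (rem2 (s : ℤ) t h).2 * X : ℤ[X]).coeff 1 =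
      (rem2 (s : ℤ) t h).2 := by
    simp only [coeff_add, coeff_C_mul, coeff_C, coeff_X]
    norm_num
  rw [e0] at c0
  rw [e1] at c1
  have h1 := hB s (List.mem_range.mpr hs1)
  rw [List.all_eq_true] at h1
  have h2 := h1 t (List.mem_range.mpr ht1)
  rw [decide_eq_true_eq] at h2
  exact h2 ⟨c0, c1⟩

lemma not_dvd_three (q : ℕ) [Fact q.Prime] (h : List ℤ) (hB : nf3 q h = true) (A : ℤ[X])
    (hA : A.Monic) (hd : A.natDegree = 3) : ¬ A ∣ ofL h := by
  intro hdvd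
  unfold nf3 at hB
  rw [List.all_eq_true] at hB
  obtain ⟨s, hs1, hs2⟩ := exists_rep q (A.coeff 2)
  obtain ⟨t, ht1, ht2⟩ := exists_rep q (A.coeff 1)
  obtain ⟨w, hw1, hw2⟩ := exists_rep q (A.coeff 0)
  have hAe : A = X ^ 3 + (C (A.coeff 0) + C (A.coeff 1) * X + C (A.coeff 2) * X ^ 2) := by
    have := hA.as_sum
    rw [hd] at this
    simpa [sum_range_succ] using this
  obtain ⟨Q, hQ⟩ := rem3_spec s t w h
  have hM : (X ^ 3 - C (s : ℤ) * X ^ 2 - C (t : ℤ) * X - C (w : ℤ)).map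
      (Int.castRingHom (ZMod q)) = A.map (Int.castRingHom (ZMod q)) := by
    conv_rhs => rw [hAe]
    simp only [Polynomial.map_sub, Polynomial.map_add, Polynomial.map_mul, Polynomial.map_pow,
      map_X, map_C, crh, hs2, ht2, hw2, C_neg]
    ring
  have h0 := rem_zero q A _ _ Q _ hA hM hQ (by
    rw [hd]
    have : (C (rem3 s t w h).1 + C (rem3 s t w h).2.1 * X + C (rem3 s t w h).2.2 * X ^ 2 :
      ℤ[X]).natDegree ≤ 2 := by compute_degree
    omega) hdvd
  have hco : ∀ n, (C (rem3 (s : ℤ) t w h).1 + C (rem3 (s : ℤ) t w h).2.1 * X +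
      C (rem3 (s : ℤ) t w h).2.2 * X ^ 2 : ℤ[X]).coeff n % q = 0 := by
    intro n
    have c0 := congrArg (fun P => coeff P n) h0
    simp only [coeff_map, coeff_zero, crh, ZMod.intCast_zmod_eq_zero_iff_dvd] at c0
    exact Int.emod_eq_zero_of_dvd c0
  have c0 := hco 0
  have c1 := hco 1
  have c2 := hco 2
  have e0 : (C (rem3 (s : ℤ) t w h).1 + C (rem3 (s : ℤ) t w h).2.1 * X +
      C (rem3 (s : ℤ) t w h).2.2 * X ^ 2 : ℤ[X]).coeff 0 = (rem3 (s : ℤ) t w h).1 := by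
    simp only [coeff_add, coeff_C_mul, coeff_C, coeff_X, coeff_X_pow]
    norm_num
  have e1 : (C (rem3 (s : ℤ) t w h).1 + C (rem3 (s : ℤ) t w h).2.1 * X +
      C (rem3 (s : ℤ) t w h).2.2 * X ^ 2 : ℤ[X]).coeff 1 = (rem3 (s : ℤ) t w h).2.1 := by
    simp only [coeff_add, coeff_C_mul, coeff_C, coeff_X, coeff_X_pow]
    norm_num
  have e2 : (C (rem3 (s : ℤ) t w h).1 + C (rem3 (s : ℤ) t w h).2.1 * X +
      C (rem3 (s : ℤ) t w h).2.2 * X ^ 2 : ℤ[X]).coeff 2 = (rem3 (s : ℤ) t w h).2.2 := by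
    simp only [coeff_add, coeff_C_mul, coeff_C, coeff_X, coeff_X_pow]
    norm_num
  rw [e0] at c0
  rw [e1] at c1
  rw [e2] at c2
  have h1 := hB s (List.mem_range.mpr hs1)
  rw [List.all_eq_true] at h1
  have h2 := h1 t (List.mem_range.mpr ht1)
  rw [List.all_eq_true] at h2
  have h3 := h2 w (List.mem_range.mpr hw1)
  rw [decide_eq_true_eq] at h3
  exact h3 ⟨c0, c1, c2⟩

/-- Irreducibility modulo `q`, in degrees at most seven. -/
def modB (q : ℕ) (g : ℕ) (h : List ℤ) : Bool :=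
  decide (g < 8) && nf1 q h && (decide (g < 4) || nf2 q h) && (decide (g < 6) || nf3 q h)

lemma irreducible_of_modB (q : ℕ) (hq : q.Prime) (g : ℕ) (h : List ℤ) (hm : (ofL h).Monic)
    (hg : 1 ≤ g) (hd : (ofL h).natDegree = g) (hB : modB q g h = true) :
    Irreducible (ofL h) := by
  have : Fact q.Prime := ⟨hq⟩
  unfold modB at hB
  simp only [Bool.and_eq_true, Bool.or_eq_true, decide_eq_true_eq] at hB
  obtain ⟨⟨⟨hg8, h1⟩, h2⟩, h3⟩ := hB
  have hne1 : ofL h ≠ 1 := by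
    intro h0
    rw [h0, natDegree_one] at hd
    omega
  rw [hm.irreducible_iff_lt_natDegree_lt hne1]
  intro A hA hdeg
  rw [Finset.mem_Ioc, hd] at hdeg
  rcases (by omega : A.natDegree = 1 ∨ (A.natDegree = 2 ∧ ¬ g < 4) ∨
    (A.natDegree = 3 ∧ ¬ g < 6)) with h | h | h
  · exact not_dvd_one q _ h1 A hA h
  · exact not_dvd_two q _ (h2.resolve_left h.2) A hA h.1
  · exact not_dvd_three q _ (h3.resolve_left h.2) A hA h.1

/-- **The certificate checker, second form.** -/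
def chkM (p g f : ℕ) (rl : List ℤ) (d : ℕ) (pts : List ℤ) (q : ℕ) (m : ℤ) : Bool :=
  decide (1 ≤ g) && decide (f ≤ g) && decide (rl.length = g + 1) && decide (pts.length = g + 1) &&
    decide (bR rl g 0 = 1) && locB p d (hList p rl) pts && modB q g (hList p rl) &&
    (decide (wVal p g (bR rl g) m % 8 = 6) || decide (wVal p g (bR rl g) m % 9 = 6)) &&
    decide (gN (bR rl g) g g = 1) && rankB p g f (bR rl g)

theorem good_of_chkM (p : ℕ) (hp : p.Prime) (g f : ℕ) (rl : List ℤ) (d : ℕ) (pts : List ℤ) (q : ℕ)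
    (hq : q.Prime) (m : ℤ) (h : chkM p g f rl d pts q m = true) : Good p g f := by
  unfold chkM at h
  simp only [Bool.and_eq_true, Bool.or_eq_true, decide_eq_true_eq] at h
  obtain ⟨⟨⟨⟨⟨⟨⟨⟨⟨hg, hf⟩, hrl⟩, hpts⟩, hb⟩, hloc⟩, hirr⟩, hv⟩, hgn⟩, hrank⟩ := h
  have hh := ofL_hList (p : ℤ) g rl hrl
  have hmon := hPoly_monic (p : ℤ) g (bR rl g) hg hb
  have hdeg := hPoly_natDegree (p : ℤ) g (bR rl g) hg hb
  obtain ⟨hr1, hr2⟩ := rank_of_rankB p g f _ hrank
  apply good_of p hp g f hg hf (bR rl g) hb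
    (loc_of_locB p hp.pos g hg _ hb _ hh d pts hpts hloc) _ _ _ hr1 hr2
  · rw [← hh]
    exact irreducible_of_modB q hq g _ (by rw [hh]; exact hmon) hg (by rw [hh]; exact hdeg) hirr
  · refine ⟨m, ?_⟩
    rw [wPoly_eval_eq]
    exact hv
  · intro k hk
    have := dvd_gN p g (bR rl g) hb k hk g le_rfl
    rw [hgn] at this
    exact Nat.dvd_one.mp this

end Pool.Agent.MP_e32a7e_nt
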