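import Pool.Agent.Lib.MP_e32a7e_nt.TwoTwo2

/-!
# The prime two: the binomial pattern modulo `3`
-/

open Polynomial Finset

namespace Pool.Agent.MP_e32a7e_nt

/-- The balanced residue. -/
def bal (x : ℤ) : ℤ := if x % 3 = 1 then 1 else if x % 3 = 2 then -1 else 0

lemma bal_cases (x : ℤ) : bal x = 0 ∨ bal x = 1 ∨ bal x = -1 := by
  unfold bal
  split_ifs
  · exact Or.inr (Or.inl rfl)
  · exact Or.inr (Or.inr rfl)
  · exact Or.inl rfl

lemma bal_sub_dvd (x : ℤ) : (x - bal x) % 3 = 0 := by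
  unfold bal
  split_ifs <;> omega

lemma bal_congr {x y : ℤ} (h : (x - y) % 3 = 0) : bal x = bal y := by
  unfold bal
  have : x % 3 = y % 3 := by omega
  rw [this]

/-- The pattern modulo three. -/
def e3 (g i : ℕ) : ℤ := if Even i then bal ((-1) ^ (i / 2) * (g.choose (i / 2) : ℤ)) else 0

lemma e3_cases (g i : ℕ) : e3 g i = 0 ∨ e3 g i = 1 ∨ e3 g i = -1 := by
  unfold e3
  split_ifs
  · exact bal_cases _
  · exact Or.inl rfl

lemma e3_odd (g : ℕ) {i : ℕ} (h : ¬ Even i) : e3 g i = 0 := by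
  rw [e3, if_neg h]

lemma e3_zero (g : ℕ) : e3 g 0 = 1 := by
  rw [e3, if_pos (by decide)]
  simp [bal]

lemma e3_cast (g i : ℕ) : ((e3 g i : ℤ) : ZMod 3) =
    if Even i then (g.choose (i / 2) : ZMod 3) * (((2 : ℤ) : ZMod 3)) ^ (i / 2) else 0 := by
  unfold e3
  split_ifs with h
  · have h1 := bal_sub_dvd ((-1) ^ (i / 2) * (g.choose (i / 2) : ℤ))
    have h2 : ((bal ((-1) ^ (i / 2) * (g.choose (i / 2) : ℤ)) : ℤ) : ZMod 3) =
        (((-1) ^ (i / 2) * (g.choose (i / 2) : ℤ) : ℤ) : ZMod 3) := by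
      rw [ZMod.intCast_eq_intCast_iff, Int.ModEq]
      push_cast
      omega
    rw [h2]
    push_cast
    have h3 : (2 : ZMod 3) = -1 := by decide
    rw [h3]
    ring
  · simp

/-- The coefficients. -/
def bt (g f : ℕ) (mid : ℤ) (i : ℕ) : ℤ :=
  if i < g then
    (if i ≤ f then 1 else -2) * e3 g i +
      (if e3 g i = 0 ∧ (i = f ∨ i = g - 1) then (if i ≤ f then 3 else 6) else 0)
  else mid

section

variable {g f : ℕ} {mid : ℤ}

lemma bt_zero (hg : 1 ≤ g) : bt g f mid 0 = 1 := by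
  rw [bt, if_pos (by omega), if_pos (by omega), e3_zero, if_neg (by norm_num)]
  norm_num

lemma bt_last : bt g f mid g = mid := by
  rw [bt, if_neg (lt_irrefl g)]

lemma bt_mod (i : ℕ) (hi : i < g) : (bt g f mid i - e3 g i) % 3 = 0 := by
  rw [bt, if_pos hi]
  split_ifs <;> omega

lemma bt_even (i : ℕ) (hi : i < g) (hf : f < i) : (2 : ℤ) ∣ bt g f mid i := by
  rw [bt, if_pos hi, if_neg (by omega), if_neg (by omega : ¬ i ≤ f)]
  split_ifs <;> omega

lemma bt_odd (hf : f < g) : ¬ (2 : ℤ) ∣ bt g f mid f := by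
  rw [bt, if_pos hf, if_pos le_rfl, if_pos le_rfl]
  rcases e3_cases g f with h | h | h
  · rw [if_pos ⟨h, Or.inl rfl⟩, h]
    norm_num
  · rw [if_neg (by rw [h]; norm_num), h]
    norm_num
  · rw [if_neg (by rw [h]; norm_num), h]
    norm_num

lemma bt_ne_zero (hg : 1 ≤ g) : bt g f mid (g - 1) ≠ 0 := by
  rw [bt, if_pos (by omega)]
  by_cases h : e3 g (g - 1) = 0
  · have h1 : e3 g (g - 1) = 0 ∧ (g - 1 = f ∨ g - 1 = g - 1) := ⟨h, Or.inr rfl⟩
    rw [if_pos h1, h, mul_zero, zero_add]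
    split_ifs <;> norm_num
  · have h1 : ¬ (e3 g (g - 1) = 0 ∧ (g - 1 = f ∨ g - 1 = g - 1)) := fun h2 => h h2.1
    rw [if_neg h1, add_zero]
    apply mul_ne_zero _ h
    split_ifs <;> norm_num

lemma bt_sum_indep (m1 m2 : ℤ) :
    ∑ i ∈ range g, bt g f m1 i * (1 + (2 : ℤ) ^ (g - i)) =
      ∑ i ∈ range g, bt g f m2 i * (1 + (2 : ℤ) ^ (g - i)) := by
  apply sum_congr rfl
  intro i hi
  rw [bt, bt, if_pos (mem_range.mp hi), if_pos (mem_range.mp hi)]

lemma zmod_pattern_sum (hg : 1 ≤ g) :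
    (∑ i ∈ range g, bt g f (e3 g g) i * (1 + (2 : ℤ) ^ (g - i)) + e3 g g) % 3 = 0 := by
  have hpat : ∀ i ≤ g, ((bt g f (e3 g g) i : ℤ) : ZMod 3) =
      if Even i then (g.choose (i / 2) : ZMod 3) * (((2 : ℤ) : ZMod 3)) ^ (i / 2) else 0 := by
    intro i hi
    rw [← e3_cast]
    rcases lt_or_eq_of_le hi with h | h
    · have h1 := bt_mod (g := g) (f := f) (mid := e3 g g) i h
      rw [ZMod.intCast_eq_intCast_iff, Int.ModEq]
      push_cast
      omega
    · subst h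
      rw [bt_last]
  have h1 := wPoly_map_eq 2 3 g _ hpat
  have h2 := congrArg (eval 1) h1
  rw [eval_one_map, wPoly_eval_one_sum, bt_last] at h2
  have h3 : eval 1 ((X ^ 2 + C (((2 : ℤ)) : ZMod 3)) ^ g) = 0 := by
    rw [eval_pow, eval_add, eval_pow, eval_X, eval_C]
    have : (1 : ZMod 3) ^ 2 + (((2 : ℤ)) : ZMod 3) = 0 := by decide
    rw [this, zero_pow (by omega)]
  rw [h3, crh, ZMod.intCast_zmod_eq_zero_iff_dvd] at h2
  exact Int.emod_eq_zero_of_dvd h2

lemma exists_mid_even (R : ℤ) : ∃ mid : ℤ, mid % 2 = 0 ∧ mid ≠ 0 ∧ |mid| ≤ 18 ∧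
    (R + mid) % 9 = 6 := by
  set w := (6 - R) % 9 with hw
  rcases (by omega : w = 0 ∨ (w % 2 = 0 ∧ w ≠ 0) ∨ w % 2 = 1) with h | h | h
  · exact ⟨18, by norm_num, by norm_num, by norm_num, by omega⟩
  · refine ⟨w, h.1, h.2, ?_, by omega⟩
    rw [abs_le]
    omega
  · refine ⟨w - 9, by omega, by omega, ?_, by omega⟩
    rw [abs_le]
    omega

lemma exists_mid_odd (R : ℤ) : ∃ mid : ℤ, mid % 2 = 1 ∧ mid ≠ 0 ∧ |mid| ≤ 18 ∧
    (R + mid) % 9 = 6 := by
  set w := (6 - R) % 9 with hw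
  rcases (by omega : w % 2 = 0 ∨ w % 2 = 1) with h | h
  · refine ⟨w - 9, by omega, by omega, ?_, by omega⟩
    rw [abs_le]
    omega
  · refine ⟨w, h, by omega, ?_, by omega⟩
    rw [abs_le]
    omega

/-- All requirements except the location of the zeros. -/
theorem good_bt (hg : 2 ≤ g) (hf : f ≤ g)
    (hloc : ∀ mid : ℤ, |mid| ≤ 18 →
      ∀ z : ℂ, aeval z (wPoly (2 : ℕ) g (bt g f mid)) = 0 → ‖z‖ = √((2 : ℕ) : ℝ) ∧ z.im ≠ 0) :
    Good 2 g f := by
  set R : ℤ := ∑ i ∈ range g, bt g f 0 i * (1 + (2 : ℤ) ^ (g - i)) with hR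
  obtain ⟨mid, hpar, hne, habs, hN⟩ : ∃ mid : ℤ, (if f = g then mid % 2 = 1 else mid % 2 = 0) ∧
      mid ≠ 0 ∧ |mid| ≤ 18 ∧ (R + mid) % 9 = 6 := by
    split_ifs
    · exact exists_mid_odd R
    · exact exists_mid_even R
  have h0 : bt g f mid 0 = 1 := bt_zero (by omega)
  have hN' : (wPoly 2 g (bt g f mid)).eval 1 % 9 = 6 := by
    rw [wPoly_eval_one_sum, bt_last, bt_sum_indep mid 0]
    exact hN
  have hpat : ∀ i ≤ g, ((bt g f mid i : ℤ) : ZMod 3) =
      if Even i then (g.choose (i / 2) : ZMod 3) * (((2 : ℤ) : ZMod 3)) ^ (i / 2) else 0 := by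
    intro i hi
    rw [← e3_cast]
    rcases lt_or_eq_of_le hi with h | h
    · have h1 := bt_mod (g := g) (f := f) (mid := mid) i h
      rw [ZMod.intCast_eq_intCast_iff, Int.ModEq]
      push_cast
      omega
    · subst h
      rw [bt_last, ZMod.intCast_eq_intCast_iff, Int.ModEq]
      have h1 := zmod_pattern_sum (g := i) (f := f) (by omega)
      rw [bt_sum_indep (e3 i i) 0] at h1
      push_cast
      omega
  have hmap : (hPoly 2 g (bt g f mid)).map (Int.castRingHom (ZMod 3)) = X ^ g :=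
    hPoly_map_eq 2 3 Nat.prime_three (by norm_num) g _ hpat
  have hirr : Irreducible (hPoly (2 : ℕ) g (bt g f mid)) := by
    rw [Nat.cast_ofNat]
    have hd := hPoly_natDegree 2 g (bt g f mid) (by omega) h0
    apply irreducible_of_map_eq_X_pow 3 Nat.prime_three _ (hPoly_monic 2 g _ (by omega) h0)
      (by omega) (by rw [hd]; exact hmap)
    apply coeff_zero_of_eval 3 _ g hg hmap 1
    have h3 : ((3 : ℕ) : ℤ) * 1 = 2 + 1 := by norm_num
    rw [h3, ← wPoly_eval_one]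
    push_cast
    omega
  apply good_of 2 Nat.prime_two g f (by omega) hf (bt g f mid) h0 (hloc mid habs) hirr
  · refine ⟨1, Or.inr ?_⟩
    rw [Nat.cast_ofNat]
    exact hN'
  · intro k hk
    exact exp_middle 2 g (by omega) _ (by rw [bt_last]; exact hne) (bt_ne_zero (by omega)) k hk
  · rw [Nat.cast_ofNat]
    by_cases h : f = g
    · rw [if_pos h] at hpar
      rw [h, bt_last]
      omega
    · exact bt_odd (by omega)
  · intro i hi1 hi2
    rw [Nat.cast_ofNat]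
    rw [if_neg (by omega)] at hpar
    rcases lt_or_eq_of_le hi2 with h | h
    · exact bt_even i h hi1
    · rw [h, bt_last]
      omega

end

end Pool.Agent.MP_e32a7e_nt
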