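import Pool.Agent.Lib.MP_e32a7e_nt.TwoLarge

/-!
# The prime two: location of the zeros for the pattern modulo `3`
-/

open Polynomial Finset

namespace Pool.Agent.MP_e32a7e_nt

section

variable {g f : ℕ} {mid : ℤ}

lemma choose_mod3 (g j : ℕ) : ((g.choose j : ℤ) -
    (((g % 3).choose (j % 3) * (g / 3).choose (j / 3) : ℕ) : ℤ)) % 3 = 0 := by
  have h := Choose.choose_modEq_choose_mod_mul_choose_div_nat (n := g) (k := j) (p := 3)
  have h2 : (g.choose j) % 3 = ((g % 3).choose (j % 3) * (g / 3).choose (j / 3)) % 3 := h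
  omega

lemma e3_four (h : g % 3 ≠ 2) : e3 g 4 = 0 := by
  have h1 := choose_mod3 g 2
  have h2 : (g % 3).choose (2 % 3) = 0 := by
    apply Nat.choose_eq_zero_of_lt
    omega
  rw [h2, zero_mul] at h1
  rw [e3, if_pos (by decide)]
  have h3 : (-1 : ℤ) ^ (4 / 2) = 1 := by norm_num
  have h4 : 4 / 2 = 2 := by norm_num
  rw [h3, one_mul, h4, bal_congr (y := 0) (by push_cast at h1; omega)]
  rfl

lemma e3_ten (h : g % 3 ≠ 2) : e3 g 10 = 0 := by
  have h1 := choose_mod3 g 5
  have h2 : (g % 3).choose (5 % 3) = 0 := by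
    apply Nat.choose_eq_zero_of_lt
    omega
  rw [h2, zero_mul] at h1
  rw [e3, if_pos (by decide)]
  have h3 : (-1 : ℤ) ^ (10 / 2) = -1 := by norm_num
  have h4 : 10 / 2 = 5 := by norm_num
  rw [h3, h4, bal_congr (y := 0) (by push_cast at h1; omega)]
  rfl

lemma e3_two_vals (h : g % 3 = 2) : e3 g 2 = 1 ∧ e3 g 4 = 1 ∧ e3 g 8 = e3 g 6 ∧
    e3 g 10 = e3 g 6 := by
  have c1 := choose_mod3 g 1
  have c2 := choose_mod3 g 2
  have c3 := choose_mod3 g 3
  have c4 := choose_mod3 g 4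
  have c5 := choose_mod3 g 5
  rw [h] at c1 c2 c3 c4 c5
  norm_num at c1 c2 c3 c4 c5
  have v2 : e3 g 2 = 1 := by
    rw [e3, if_pos (by decide)]
    have h3 : (-1 : ℤ) ^ (2 / 2) = -1 := by norm_num
    have h4 : 2 / 2 = 1 := by norm_num
    rw [h3, h4, bal_congr (y := 1) (by rw [Nat.choose_one_right]; omega)]
    rfl
  have v4 : e3 g 4 = 1 := by
    rw [e3, if_pos (by decide)]
    have h3 : (-1 : ℤ) ^ (4 / 2) = 1 := by norm_num
    have h4 : 4 / 2 = 2 := by norm_num
    rw [h3, h4, bal_congr (y := 1) (by omega)]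
    rfl
  have v6 : e3 g 6 = bal (-(g.choose 3 : ℤ)) := by
    rw [e3, if_pos (by decide)]
    have h3 : (-1 : ℤ) ^ (6 / 2) = -1 := by norm_num
    have h4 : 6 / 2 = 3 := by norm_num
    rw [h3, h4]
    ring_nf
  have v8 : e3 g 8 = bal (g.choose 4 : ℤ) := by
    rw [e3, if_pos (by decide)]
    have h3 : (-1 : ℤ) ^ (8 / 2) = 1 := by norm_num
    have h4 : 8 / 2 = 4 := by norm_num
    rw [h3, h4, one_mul]
  have v10 : e3 g 10 = bal (-(g.choose 5 : ℤ)) := by
    rw [e3, if_pos (by decide)]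
    have h3 : (-1 : ℤ) ^ (10 / 2) = -1 := by norm_num
    have h4 : 10 / 2 = 5 := by norm_num
    rw [h3, h4]
    ring_nf
  refine ⟨v2, v4, ?_, ?_⟩
  · rw [v8, v6]
    apply bal_congr
    omega
  · rw [v10, v6]
    apply bal_congr
    omega

lemma abs_e3_le (g i : ℕ) : |(e3 g i : ℝ)| ≤ if Even i then 1 else 0 := by
  split_ifs with h
  · rcases e3_cases g i with h' | h' | h' <;> rw [h'] <;> norm_num
  · rw [e3_odd g h]
    norm_num

lemma beta_bt_le (hmid : |mid| ≤ 18) (i : ℕ) :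
    |beta g (bt g f mid) i| ≤ (if Even i then 2 else 0) + (if i = f then 3 else 0) +
      (if i = g - 1 then 6 else 0) + (if i = g then 9 else 0) + (if i = 0 then 0 else 0) := by
  have h5 : (if i = 0 then (0 : ℝ) else 0) = 0 := by split_ifs <;> rfl
  rw [h5, add_zero]
  have h1 : (0 : ℝ) ≤ (if Even i then 2 else 0) := by split_ifs <;> norm_num
  have h2 : (0 : ℝ) ≤ (if i = f then 3 else 0) := by split_ifs <;> norm_num
  have h3 : (0 : ℝ) ≤ (if i = g - 1 then 6 else 0) := by split_ifs <;> norm_num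
  have h4 : (0 : ℝ) ≤ (if i = g then 9 else 0) := by split_ifs <;> norm_num
  rcases lt_trichotomy i g with h | h | h
  · rw [beta, if_pos h, bt, if_pos h]
    push_cast
    refine (abs_add_le _ _).trans ?_
    have k1 : |(if i ≤ f then 1 else -2 : ℝ) * (e3 g i : ℝ)| ≤ if Even i then 2 else 0 := by
      rw [abs_mul]
      have k2 : |(if i ≤ f then 1 else -2 : ℝ)| ≤ 2 := by split_ifs <;> norm_num
      have k3 := abs_e3_le g i
      refine (mul_le_mul k2 k3 (abs_nonneg _) (by norm_num)).trans (le_of_eq ?_)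
      split_ifs <;> norm_num
    have k4 : |(if e3 g i = 0 ∧ (i = f ∨ i = g - 1) then (if i ≤ f then 3 else 6) else 0 : ℝ)| ≤
        (if i = f then 3 else 0) + (if i = g - 1 then 6 else 0) := by
      by_cases c1 : e3 g i = 0 ∧ (i = f ∨ i = g - 1)
      · rw [if_pos c1]
        by_cases c2 : i = f
        · rw [if_pos (by omega), if_pos c2]
          norm_num
          linarith
        · have c3 : i = g - 1 := c1.2.resolve_left c2
          rw [if_neg c2, if_pos c3]
          split_ifs <;> norm_num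
      · rw [if_neg c1, abs_zero]
        linarith
    linarith
  · subst h
    rw [beta, if_neg (lt_irrefl i), if_pos rfl, bt_last, abs_div,
      abs_of_pos (by norm_num : (0 : ℝ) < 2)]
    have h6 : |(mid : ℝ)| ≤ 18 := by exact_mod_cast hmid
    rw [if_pos rfl] at h4 ⊢
    linarith
  · rw [beta_eq_zero h, abs_zero]
    linarith

lemma beta_bt_small (hg : 15 ≤ g) (hf : 10 ≤ f) (i : ℕ) (hi : i ≤ 9) :
    beta g (bt g f mid) i = e3 g i := by
  rw [beta, if_pos (by omega), bt, if_pos (by omega), if_pos (by omega), if_neg, one_mul, add_zero]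
  rintro ⟨-, h | h⟩ <;> omega

lemma beta_bt_ten (hg : 15 ≤ g) (hf : 10 ≤ f) :
    beta g (bt g f mid) 10 = e3 g 10 + (if e3 g 10 = 0 ∧ f = 10 then 3 else 0) := by
  rw [beta, if_pos (by omega), bt, if_pos (by omega), if_pos hf, one_mul, if_pos hf]
  have h1 : (e3 g 10 = 0 ∧ (10 = f ∨ 10 = g - 1)) ↔ (e3 g 10 = 0 ∧ f = 10) := by
    constructor
    · rintro ⟨h2, h | h⟩
      · exact ⟨h2, h.symm⟩
      · omega
    · rintro ⟨h2, h⟩
      exact ⟨h2, Or.inl h.symm⟩
  by_cases h : e3 g 10 = 0 ∧ f = 10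
  · rw [if_pos (h1.mpr h), if_pos h]
    push_cast
    rfl
  · rw [if_neg (fun h2 => h (h1.mp h2)), if_neg h]
    push_cast
    ring

lemma r_pows (r : ℝ) (h0 : 0 < r) (h2 : r ^ 2 = 1 / 2) (h1 : r ≤ 0.70711) (hg : 15 ≤ g)
    (hf : 10 ≤ f) : r ^ 6 = 1 / 8 ∧ r ^ 8 = 1 / 16 ∧ r ^ 10 = 1 / 32 ∧ r ^ f ≤ 1 / 32 ∧
      r ^ (g - 1) ≤ 1 / 128 ∧ r ^ g ≤ 0.0055244 := by
  have hle : r ≤ 1 := by linarith
  have e6 : r ^ 6 = 1 / 8 := by
    calc r ^ 6 = (r ^ 2) ^ 3 := by ring
      _ = 1 / 8 := by rw [h2]; norm_num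
  have e8 : r ^ 8 = 1 / 16 := by
    calc r ^ 8 = (r ^ 2) ^ 4 := by ring
      _ = 1 / 16 := by rw [h2]; norm_num
  have e10 : r ^ 10 = 1 / 32 := by
    calc r ^ 10 = (r ^ 2) ^ 5 := by ring
      _ = 1 / 32 := by rw [h2]; norm_num
  have e14 : r ^ 14 = 1 / 128 := by
    calc r ^ 14 = (r ^ 2) ^ 7 := by ring
      _ = 1 / 128 := by rw [h2]; norm_num
  have e15 : r ^ 15 = 1 / 128 * r := by
    calc r ^ 15 = (r ^ 2) ^ 7 * r := by ring
      _ = 1 / 128 * r := by rw [h2]; norm_num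
  have a1 : r ^ f ≤ r ^ 10 := pow_le_pow_of_le_one h0.le hle hf
  have a2 : r ^ (g - 1) ≤ r ^ 14 := pow_le_pow_of_le_one h0.le hle (by omega)
  have a3 : r ^ g ≤ r ^ 15 := pow_le_pow_of_le_one h0.le hle hg
  refine ⟨e6, e8, e10, by linarith, by linarith, by linarith⟩

/-- Location, `g` not two modulo three. -/
lemma loc_bt_plain (hg : 15 ≤ g) (hf : 10 ≤ f) (h3 : g % 3 ≠ 2) (hmid : |mid| ≤ 18) (z : ℂ)
    (hz : aeval z (wPoly (2 : ℕ) g (bt g f mid)) = 0) : ‖z‖ = √((2 : ℕ) : ℝ) ∧ z.im ≠ 0 := by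
  obtain ⟨h0, h2, h1⟩ := r2_facts
  apply loc_plain 2 (by norm_num) g (by omega) _ (bt_zero (by omega)) _ z hz
  set r := (√((2 : ℕ) : ℝ))⁻¹ with hr
  obtain ⟨p6, p8, p10, pf, pg1, pg⟩ := r_pows r h0 h2 h1 hg hf
  rw [sum_split _ (2 * 5) g (by omega)]
  have htail := tail_bound r (1 / 2) h0.le h2 (by norm_num) 5 (g - 2 * 5) f (g - 1) g 0 2 3 6 9 0
    (by norm_num) (by norm_num) (by norm_num) (by norm_num) le_rfl
    (fun i => |beta g (bt g f mid) i|) (fun i _ => beta_bt_le hmid i)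
  have hn : ¬ (2 * 5 < 0) := by norm_num
  rw [if_pos (by omega : 2 * 5 < g - 1), if_pos (by omega : 2 * 5 < g), if_neg hn] at htail
  have hpre : ∑ i ∈ range (2 * 5), |beta g (bt g f mid) (i + 1)| * r ^ (i + 1) ≤
      1 / 2 + 1 / 8 + 1 / 16 + (if f = 10 then 3 else 0) * (1 / 32) := by
    have hodd : ∀ i, i ≤ 9 → ¬ Even i → beta g (bt g f mid) i = 0 := by
      intro i hi ho
      rw [beta_bt_small hg hf i hi, e3_odd g ho]
      norm_num
    have b1 := hodd 1 (by norm_num) (by decide)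
    have b3 := hodd 3 (by norm_num) (by decide)
    have b5 := hodd 5 (by norm_num) (by decide)
    have b7 := hodd 7 (by norm_num) (by decide)
    have b9 := hodd 9 (by norm_num) (by decide)
    have b2 : |beta g (bt g f mid) 2| ≤ 1 := by
      rw [beta_bt_small hg hf 2 (by norm_num)]
      have := abs_e3_le g 2
      rwa [if_pos (by decide)] at this
    have b4 : beta g (bt g f mid) 4 = 0 := by
      rw [beta_bt_small hg hf 4 (by norm_num), e3_four h3]
      norm_num
    have b6 : |beta g (bt g f mid) 6| ≤ 1 := by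
      rw [beta_bt_small hg hf 6 (by norm_num)]
      have := abs_e3_le g 6
      rwa [if_pos (by decide)] at this
    have b8 : |beta g (bt g f mid) 8| ≤ 1 := by
      rw [beta_bt_small hg hf 8 (by norm_num)]
      have := abs_e3_le g 8
      rwa [if_pos (by decide)] at this
    have b10 : |beta g (bt g f mid) 10| ≤ if f = 10 then 3 else 0 := by
      rw [beta_bt_ten hg hf, e3_ten h3]
      by_cases h : f = 10
      · rw [if_pos ⟨rfl, h⟩, if_pos h]
        norm_num
      · rw [if_neg (fun h' => h h'.2), if_neg h]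
        norm_num
    simp only [show 2 * 5 = 10 from rfl, sum_range_succ, sum_range_zero, zero_add]
    norm_num only [b1, b3, b5, b7, b9, b4, abs_zero, zero_mul, add_zero, zero_add]
    rw [h2, p6, p8, p10]
    have k10 : |beta g (bt g f mid) 10| * (1 / 32) ≤ (if f = 10 then 3 else 0) * (1 / 32) := by
      apply mul_le_mul_of_nonneg_right b10
      norm_num
    linarith
  have hff : (if f = 10 then (3 : ℝ) else 0) * (1 / 32) + (if 2 * 5 < f then 3 * r ^ f else 0) ≤
      3 / 32 := by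
    by_cases h : f = 10
    · rw [if_pos h, if_neg (by omega)]
      norm_num
    · rw [if_neg h, if_pos (by omega)]
      linarith
  norm_num at htail hpre hff ⊢
  linarith

/-- Location, `g` two modulo three. -/
lemma loc_bt_mult (hg : 15 ≤ g) (hf : 10 ≤ f) (h3 : g % 3 = 2) (hmid : |mid| ≤ 18) (z : ℂ)
    (hz : aeval z (wPoly (2 : ℕ) g (bt g f mid)) = 0) : ‖z‖ = √((2 : ℕ) : ℝ) ∧ z.im ≠ 0 := by
  obtain ⟨h0, h2, h1⟩ := r2_facts
  apply loc_mult 2 (by norm_num) g (by omega) _ (bt_zero (by omega)) 2 (by norm_num) _ z hz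
  set r := (√((2 : ℕ) : ℝ))⁻¹ with hr
  obtain ⟨p6, p8, p10, pf, pg1, pg⟩ := r_pows r h0 h2 h1 hg hf
  obtain ⟨v2, v4, v8, v10⟩ := e3_two_vals h3
  set F : ℕ → ℝ := fun i => |beta g (bt g f mid) i| with hF
  rw [sum_split _ (2 * 5) (g + 2) (by omega)]
  have htail := tail_bound r (1 / 2) h0.le h2 (by norm_num) 5 (g + 2 - 2 * 5) f (g - 1) g 0
    2 3 6 9 0 (by norm_num) (by norm_num) (by norm_num) (by norm_num) le_rfl
    F (fun i _ => beta_bt_le hmid i)
  have htail2 := tail_bound r (1 / 2) h0.le h2 (by norm_num) 4 (g + 2 - 2 * 5) f (g - 1) g 0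
    2 3 6 9 0 (by norm_num) (by norm_num) (by norm_num) (by norm_num) le_rfl
    F (fun i _ => beta_bt_le hmid i)
  have hn : ¬ (2 * 5 < 0) := by norm_num
  have hn' : ¬ (2 * 4 < 0) := by norm_num
  rw [if_pos (by omega : 2 * 5 < g - 1), if_pos (by omega : 2 * 5 < g), if_neg hn] at htail
  rw [if_pos (by omega : 2 * 4 < f), if_pos (by omega : 2 * 4 < g - 1),
    if_pos (by omega : 2 * 4 < g), if_neg hn'] at htail2
  have hsplit : ∑ i ∈ range (g + 2 - 2 * 5), |beta g (bt g f mid) (2 * 5 + i + 1) -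
      (if 2 ≤ 2 * 5 + i + 1 then beta g (bt g f mid) (2 * 5 + i + 1 - 2) else 0)| *
      r ^ (2 * 5 + i + 1) ≤
      ∑ i ∈ range (g + 2 - 2 * 5), F (2 * 5 + i + 1) * r ^ (2 * 5 + i + 1) +
      (1 / 2) * ∑ i ∈ range (g + 2 - 2 * 5), F (2 * 4 + i + 1) * r ^ (2 * 4 + i + 1) := by
    rw [mul_sum, ← sum_add_distrib]
    apply sum_le_sum
    intro i _
    rw [if_pos (by omega)]
    have e1 : 2 * 5 + i + 1 - 2 = 2 * 4 + i + 1 := by omega
    have e2 : r ^ (2 * 5 + i + 1) = (1 / 2) * r ^ (2 * 4 + i + 1) := by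
      rw [← h2, ← pow_add]
      congr 1
      omega
    rw [e1]
    have e4 : (1 / 2) * (F (2 * 4 + i + 1) * r ^ (2 * 4 + i + 1)) =
        F (2 * 4 + i + 1) * r ^ (2 * 5 + i + 1) := by
      rw [e2]
      ring
    rw [e4, ← add_mul]
    apply mul_le_mul_of_nonneg_right _ (pow_nonneg h0.le _)
    exact abs_sub _ _
  have hpre : ∑ i ∈ range (2 * 5), |beta g (bt g f mid) (i + 1) -
      (if 2 ≤ i + 1 then beta g (bt g f mid) (i + 1 - 2) else 0)| * r ^ (i + 1) ≤
      2 * (1 / 8) + (if f = 10 then 3 else 0) * (1 / 32) := by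
    have hodd : ∀ i, i ≤ 9 → ¬ Even i → beta g (bt g f mid) i = 0 := by
      intro i hi ho
      rw [beta_bt_small hg hf i hi, e3_odd g ho]
      norm_num
    have b1 := hodd 1 (by norm_num) (by decide)
    have b3 := hodd 3 (by norm_num) (by decide)
    have b5 := hodd 5 (by norm_num) (by decide)
    have b7 := hodd 7 (by norm_num) (by decide)
    have b9 := hodd 9 (by norm_num) (by decide)
    have b0 : beta g (bt g f mid) 0 = 1 := by
      rw [beta_bt_small hg hf 0 (by norm_num), e3_zero]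
      norm_num
    have b2 : beta g (bt g f mid) 2 = 1 := by
      rw [beta_bt_small hg hf 2 (by norm_num), v2]
      norm_num
    have b4 : beta g (bt g f mid) 4 = 1 := by
      rw [beta_bt_small hg hf 4 (by norm_num), v4]
      norm_num
    have b6 : |beta g (bt g f mid) 6 - 1| ≤ 2 := by
      rw [beta_bt_small hg hf 6 (by norm_num)]
      rcases e3_cases g 6 with h | h | h <;> rw [h] <;> norm_num
    have b8 : beta g (bt g f mid) 8 = beta g (bt g f mid) 6 := by
      rw [beta_bt_small hg hf 8 (by norm_num), beta_bt_small hg hf 6 (by norm_num), v8]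
    have b10 : |beta g (bt g f mid) 10 - beta g (bt g f mid) 8| ≤ if f = 10 then 3 else 0 := by
      rw [beta_bt_ten hg hf, beta_bt_small hg hf 8 (by norm_num), v10, v8]
      by_cases h : f = 10
      · rw [if_pos h]
        split_ifs <;> norm_num
      · rw [if_neg (fun h' => h h'.2), if_neg h]
        norm_num
    have k6 : |beta g (bt g f mid) 6 - 1| * (1 / 8) ≤ 2 * (1 / 8) := by
      apply mul_le_mul_of_nonneg_right b6
      norm_num
    have k10 : |beta g (bt g f mid) 10 - beta g (bt g f mid) 8| * (1 / 32) ≤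
        (if f = 10 then 3 else 0) * (1 / 32) := by
      apply mul_le_mul_of_nonneg_right b10
      norm_num
    rw [b8] at k10
    simp only [show 2 * 5 = 10 from rfl, sum_range_succ, sum_range_zero, zero_add]
    norm_num only [b0, b1, b2, b3, b5, b7, b9, b4, b8, sub_self, abs_zero, zero_mul, add_zero,
      zero_add, if_true, if_false]
    rw [p6, p10]
    linarith
  have hff : (if f = 10 then (3 : ℝ) else 0) * (1 / 32) + (if 2 * 5 < f then 3 * r ^ f else 0) ≤
      3 / 32 := by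
    by_cases h : f = 10
    · rw [if_pos h, if_neg (by omega)]
      norm_num
    · rw [if_neg h, if_pos (by omega)]
      linarith
  norm_num at htail htail2 hpre hff hsplit ⊢
  linarith

theorem good_two_large (hg : 15 ≤ g) (hf : 10 ≤ f) (hfg : f ≤ g) : Good 2 g f := by
  apply good_bt (by omega) hfg
  intro mid hmid z hz
  by_cases h3 : g % 3 = 2
  · exact loc_bt_mult hg hf h3 hmid z hz
  · exact loc_bt_plain hg hf h3 hmid z hz

end

end Pool.Agent.MP_e32a7e_nt
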