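import Pool.Agent.Lib.MP_e32a7e_nt.Table2

/-!
# Table for the prime two
-/

namespace Pool.Agent.MP_e32a7e_nt

lemma good_2_2_2 : Good 2 2 2 :=
  good_of_chk 2 Nat.prime_two 2 2 [3, -2, 1] 2
    [-5, 2, 5] 2 Nat.prime_two 1 (-1)
    (by decide +kernel)

lemma good_2_3_0 : Good 2 3 0 :=
  good_of_chk 2 Nat.prime_two 3 0 [-2, 2, -2, 1] 4
    [-11, -1, 8, 11] 2 Nat.prime_two 0 2
    (by decide +kernel)

lemma good_2_3_2 : Good 2 3 2 :=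
  good_of_chkM 2 Nat.prime_two 3 2 [0, 1, -2, 1] 5
    [-14, -2, 10, 14] 3 Nat.prime_three (-1)
    (by decide +kernel)

lemma good_2_3_3 : Good 2 3 3 :=
  good_of_chk 2 Nat.prime_two 3 3 [-7, 5, -3, 1] 4
    [-11, 1, 9, 11] 2 Nat.prime_two 1 (-1)
    (by decide +kernel)

lemma good_2_4_0 : Good 2 4 0 :=
  good_of_chk 2 Nat.prime_two 4 0 [-2, 2, 0, -2, 1] 5
    [-14, -7, 5, 13, 14] 2 Nat.prime_two 0 4
    (by decide +kernel)

lemma good_2_4_2 : Good 2 4 2 :=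
  good_of_chkM 2 Nat.prime_two 4 2 [-10, 4, 1, -2, 1] 16
    [-45, -18, 17, 35, 45] 5 Nat.prime_five 1
    (by decide +kernel)

lemma good_2_4_3 : Good 2 4 3 :=
  good_of_chkM 2 Nat.prime_two 4 3 [0, -1, 3, -3, 1] 5
    [-14, -5, 7, 13, 14] 5 Nat.prime_five (-1)
    (by decide +kernel)

lemma good_2_4_4 : Good 2 4 4 :=
  good_of_chk 2 Nat.prime_two 4 4 [9, -4, 2, -2, 1] 4
    [-11, -5, 3, 10, 11] 2 Nat.prime_two 1 1
    (by decide +kernel)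

lemma good_2_5_0 : Good 2 5 0 :=
  good_of_chk 2 Nat.prime_two 5 0 [-42, 26, -14, 8, -4, 1] 50
    [-141, -68, 11, 98, 131, 141] 2 Nat.prime_two 0 2
    (by decide +kernel)

lemma good_2_5_2 : Good 2 5 2 :=
  good_of_chkM 2 Nat.prime_two 5 2 [-6, 6, -6, 5, -3, 1] 4
    [-11, -5, 1, 6, 10, 11] 7 (by norm_num : Nat.Prime 7) (-2)
    (by decide +kernel)

lemma good_2_5_3 : Good 2 5 3 :=
  good_of_chk 2 Nat.prime_two 5 3 [8, 0, -1, -1, -1, 1] 5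
    [-14, -10, -3, 6, 13, 14] 3 Nat.prime_three 2 (-1)
    (by decide +kernel)

lemma good_2_5_4 : Good 2 5 4 :=
  good_of_chk 2 Nat.prime_two 5 4 [0, 1, -3, 4, -3, 1] 5
    [-14, -8, 1, 9, 13, 14] 3 Nat.prime_three 0 1
    (by decide +kernel)

lemma good_2_5_5 : Good 2 5 5 :=
  good_of_chk 2 Nat.prime_two 5 5 [-41, 29, -20, 12, -5, 1] 5
    [-14, -5, 4, 11, 13, 14] 2 Nat.prime_two 1 (-1)
    (by decide +kernel)

lemma good_2_6_0 : Good 2 6 0 :=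
  good_of_chk 2 Nat.prime_two 6 0 [-22, 12, -2, -4, 6, -4, 1] 32
    [-90, -61, -11, 37, 74, 89, 90] 2 Nat.prime_two 0 (-1)
    (by decide +kernel)

lemma good_2_6_2 : Good 2 6 2 :=
  good_of_chkM 2 Nat.prime_two 6 2 [158, -106, 64, -34, 15, -5, 1] 5
    [-14, -5, 1, 5, 9, 13, 14] 5 Nat.prime_five 4
    (by decide +kernel)

lemma good_2_6_3 : Good 2 6 3 :=
  good_of_chk 2 Nat.prime_two 6 3 [4, -6, 6, -3, 3, -3, 1] 50
    [-141, -100, -42, 39, 111, 137, 141] 3 Nat.prime_three 0 1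
    (by decide +kernel)

lemma good_2_6_4 : Good 2 6 4 :=
  good_of_chk 2 Nat.prime_two 6 4 [-16, 0, 9, -1, -3, 0, 1] 4
    [-11, -10, -8, 0, 8, 10, 11] 3 Nat.prime_three 2 (-3)
    (by decide +kernel)

lemma good_2_6_5 : Good 2 6 5 :=
  good_of_chk 2 Nat.prime_two 6 5 [38, -27, 18, -11, 6, -3, 1] 5
    [-14, -8, -3, 3, 9, 13, 14] 3 Nat.prime_three 1 (-1)
    (by decide +kernel)

lemma good_2_6_6 : Good 2 6 6 :=
  good_of_chk 2 Nat.prime_two 6 6 [15, 0, -9, 2, 5, -4, 1] 5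
    [-14, -11, -1, 8, 12, 13, 14] 2 Nat.prime_two 1 1
    (by decide +kernel)

lemma good_2_7_0 : Good 2 7 0 :=
  good_of_chk 2 Nat.prime_two 7 0 [-2, 0, -2, 0, 0, 0, 0, 1] 5
    [-14, -12, -9, -3, 3, 8, 12, 14] 2 Nat.prime_two 0 (-1)
    (by decide +kernel)

lemma good_2_7_2 : Good 2 7 2 :=
  good_of_chk 2 Nat.prime_two 7 2 [6, 4, 0, 0, 0, -1, 0, 1] 5
    [-14, -12, -9, -3, 4, 10, 13, 14] 3 Nat.prime_three 0 1
    (by decide +kernel)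

lemma good_2_7_3 : Good 2 7 3 :=
  good_of_chk 2 Nat.prime_two 7 3 [0, -2, 6, 0, -3, -1, 0, 1] 50
    [-141, -118, -80, -49, 18, 99, 134, 141] 3 Nat.prime_three 0 1
    (by decide +kernel)

lemma good_2_7_4 : Good 2 7 4 :=
  good_of_chk 2 Nat.prime_two 7 4 [6, -2, 0, 3, 0, -1, 0, 1] 5
    [-14, -12, -9, -4, 4, 10, 13, 14] 3 Nat.prime_three 0 1
    (by decide +kernel)

lemma good_2_7_5 : Good 2 7 5 :=
  good_of_chk 2 Nat.prime_two 7 5 [-12, -2, 3, 0, 0, -1, 0, 1] 16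
    [-45, -41, -27, -11, 10, 30, 40, 45] 3 Nat.prime_three 0 (-1)
    (by decide +kernel)

lemma good_2_7_6 : Good 2 7 6 :=
  good_of_chk 2 Nat.prime_two 7 6 [6, 1, 0, 0, 0, -1, 0, 1] 5
    [-14, -12, -9, -3, 4, 10, 13, 14] 3 Nat.prime_three 0 1
    (by decide +kernel)

lemma good_2_7_7 : Good 2 7 7 :=
  good_of_chk 2 Nat.prime_two 7 7 [3, 1, 0, 0, 0, -1, 0, 1] 5
    [-14, -12, -9, -3, 4, 9, 13, 14] 3 Nat.prime_three 0 1
    (by decide +kernel)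

lemma good_2_8_2 : Good 2 8 2 :=
  good_of_chk 2 Nat.prime_two 8 2 [-2, 6, -2, 0, -2, 0, 1, 0, 1] 64
    [-181, -162, -116, -52, 3, 50, 116, 165, 181] 3 Nat.prime_three 0 1
    (by decide +kernel)

lemma good_2_8_3 : Good 2 8 3 :=
  good_of_chk 2 Nat.prime_two 8 3 [4, 0, 4, 0, -2, -3, 1, 0, 1] 5
    [-14, -12, -8, -3, -2, 3, 10, 13, 14] 3 Nat.prime_three 0 1
    (by decide +kernel)

lemma good_2_8_4 : Good 2 8 4 :=
  good_of_chk 2 Nat.prime_two 8 4 [-8, 6, -2, 0, 1, 0, 1, 0, 1] 16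
    [-45, -38, -29, -17, 1, 16, 30, 41, 45] 3 Nat.prime_three 0 1
    (by decide +kernel)

lemma good_2_8_5 : Good 2 8 5 :=
  good_of_chk 2 Nat.prime_two 8 5 [4, 0, 4, 3, 1, 0, 1, 0, 1] 4
    [-11, -10, -7, -4, 0, 4, 8, 10, 11] 3 Nat.prime_three 0 1
    (by decide +kernel)

lemma good_2_8_6 : Good 2 8 6 :=
  good_of_chk 2 Nat.prime_two 8 6 [4, -6, 1, 0, 1, 0, 1, 0, 1] 5
    [-14, -12, -9, -5, 0, 5, 9, 12, 14] 3 Nat.prime_three 0 1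
    (by decide +kernel)

lemma good_2_8_7 : Good 2 8 7 :=
  good_of_chk 2 Nat.prime_two 8 7 [4, -3, 1, 0, 1, 0, 1, 0, 1] 5
    [-14, -12, -9, -4, 0, 5, 10, 13, 14] 3 Nat.prime_three 0 1
    (by decide +kernel)

lemma good_2_8_8 : Good 2 8 8 :=
  good_of_chk 2 Nat.prime_two 8 8 [-1, 2, 0, 0, 0, 0, 0, 0, 1] 5
    [-14, -12, -10, -5, 0, 5, 10, 13, 14] 2 Nat.prime_two 1 1
    (by decide +kernel)

lemma good_2_9_2 : Good 2 9 2 :=
  good_of_chk 2 Nat.prime_two 9 2 [-2, 0, 0, 6, 0, 6, 0, 3, 0, 1] 4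
    [-11, -9, -7, -5, -1, 2, 5, 8, 10, 11] 3 Nat.prime_three 2 1
    (by decide +kernel)

lemma good_2_9_3 : Good 2 9 3 :=
  good_of_chk 2 Nat.prime_two 9 3 [14, -6, 6, 0, 0, 0, -3, 0, 0, 1] 16
    [-45, -39, -31, -24, -12, 5, 22, 37, 44, 45] 3 Nat.prime_three 1 (-1)
    (by decide +kernel)

lemma good_2_9_4 : Good 2 9 4 :=
  good_of_chk 2 Nat.prime_two 9 4 [2, 0, 0, 0, 0, 3, 0, 0, 0, 1] 5
    [-14, -12, -10, -7, -3, 3, 8, 11, 13, 14] 3 Nat.prime_three 1 1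
    (by decide +kernel)

lemma good_2_9_5 : Good 2 9 5 :=
  good_of_chk 2 Nat.prime_two 9 5 [0, 0, 0, 0, 3, 0, 0, 0, 0, 1] 16
    [-45, -42, -33, -21, -8, 7, 24, 35, 42, 45] 3 Nat.prime_three 0 1
    (by decide +kernel)

lemma good_2_9_6 : Good 2 9 6 :=
  good_of_chk 2 Nat.prime_two 9 6 [4, -6, 0, 3, 0, 0, 0, 0, 0, 1] 5
    [-14, -12, -10, -7, -2, 2, 7, 11, 13, 14] 3 Nat.prime_three 2 1
    (by decide +kernel)

lemma good_2_9_7 : Good 2 9 7 :=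
  good_of_chk 2 Nat.prime_two 9 7 [0, 0, 3, 0, 0, 0, 0, 0, 0, 1] 5
    [-14, -13, -11, -7, -2, 3, 7, 11, 13, 14] 3 Nat.prime_three 0 1
    (by decide +kernel)

lemma good_2_9_8 : Good 2 9 8 :=
  good_of_chk 2 Nat.prime_two 9 8 [2, -3, 0, 0, 0, 0, 0, 0, 0, 1] 5
    [-14, -13, -11, -7, -2, 2, 7, 11, 13, 14] 3 Nat.prime_three 1 (-1)
    (by decide +kernel)

lemma good_2_9_9 : Good 2 9 9 :=
  good_of_chk 2 Nat.prime_two 9 9 [3, 3, 0, 0, 0, 0, 0, 0, 0, 1] 5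
    [-14, -13, -11, -7, -2, 3, 7, 11, 13, 14] 3 Nat.prime_three 0 (-1)
    (by decide +kernel)

lemma good_2_10_3 : Good 2 10 3 :=
  good_of_chk 2 Nat.prime_two 10 3 [6, 12, 6, 0, 6, 0, 0, 3, -1, 0, 1] 50
    [-141, -138, -124, -87, -37, 10, 52, 87, 113, 130, 141] 3 Nat.prime_three 0 1
    (by decide +kernel)

lemma good_2_10_4 : Good 2 10 4 :=
  good_of_chk 2 Nat.prime_two 10 4 [6, 0, 0, 6, 0, 0, 3, 0, -1, 0, 1] 5
    [-14, -13, -11, -9, -5, 0, 5, 10, 12, 13, 14] 3 Nat.prime_three 0 1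
    (by decide +kernel)

lemma good_2_10_5 : Good 2 10 5 :=
  good_of_chk 2 Nat.prime_two 10 5 [-2, -10, 0, 0, 0, 1, 0, 0, 0, 0, 1] 16
    [-45, -43, -36, -25, -14, 0, 14, 27, 37, 42, 45] 5 Nat.prime_five 2 (-3)
    (by decide +kernel)

lemma good_2_10_6 : Good 2 10 6 :=
  good_of_chk 2 Nat.prime_two 10 6 [8, 0, 0, 0, -5, 1, 0, 0, 0, 0, 1] 50
    [-141, -134, -109, -79, -48, -1, 49, 82, 110, 134, 141] 5 Nat.prime_five 2 (-1)
    (by decide +kernel)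

lemma good_2_10_7 : Good 2 10 7 :=
  good_of_chk 2 Nat.prime_two 10 7 [4, 0, 0, 5, 0, 0, 0, 0, 0, 0, 1] 16
    [-45, -42, -35, -26, -14, 1, 14, 26, 37, 43, 45] 5 Nat.prime_five 0 (-3)
    (by decide +kernel)

lemma good_2_10_8 : Good 2 10 8 :=
  good_of_chk 2 Nat.prime_two 10 8 [0, 0, 5, 0, 0, 2, 0, 0, 0, 0, 1] 5
    [-14, -13, -11, -7, -4, 0, 5, 9, 12, 13, 14] 5 Nat.prime_five 4 4
    (by decide +kernel)

lemma good_2_10_9 : Good 2 10 9 :=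
  good_of_chk 2 Nat.prime_two 10 9 [4, 5, 0, 0, 0, 0, 0, 0, 0, 0, 1] 16
    [-45, -42, -36, -26, -13, 0, 14, 27, 36, 43, 45] 5 Nat.prime_five 0 (-1)
    (by decide +kernel)

lemma good_2_10_10 : Good 2 10 10 :=
  good_of_chk 2 Nat.prime_two 10 10 [3, -5, 0, 0, 0, 1, 0, 0, 0, 0, 1] 5
    [-14, -13, -11, -8, -4, 0, 5, 9, 12, 13, 14] 5 Nat.prime_five 2 1
    (by decide +kernel)

lemma good_2_11_3 : Good 2 11 3 :=
  good_of_chk 2 Nat.prime_two 11 3 [-4, -4, -2, 0, 0, 6, 0, -2, 1, -1, -1, 1] 16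
    [-45, -43, -38, -29, -16, -2, 9, 20, 33, 42, 44, 45] 3 Nat.prime_three 2 (-1)
    (by decide +kernel)

lemma good_2_11_4 : Good 2 11 4 :=
  good_of_chk 2 Nat.prime_two 11 4 [6, 0, 0, 0, 0, 0, 0, 1, 0, 1, 0, 1] 5
    [-14, -13, -11, -9, -6, -2, 2, 6, 9, 12, 13, 14] 3 Nat.prime_three 0 1
    (by decide +kernel)

lemma good_2_11_5 : Good 2 11 5 :=
  good_of_chk 2 Nat.prime_two 11 5 [0, 0, 0, 0, 0, 0, -3, 1, 0, 1, 0, 1] 16
    [-45, -42, -36, -29, -19, -5, 8, 17, 27, 37, 43, 45] 3 Nat.prime_three 0 (-1)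
    (by decide +kernel)

lemma good_2_11_6 : Good 2 11 6 :=
  good_of_chk 2 Nat.prime_two 11 6 [6, 0, 0, 0, 0, 3, 0, 1, 0, 1, 0, 1] 5
    [-14, -13, -11, -9, -5, -1, 2, 6, 9, 12, 13, 14] 3 Nat.prime_three 0 1
    (by decide +kernel)

lemma good_2_11_7 : Good 2 11 7 :=
  good_of_chk 2 Nat.prime_two 11 7 [0, 0, 0, 0, -3, 0, 0, 1, 0, 1, 0, 1] 5
    [-14, -13, -11, -9, -5, -2, 2, 6, 9, 11, 13, 14] 3 Nat.prime_three 0 (-1)
    (by decide +kernel)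

lemma good_2_11_8 : Good 2 11 8 :=
  good_of_chk 2 Nat.prime_two 11 8 [-2, 0, 0, 11, 0, 0, 0, 0, 0, 0, 0, 1] 10
    [-28, -27, -24, -17, -11, -5, 5, 12, 18, 24, 27, 28] 11 (by norm_num : Nat.Prime 11) 2 (-1)
    (by decide +kernel)

lemma good_2_11_9 : Good 2 11 9 :=
  good_of_chk 2 Nat.prime_two 11 9 [0, 0, 11, 0, 0, 0, 0, 0, 0, 0, 0, 1] 50
    [-141, -133, -117, -93, -56, -20, 19, 60, 91, 119, 135, 141] 11 (by norm_num : Nat.Prime 11) 0 3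
    (by decide +kernel)

lemma good_2_11_10 : Good 2 11 10 :=
  good_of_chk 2 Nat.prime_two 11 10 [2, -11, 0, 0, 0, 0, 0, 0, 0, 0, 0, 1] 16
    [-45, -42, -37, -29, -18, -6, 7, 19, 29, 38, 43, 45] 11 (by norm_num : Nat.Prime 11) 9 (-1)
    (by decide +kernel)

lemma good_2_11_11 : Good 2 11 11 :=
  good_of_chk 2 Nat.prime_two 11 11 [-3, 11, 0, 0, 0, 0, 0, 0, 0, 0, 0, 1] 10
    [-28, -27, -23, -18, -11, -4, 4, 12, 18, 24, 27, 28] 11 (by norm_num : Nat.Prime 11) 3 (-1)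
    (by decide +kernel)

lemma good_2_12_3 : Good 2 12 3 :=
  good_of_chk 2 Nat.prime_two 12 3 [-2, -6, 0, 2, 0, 0, 2, 0, 0, -1, 0, 0, 1] 16
    [-45, -43, -38, -32, -22, -11, -1, 10, 22, 33, 40, 43, 45] 3 Nat.prime_three 1 3
    (by decide +kernel)

lemma good_2_12_4 : Good 2 12 4 :=
  good_of_chk 2 Nat.prime_two 12 4 [-6, -6, 0, 0, 0, 0, 2, 0, 3, 0, 0, 0, 1] 5
    [-14, -13, -11, -10, -7, -3, 0, 4, 8, 11, 12, 13, 14] 3 Nat.prime_three 0 1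
    (by decide +kernel)

lemma good_2_12_5 : Good 2 12 5 :=
  good_of_chk 2 Nat.prime_two 12 5 [6, 0, 0, 0, 0, 0, 2, 3, 0, 0, 0, 0, 1] 16
    [-45, -43, -39, -31, -21, -11, -1, 11, 24, 33, 39, 43, 45] 3 Nat.prime_three 0 (-1)
    (by decide +kernel)

lemma good_2_12_6 : Good 2 12 6 :=
  good_of_chk 2 Nat.prime_two 12 6 [6, -6, 0, 0, 0, 0, -1, 0, 0, 0, 0, 0, 1] 16
    [-45, -43, -39, -31, -22, -12, 0, 12, 23, 32, 39, 43, 45] 3 Nat.prime_three 0 1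
    (by decide +kernel)

lemma good_2_12_7 : Good 2 12 7 :=
  good_of_chk 2 Nat.prime_two 12 7 [6, 0, 0, 0, 0, -3, -1, 0, 0, 0, 0, 0, 1] 16
    [-45, -43, -39, -32, -22, -12, -1, 12, 23, 32, 39, 44, 45] 3 Nat.prime_three 0 1
    (by decide +kernel)

lemma good_2_12_8 : Good 2 12 8 :=
  good_of_chk 2 Nat.prime_two 12 8 [0, 6, 0, 0, 3, 0, -1, 0, 0, 0, 0, 0, 1] 16
    [-45, -43, -39, -31, -22, -12, 0, 12, 23, 32, 39, 44, 45] 3 Nat.prime_three 0 1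
    (by decide +kernel)

lemma good_2_12_9 : Good 2 12 9 :=
  good_of_chk 2 Nat.prime_two 12 9 [6, 6, 0, -3, 0, 0, -1, 0, 0, 0, 0, 0, 1] 16
    [-45, -43, -38, -31, -22, -12, 0, 12, 23, 32, 39, 44, 45] 3 Nat.prime_three 0 1
    (by decide +kernel)

lemma good_2_12_10 : Good 2 12 10 :=
  good_of_chk 2 Nat.prime_two 12 10 [0, 6, 3, 0, 0, 0, -1, 0, 0, 0, 0, 0, 1] 16
    [-45, -43, -38, -31, -22, -12, 0, 12, 23, 32, 39, 44, 45] 3 Nat.prime_three 0 1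
    (by decide +kernel)

lemma good_2_12_11 : Good 2 12 11 :=
  good_of_chk 2 Nat.prime_two 12 11 [6, -3, 0, 0, 0, 0, -1, 0, 0, 0, 0, 0, 1] 16
    [-45, -43, -39, -31, -22, -12, 0, 12, 23, 32, 39, 43, 45] 3 Nat.prime_three 0 1
    (by decide +kernel)

lemma good_2_12_12 : Good 2 12 12 :=
  good_of_chk 2 Nat.prime_two 12 12 [3, -3, 0, 0, 0, 0, -1, 0, 0, 0, 0, 0, 1] 16
    [-45, -43, -39, -31, -22, -12, 0, 12, 23, 32, 39, 43, 45] 3 Nat.prime_three 0 (-3)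
    (by decide +kernel)

lemma good_2_13_3 : Good 2 13 3 :=
  good_of_chk 2 Nat.prime_two 13 3 [-6, 0, 0, 0, 0, -8, 0, 2, -6, 0, 3, -1, 0, 1] 64
    [-181, -176, -166, -148, -112, -62, -6, 42, 74, 98, 126, 157, 176, 181] 3 Nat.prime_three 0 1
    (by decide +kernel)

lemma good_2_13_4 : Good 2 13 4 :=
  good_of_chk 2 Nat.prime_two 13 4 [-6, 0, 0, 0, 0, 4, 0, -4, 0, 3, 0, -1, 0, 1] 16
    [-45, -43, -40, -34, -27, -19, -6, 7, 19, 28, 34, 40, 44, 45] 3 Nat.prime_three 0 (-1)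
    (by decide +kernel)

lemma good_2_13_5 : Good 2 13 5 :=
  good_of_chk 2 Nat.prime_two 13 5 [0, 12, 0, 0, 0, -2, 0, 2, 3, 0, 0, -1, 0, 1] 50
    [-141, -138, -127, -107, -81, -50, -19, 14, 51, 87, 112, 125, 135, 141] 3 Nat.prime_three 0 1
    (by decide +kernel)

lemma good_2_13_6 : Good 2 13 6 :=
  good_of_chk 2 Nat.prime_two 13 6 [6, 0, 0, 0, 0, 4, 0, -1, 0, 0, 0, -1, 0, 1] 16
    [-45, -43, -40, -34, -26, -17, -6, 6, 17, 26, 35, 41, 44, 45] 3 Nat.prime_three 0 1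
    (by decide +kernel)

lemma good_2_13_7 : Good 2 13 7 :=
  good_of_chk 2 Nat.prime_two 13 7 [0, 0, 0, 0, 0, 4, 3, -1, 0, 0, 0, -1, 0, 1] 50
    [-141, -137, -126, -107, -83, -54, -18, 20, 52, 81, 110, 128, 137, 141] 3 Nat.prime_three 0 1
    (by decide +kernel)

lemma good_2_13_8 : Good 2 13 8 :=
  good_of_chk 2 Nat.prime_two 13 8 [6, 0, 0, 0, 0, 1, 0, -1, 0, 0, 0, -1, 0, 1] 50
    [-141, -137, -127, -108, -83, -53, -18, 19, 53, 83, 108, 127, 138, 141] 3 Nat.prime_three 0 1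
    (by decide +kernel)

lemma good_2_13_9 : Good 2 13 9 :=
  good_of_chk 2 Nat.prime_two 13 9 [0, 0, 0, 0, 13, 0, 0, 0, 0, 0, 0, 0, 0, 1] 64
    [-181, -174, -156, -135, -104, -60, -23, 20, 68, 101, 134, 161, 174, 181] 13 (by norm_num : Nat.Prime 13) 0 1
    (by decide +kernel)

lemma good_2_13_10 : Good 2 13 10 :=
  good_of_chk 2 Nat.prime_two 13 10 [2, 0, 0, -13, 0, 0, 0, 0, 0, 0, 0, 0, 0, 1] 50
    [-141, -136, -123, -106, -79, -49, -18, 19, 50, 79, 106, 124, 136, 141] 13 (by norm_num : Nat.Prime 13) 11 1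
    (by decide +kernel)

lemma good_2_13_11 : Good 2 13 11 :=
  good_of_chk 2 Nat.prime_two 13 11 [0, 0, 13, 0, 0, 0, 0, 0, 0, 0, 0, 0, 0, 1] 50
    [-141, -136, -124, -106, -79, -50, -16, 18, 50, 81, 105, 125, 137, 141] 13 (by norm_num : Nat.Prime 13) 0 (-3)
    (by decide +kernel)

lemma good_2_13_12 : Good 2 13 12 :=
  good_of_chk 2 Nat.prime_two 13 12 [-2, 13, 0, 0, 0, 0, 0, 0, 0, 0, 0, 0, 0, 1] 16
    [-45, -43, -39, -33, -25, -16, -5, 6, 16, 26, 34, 40, 44, 45] 13 (by norm_num : Nat.Prime 13) 2 1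
    (by decide +kernel)

lemma good_2_13_13 : Good 2 13 13 :=
  good_of_chk 2 Nat.prime_two 13 13 [-3, 13, 0, 0, 0, 0, 0, 0, 0, 0, 0, 0, 0, 1] 16
    [-45, -43, -39, -33, -25, -16, -5, 6, 16, 26, 34, 40, 44, 45] 13 (by norm_num : Nat.Prime 13) 3 2
    (by decide +kernel)

lemma good_2_14_3 : Good 2 14 3 :=
  good_of_chk 2 Nat.prime_two 14 3 [-6, 0, 0, 0, 2, 0, 2, 6, 2, 0, -2, -3, 1, 0, 1] 16
    [-45, -43, -39, -32, -23, -16, -11, -5, 5, 17, 28, 37, 42, 44, 45] 3 Nat.prime_three 0 1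
    (by decide +kernel)

lemma good_2_14_4 : Good 2 14 4 :=
  good_of_chk 2 Nat.prime_two 14 4 [6, 6, 0, 0, 2, 0, 2, 0, 2, 0, 1, 0, 1, 0, 1] 16
    [-45, -43, -39, -34, -27, -19, -9, 0, 10, 19, 27, 35, 40, 44, 45] 3 Nat.prime_three 0 1
    (by decide +kernel)

lemma good_2_14_5 : Good 2 14 5 :=
  good_of_chk 2 Nat.prime_two 14 5 [0, 0, -12, 0, 2, 0, 2, 0, 2, 3, 1, 0, 1, 0, 1] 16
    [-45, -43, -40, -34, -25, -17, -10, -2, 9, 20, 29, 35, 39, 43, 45] 3 Nat.prime_three 0 3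
    (by decide +kernel)

lemma good_2_14_6 : Good 2 14 6 :=
  good_of_chk 2 Nat.prime_two 14 6 [-6, -6, 0, 0, 2, 0, 2, 0, -1, 0, 1, 0, 1, 0, 1] 16
    [-45, -43, -40, -34, -26, -19, -10, 0, 11, 19, 27, 34, 40, 44, 45] 3 Nat.prime_three 0 1
    (by decide +kernel)

lemma good_2_14_7 : Good 2 14 7 :=
  good_of_chk 2 Nat.prime_two 14 7 [6, 14, 0, 0, 0, 0, 0, -1, 0, 0, 0, 0, 0, 0, 1] 16
    [-45, -43, -40, -35, -28, -19, -10, 0, 10, 20, 28, 35, 40, 44, 45] 7 (by norm_num : Nat.Prime 7) 4 (-1)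
    (by decide +kernel)

lemma good_2_14_8 : Good 2 14 8 :=
  good_of_chk 2 Nat.prime_two 14 8 [6, 0, 0, 0, 0, 0, -7, -1, 0, 0, 0, 0, 0, 0, 1] 50
    [-141, -137, -125, -109, -89, -61, -28, 0, 29, 63, 90, 109, 126, 138, 141] 7 (by norm_num : Nat.Prime 7) 4 4
    (by decide +kernel)

lemma good_2_14_9 : Good 2 14 9 :=
  good_of_chk 2 Nat.prime_two 14 9 [4, 0, 0, 0, 0, 7, 0, 0, 0, 0, 0, 0, 0, 0, 1] 50
    [-141, -137, -125, -109, -88, -59, -30, -1, 32, 62, 87, 110, 128, 137, 141] 7 (by norm_num : Nat.Prime 7) 0 1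
    (by decide +kernel)

lemma good_2_14_10 : Good 2 14 10 :=
  good_of_chk 2 Nat.prime_two 14 10 [6, 0, 0, 0, -7, 0, 0, 1, 0, 0, 0, 0, 0, 0, 1] 50
    [-141, -137, -126, -110, -88, -61, -32, 1, 32, 60, 88, 111, 127, 137, 141] 7 (by norm_num : Nat.Prime 7) 3 (-1)
    (by decide +kernel)

lemma good_2_14_11 : Good 2 14 11 :=
  good_of_chk 2 Nat.prime_two 14 11 [4, 0, 0, 7, 0, 0, 0, 0, 0, 0, 0, 0, 0, 0, 1] 50
    [-141, -137, -126, -110, -87, -61, -32, 1, 31, 61, 88, 110, 127, 137, 141] 7 (by norm_num : Nat.Prime 7) 0 (-1)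
    (by decide +kernel)

lemma good_2_14_12 : Good 2 14 12 :=
  good_of_chk 2 Nat.prime_two 14 12 [6, 0, -7, 0, 0, 0, 0, 1, 0, 0, 0, 0, 0, 0, 1] 50
    [-141, -137, -126, -109, -87, -62, -31, 1, 32, 61, 88, 111, 127, 137, 141] 7 (by norm_num : Nat.Prime 7) 3 1
    (by decide +kernel)

lemma good_2_14_13 : Good 2 14 13 :=
  good_of_chk 2 Nat.prime_two 14 13 [4, 7, 0, 0, 0, 0, 0, 0, 0, 0, 0, 0, 0, 0, 1] 16
    [-45, -43, -40, -35, -28, -19, -10, 0, 10, 20, 28, 36, 41, 44, 45] 7 (by norm_num : Nat.Prime 7) 0 (-1)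
    (by decide +kernel)

lemma good_2_14_14 : Good 2 14 14 :=
  good_of_chk 2 Nat.prime_two 14 14 [-17, 7, 0, 0, 0, 0, 0, 0, 0, 0, 0, 0, 0, 0, 1] 50
    [-141, -137, -127, -110, -88, -61, -31, 0, 32, 61, 88, 110, 127, 137, 141] 7 (by norm_num : Nat.Prime 7) 0 4
    (by decide +kernel)

end Pool.Agent.MP_e32a7e_nt
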