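import Pool.Agent.Lib.MP_e32a7e_nt.RankZero
import Pool.Agent.Lib.MP_e32a7e_nt.TwoTable

/-!
# The prime two, `p`-rank zero
-/

open Polynomial Finset

namespace Pool.Agent.MP_e32a7e_nt

lemma r2_facts : 0 < ((√((2 : ℕ) : ℝ))⁻¹) ∧ ((√((2 : ℕ) : ℝ))⁻¹) ^ 2 = 1 / 2 ∧
    ((√((2 : ℕ) : ℝ))⁻¹) ≤ 0.70711 := by
  have h1 : 0 < √((2 : ℕ) : ℝ) := Real.sqrt_pos.mpr (by norm_num)
  have h2 : ((√((2 : ℕ) : ℝ))⁻¹) ^ 2 = 1 / 2 := by
    rw [inv_pow, Real.sq_sqrt (by norm_num)]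
    norm_num
  have h3 : 0 < ((√((2 : ℕ) : ℝ))⁻¹) := inv_pos.mpr h1
  refine ⟨h3, h2, ?_⟩
  nlinarith

lemma exists_mid_zero (R : ℤ) : ∃ c : ℤ, (c = 2 ∨ c = 6 ∨ c = 10 ∨ c = 14 ∨ c = 18 ∨ c = -2 ∨
    c = -6 ∨ c = -10 ∨ c = -14) ∧ (R + c) % 9 = 6 := by
  have h : R % 9 = 0 ∨ R % 9 = 1 ∨ R % 9 = 2 ∨ R % 9 = 3 ∨ R % 9 = 4 ∨ R % 9 = 5 ∨ R % 9 = 6 ∨
    R % 9 = 7 ∨ R % 9 = 8 := by omega
  rcases h with h | h | h | h | h | h | h | h | h
  · exact ⟨6, by norm_num, by omega⟩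
  · exact ⟨14, by norm_num, by omega⟩
  · exact ⟨-14, by norm_num, by omega⟩
  · exact ⟨-6, by norm_num, by omega⟩
  · exact ⟨2, by norm_num, by omega⟩
  · exact ⟨10, by norm_num, by omega⟩
  · exact ⟨18, by norm_num, by omega⟩
  · exact ⟨-10, by norm_num, by omega⟩
  · exact ⟨-2, by norm_num, by omega⟩

lemma good_two_zero_large (g : ℕ) (hg : 8 ≤ g) : Good 2 g 0 := by
  obtain ⟨c, hc, hN⟩ := exists_mid_zero (1 + (2 : ℤ) ^ g + 2 * (1 + 2))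
  obtain ⟨h0, h2, h1⟩ := r2_facts
  have habs : |(c : ℝ)| ≤ 18 := by
    rcases hc with h | h | h | h | h | h | h | h | h <;> rw [h] <;> norm_num
  have hc2 : (2 : ℤ) ∣ c := by
    rcases hc with h | h | h | h | h | h | h | h | h <;> rw [h] <;> norm_num
  have hc4 : ¬ (4 : ℤ) ∣ c := by
    rcases hc with h | h | h | h | h | h | h | h | h <;> rw [h] <;> norm_num
  apply good_zero_of 2 Nat.prime_two g (by omega) 2 c (by norm_num) (by norm_num)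
    (by exact_mod_cast hc2) _ (Or.inr (by exact_mod_cast hN))
  · set r := (√((2 : ℕ) : ℝ))⁻¹ with hr
    have hle : r ≤ 1 := by linarith
    have h7 : r ^ (g - 1) ≤ r ^ 7 := pow_le_pow_of_le_one h0.le hle (by omega)
    have h8 : r ^ g ≤ r ^ 8 := pow_le_pow_of_le_one h0.le hle (by omega)
    have e8 : r ^ 8 = 1 / 16 := by
      calc r ^ 8 = (r ^ 2) ^ 4 := by ring
        _ = 1 / 16 := by rw [h2]; norm_num
    have e7 : r ^ 7 = 1 / 8 * r := by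
      calc r ^ 7 = (r ^ 2) ^ 3 * r := by ring
        _ = 1 / 8 * r := by rw [h2]; norm_num
    have h9 : |(c : ℝ)| / 2 * r ^ g ≤ 18 / 2 * (1 / 16) := by
      rw [← e8]
      gcongr
    have h10 : |((2 : ℤ) : ℝ)| * r ^ (g - 1) ≤ 2 * (1 / 8 * 0.70711) := by
      have : |((2 : ℤ) : ℝ)| = 2 := by norm_num
      rw [this]
      calc 2 * r ^ (g - 1) ≤ 2 * r ^ 7 := by linarith
        _ = 2 * (1 / 8 * r) := by rw [e7]
        _ ≤ 2 * (1 / 8 * 0.70711) := by linarith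
    norm_num at h9 h10 ⊢
    linarith
  · intro h
    apply hc4
    exact_mod_cast h

lemma good_two_zero (g : ℕ) (hg : 3 ≤ g) : Good 2 g 0 := by
  rcases (by omega : g = 3 ∨ g = 4 ∨ g = 5 ∨ g = 6 ∨ g = 7 ∨ 8 ≤ g) with
    h | h | h | h | h | h
  · subst h; exact good_2_3_0
  · subst h; exact good_2_4_0
  · subst h; exact good_2_5_0
  · subst h; exact good_2_6_0
  · subst h; exact good_2_7_0
  · exact good_two_zero_large g h

end Pool.Agent.MP_e32a7e_nt
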