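import Pool.Agent.Lib.MP_e32a7e_nt.TLemma
import Pool.Agent.Lib.MP_e32a7e_nt.TwoZero

/-!
# The prime two, `p`-rank between three and nine
-/

open Polynomial Finset

namespace Pool.Agent.MP_e32a7e_nt

lemma dPoly_mul (p : ℤ) (b k : ℕ) :
    dPoly p (b + k) * dPoly p b = dPoly p (2 * b + k) + C (p ^ b) * dPoly p k := by
  induction b using Nat.strong_induction_on generalizing k with
  | _ b ih =>
    match b with
    | 0 =>
      rw [dPoly_zero, pow_zero, C_1]
      simp only [mul_zero, zero_add]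
      ring
    | 1 =>
      rw [dPoly_one, pow_one]
      have e1 : 1 + k = k + 1 := by omega
      have e2 : 2 * 1 + k = k + 2 := by omega
      rw [e1, e2, dPoly_add_two]
      ring
    | (b + 2) =>
      have h1 := ih (b + 1) (by omega) (k + 1)
      have h0 := ih b (by omega) (k + 2)
      have e1 : b + 1 + (k + 1) = b + 2 + k := by omega
      have e0 : b + (k + 2) = b + 2 + k := by omega
      rw [e1] at h1
      rw [e0] at h0
      have e2 : 2 * (b + 1) + (k + 1) = (2 * b + k + 2) + 1 := by omega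
      have e3 : 2 * b + (k + 2) = 2 * b + k + 2 := by omega
      have e4 : 2 * (b + 2) + k = (2 * b + k + 2) + 2 := by omega
      rw [e2] at h1
      rw [e3] at h0
      rw [e4, dPoly_add_two p b, mul_sub, dPoly_add_two p (2 * b + k + 2)]
      have h5 : dPoly p (b + 2 + k) * (X * dPoly p (b + 1)) =
          X * (dPoly p (b + 2 + k) * dPoly p (b + 1)) := by ring
      have h6 : dPoly p (b + 2 + k) * (C p * dPoly p b) =
          C p * (dPoly p (b + 2 + k) * dPoly p b) := by ring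
      rw [h5, h6, h1, h0, dPoly_add_two p k]
      simp only [C_mul, C_pow, pow_succ]
      ring

lemma dPoly_eval_three (n : ℕ) : (dPoly 2 n).eval 3 = 1 + 2 ^ n := by
  induction n using Nat.strong_induction_on with
  | _ n ih =>
    match n with
    | 0 => rw [dPoly_zero]; simp
    | 1 => rw [dPoly_one]; simp
    | (m + 2) =>
      rw [dPoly_add_two, eval_sub, eval_mul, eval_mul, ih (m + 1) (by omega), ih m (by omega)]
      simp only [eval_X, eval_C]
      ring

/-- The values of `D_n` at the zeros of the real polynomial. -/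
lemma dPoly_norm_le (p : ℕ) (hp : 0 < p) (g : ℕ) (b : ℕ → ℤ)
    (hloc : ∀ z : ℂ, aeval z (wPoly p g b) = 0 → ‖z‖ = √(p : ℝ) ∧ z.im ≠ 0)
    (t : ℂ) (ht : aeval t (hPoly p g b) = 0) (n : ℕ) :
    ‖aeval t (dPoly p n)‖ ≤ 2 * √(p : ℝ) ^ n := by
  have hp0 : ((p : ℤ) : ℂ) ≠ 0 := by
    have : (p : ℂ) ≠ 0 := by exact_mod_cast hp.ne'
    exact_mod_cast this
  obtain ⟨x, hx⟩ := IsAlgClosed.exists_root (X ^ 2 - C t * X + C ((p : ℤ) : ℂ)) (by
    have : (X ^ 2 - C t * X + C ((p : ℤ) : ℂ)).natDegree = 2 := by compute_degree!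
    rw [degree_eq_natDegree (by intro h; rw [h] at this; simp at this), this]
    norm_num)
  have hx' : x ^ 2 - t * x + ((p : ℤ) : ℂ) = 0 := by
    rw [IsRoot.def, eval_add, eval_sub, eval_mul, eval_pow, eval_X, eval_C, eval_C] at hx
    exact hx
  have hx0 : x ≠ 0 := by
    rintro rfl
    apply hp0
    linear_combination hx'
  have htx : x + ((p : ℤ) : ℂ) / x = t := by
    have h1 : ((p : ℤ) : ℂ) = t * x - x ^ 2 := by linear_combination hx'
    rw [h1]
    field_simp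
    ring
  have hw : aeval x (wPoly p g b) = 0 := by
    rw [wPoly_eval p g b x hx0, htx, ht, mul_zero]
  obtain ⟨h1, -⟩ := hloc x hw
  have hs : 0 < √(p : ℝ) := Real.sqrt_pos.mpr (by exact_mod_cast hp)
  have h2 : ‖((p : ℤ) : ℂ) / x‖ = √(p : ℝ) := by
    rw [norm_div, h1, Int.cast_natCast, Complex.norm_natCast, Real.div_sqrt]
  rw [← htx, dPoly_eval (p : ℤ) x hx0]
  calc ‖x ^ n + (((p : ℤ) : ℂ) / x) ^ n‖ ≤ ‖x ^ n‖ + ‖(((p : ℤ) : ℂ) / x) ^ n‖ := norm_add_le _ _
    _ = 2 * √(p : ℝ) ^ n := by rw [norm_pow, norm_pow, h1, h2]; ring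

lemma sum_single (p : ℤ) (g k : ℕ) (a : ℤ) (hk : k < g) :
    ∑ i ∈ range g, C (if i = k then a else 0) * dPoly p (g - i) = C a * dPoly p (g - k) := by
  rw [sum_eq_single k]
  · rw [if_pos rfl]
  · intro i _ hi
    rw [if_neg hi, C_0, zero_mul]
  · intro h
    exact absurd (mem_range.mpr hk) h

/-- The coefficients. -/
def bd (g f κ : ℕ) (c0 c1 : ℤ) (i : ℕ) : ℤ :=
  (if i = 0 then 1 else 0) + (if i = f then 1 else 0) + (if i = g - f then 2 else 0) +
    (if i = g - 1 then 2 ^ κ * c1 else 0) + (if i = g then 2 + 2 ^ κ * c0 else 0)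

section

variable {g f κ : ℕ} {c0 c1 : ℤ}

lemma bd_zero (hf : 3 ≤ f) (hg : 2 * f ≤ g) : bd g f κ c0 c1 0 = 1 := by
  unfold bd
  rw [if_pos rfl, if_neg (by omega), if_neg (by omega), if_neg (by omega), if_neg (by omega)]
  rfl

lemma bd_last (hf : 3 ≤ f) (hg : 2 * f ≤ g) : bd g f κ c0 c1 g = 2 + 2 ^ κ * c0 := by
  unfold bd
  rw [if_neg (by omega), if_neg (by omega), if_neg (by omega), if_neg (by omega), if_pos rfl]
  ring

lemma hPoly_bd (hf : 3 ≤ f) (hg : 2 * f ≤ g) : hPoly 2 g (bd g f κ c0 c1) =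
    dPoly 2 g + dPoly 2 (g - f) + C 2 * dPoly 2 f + C (2 ^ κ * c1) * X +
      C (2 + 2 ^ κ * c0) := by
  unfold hPoly
  rw [bd_last hf hg]
  congr 1
  have h1 : ∀ i ∈ range g, C (bd g f κ c0 c1 i) * dPoly 2 (g - i) =
      C (if i = 0 then 1 else 0) * dPoly 2 (g - i) + C (if i = f then 1 else 0) * dPoly 2 (g - i) +
      C (if i = g - f then 2 else 0) * dPoly 2 (g - i) +
      C (if i = g - 1 then 2 ^ κ * c1 else 0) * dPoly 2 (g - i) := by
    intro i hi
    have := mem_range.mp hi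
    unfold bd
    rw [if_neg (by omega : ¬ i = g), add_zero, C_add, C_add, C_add]
    ring
  rw [sum_congr rfl h1, sum_add_distrib, sum_add_distrib, sum_add_distrib,
    sum_single 2 g 0 1 (by omega), sum_single 2 g f 1 (by omega),
    sum_single 2 g (g - f) 2 (by omega), sum_single 2 g (g - 1) (2 ^ κ * c1) (by omega)]
  have e1 : g - (g - f) = f := by omega
  have e2 : g - (g - 1) = 1 := by omega
  rw [e1, e2, dPoly_one, Nat.sub_zero, C_1, one_mul, one_mul]

lemma abs_ite_le (c : Prop) [Decidable c] (a : ℤ) :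
    |(((if c then a else 0 : ℤ)) : ℝ)| = if c then |(a : ℝ)| else 0 := by
  split_ifs
  · rfl
  · simp

lemma beta_bd (hf : 3 ≤ f) (hg : 2 * f ≤ g) (i : ℕ) (hi : 0 < i) :
    |beta g (bd g f κ c0 c1) i| ≤ (if i = f then 1 else 0) + (if i = g - f then 2 else 0) +
      (if i = g - 1 then 2 ^ κ * |(c1 : ℝ)| else 0) +
      (if i = g then |(2 + 2 ^ κ * c0 : ℝ)| / 2 else 0) := by
  rcases lt_trichotomy i g with h | h | h
  · rw [beta, if_pos h, bd, if_neg (by omega : ¬ i = 0), if_neg (by omega : ¬ i = g), zero_add,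
      add_zero, if_neg (by omega : ¬ i = g), add_zero]
    push_cast
    refine (abs_add_le _ _).trans (add_le_add ((abs_add_le _ _).trans (add_le_add ?_ ?_)) ?_)
    · split_ifs <;> simp
    · split_ifs <;> simp
    · split_ifs
      · rw [abs_mul, abs_of_pos (by positivity : (0 : ℝ) < 2 ^ κ)]
      · simp
  · subst h
    rw [beta, if_neg (lt_irrefl i), if_pos rfl, bd_last hf hg, if_neg (by omega),
      if_neg (by omega), if_neg (by omega), if_pos rfl, abs_div]
    push_cast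
    norm_num
  · rw [beta_eq_zero h, abs_zero]
    have h1 : (0 : ℝ) ≤ (if i = f then 1 else 0) := by split_ifs <;> norm_num
    have h2 : (0 : ℝ) ≤ (if i = g - f then 2 else 0) := by split_ifs <;> norm_num
    have h3 : (0 : ℝ) ≤ (if i = g - 1 then 2 ^ κ * |(c1 : ℝ)| else 0) := by
      split_ifs
      · positivity
      · exact le_rfl
    have h4 : (0 : ℝ) ≤ (if i = g then |(2 + 2 ^ κ * c0 : ℝ)| / 2 else 0) := by
      split_ifs
      · positivity
      · exact le_rfl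
    linarith

/-- The general statement. -/
lemma good_mid_of (hf : 3 ≤ f) (hg : 2 * f ≤ g) (hκ : 2 ≤ κ) (hκf : κ ≤ f) (e : ℕ) (hc1 : c1 ≠ 0)
    (hE : (C (2 ^ (f - κ)) * dPoly 2 (g - 2 * f) - C c0 - C c1 * X : ℤ[X]).map
      (Int.castRingHom (ZMod 2)) = X ^ e)
    (hM : 2 * √((2 : ℕ) : ℝ) ^ f + 1 < 2 ^ κ)
    (hN : ((1 + 2 ^ g) + (1 + 2 ^ (g - f)) + 2 * (1 + 2 ^ f) + 2 + 2 ^ κ * (3 * c1 + c0)) % 9 = 6)
    (hlt : 1 * ((√((2 : ℕ) : ℝ))⁻¹) ^ f + 2 * ((√((2 : ℕ) : ℝ))⁻¹) ^ (g - f) +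
      (2 ^ κ * |(c1 : ℝ)|) * ((√((2 : ℕ) : ℝ))⁻¹) ^ (g - 1) +
      (|(2 + 2 ^ κ * c0 : ℝ)| / 2) * ((√((2 : ℕ) : ℝ))⁻¹) ^ g < 1) : Good 2 g f := by
  have hb := bd_zero (κ := κ) (c0 := c0) (c1 := c1) hf hg
  have hh := hPoly_bd (κ := κ) (c0 := c0) (c1 := c1) hf hg
  obtain ⟨κ', hκ'⟩ : ∃ κ', κ = κ' + 2 := ⟨κ - 2, by omega⟩
  have hloc : ∀ z : ℂ, aeval z (wPoly (2 : ℕ) g (bd g f κ c0 c1)) = 0 →
      ‖z‖ = √((2 : ℕ) : ℝ) ∧ z.im ≠ 0 := by
    intro z hz
    exact loc_sparse 2 le_rfl g (by omega) _ hb f (g - f) (g - 1) g 1 2 (2 ^ κ * |(c1 : ℝ)|)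
      (|(2 + 2 ^ κ * c0 : ℝ)| / 2) (by norm_num) (by norm_num) (by positivity) (by positivity)
      (√((2 : ℕ) : ℝ))⁻¹ rfl (beta_bd hf hg) hlt z hz
  have hirr : Irreducible (hPoly (2 : ℕ) g (bd g f κ c0 c1)) := by
    have hmon := hPoly_monic ((2 : ℕ) : ℤ) g (bd g f κ c0 c1) (by omega) hb
    have hdeg := hPoly_natDegree ((2 : ℕ) : ℤ) g (bd g f κ c0 c1) (by omega) hb
    apply irreducible_of_no_unit_factor 2 Nat.prime_two _ hmon (by omega)
    · rw [coeff_zero_eq_eval_zero, Nat.cast_ofNat, hh]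
      simp only [eval_add, eval_mul, eval_C, eval_X, mul_zero, add_zero]
      intro hd
      obtain ⟨a, ha⟩ := dPoly_eval_zero_sq_dvd 2 g (by omega)
      obtain ⟨a', ha'⟩ := dPoly_eval_zero_sq_dvd 2 (g - f) (by omega)
      obtain ⟨a'', ha''⟩ := dPoly_eval_zero_sq_dvd 2 f (by omega)
      obtain ⟨w, hw⟩ := hd
      rw [ha, ha', ha'', hκ', pow_add] at hw
      generalize (2 : ℤ) ^ κ' * c0 = y at hw
      have h1 : (2 : ℤ) ^ κ' * 2 ^ 2 * c0 = 4 * (2 ^ κ' * c0) := by ring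
      rw [h1] at hw
      omega
    · intro A hA hdA hAh hA0
      refine no_factor 2 Nat.prime_two κ (g - f) e A _ (dPoly 2 f + 1) (dPoly 2 (g - f) + C 2)
        (C (2 ^ (f - κ)) * dPoly 2 (g - 2 * f) - C c0 - C c1 * X) hA hdA hAh hA0 ?_ ?_ hE ?_
      · rw [Nat.cast_ofNat, hh]
        have hmul := dPoly_mul 2 f (g - 2 * f)
        have e1 : f + (g - 2 * f) = g - f := by omega
        have e2 : 2 * f + (g - 2 * f) = g := by omega
        rw [e1, e2] at hmul
        have e3 : (2 : ℤ) ^ f = 2 ^ κ * 2 ^ (f - κ) := by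
          rw [← pow_add]
          congr 1
          omega
        rw [e3, C_mul] at hmul
        have h2 : (C 2 : ℤ[X]) = 2 := rfl
        rw [C_add, C_mul (a := 2 ^ κ) (b := c1), C_mul (a := 2 ^ κ) (b := c0), h2]
        linear_combination -hmul
      · rw [Polynomial.map_add]
        have h1 := dPoly_map 2 (g - f) (by omega)
        rw [Nat.cast_ofNat] at h1
        rw [h1, map_C]
        have h2 : (Int.castRingHom (ZMod 2)) 2 = 0 := by decide
        rw [h2, C_0, add_zero]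
      · intro α hα
        have h1 := dPoly_norm_le 2 (by norm_num) g _ hloc α hα f
        rw [map_add, map_one]
        refine lt_of_le_of_lt (norm_add_le _ _) ?_
        rw [norm_one]
        push_cast at h1 hM ⊢
        linarith
  apply good_of 2 Nat.prime_two g f (by omega) (by omega) (bd g f κ c0 c1) hb hloc hirr
  · refine ⟨1, Or.inr ?_⟩
    rw [wPoly_eval_one, Nat.cast_ofNat, hh]
    simp only [eval_add, eval_mul, eval_C, eval_X]
    have e3 : (2 + 1 : ℤ) = 3 := by norm_num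
    rw [e3, dPoly_eval_three, dPoly_eval_three, dPoly_eval_three]
    have e4 : (1 + 2 ^ g + (1 + 2 ^ (g - f)) + 2 * (1 + 2 ^ f) + 2 ^ κ * c1 * 3 +
        (2 + 2 ^ κ * c0) : ℤ) = (1 + 2 ^ g) + (1 + 2 ^ (g - f)) + 2 * (1 + 2 ^ f) + 2 +
        2 ^ κ * (3 * c1 + c0) := by ring
    rw [e4]
    exact hN
  · intro k hk
    apply exp_middle 2 g (by omega) _ _ _ k hk
    · rw [bd_last hf hg, hκ', pow_add]
      intro h0
      have h1 : (2 : ℤ) ^ κ' * 2 ^ 2 * c0 = 4 * (2 ^ κ' * c0) := by ring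
      rw [h1] at h0
      omega
    · unfold bd
      rw [if_neg (by omega : ¬ g - 1 = 0), if_neg (by omega : ¬ g - 1 = f),
        if_neg (by omega : ¬ g - 1 = g - f), if_pos rfl, if_neg (by omega : ¬ g - 1 = g)]
      rw [zero_add, zero_add, zero_add, add_zero]
      exact mul_ne_zero (pow_ne_zero _ (by norm_num)) hc1
  · rw [Nat.cast_ofNat]
    unfold bd
    rw [if_neg (by omega : ¬ f = 0), if_pos rfl, if_neg (by omega : ¬ f = g - 1),
      if_neg (by omega : ¬ f = g)]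
    split_ifs <;> norm_num
  · intro i hi1 hi2
    rw [Nat.cast_ofNat]
    unfold bd
    rw [if_neg (by omega : ¬ i = 0), if_neg (by omega : ¬ i = f), hκ', pow_add]
    have h1 : (2 : ℤ) ^ κ' * 2 ^ 2 * c1 = 2 * (2 * (2 ^ κ' * c1)) := by ring
    have h2 : 2 + (2 : ℤ) ^ κ' * 2 ^ 2 * c0 = 2 * (1 + 2 * (2 ^ κ' * c0)) := by ring
    rw [h1, h2]
    refine dvd_add (dvd_add (dvd_add (by simp) ?_) ?_) ?_
    · split_ifs <;> simp
    · split_ifs
      · exact dvd_mul_right _ _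
      · exact dvd_zero _
    · split_ifs
      · exact dvd_mul_right _ _
      · exact dvd_zero _

end

end Pool.Agent.MP_e32a7e_nt
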