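import Pool.Agent.Lib.MP_e32a7e_nt.TwoMid

/-!
# The prime two, `p`-rank between three and nine: the choice of the parameters
-/

open Polynomial Finset

namespace Pool.Agent.MP_e32a7e_nt

lemma s2_facts : 0 < √((2 : ℕ) : ℝ) ∧ √((2 : ℕ) : ℝ) ^ 2 = 2 ∧ √((2 : ℕ) : ℝ) ≤ 1.4143 := by
  have h1 : 0 < √((2 : ℕ) : ℝ) := Real.sqrt_pos.mpr (by norm_num)
  have h2 : √((2 : ℕ) : ℝ) ^ 2 = 2 := by
    rw [Real.sq_sqrt (by norm_num)]
    norm_num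
  refine ⟨h1, h2, ?_⟩
  rw [Real.sqrt_le_left (by norm_num)]
  norm_num

lemma size_bound {g f : ℕ} (hg : 18 ≤ g) (hf : 3 ≤ f) (hf9 : f ≤ 9) (K1 K2 : ℝ) (hK1 : 0 ≤ K1)
    (hK2 : 0 ≤ K2) (h : 0.44196 + K1 * 0.0027622 + K2 / 512 < 1) :
    1 * ((√((2 : ℕ) : ℝ))⁻¹) ^ f + 2 * ((√((2 : ℕ) : ℝ))⁻¹) ^ (g - f) +
      K1 * ((√((2 : ℕ) : ℝ))⁻¹) ^ (g - 1) + K2 * ((√((2 : ℕ) : ℝ))⁻¹) ^ g < 1 := by
  obtain ⟨h0, h2, h1⟩ := r2_facts
  set r := (√((2 : ℕ) : ℝ))⁻¹ with hr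
  have hle : r ≤ 1 := by linarith
  have e3 : r ^ 3 = 1 / 2 * r := by
    calc r ^ 3 = r ^ 2 * r := by ring
      _ = 1 / 2 * r := by rw [h2]
  have e9 : r ^ 9 = 1 / 16 * r := by
    calc r ^ 9 = (r ^ 2) ^ 4 * r := by ring
      _ = 1 / 16 * r := by rw [h2]; norm_num
  have e17 : r ^ 17 = 1 / 256 * r := by
    calc r ^ 17 = (r ^ 2) ^ 8 * r := by ring
      _ = 1 / 256 * r := by rw [h2]; norm_num
  have e18 : r ^ 18 = 1 / 512 := by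
    calc r ^ 18 = (r ^ 2) ^ 9 := by ring
      _ = 1 / 512 := by rw [h2]; norm_num
  have a1 : r ^ f ≤ r ^ 3 := pow_le_pow_of_le_one h0.le hle hf
  have a2 : r ^ (g - f) ≤ r ^ 9 := pow_le_pow_of_le_one h0.le hle (by omega)
  have a3 : r ^ (g - 1) ≤ r ^ 17 := pow_le_pow_of_le_one h0.le hle (by omega)
  have a4 : r ^ g ≤ r ^ 18 := pow_le_pow_of_le_one h0.le hle hg
  have b1 : 1 * r ^ f ≤ 0.353555 := by linarith
  have b2 : 2 * r ^ (g - f) ≤ 0.0883888 := by linarith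
  have b3 : K1 * r ^ (g - 1) ≤ K1 * 0.0027622 := by
    apply mul_le_mul_of_nonneg_left _ hK1
    linarith
  have b4 : K2 * r ^ g ≤ K2 * (1 / 512) := by
    apply mul_le_mul_of_nonneg_left _ hK2
    linarith
  linarith

lemma neg_two (P : (ZMod 2)[X]) : -P = P := by
  have h : (2 : ZMod 2) = 0 := by decide
  rw [neg_eq_iff_add_eq_zero, ← two_mul, show (2 : (ZMod 2)[X]) = C 2 from rfl, h, C_0, zero_mul]

lemma emap_lt {k : ℕ} (hk : 1 ≤ k) (D : ℤ[X]) {c0 c1 : ℤ}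
    (h : (c0 % 2 = 0 ∧ c1 = 1) ∨ (c0 % 2 = 1 ∧ c1 = -2)) :
    ∃ e : ℕ, (C (2 ^ k) * D - C c0 - C c1 * X : ℤ[X]).map (Int.castRingHom (ZMod 2)) = X ^ e := by
  have h0 : (Int.castRingHom (ZMod 2)) (2 ^ k) = 0 := by
    rw [crh, ZMod.intCast_zmod_eq_zero_iff_dvd]
    exact dvd_pow_self 2 (by omega)
  rcases h with ⟨h1, h2⟩ | ⟨h1, h2⟩
  · refine ⟨1, ?_⟩
    have h3 : (Int.castRingHom (ZMod 2)) c0 = 0 := by
      rw [crh, ZMod.intCast_zmod_eq_zero_iff_dvd]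
      exact Int.dvd_of_emod_eq_zero h1
    rw [Polynomial.map_sub, Polynomial.map_sub, Polynomial.map_mul, Polynomial.map_mul, map_C,
      map_C, map_C, map_X, h0, h3, h2, map_one]
    simp only [C_0, C_1, zero_mul, one_mul, zero_sub, pow_one, neg_zero]
    exact neg_two X
  · refine ⟨0, ?_⟩
    have h3 : (Int.castRingHom (ZMod 2)) c0 = 1 := by
      obtain ⟨a, ha⟩ : ∃ a, c0 = 2 * a + 1 := ⟨c0 / 2, by omega⟩
      rw [ha, crh]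
      push_cast
      have : (2 : ZMod 2) = 0 := by decide
      rw [this]
      ring
    have h4 : (Int.castRingHom (ZMod 2)) (-2) = 0 := by decide
    rw [Polynomial.map_sub, Polynomial.map_sub, Polynomial.map_mul, Polynomial.map_mul, map_C,
      map_C, map_C, map_X, h0, h3, h2, h4]
    simp only [C_0, C_1, zero_mul, zero_sub, pow_zero, sub_zero]
    exact neg_two 1

lemma emap_eq {n : ℕ} (hn : 1 ≤ n) {c0 : ℤ} (h : c0 % 2 = 0) :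
    (C (2 ^ 0) * dPoly 2 n - C c0 - C 2 * X : ℤ[X]).map (Int.castRingHom (ZMod 2)) = X ^ n := by
  have h3 : (Int.castRingHom (ZMod 2)) c0 = 0 := by
    rw [crh, ZMod.intCast_zmod_eq_zero_iff_dvd]
    exact Int.dvd_of_emod_eq_zero h
  have h4 : (Int.castRingHom (ZMod 2)) 2 = 0 := by decide
  have h5 := dPoly_map 2 n hn
  rw [Nat.cast_ofNat] at h5
  rw [Polynomial.map_sub, Polynomial.map_sub, Polynomial.map_mul, Polynomial.map_mul, map_C,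
    map_C, map_C, map_X, h3, h4, h5]
  simp

lemma choice_four (T : ℤ) : ∃ c0 c1 : ℤ, ((c0 % 2 = 0 ∧ c1 = 1) ∨ (c0 % 2 = 1 ∧ c1 = -2)) ∧
    -4 ≤ c0 ∧ c0 ≤ 4 ∧ (T + 2 ^ 4 * (3 * c1 + c0)) % 9 = 6 := by
  set w := (4 * (6 - T) - 3) % 9 with hw
  have key : ∀ c0 : ℤ, (c0 = w ∨ c0 = w - 9) → -4 ≤ c0 → c0 ≤ 4 →
      ∃ c0 c1 : ℤ, ((c0 % 2 = 0 ∧ c1 = 1) ∨ (c0 % 2 = 1 ∧ c1 = -2)) ∧
    -4 ≤ c0 ∧ c0 ≤ 4 ∧ (T + 2 ^ 4 * (3 * c1 + c0)) % 9 = 6 := by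
    intro c0 h1 h2 h3
    rcases (by omega : c0 % 2 = 0 ∨ c0 % 2 = 1) with h | h
    · refine ⟨c0, 1, Or.inl ⟨h, rfl⟩, h2, h3, ?_⟩
      norm_num
      omega
    · refine ⟨c0, -2, Or.inr ⟨h, rfl⟩, h2, h3, ?_⟩
      norm_num
      omega
  rcases (by omega : w ≤ 4 ∨ 4 < w) with h | h
  · exact key w (Or.inl rfl) (by omega) h
  · exact key (w - 9) (Or.inr rfl) (by omega) (by omega)

lemma choice_five (T : ℤ) : ∃ c0 c1 : ℤ, ((c0 % 2 = 0 ∧ c1 = 1) ∨ (c0 % 2 = 1 ∧ c1 = -2)) ∧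
    -4 ≤ c0 ∧ c0 ≤ 4 ∧ (T + 2 ^ 5 * (3 * c1 + c0)) % 9 = 6 := by
  set w := (2 * (6 - T) - 3) % 9 with hw
  have key : ∀ c0 : ℤ, (c0 = w ∨ c0 = w - 9) → -4 ≤ c0 → c0 ≤ 4 →
      ∃ c0 c1 : ℤ, ((c0 % 2 = 0 ∧ c1 = 1) ∨ (c0 % 2 = 1 ∧ c1 = -2)) ∧
    -4 ≤ c0 ∧ c0 ≤ 4 ∧ (T + 2 ^ 5 * (3 * c1 + c0)) % 9 = 6 := by
    intro c0 h1 h2 h3
    rcases (by omega : c0 % 2 = 0 ∨ c0 % 2 = 1) with h | h
    · refine ⟨c0, 1, Or.inl ⟨h, rfl⟩, h2, h3, ?_⟩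
      norm_num
      omega
    · refine ⟨c0, -2, Or.inr ⟨h, rfl⟩, h2, h3, ?_⟩
      norm_num
      omega
  rcases (by omega : w ≤ 4 ∨ 4 < w) with h | h
  · exact key w (Or.inl rfl) (by omega) h
  · exact key (w - 9) (Or.inr rfl) (by omega) (by omega)

lemma choice_six (T : ℤ) : ∃ c0 c1 : ℤ, ((c0 % 2 = 0 ∧ c1 = 1) ∨ (c0 % 2 = 1 ∧ c1 = -2)) ∧
    -4 ≤ c0 ∧ c0 ≤ 4 ∧ (T + 2 ^ 6 * (3 * c1 + c0)) % 9 = 6 := by
  set w := ((6 - T) - 3) % 9 with hw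
  have key : ∀ c0 : ℤ, (c0 = w ∨ c0 = w - 9) → -4 ≤ c0 → c0 ≤ 4 →
      ∃ c0 c1 : ℤ, ((c0 % 2 = 0 ∧ c1 = 1) ∨ (c0 % 2 = 1 ∧ c1 = -2)) ∧
    -4 ≤ c0 ∧ c0 ≤ 4 ∧ (T + 2 ^ 6 * (3 * c1 + c0)) % 9 = 6 := by
    intro c0 h1 h2 h3
    rcases (by omega : c0 % 2 = 0 ∨ c0 % 2 = 1) with h | h
    · refine ⟨c0, 1, Or.inl ⟨h, rfl⟩, h2, h3, ?_⟩
      norm_num
      omega
    · refine ⟨c0, -2, Or.inr ⟨h, rfl⟩, h2, h3, ?_⟩
      norm_num
      omega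
  rcases (by omega : w ≤ 4 ∨ 4 < w) with h | h
  · exact key w (Or.inl rfl) (by omega) h
  · exact key (w - 9) (Or.inr rfl) (by omega) (by omega)

lemma choice_eq_three (T : ℤ) : ∃ c0 : ℤ, c0 % 2 = 0 ∧ -8 ≤ c0 ∧ c0 ≤ 8 ∧
    (T + 2 ^ 3 * (3 * 2 + c0)) % 9 = 6 := by
  set w := (8 * (6 - T) - 6) % 9 with hw
  rcases (by omega : w % 2 = 0 ∨ w % 2 = 1) with h | h
  · refine ⟨w, h, by omega, by omega, ?_⟩
    norm_num
    omega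
  · refine ⟨w - 9, by omega, by omega, by omega, ?_⟩
    norm_num
    omega

lemma choice_eq_four (T : ℤ) : ∃ c0 : ℤ, c0 % 2 = 0 ∧ -8 ≤ c0 ∧ c0 ≤ 8 ∧
    (T + 2 ^ 4 * (3 * 2 + c0)) % 9 = 6 := by
  set w := (4 * (6 - T) - 6) % 9 with hw
  rcases (by omega : w % 2 = 0 ∨ w % 2 = 1) with h | h
  · refine ⟨w, h, by omega, by omega, ?_⟩
    norm_num
    omega
  · refine ⟨w - 9, by omega, by omega, by omega, ?_⟩
    norm_num
    omega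

lemma abs_bound (κ : ℕ) (c0 : ℤ) (B : ℤ) (h1 : -B ≤ c0) (h2 : c0 ≤ B) :
    |(2 + 2 ^ κ * c0 : ℝ)| / 2 ≤ (2 + 2 ^ κ * B) / 2 := by
  have h3 : |(c0 : ℝ)| ≤ B := by
    rw [abs_le]
    constructor
    · exact_mod_cast h1
    · exact_mod_cast h2
  have h4 : |(2 + 2 ^ κ * c0 : ℝ)| ≤ 2 + 2 ^ κ * B := by
    refine (abs_add_le _ _).trans ?_
    rw [abs_mul, abs_of_pos (by positivity : (0 : ℝ) < 2 ^ κ)]
    norm_num
    exact h3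
  linarith

lemma good_mid_lt {g f κ : ℕ} (hg : 18 ≤ g) (hf : 3 ≤ f) (hf9 : f ≤ 9) (hκ : 2 ≤ κ) (hκ6 : κ ≤ 6)
    (hκf : κ < f) (hM : 2 * √((2 : ℕ) : ℝ) ^ f + 1 < 2 ^ κ)
    (hch : ∀ T : ℤ, ∃ c0 c1 : ℤ, ((c0 % 2 = 0 ∧ c1 = 1) ∨ (c0 % 2 = 1 ∧ c1 = -2)) ∧
      -4 ≤ c0 ∧ c0 ≤ 4 ∧ (T + 2 ^ κ * (3 * c1 + c0)) % 9 = 6) : Good 2 g f := by
  obtain ⟨c0, c1, hc, hl, hu, hN⟩ :=
    hch ((1 + 2 ^ g) + (1 + 2 ^ (g - f)) + 2 * (1 + 2 ^ f) + 2)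
  obtain ⟨e, hE⟩ := emap_lt (by omega : 1 ≤ f - κ) (dPoly 2 (g - 2 * f)) hc
  have hpow : (2 : ℝ) ^ κ ≤ 64 := by
    calc (2 : ℝ) ^ κ ≤ 2 ^ 6 := pow_le_pow_right₀ (by norm_num) hκ6
      _ = 64 := by norm_num
  refine good_mid_of (κ := κ) (c0 := c0) (c1 := c1) hf (by omega) hκ hκf.le e ?_ hE hM hN ?_
  · rcases hc with ⟨-, h⟩ | ⟨-, h⟩ <;> rw [h] <;> norm_num
  · apply size_bound hg hf hf9 _ _ (by positivity) (by positivity)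
    rcases hc with ⟨h1, h2⟩ | ⟨h1, h2⟩
    · have h3 := abs_bound κ c0 4 hl hu
      rw [h2]
      push_cast at h3 ⊢
      rw [abs_one]
      linarith
    · have h3 := abs_bound κ c0 3 (by omega) (by omega)
      rw [h2]
      push_cast at h3 ⊢
      have h4 : |(-2 : ℝ)| = 2 := by norm_num
      rw [h4]
      linarith

lemma good_mid_eq {g f : ℕ} (hg : 18 ≤ g) (hf : 3 ≤ f) (hf4 : f ≤ 4)
    (hM : 2 * √((2 : ℕ) : ℝ) ^ f + 1 < 2 ^ f)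
    (hch : ∀ T : ℤ, ∃ c0 : ℤ, c0 % 2 = 0 ∧ -8 ≤ c0 ∧ c0 ≤ 8 ∧
      (T + 2 ^ f * (3 * 2 + c0)) % 9 = 6) : Good 2 g f := by
  obtain ⟨c0, hc, hl, hu, hN⟩ :=
    hch ((1 + 2 ^ g) + (1 + 2 ^ (g - f)) + 2 * (1 + 2 ^ f) + 2)
  have hE := emap_eq (by omega : 1 ≤ g - 2 * f) hc
  have hpow : (2 : ℝ) ^ f ≤ 16 := by
    calc (2 : ℝ) ^ f ≤ 2 ^ 4 := pow_le_pow_right₀ (by norm_num) hf4
      _ = 16 := by norm_num
  refine good_mid_of (κ := f) (c0 := c0) (c1 := 2) hf (by omega) (by omega) le_rfl (g - 2 * f)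
    (by norm_num) ?_ hM hN ?_
  · rw [Nat.sub_self]
    exact hE
  · apply size_bound hg hf (by omega) _ _ (by positivity) (by positivity)
    have h3 := abs_bound f c0 8 hl hu
    push_cast at h3 ⊢
    have h4 : |(2 : ℝ)| = 2 := by norm_num
    rw [h4]
    linarith

lemma good_two_mid (g f : ℕ) (hg : 18 ≤ g) (hf : 3 ≤ f) (hf9 : f ≤ 9) : Good 2 g f := by
  obtain ⟨h0, h2, h1⟩ := s2_facts
  set s := √((2 : ℕ) : ℝ) with hs
  rcases (by omega : f = 3 ∨ f = 4 ∨ f = 5 ∨ f = 6 ∨ f = 7 ∨ f = 8 ∨ f = 9) with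
    h | h | h | h | h | h | h
  · subst h
    apply good_mid_eq hg hf (by norm_num) _ choice_eq_three
    rw [← hs]
    have : s ^ 3 = 2 * s := by
      calc s ^ 3 = s ^ 2 * s := by ring
        _ = 2 * s := by rw [h2]
    rw [this]
    norm_num
    linarith
  · subst h
    apply good_mid_eq hg hf (by norm_num) _ choice_eq_four
    rw [← hs]
    have : s ^ 4 = 4 := by
      calc s ^ 4 = (s ^ 2) ^ 2 := by ring
        _ = 4 := by rw [h2]; norm_num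
    rw [this]
    norm_num
  · subst h
    apply good_mid_lt (κ := 4) hg hf (by norm_num) (by norm_num) (by norm_num) (by norm_num) _
      choice_four
    rw [← hs]
    have : s ^ 5 = 4 * s := by
      calc s ^ 5 = (s ^ 2) ^ 2 * s := by ring
        _ = 4 * s := by rw [h2]; norm_num
    rw [this]
    norm_num
    linarith
  · subst h
    apply good_mid_lt (κ := 5) hg hf (by norm_num) (by norm_num) (by norm_num) (by norm_num) _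
      choice_five
    rw [← hs]
    have : s ^ 6 = 8 := by
      calc s ^ 6 = (s ^ 2) ^ 3 := by ring
        _ = 8 := by rw [h2]; norm_num
    rw [this]
    norm_num
  · subst h
    apply good_mid_lt (κ := 5) hg hf (by norm_num) (by norm_num) (by norm_num) (by norm_num) _
      choice_five
    rw [← hs]
    have : s ^ 7 = 8 * s := by
      calc s ^ 7 = (s ^ 2) ^ 3 * s := by ring
        _ = 8 * s := by rw [h2]; norm_num
    rw [this]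
    norm_num
    linarith
  · subst h
    apply good_mid_lt (κ := 6) hg hf (by norm_num) (by norm_num) (by norm_num) (by norm_num) _
      choice_six
    rw [← hs]
    have : s ^ 8 = 16 := by
      calc s ^ 8 = (s ^ 2) ^ 4 := by ring
        _ = 16 := by rw [h2]; norm_num
    rw [this]
    norm_num
  · subst h
    apply good_mid_lt (κ := 6) hg hf (by norm_num) (by norm_num) (by norm_num) (by norm_num) _
      choice_six
    rw [← hs]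
    have : s ^ 9 = 16 * s := by
      calc s ^ 9 = (s ^ 2) ^ 4 * s := by ring
        _ = 16 * s := by rw [h2]; norm_num
    rw [this]
    norm_num
    linarith

end Pool.Agent.MP_e32a7e_nt
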