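import Pool.Agent.Lib.MP_e32a7e_nt.TwoMid2

/-!
# The prime two, `p`-rank two
-/

open Polynomial Finset

namespace Pool.Agent.MP_e32a7e_nt

lemma aevalC (y : ℂ) (a : ℤ) : aeval y (C a : ℤ[X]) = (a : ℂ) := by
  rw [aeval_C]
  rfl

/-- The coefficients. -/
def be (g : ℕ) (b : ℤ) (i : ℕ) : ℤ :=
  (if i = 0 then 1 else 0) + (if i = 2 then -1 else 0) + (if i = g - 1 then 4 else 0) +
    (if i = g then 2 * b else 0)

lemma dPoly_neg {R : Type*} [CommRing R] (p : ℤ) (x : R) (n : ℕ) :
    aeval (-x) (dPoly p n) = (-1) ^ n * aeval x (dPoly p n) := by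
  induction n using Nat.strong_induction_on with
  | _ n ih =>
    match n with
    | 0 => rw [dPoly_zero, map_ofNat, map_ofNat]; ring
    | 1 => rw [dPoly_one, aeval_X, aeval_X]; ring
    | (m + 2) =>
      rw [dPoly_add_two, map_sub, map_mul, map_mul, map_sub, map_mul, map_mul,
        ih (m + 1) (by omega), ih m (by omega), aeval_X, aeval_X, aeval_C, aeval_C]
      ring

lemma dPoly_one_mod (n : ℕ) (hn : 2 ≤ n) :
    (dPoly 2 n).eval 1 % 4 = if Even n then 1 else 3 := by
  induction n using Nat.strong_induction_on with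
  | _ n ih =>
    match n with
    | 0 => omega
    | 1 => omega
    | 2 =>
      rw [dPoly_add_two, dPoly_one, dPoly_zero]
      simp
    | 3 =>
      rw [dPoly_add_two, dPoly_add_two, dPoly_one, dPoly_zero]
      have : ¬ Even 3 := by decide
      rw [if_neg this]
      simp
    | (m + 4) =>
      have h1 := ih (m + 3) (by omega) (by omega)
      have h2 := ih (m + 2) (by omega) (by omega)
      rw [dPoly_add_two, eval_sub, eval_mul, eval_mul, eval_X, eval_C, one_mul]
      rw [show m + 2 + 1 = m + 3 from rfl]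
      by_cases h : Even m
      · have e4 : Even (m + 4) := by rw [Nat.even_add]; simp [h]; decide
        have e2 : Even (m + 2) := by rw [Nat.even_add]; simp [h]
        have e3 : ¬ Even (m + 3) := by rw [Nat.even_add]; simp [h]; decide
        rw [if_pos e4]
        rw [if_neg e3] at h1
        rw [if_pos e2] at h2
        omega
      · have e4 : ¬ Even (m + 4) := by rw [Nat.even_add]; simp [h]; decide
        have e2 : ¬ Even (m + 2) := by rw [Nat.even_add]; simp [h]
        have e3 : Even (m + 3) := by rw [Nat.even_add]; simp [h]; decide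
        rw [if_neg e4]
        rw [if_pos e3] at h1
        rw [if_neg e2] at h2
        omega

lemma dPoly_diff_one (g : ℕ) (hg : 4 ≤ g) :
    ((dPoly 2 g).eval 1 - (dPoly 2 (g - 2)).eval 1) % 4 = 0 := by
  have h1 := dPoly_one_mod g (by omega)
  have h2 := dPoly_one_mod (g - 2) (by omega)
  obtain ⟨k, rfl⟩ : ∃ k, g = k + 2 := ⟨g - 2, by omega⟩
  rw [Nat.add_sub_cancel] at h2 ⊢
  have h3 : Even (k + 2) ↔ Even k := by rw [Nat.even_add]; simp
  by_cases h : Even k
  · rw [if_pos (h3.mpr h)] at h1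
    rw [if_pos h] at h2
    omega
  · rw [if_neg (fun h' => h (h3.mp h'))] at h1
    rw [if_neg h] at h2
    omega

lemma dPoly_diff_neg_one (g : ℕ) (hg : 4 ≤ g) :
    ((dPoly 2 g).eval (-1) - (dPoly 2 (g - 2)).eval (-1)) % 4 = 0 := by
  have h1 := dPoly_diff_one g hg
  have h2 : ∀ n, (dPoly 2 n).eval (-1) = (-1) ^ n * (dPoly 2 n).eval 1 := by
    intro n
    have := dPoly_neg (R := ℤ) 2 1 n
    simpa using this
  rw [h2, h2]
  obtain ⟨k, rfl⟩ : ∃ k, g = k + 2 := ⟨g - 2, by omega⟩
  rw [Nat.add_sub_cancel] at h1 ⊢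
  have h3 : ((-1 : ℤ) ^ (k + 2)) = (-1) ^ k := by rw [pow_add]; norm_num
  rw [h3, ← mul_sub]
  obtain ⟨y, hy⟩ : ∃ y, (dPoly 2 (k + 2)).eval 1 - (dPoly 2 k).eval 1 = 4 * y :=
    ⟨((dPoly 2 (k + 2)).eval 1 - (dPoly 2 k).eval 1) / 4, by omega⟩
  rw [hy]
  have : (-1 : ℤ) ^ k * (4 * y) = 4 * ((-1) ^ k * y) := by ring
  rw [this]
  omega

section

variable {g : ℕ} {b : ℤ}

lemma be_zero (hg : 10 ≤ g) : be g b 0 = 1 := by
  unfold be
  rw [if_pos rfl, if_neg (by omega), if_neg (by omega), if_neg (by omega)]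
  rfl

lemma be_last (hg : 10 ≤ g) : be g b g = 2 * b := by
  unfold be
  rw [if_neg (by omega), if_neg (by omega), if_neg (by omega), if_pos rfl]
  ring

lemma hPoly_be (hg : 10 ≤ g) : hPoly 2 g (be g b) =
    dPoly 2 g - dPoly 2 (g - 2) + C 4 * X + C (2 * b) := by
  unfold hPoly
  rw [be_last hg]
  congr 1
  have h1 : ∀ i ∈ range g, C (be g b i) * dPoly 2 (g - i) =
      C (if i = 0 then 1 else 0) * dPoly 2 (g - i) +
      C (if i = 2 then -1 else 0) * dPoly 2 (g - i) +
      C (if i = g - 1 then 4 else 0) * dPoly 2 (g - i) := by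
    intro i hi
    have := mem_range.mp hi
    unfold be
    rw [if_neg (by omega : ¬ i = g), add_zero, C_add, C_add]
    ring
  rw [sum_congr rfl h1, sum_add_distrib, sum_add_distrib,
    sum_single 2 g 0 1 (by omega), sum_single 2 g 2 (-1) (by omega),
    sum_single 2 g (g - 1) 4 (by omega)]
  have e2 : g - (g - 1) = 1 := by omega
  rw [e2, dPoly_one, Nat.sub_zero, C_1, one_mul, C_neg, C_1]
  ring

lemma beta_be (hg : 10 ≤ g) (i : ℕ) (hi : 0 < i) :
    |beta g (be g b) i| ≤ (if i = 2 then 1 else 0) + (if i = g - 1 then 4 else 0) +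
      (if i = g then |(b : ℝ)| else 0) + (if i = 0 then 0 else 0) := by
  rw [if_neg (by omega : ¬ i = 0), add_zero]
  rcases lt_trichotomy i g with h | h | h
  · rw [beta, if_pos h, be, if_neg (by omega : ¬ i = 0), if_neg (by omega : ¬ i = g), zero_add,
      add_zero, if_neg (by omega : ¬ i = g), add_zero]
    push_cast
    refine (abs_add_le _ _).trans (add_le_add ?_ ?_)
    · split_ifs <;> simp
    · split_ifs <;> simp
  · subst h
    rw [beta, if_neg (lt_irrefl i), if_pos rfl, be_last hg, if_neg (by omega),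
      if_neg (by omega), if_pos rfl]
    push_cast
    rw [mul_div_cancel_left₀ _ (by norm_num : (2 : ℝ) ≠ 0)]
    linarith
  · rw [beta_eq_zero h, abs_zero]
    have h1 : (0 : ℝ) ≤ (if i = 2 then 1 else 0) := by split_ifs <;> norm_num
    have h2 : (0 : ℝ) ≤ (if i = g - 1 then 4 else 0) := by split_ifs <;> norm_num
    have h3 : (0 : ℝ) ≤ (if i = g then |(b : ℝ)| else 0) := by
      split_ifs
      · positivity
      · exact le_rfl
    linarith

lemma loc_be (hg : 10 ≤ g) (hb : |(b : ℝ)| ≤ 5) (z : ℂ)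
    (hz : aeval z (wPoly (2 : ℕ) g (be g b)) = 0) : ‖z‖ = √((2 : ℕ) : ℝ) ∧ z.im ≠ 0 := by
  apply loc_sparse 2 le_rfl g (by omega) _ (be_zero hg) 2 (g - 1) g 0 1 4 (|(b : ℝ)|) 0
    (by norm_num) (by norm_num) (by positivity) le_rfl (√((2 : ℕ) : ℝ))⁻¹ rfl (beta_be hg) _ z hz
  obtain ⟨h0, h2, h1⟩ := r2_facts
  set r := (√((2 : ℕ) : ℝ))⁻¹ with hr
  have hle : r ≤ 1 := by linarith
  have e9 : r ^ 9 = 1 / 16 * r := by
    calc r ^ 9 = (r ^ 2) ^ 4 * r := by ring
      _ = 1 / 16 * r := by rw [h2]; norm_num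
  have e10 : r ^ 10 = 1 / 32 := by
    calc r ^ 10 = (r ^ 2) ^ 5 := by ring
      _ = 1 / 32 := by rw [h2]; norm_num
  have a3 : r ^ (g - 1) ≤ r ^ 9 := pow_le_pow_of_le_one h0.le hle (by omega)
  have a4 : r ^ g ≤ r ^ 10 := pow_le_pow_of_le_one h0.le hle hg
  have b4 : |(b : ℝ)| * r ^ g ≤ 5 * (1 / 32) := by
    rw [← e10]
    gcongr
  rw [h2]
  linarith

lemma not_root_one (hg : 10 ≤ g) (hb : b % 2 = 1) :
    (hPoly 2 g (be g b)).eval 1 ≠ 0 ∧ (hPoly 2 g (be g b)).eval (-1) ≠ 0 := by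
  have h1 := dPoly_diff_one g (by omega)
  have h2 := dPoly_diff_neg_one g (by omega)
  rw [hPoly_be hg]
  simp only [eval_add, eval_sub, eval_mul, eval_C, eval_X]
  constructor
  · intro h
    omega
  · intro h
    omega

lemma exists_b (hg : 10 ≤ g) : ∃ b : ℤ, (b = 1 ∨ b = -3 ∨ b = 5) ∧
    ¬ (X ^ 2 + C 2 * X + C (-1) : ℤ[X]) ∣ hPoly 2 g (be g b) ∧
    ¬ (X ^ 2 + C (-2) * X + C (-1) : ℤ[X]) ∣ hPoly 2 g (be g b) := by
  have key : ∀ (a : ℤ) (b b' : ℤ), b ≠ b' →
      (X ^ 2 + C a * X + C (-1) : ℤ[X]) ∣ hPoly 2 g (be g b) →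
      (X ^ 2 + C a * X + C (-1) : ℤ[X]) ∣ hPoly 2 g (be g b') → False := by
    intro a b b' hbb h1 h2
    rw [hPoly_be hg] at h1 h2
    have h3 := dvd_sub h1 h2
    have h4 : dPoly 2 g - dPoly 2 (g - 2) + C 4 * X + C (2 * b) -
        (dPoly 2 g - dPoly 2 (g - 2) + C 4 * X + C (2 * b')) = C (2 * (b - b')) := by
      rw [mul_sub, C_sub]
      ring
    rw [h4] at h3
    have h5 : C (2 * (b - b')) ≠ 0 := by
      rw [Ne, C_eq_zero]
      intro h6
      apply hbb
      omega
    have h6 := natDegree_le_of_dvd h3 h5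
    rw [natDegree_C] at h6
    have h7 : (X ^ 2 + C a * X + C (-1) : ℤ[X]).natDegree = 2 := by compute_degree!
    omega
  by_contra hcon
  push Not at hcon
  have c1 := hcon 1 (by norm_num)
  have c2 := hcon (-3) (by norm_num)
  have c3 := hcon 5 (by norm_num)
  by_cases d1 : (X ^ 2 + C 2 * X + C (-1) : ℤ[X]) ∣ hPoly 2 g (be g 1)
  · have e2 : (X ^ 2 + C (-2) * X + C (-1) : ℤ[X]) ∣ hPoly 2 g (be g (-3)) :=
      c2 fun h => key 2 1 (-3) (by norm_num) d1 h
    have e3 : (X ^ 2 + C (-2) * X + C (-1) : ℤ[X]) ∣ hPoly 2 g (be g 5) :=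
      c3 fun h => key 2 1 5 (by norm_num) d1 h
    exact key (-2) (-3) 5 (by norm_num) e2 e3
  · have f1 := c1 d1
    by_cases d2 : (X ^ 2 + C 2 * X + C (-1) : ℤ[X]) ∣ hPoly 2 g (be g (-3))
    · by_cases d3 : (X ^ 2 + C 2 * X + C (-1) : ℤ[X]) ∣ hPoly 2 g (be g 5)
      · exact key 2 (-3) 5 (by norm_num) d2 d3
      · exact key (-2) 1 5 (by norm_num) f1 (c3 d3)
    · exact key (-2) 1 (-3) (by norm_num) f1 (c2 d2)

/-- Quadratic factors with odd constant term. -/
lemma quad_factor (hg : 10 ≤ g) (hb : b % 2 = 1) (hb5 : |(b : ℝ)| ≤ 5) (a c : ℤ)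
    (ha : a % 2 = 0) (hc : c % 2 = 1)
    (hdvd : (X ^ 2 + C a * X + C c : ℤ[X]) ∣ hPoly 2 g (be g b)) :
    (a = 2 ∧ c = -1) ∨ (a = -2 ∧ c = -1) := by
  have hloc : ∀ z : ℂ, aeval z (wPoly (2 : ℕ) g (be g b)) = 0 →
      ‖z‖ = √((2 : ℕ) : ℝ) ∧ z.im ≠ 0 := fun z hz => loc_be hg hb5 z hz
  obtain ⟨x, hx⟩ := IsAlgClosed.exists_root (X ^ 2 + C (a : ℂ) * X + C (c : ℂ)) (by
    have : (X ^ 2 + C (a : ℂ) * X + C (c : ℂ)).natDegree = 2 := by compute_degree!
    rw [degree_eq_natDegree (by intro h; rw [h] at this; simp at this), this]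
    norm_num)
  have hx' : x ^ 2 + a * x + c = 0 := by
    rw [IsRoot.def, eval_add, eval_add, eval_mul, eval_pow, eval_X, eval_C, eval_C] at hx
    exact hx
  obtain ⟨B, hB⟩ := hdvd
  have hroot : ∀ y : ℂ, y ^ 2 + a * y + c = 0 → aeval y (hPoly (2 : ℕ) g (be g b)) = 0 := by
    intro y hy
    rw [Nat.cast_ofNat, hB, map_mul]
    have : aeval y (X ^ 2 + C a * X + C c : ℤ[X]) = 0 := by
      simp only [map_add, map_mul, map_pow, aeval_X, aevalC]
      exact hy
    rw [this, zero_mul]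
  have hy' : (-a - x) ^ 2 + a * (-a - x) + c = 0 := by linear_combination hx'
  obtain ⟨u, hu, hu2⟩ := hroot_real 2 (by norm_num) g _ hloc x (hroot x hx')
  obtain ⟨v, hv, hv2⟩ := hroot_real 2 (by norm_num) g _ hloc (-a - x) (hroot _ hy')
  have ha' : (a : ℝ) = -(u + v) := by
    have h1 : ((a : ℝ) : ℂ) = ((-(u + v) : ℝ) : ℂ) := by
      push_cast
      rw [← hu, ← hv]
      ring
    exact_mod_cast h1
  have hc' : (c : ℝ) = u * v := by
    have h1 : ((c : ℝ) : ℂ) = ((u * v : ℝ) : ℂ) := by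
      push_cast
      rw [← hu, ← hv]
      linear_combination hx'
    exact_mod_cast h1
  push_cast at hu2 hv2
  have i1 : a ^ 2 < 32 := by
    have : (a : ℝ) ^ 2 < 32 := by
      rw [ha']
      nlinarith [sq_nonneg (u - v)]
    exact_mod_cast this
  have i2 : 4 * c ≤ a ^ 2 := by
    have : 4 * (c : ℝ) ≤ (a : ℝ) ^ 2 := by
      rw [ha', hc']
      nlinarith [sq_nonneg (u - v)]
    exact_mod_cast this
  have i3 : 8 * a ^ 2 < (8 + c) ^ 2 := by
    have : 8 * (a : ℝ) ^ 2 < (8 + c) ^ 2 := by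
      rw [ha', hc']
      have h1 : 0 < (8 - u ^ 2) * (8 - v ^ 2) := mul_pos (by linarith) (by linarith)
      nlinarith
    exact_mod_cast this
  have i4 : c ^ 2 < 64 := by
    have : (c : ℝ) ^ 2 < 64 := by
      rw [hc', mul_pow]
      nlinarith [sq_nonneg u, sq_nonneg v, mul_pos (by linarith : (0 : ℝ) < 8 - u ^ 2)
        (by linarith : (0 : ℝ) < 8 - v ^ 2)]
    exact_mod_cast this
  have a1 : -6 < a := by nlinarith
  have a2 : a < 6 := by nlinarith
  have a3 : -8 < c := by nlinarith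
  have a4 : c < 8 := by nlinarith
  have hroots := not_root_one (b := b) hg hb
  have hval : ∀ t : ℤ, aeval (t : ℂ) (hPoly (2 : ℕ) g (be g b)) = 0 →
      (hPoly 2 g (be g b)).eval t = 0 := by
    intro t ht
    rw [Nat.cast_ofNat] at ht
    have := aeval_algebraMap_apply ℂ (t : ℤ) (hPoly 2 g (be g b))
    simp only [algebraMap_int_eq, eq_intCast] at this
    rw [ht] at this
    have h2 : aeval (t : ℤ) (hPoly 2 g (be g b)) = (hPoly 2 g (be g b)).eval t := by
      simp
    rw [h2] at this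
    exact_mod_cast this.symm
  by_cases h0 : a = 0
  · exfalso
    subst h0
    have h1 := hroot x hx'
    have h2 := hroot (-((0 : ℤ) : ℂ) - x) hy'
    rw [Nat.cast_ofNat, hPoly_be hg] at h1 h2
    have e0 : (-((0 : ℤ) : ℂ) - x) = -x := by push_cast; ring
    rw [e0] at h2
    simp only [map_add, map_sub, map_mul, aeval_X, aevalC, dPoly_neg] at h1 h2
    obtain ⟨k, rfl⟩ : ∃ k, g = k + 2 := ⟨g - 2, by omega⟩
    rw [Nat.add_sub_cancel] at h1 h2
    have e3 : ((-1 : ℂ) ^ (k + 2)) = (-1) ^ k := by rw [pow_add]; norm_num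
    rw [e3] at h2
    rcases Nat.even_or_odd k with hk | hk
    · rw [hk.neg_one_pow] at h2
      have h3 : x = 0 := by
        have : (8 : ℂ) * x = 0 := by
          push_cast at h1 h2
          linear_combination h1 - h2
        simpa using this
      rw [h3] at hx'
      have h4 : (c : ℂ) = 0 := by linear_combination hx'
      have h5 : c = 0 := by exact_mod_cast h4
      omega
    · rw [hk.neg_one_pow] at h2
      have h3 : (b : ℂ) = 0 := by
        have : (4 : ℂ) * b = 0 := by
          push_cast at h1 h2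
          linear_combination h1 + h2
        simpa using this
      have h5 : b = 0 := by exact_mod_cast h3
      omega
  · by_cases hc1 : c = 1
    · exfalso
      subst hc1
      have h22 : a = 2 ∨ a = -2 := by
        interval_cases a <;> omega
      rcases h22 with h | h
      · subst h
        apply hroots.2
        apply hval
        have h1 : (x + 1) ^ 2 = 0 := by push_cast at hx'; linear_combination hx'
        have h2 : x = -1 := by
          have := eq_zero_of_pow_eq_zero h1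
          linear_combination this
        have := hroot x hx'
        rw [h2] at this
        push_cast at this ⊢
        exact this
      · subst h
        apply hroots.1
        apply hval
        have h1 : (x - 1) ^ 2 = 0 := by push_cast at hx'; linear_combination hx'
        have h2 : x = 1 := by
          have := eq_zero_of_pow_eq_zero h1
          linear_combination this
        have := hroot x hx'
        rw [h2] at this
        push_cast at this ⊢
        exact this
    · interval_cases a <;> first | omega | (interval_cases c <;> omega)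

end

end Pool.Agent.MP_e32a7e_nt
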