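import Pool.Agent.Lib.MP_e32a7e_nt.TwoTwo

/-!
# The prime two, `p`-rank two: conclusion
-/

open Polynomial Finset

namespace Pool.Agent.MP_e32a7e_nt

lemma map_be {g : ℕ} {b : ℤ} (hg : 10 ≤ g) :
    (hPoly 2 g (be g b)).map (Int.castRingHom (ZMod 2)) = X ^ (g - 2) * (X ^ 2 + 1) := by
  have h1 := dPoly_map 2 g (by omega)
  have h2 := dPoly_map 2 (g - 2) (by omega)
  rw [Nat.cast_ofNat] at h1 h2
  have h3 : (Int.castRingHom (ZMod 2)) 4 = 0 := by decide
  have h4 : (Int.castRingHom (ZMod 2)) (2 * b) = 0 := by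
    rw [crh, ZMod.intCast_zmod_eq_zero_iff_dvd]
    exact dvd_mul_right _ _
  rw [hPoly_be hg, Polynomial.map_add, Polynomial.map_add, Polynomial.map_sub, Polynomial.map_mul,
    map_C, map_C, map_X, h1, h2, h3, h4, C_0, zero_mul, add_zero, add_zero, sub_eq_add_neg,
    neg_two, mul_add, mul_one, ← pow_add]
  congr 2
  omega

theorem good_two_rank_two (g : ℕ) (hg : 10 ≤ g) : Good 2 g 2 := by
  obtain ⟨b, hb, hb1, hb2⟩ := exists_b hg
  have hbo : b % 2 = 1 := by rcases hb with h | h | h <;> rw [h] <;> norm_num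
  have hb4 : b % 4 = 1 := by rcases hb with h | h | h <;> rw [h] <;> norm_num
  have hb5 : |(b : ℝ)| ≤ 5 := by rcases hb with h | h | h <;> rw [h] <;> norm_num
  have hloc : ∀ z : ℂ, aeval z (wPoly (2 : ℕ) g (be g b)) = 0 →
      ‖z‖ = √((2 : ℕ) : ℝ) ∧ z.im ≠ 0 := fun z hz => loc_be hg hb5 z hz
  have hb0 := be_zero (b := b) hg
  have : Fact (Nat.Prime 2) := ⟨Nat.prime_two⟩
  have hroots := not_root_one (b := b) hg hbo
  have hirr : Irreducible (hPoly (2 : ℕ) g (be g b)) := by
    have hmon := hPoly_monic ((2 : ℕ) : ℤ) g (be g b) (by omega) hb0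
    have hdeg := hPoly_natDegree ((2 : ℕ) : ℤ) g (be g b) (by omega) hb0
    apply irreducible_of_no_unit_factor 2 Nat.prime_two _ hmon (by omega)
    · rw [coeff_zero_eq_eval_zero, Nat.cast_ofNat, hPoly_be hg]
      simp only [eval_add, eval_sub, eval_mul, eval_C, eval_X, mul_zero, add_zero]
      intro hd
      obtain ⟨a, ha⟩ := dPoly_eval_zero_sq_dvd 2 g (by omega)
      obtain ⟨a', ha'⟩ := dPoly_eval_zero_sq_dvd 2 (g - 2) (by omega)
      obtain ⟨w, hw⟩ := hd
      rw [ha, ha'] at hw
      omega
    · intro A hA hdA hAh hA0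
      obtain ⟨B, hB⟩ := hAh
      have hmap := map_be (b := b) hg
      have hunit := factor_unit_part 2 A B (hPoly (2 : ℕ) g (be g b)) hB.symm (g - 2) (X ^ 2 + 1)
        (by rw [Nat.cast_ofNat]; exact hmap) hA0
      have hU : (X ^ 2 + 1 : (ZMod 2)[X]).Monic := by monicity!
      have hUd : (X ^ 2 + 1 : (ZMod 2)[X]).natDegree = 2 := by compute_degree!
      have hle : A.natDegree ≤ 2 := by
        have h1 := natDegree_le_of_dvd hunit hU.ne_zero
        rwa [hA.natDegree_map, hUd] at h1
      have hc0 : A.coeff 0 % 2 = 1 := by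
        rw [Nat.cast_ofNat] at hA0
        omega
      rcases (by omega : A.natDegree = 1 ∨ A.natDegree = 2) with h | h
      · have hAe : A = X + C (A.coeff 0) := hA.eq_X_add_C h
        have hr : (hPoly (2 : ℕ) g (be g b)).eval (-A.coeff 0) = 0 := by
          rw [hB, eval_mul]
          have : A.eval (-A.coeff 0) = 0 := by
            conv_lhs => rw [hAe]
            simp
          rw [this, zero_mul]
        have hbd := int_root_bound 2 (by norm_num) g _ hloc _ hr
        have h8 : (-A.coeff 0) ^ 2 < 8 := by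
          push_cast at hbd
          linarith
        have l1 : -3 < A.coeff 0 := by nlinarith
        have l2 : A.coeff 0 < 3 := by nlinarith
        rw [Nat.cast_ofNat] at hr
        rcases (by omega : A.coeff 0 = 1 ∨ A.coeff 0 = -1) with h' | h'
        · rw [h'] at hr
          exact hroots.2 hr
        · rw [h'] at hr
          exact hroots.1 hr
      · have hAm : A.map (Int.castRingHom (ZMod 2)) = X ^ 2 + 1 := by
          refine (eq_of_monic_of_dvd_of_natDegree_le (hA.map _) hU hunit ?_).symm
          rw [hUd, hA.natDegree_map, h]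
        have hAe : A = X ^ 2 + C (A.coeff 1) * X + C (A.coeff 0) := by
          have := hA.as_sum
          rw [h] at this
          conv_lhs => rw [this]
          rw [sum_range_succ, sum_range_succ, sum_range_zero]
          ring
        have h1 : (A.coeff 1) % 2 = 0 := by
          have h2 := congrArg (fun P => coeff P 1) hAm
          simp only [coeff_map, crh, coeff_add, coeff_X_pow] at h2
          rw [if_neg (by norm_num), zero_add, coeff_one, if_neg (by norm_num)] at h2
          have := (ZMod.intCast_zmod_eq_zero_iff_dvd _ _).mp h2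
          rw [Nat.cast_ofNat] at this
          omega
        have hAd : (X ^ 2 + C (A.coeff 1) * X + C (A.coeff 0) : ℤ[X]) ∣ hPoly 2 g (be g b) := by
          rw [← hAe]
          rw [Nat.cast_ofNat] at hB
          exact ⟨B, hB⟩
        rcases quad_factor hg hbo hb5 _ _ h1 hc0 hAd with ⟨h2, h3⟩ | ⟨h2, h3⟩
        · rw [h2, h3] at hAd
          exact hb1 hAd
        · rw [h2, h3] at hAd
          exact hb2 hAd
  apply good_of 2 Nat.prime_two g 2 (by omega) (by omega) (be g b) hb0 hloc hirr
  · refine ⟨1, Or.inl ?_⟩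
    rw [wPoly_eval_one, Nat.cast_ofNat, hPoly_be hg]
    simp only [eval_add, eval_sub, eval_mul, eval_C, eval_X]
    have e3 : (2 + 1 : ℤ) = 3 := by norm_num
    rw [e3, dPoly_eval_three, dPoly_eval_three]
    obtain ⟨k, rfl⟩ : ∃ k, g = k + 5 := ⟨g - 5, by omega⟩
    have e4 : k + 5 - 2 = k + 3 := by omega
    rw [e4, pow_add, pow_add]
    generalize (2 : ℤ) ^ k = y
    norm_num
    omega
  · intro k hk
    apply exp_middle 2 g (by omega) _ _ _ k hk
    · rw [be_last hg]
      omega
    · unfold be
      rw [if_neg (by omega : ¬ g - 1 = 0), if_neg (by omega : ¬ g - 1 = 2), if_pos rfl,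
        if_neg (by omega : ¬ g - 1 = g)]
      norm_num
  · rw [Nat.cast_ofNat]
    unfold be
    rw [if_neg (by omega : ¬ 2 = 0), if_pos rfl, if_neg (by omega : ¬ 2 = g - 1),
      if_neg (by omega : ¬ 2 = g)]
    norm_num
  · intro i hi1 hi2
    rw [Nat.cast_ofNat]
    unfold be
    rw [if_neg (by omega : ¬ i = 0), if_neg (by omega : ¬ i = 2)]
    refine dvd_add (dvd_add (by simp) ?_) ?_
    · split_ifs
      · norm_num
      · exact dvd_zero _
    · split_ifs
      · exact dvd_mul_right _ _
      · exact dvd_zero _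

end Pool.Agent.MP_e32a7e_nt
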