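import Pool.Agent.Lib.MP_e32a7e_nt.Residue

/-!
# Roots of unity in a number field with an integer of norm `6 mod 8` or `6 mod 9`
-/

open Polynomial Finset NumberField

namespace Pool.Agent.MP_e32a7e_nt

lemma exists_ring_hom (K : Type*) [Field K] [NumberField K] (α : K) (hα : IsIntegral ℤ α) (N : ℤ)
    (hN : Algebra.norm ℚ α = N) (q : ℕ) (hq : q.Prime) (h1 : (q : ℤ) ∣ N)
    (h2 : ¬ (q ^ 2 : ℤ) ∣ N) : Nonempty (𝓞 K →+* ZMod q) := by
  set a : 𝓞 K := ⟨α, hα⟩ with ha
  have hn : Algebra.norm ℤ a = N := by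
    have h3 : (Algebra.norm ℤ a : ℚ) = Algebra.norm ℚ (a : K) := Algebra.coe_norm_int a
    have h4 : (a : K) = α := rfl
    rw [h4, hN] at h3
    exact_mod_cast h3
  apply exists_hom_zmod K a q hq
  · rw [hn]; exact h1
  · rw [hn]; exact h2

/-- An element of odd prime order maps to an element of the residue field; if that is `1` then
the residue characteristic is the order. -/
lemma order_eq_of_hom (K : Type*) [Field K] [NumberField K] (q : ℕ) (φ : 𝓞 K →+* ZMod q)
    (ζ : 𝓞 K) (l : ℕ) (h1 : ζ ^ l = 1) (h2 : ζ ≠ 1) (hφ : φ ζ = 1) : (l : ZMod q) = 0 := by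
  have h3 : ∑ j ∈ range l, ζ ^ j = 0 := by
    have h4 := mul_geom_sum ζ l
    rw [h1, sub_self] at h4
    exact (mul_eq_zero.mp h4).resolve_left (sub_ne_zero.mpr h2)
  have h5 := congrArg φ h3
  rw [map_sum, map_zero] at h5
  simpa [hφ] using h5

lemma exists_of_order (K : Type*) [Field K] (ξ : K) (m : ℕ) (hm : 1 ≤ m) (hξ : ξ ^ m = 1)
    (hne : ¬ (ξ = 1 ∨ ξ = -1)) :
    (∃ θ : K, θ ^ 2 = -1) ∨ ∃ l : ℕ, l.Prime ∧ Odd l ∧ ∃ ζ : K, ζ ^ l = 1 ∧ ζ ≠ 1 := by
  have hfin : IsOfFinOrder ξ := isOfFinOrder_iff_pow_eq_one.mpr ⟨m, by omega, hξ⟩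
  have hpos : 0 < orderOf ξ := hfin.orderOf_pos
  have hgt : 2 < orderOf ξ := by
    by_contra hle
    apply hne
    have h3 : orderOf ξ ∣ 2 := by
      interval_cases orderOf ξ
      · exact one_dvd 2
      · exact dvd_rfl
    have h4 : ξ ^ 2 = 1 := orderOf_dvd_iff_pow_eq_one.mp h3
    have h5 : (ξ - 1) * (ξ + 1) = 0 := by linear_combination h4
    rcases mul_eq_zero.mp h5 with h | h
    · left; linear_combination h
    · right; linear_combination h
  rcases Nat.four_dvd_or_exists_odd_prime_and_dvd_of_two_lt hgt with ⟨k, hk⟩ | ⟨l, hl, hld, hlo⟩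
  · left
    refine ⟨ξ ^ k, ?_⟩
    have h4 : (ξ ^ (2 * k)) ^ 2 = 1 := by
      rw [← pow_mul, show 2 * k * 2 = orderOf ξ by omega, pow_orderOf_eq_one]
    have h5 : ξ ^ (2 * k) ≠ 1 := by
      apply pow_ne_one_of_lt_orderOf
      · omega
      · omega
    have h6 : (ξ ^ (2 * k) - 1) * (ξ ^ (2 * k) + 1) = 0 := by linear_combination h4
    rcases mul_eq_zero.mp h6 with h | h
    · exact absurd (sub_eq_zero.mp h) h5
    · rw [← pow_mul, mul_comm k 2]
      linear_combination h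
  · right
    obtain ⟨k, hk⟩ := hld
    refine ⟨l, hl, hlo, ξ ^ k, ?_, ?_⟩
    · rw [← pow_mul, mul_comm k l, ← hk, pow_orderOf_eq_one]
    · have hk0 : k ≠ 0 := by
        rintro rfl
        omega
      apply pow_ne_one_of_lt_orderOf hk0
      have := hl.two_le
      have : 0 < k := Nat.pos_of_ne_zero hk0
      nlinarith

/-- **Roots of unity.** -/
theorem roots_of_unity (K : Type*) [Field K] [NumberField K] (α : K) (hα : IsIntegral ℤ α) (N : ℤ)
    (hN : Algebra.norm ℚ α = N) (h : N % 8 = 6 ∨ N % 9 = 6) (ξ : K) (m : ℕ) (hm : 1 ≤ m)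
    (hξ : ξ ^ m = 1) : ξ = 1 ∨ ξ = -1 := by
  by_contra hne
  have hint : ∀ (ζ : K) (l : ℕ), 0 < l → ζ ^ l = 1 → IsIntegral ℤ ζ := by
    intro ζ l hl hζ
    refine ⟨X ^ l - 1, monic_X_pow_sub_C 1 hl.ne', ?_⟩
    simp [hζ]
  rcases h with h8 | h9
  · -- residue field with two elements
    obtain ⟨φ⟩ := exists_ring_hom K α hα N hN 2 Nat.prime_two (by omega) (by norm_num; omega)
    rcases exists_of_order K ξ m hm hξ hne with ⟨θ, hθ⟩ | ⟨l, hl, hlo, ζ, hζ1, hζ2⟩
    · exact no_sqrt_neg_one K α hα N hN h8 θ hθ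
    · set ζ' : 𝓞 K := ⟨ζ, hint ζ l hl.pos hζ1⟩ with hζ'
      have e1 : ζ' ^ l = 1 := by
        apply RingOfIntegers.ext
        exact hζ1
      have e2 : ζ' ≠ 1 := by
        intro h0
        apply hζ2
        exact congrArg (fun x : 𝓞 K => (x : K)) h0
      have e3 : φ ζ' = 1 := by
        have e4 : φ ζ' ^ l = 1 := by rw [← map_pow, e1, map_one]
        have e5 : ∀ x : ZMod 2, x ≠ 0 → x = 1 := by decide
        apply e5
        intro h0
        rw [h0, zero_pow hl.ne_zero] at e4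
        exact absurd e4 (by decide)
      have e6 := order_eq_of_hom K 2 φ ζ' l e1 e2 e3
      have e7 : 2 ∣ l := (ZMod.natCast_eq_zero_iff l 2).mp e6
      obtain ⟨k, hk⟩ := hlo
      omega
  · obtain ⟨φ⟩ := exists_ring_hom K α hα N hN 3 Nat.prime_three (by omega) (by norm_num; omega)
    rcases exists_of_order K ξ m hm hξ hne with ⟨θ, hθ⟩ | ⟨l, hl, hlo, ζ, hζ1, hζ2⟩
    · have h4 : θ ^ 4 = 1 := by
        calc θ ^ 4 = (θ ^ 2) ^ 2 := by ring
          _ = 1 := by rw [hθ]; ring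
      set θ' : 𝓞 K := ⟨θ, hint θ 4 (by norm_num) h4⟩ with hθ'
      have e1 : θ' ^ 2 = -1 := by
        apply RingOfIntegers.ext
        exact hθ
      have e2 : φ θ' ^ 2 = -1 := by rw [← map_pow, e1, map_neg, map_one]
      have e3 : ∀ x : ZMod 3, x ^ 2 ≠ -1 := by decide
      exact e3 _ e2
    · set ζ' : 𝓞 K := ⟨ζ, hint ζ l hl.pos hζ1⟩ with hζ'
      have e1 : ζ' ^ l = 1 := by
        apply RingOfIntegers.ext
        exact hζ1
      have e2 : ζ' ≠ 1 := by
        intro h0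
        apply hζ2
        exact congrArg (fun x : 𝓞 K => (x : K)) h0
      have e3 : φ ζ' = 1 := by
        have e4 : φ ζ' ^ l = 1 := by rw [← map_pow, e1, map_one]
        have e5 : ∀ x : ZMod 3, x = 0 ∨ x = 1 ∨ x = -1 := by decide
        rcases e5 (φ ζ') with h0 | h0 | h0
        · rw [h0, zero_pow hl.ne_zero] at e4
          exact absurd e4 (by decide)
        · exact h0
        · rw [h0, hlo.neg_one_pow] at e4
          exact absurd e4 (by decide)
      have e6 := order_eq_of_hom K 3 φ ζ' l e1 e2 e3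
      have e7 : 3 ∣ l := (ZMod.natCast_eq_zero_iff l 3).mp e6
      have e8 : l = 3 := ((Nat.prime_dvd_prime_iff_eq Nat.prime_three hl).mp e7).symm
      subst e8
      apply no_cube_root K α hα N hN h9 ζ
      have e9 : (ζ - 1) * (ζ ^ 2 + ζ + 1) = 0 := by linear_combination hζ1
      exact (mul_eq_zero.mp e9).resolve_left (sub_ne_zero.mpr hζ2)

end Pool.Agent.MP_e32a7e_nt
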